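import Mathlib
import Pool.Agent.H71.DX.Defs

/-!
Definitions for the Havet-Yu theorem for robust expanders.
-/

set_option autoImplicit false

namespace Pool.Agent.H71.DR

open Finset Classical
open Pool.Agent.H71.DN Pool.Agent.H71.DX

/-- Two uncovered vertices can be covered by an alternating path with edges from `F`. -/
def Con {V : Type} [Fintype V] (F : SimpleGraph V) (ζ β N : ℕ) : Prop :=
  ∀ π : V → V, Inv π → ∀ Bl : Finset V, Bl.card ≤ β →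
    (univ.filter fun v => π v = v ∧ v ∉ Bl).card ≤ ζ →
    ∀ w1 w2 : V, w1 ≠ w2 → π w1 = w1 → π w2 = w2 →
    ∃ π' : V → V, Inv π' ∧ (∀ v, π v ≠ v → π' v ≠ v) ∧ π' w1 ≠ w1 ∧ π' w2 ≠ w2 ∧
      (∀ v, π' v = π v ∨ F.Adj v (π' v)) ∧ (∀ v ∈ Bl, v ≠ w1 → v ≠ w2 → π' v = π v) ∧
      (univ.filter fun v => π' v ≠ π v).card ≤ N

/-- If there are many uncovered vertices then each one of them can be covered. -/
def Lrp {V : Type} [Fintype V] (F : SimpleGraph V) (ζ β N : ℕ) : Prop :=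
  ∀ π : V → V, Inv π → ∀ Bl : Finset V, Bl.card ≤ β → ∀ w : V, π w = w →
    ζ ≤ (univ.filter fun v => π v = v ∧ v ∉ Bl ∧ v ≠ w).card →
    ∃ π' : V → V, Inv π' ∧ (∀ v, π v ≠ v → π' v ≠ v) ∧ π' w ≠ w ∧
      (∀ v, π' v = π v ∨ F.Adj v (π' v)) ∧ (∀ v ∈ Bl, v ≠ w → π' v = π v) ∧
      (univ.filter fun v => π' v ≠ π v).card ≤ N

/-- Expansion in many small steps. -/
structure Exk {V : Type} [Fintype V] (F : SimpleGraph V) (D m k : ℕ) (b : ℕ → ℕ) (q ζ : ℕ) :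
    Prop where
  d1 : ∀ v, D ≤ dg F v
  p0 : ∀ A Y : Finset V, m ≤ A.card → ee F A Y ≤ (4 * k + 12) * Fintype.card V →
    Y.card + b 0 ≤ Fintype.card V
  ps : ∀ i < k, ∀ A Y : Finset V, b i ≤ A.card + q →
    ee F A Y ≤ (4 * k + 12) * Fintype.card V → Y.card + b (i + 1) ≤ Fintype.card V
  pz : ∀ A Y : Finset V, b k ≤ A.card + q → ζ ≤ Y.card → Fintype.card V < ee F A Y

/-- Edge form of robust expansion. -/
def XP {V : Type} [Fintype V] (G : SimpleGraph V) (τ ν lam : ℝ) : Prop :=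
  ∀ A Y : Finset V, τ * Fintype.card V ≤ (A.card : ℝ) →
    (A.card : ℝ) ≤ (1 - τ) * Fintype.card V →
    (ee G A Y : ℝ) ≤ lam * (Fintype.card V : ℝ) ^ 2 →
    (A.card : ℝ) + Y.card + ν * Fintype.card V ≤ Fintype.card V

/-- Minimum degree and expansion, as needed for the reserve. -/
structure Xc {V : Type} [Fintype V] (G : SimpleGraph V) (α ν lam : ℝ) : Prop where
  deg : ∀ v, α * Fintype.card V ≤ (dg G v : ℝ)
  gro : ∀ A Y : Finset V, α / 4 * Fintype.card V ≤ (A.card : ℝ) →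
    (A.card : ℝ) ≤ (1 - α / 8) * Fintype.card V →
    (ee G A Y : ℝ) ≤ lam * (Fintype.card V : ℝ) ^ 2 →
    (A.card : ℝ) + Y.card + ν * Fintype.card V ≤ Fintype.card V

/-- `X` samples the sets `{a : at most i of the b j are adjacent to a}` with density `x`. -/
def Smpl {V : Type} [Fintype V] (G : SimpleGraph V) (X : Finset V) (x η : ℝ) (K : ℕ) : Prop :=
  ∀ (b : Fin K → V) (i : ℕ),
    |((X.filter fun a => (univ.filter fun j => G.Adj (b j) a).card ≤ i).card : ℝ) -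
      x * ((univ.filter fun a => (univ.filter fun j => G.Adj (b j) a).card ≤ i).card : ℝ)| ≤
      η * Fintype.card V

/-- The numerical parameters of one graph, as `DX.Par2` with the property `Con`. -/
structure Par3 {V : Type} [Fintype V] (G R H : SimpleGraph V) (Z : Finset V)
    (K1 K2 ζ0 e0 e1 f0 f1 u s t1 t2 ζ β S1 c1 S2 c2 dS cap N : ℕ)
    (ν1 ν2 : ℕ → V → V) : Prop where
  hR : R ≤ gz G Z
  hH : H ≤ gz G Z
  hRH : ∀ a b, R.Adj a b → ¬ H.Adj a b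
  hν1 : NF (G \ (R ⊔ H)) K1 ζ0 e0 e1 ν1
  hν2 : NF H K2 ζ0 f0 f1 ν2
  ht1 : Fintype.card V * s ^ t1 < t1.factorial
  ht2 : Fintype.card V * (s + dS) ^ t2 < t2.factorial
  hS1 : 0 < S1
  hS2 : 0 < S2
  hβ1 : u + c1 ≤ β
  hβ2 : u + cap + c2 ≤ β
  hζ : ζ0 + u + cap ≤ ζ
  hT1 : N * (Fintype.card V * (e0 + t1)) ≤ S1 * c1
  hT2 : N * (Fintype.card V * (f0 + t2)) ≤ S2 * c2
  hdS : e1 + s + t1 + (S1 + (e0 + t1)) ≤ dS
  hcap : 2 ≤ cap
  hK2 : 2 * s + 2 * dS + Fintype.card V * dS / (cap - 1) < K2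
  ex : ∀ F : SimpleGraph V, F ≤ R →
    (∀ v, dg R v ≤ dg F v + ((S1 + (e0 + t1)) + (S2 + (f0 + t2)))) →
    (∀ A B, ee R A B ≤ ee F A B + (N * (Fintype.card V * (e0 + t1)) +
      N * (Fintype.card V * (f0 + t2)))) → Con F ζ β N

/-- The parameters for graphs with large deficiency. -/
structure Par4 {V : Type} [Fintype V] (G R : SimpleGraph V)
    (K s t ζ β β2 S0 E N : ℕ) : Prop where
  le : R ≤ G
  hS0 : 0 < S0
  hK : ∀ v, dg (G \ R) v + 1 ≤ K
  ht : Fintype.card V * s ^ t < t.factorial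
  ex : ∀ F : SimpleGraph V, F ≤ R → (∀ v, dg R v ≤ dg F v + (S0 + E)) →
    (∀ A B, ee R A B ≤ ee F A B + N * (Fintype.card V * E)) →
    Con F ζ β N ∧ Lrp F ζ β N
  hT : N * (Fintype.card V * E) ≤ S0 * β2

end Pool.Agent.H71.DR
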