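import Mathlib
import Pool.Agent.H71.DR.Defs
import Pool.Agent.H71.DN.Alt

/-!
CHK: alternating paths through many small expansion steps. A generalisation of `H71/DX/Cn3.lean` (which is
proved; its private lemmas `DxCn3_path` etc. about lists `w - x1 = π x1 - x2 = ... - w2` can be copied).

Notation: `n = #V`, `T = 4 k + 12`, `Bp = Bl ∪ π(Bl) ∪ {v : π v = v, v ∉ Bl}`; a vertex is good if it is not in `Bp`
(then it is covered, and `v, π v ∉ Bl`); the good vertices are `π`-invariant.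
Levels: `C 0 = π ({x good : F.Adj w x})`, `C (i + 1) = π ({u good : T < #{b ∈ C i : F.Adj b u}})`.
(*) Let `X` be a `π`-invariant set with `#X + 2 i ≤ T`, `v ∈ C i`, `v ∉ X`. Then there is a list `[x_0, ..., x_i]` of
 good vertices outside `X` with `F.Adj w x_0`, `F.Adj (π x_j) x_{j+1}`, `π x_i = v`, and `x_j ∉ {x_l, π x_l}` for
 `j ≠ l`. Induction on `i`: `v ∈ C (i + 1)`: `u = π v` is good, not in `X`, and has more than `T` neighbours
 `b ∈ C i`; choose `b ∉ X ∪ {u, v}` and use (*) for `b` and `X ∪ {u, v}`; append `u`.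

`conk`: `#Bp ≤ 2 β + ζ`. `#(C 0) ≥ D - 2 β - ζ ≥ m`. For `Y = {u : #{b ∈ C i : F.Adj b u} ≤ T}`, `ee F (C i) Y ≤ T n`,
so by `p0` resp. `ps` `#Y + b i ≤ n`, i.e. at least `b i` vertices have more than `T` neighbours in `C i`, and
`#(C (i + 1)) ≥ b i - (2 β + ζ) ≥ b i - q`, `i ≤ k`. Do this for `w1` (levels `C1`) and `w2` (levels `C2`).
`b k ≤ #(C1 (k+1)) + q`, and `#(C2 (k+1)) ≥ b k - q ≥ ζ`, so by `pz` there are more than `n` pairs `(v1, v2)`,
`v1 ∈ C1 (k+1)`, `v2 ∈ C2 (k+1)`, `F.Adj v1 v2`; at most `n` of them have `v2 = π v1`; take one with `v2 ≠ π v1`.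
(*) for `v1`, `X = {v2, π v2}` gives a list `l1` (length `k + 2`); (*) for `v2` and `X =` all the vertices of `l1` and
their partners (`2 (k + 2) + 2 (k + 1) ≤ T`) gives `l2`. The path is `w1, l1 ++ (l2.map π).reverse, w2`; at most
`2 + 4 (k + 2) = 4 k + 10` vertices change; the changed ones other than `w1, w2` are good, so not in `Bl`.

`lrgk`: here good means `v, π v ∉ Bl`, `π v ≠ v`. Let `U' = {v : π v = v, v ∉ Bl, v ≠ w}`, `ζ ≤ #U'`. If a vertex `z` of
`U'` is adjacent to `w`, or has more than `T` neighbours in some `C i` (`i ≤ k`), join `w - ... - z`. Otherwise the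
vertices that are not good and may occur are in `Bl ∪ π(Bl) ∪ {w}`, so `#(C 0) ≥ D - 2 β ≥ m` and
`#(C (i + 1)) ≥ b i - 2 β - 1 ≥ b i - q`. In the end `pz` for `C (k+1)` and `U'` gives an edge `v z` with
`v ∈ C (k+1)`, `z ∈ U'`; the path `w, l, z`.
-/

set_option autoImplicit false

namespace Pool.Agent.H71.DR

open Finset Classical
open Pool.Agent.H71.DN Pool.Agent.H71.DX

/-- `w - x1 = π x1 - x2 = π x2 - ... - w2`. -/
private def DrChk_Ch {V : Type} (F : SimpleGraph V) (π : V → V) (w2 : V) : V → List V → Prop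
  | w, [] => F.Adj w w2
  | w, x :: L => F.Adj w x ∧ DrChk_Ch F π w2 (π x) L

private theorem DrChk_congr {V : Type} (F : SimpleGraph V) (π π1 : V → V) (w2 : V) :
    ∀ (L : List V) (w : V), (∀ x ∈ L, π1 x = π x) → DrChk_Ch F π w2 w L → DrChk_Ch F π1 w2 w L := by
  intro L
  induction L with
  | nil => intro w _ h; exact h
  | cons x L ih =>
    intro w h1 h2
    refine ⟨h2.1, ?_⟩
    rw [h1 x List.mem_cons_self]
    exact ih _ (fun y hy => h1 y (List.mem_cons_of_mem _ hy)) h2.2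

private theorem DrChk_path {V : Type} (F : SimpleGraph V) (w2 : V) :
    ∀ (L : List V) (π : V → V) (w : V), Inv π → π w = w → π w2 = w2 → w ≠ w2 →
      (∀ x ∈ L, π x ≠ x) → L.Pairwise (fun x y => y ≠ x ∧ y ≠ π x) → DrChk_Ch F π w2 w L →
      ∃ π' : V → V, Inv π' ∧
        (∀ v, (v = w ∨ v = w2 ∨ v ∈ L ∨ π v ∈ L) → F.Adj v (π' v)) ∧
        (∀ v, v ≠ w → v ≠ w2 → v ∉ L → π v ∉ L → π' v = π v) := by
  intro L
  induction L with
  | nil =>
    intro π w hπ hw hw2 hne _ _ hch
    obtain ⟨π', i, h1, h2, h3⟩ := join π hπ w w2 hne hw hw2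
    refine ⟨π', i, ?_, fun v h4 h5 _ _ => h3 v h4 h5⟩
    rintro v (rfl | rfl | h | h)
    · rw [h1]; exact hch
    · rw [h2]; exact (show F.Adj w v from hch).symm
    · exact absurd h List.not_mem_nil
    · exact absurd h List.not_mem_nil
  | cons x L ih =>
    intro π w hπ hw hw2 hne hfx hpw hch
    have hx : π x ≠ x := hfx x List.mem_cons_self
    have hwxa : F.Adj w x := hch.1
    obtain ⟨π1, i1, r1w, r1x, r1a, r1o⟩ := rot π hπ w x hw hx
    rw [List.pairwise_cons] at hpw
    have hfL : ∀ y ∈ L, π y ≠ y := fun y hy => hfx y (List.mem_cons_of_mem _ hy)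
    have hwL : w ∉ L := fun h => hfL w h hw
    have hxL : x ∉ L := fun h => (hpw.1 x h).1 rfl
    have hpxL : π x ∉ L := fun h => (hpw.1 _ h).2 rfl
    have hwx : w ≠ x := fun h => hx (by rw [← h]; exact hw)
    have hwpx : w ≠ π x := fun h => hwx (by rw [← hw, h, hπ x] )
    have hw2x : w2 ≠ x := fun h => hx (by rw [← h]; exact hw2)
    have hw2px : w2 ≠ π x := fun h => hw2x (by rw [← hw2, h, hπ x])
    have q1 : ∀ y ∈ L, π1 y = π y := by
      intro y hy
      refine r1o y ?_ ?_ ?_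
      · rintro rfl; exact hwL hy
      · rintro rfl; exact hxL hy
      · rintro rfl; exact hpxL hy
    have q2 : π1 w2 = w2 := by rw [r1o w2 hne.symm hw2x hw2px, hw2]
    have q3 : L.Pairwise (fun x y => y ≠ x ∧ y ≠ π1 x) := by
      refine List.Pairwise.imp_of_mem ?_ hpw.2
      intro a b ha _ h
      rw [q1 a ha]
      exact h
    obtain ⟨π', i, hA, hB⟩ := ih π1 (π x) i1 r1a q2 hw2px.symm
      (fun y hy => by rw [q1 y hy]; exact hfL y hy) q3 (DrChk_congr F π π1 w2 L _ q1 hch.2)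
    refine ⟨π', i, ?_, ?_⟩
    · rintro v (rfl | rfl | h | h)
      · have h4 : π' v = π1 v := hB v hwpx hne hwL (by rw [r1w]; exact hxL)
        rw [h4, r1w]
        exact hch.1
      · exact hA v (Or.inr (Or.inl rfl))
      · rcases List.mem_cons.1 h with rfl | h
        · have h4 : π' v = π1 v := hB v hx.symm hw2x.symm hxL (by rw [r1x]; exact hwL)
          rw [h4, r1x]
          exact hwxa.symm
        · exact hA v (Or.inr (Or.inr (Or.inl h)))
      · rcases List.mem_cons.1 h with h5 | h5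
        · refine hA v (Or.inl ?_)
          rw [← h5, hπ v]
        · refine hA v (Or.inr (Or.inr (Or.inr ?_)))
          rw [r1o v]
          · exact h5
          · intro h6; rw [h6, hw] at h5; exact hwL h5
          · intro h6; rw [h6] at h5; exact hpxL h5
          · intro h6; rw [h6, hπ x] at h5; exact hxL h5
    · intro v h1 h2 h3 h4
      rw [List.mem_cons, not_or] at h3 h4
      have h5 : v ≠ π x := by
        rintro rfl
        exact h4.1 (hπ x)
      have h6 : π1 v = π v := r1o v h1 h3.1 h5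
      rw [hB v h5 h2 h3.2 (by rw [h6]; exact h4.2), h6]

/-- Chains with an open end: `w - x1 = π x1 - ... = π x_l`. -/
private def DrChk_Cn {V : Type} (F : SimpleGraph V) (π : V → V) (v : V) : V → List V → Prop
  | w, [] => w = v
  | w, x :: L => F.Adj w x ∧ DrChk_Cn F π v (π x) L

private theorem DrChk_snoc {V : Type} (F : SimpleGraph V) (π : V → V) (b u : V)
    (hbu : F.Adj b u) : ∀ (L : List V) (w : V), DrChk_Cn F π b w L →
      DrChk_Cn F π (π u) w (L ++ [u]) := by
  intro L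
  induction L with
  | nil =>
    intro w h
    have h1 : w = b := h
    refine ⟨?_, rfl⟩
    rw [h1]
    exact hbu
  | cons x L ih =>
    intro w h
    exact ⟨h.1, ih _ h.2⟩

private theorem DrChk_app {V : Type} (F : SimpleGraph V) (π : V → V) (v w2 : V) (L2 : List V)
    (h2 : DrChk_Ch F π w2 v L2) : ∀ (L : List V) (w : V), DrChk_Cn F π v w L →
      DrChk_Ch F π w2 w (L ++ L2) := by
  intro L
  induction L with
  | nil =>
    intro w h
    have h1 : w = v := h
    rw [h1]
    exact h2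
  | cons x L ih =>
    intro w h
    exact ⟨h.1, ih _ h.2⟩

private theorem DrChk_end {V : Type} (F : SimpleGraph V) (π : V → V) (v w2 : V)
    (h2 : F.Adj v w2) (L : List V) (w : V) (h : DrChk_Cn F π v w L) :
    DrChk_Ch F π w2 w L := by
  have h3 := DrChk_app F π v w2 [] h2 L w h
  rw [List.append_nil] at h3
  exact h3

private theorem DrChk_csn {V : Type} (F : SimpleGraph V) (π : V → V) (z w2 : V)
    (hz : F.Adj (π z) w2) : ∀ (M : List V) (u : V), DrChk_Ch F π z u M →
      DrChk_Ch F π w2 u (M ++ [z]) := by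
  intro M
  induction M with
  | nil =>
    intro u h
    exact ⟨h, hz⟩
  | cons x M ih =>
    intro u h
    exact ⟨h.1, ih _ h.2⟩

private theorem DrChk_rev {V : Type} (F : SimpleGraph V) (π : V → V) (hπ : Inv π) (v u : V)
    (huv : F.Adj u v) : ∀ (L : List V) (w2 : V), DrChk_Cn F π v w2 L →
      DrChk_Ch F π w2 u (L.map π).reverse := by
  intro L
  induction L with
  | nil =>
    intro w2 h
    have h1 : w2 = v := h
    rw [h1]
    exact huv
  | cons y L ih =>
    intro w2 h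
    have h1 := ih _ h.2
    rw [List.map_cons, List.reverse_cons]
    refine DrChk_csn F π (π y) w2 ?_ _ _ h1
    rw [hπ y]
    exact h.1.symm

/-- The levels. -/
private noncomputable def DrChk_C {V : Type} [Fintype V] (F : SimpleGraph V) (π : V → V)
    (G : Finset V) (T : ℕ) (w : V) : ℕ → Finset V
  | 0 => G.filter fun v => F.Adj w (π v)
  | i + 1 => G.filter fun v =>
      T < ((DrChk_C F π G T w i).filter fun b => F.Adj b (π v)).card

private theorem DrChk_CG {V : Type} [Fintype V] (F : SimpleGraph V) (π : V → V)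
    (G : Finset V) (T : ℕ) (w : V) (i : ℕ) (v : V) (h : v ∈ DrChk_C F π G T w i) : v ∈ G := by
  cases i with
  | zero => exact (mem_filter.1 h).1
  | succ i => exact (mem_filter.1 h).1

/-- The lists that end in a vertex of a level. -/
private theorem DrChk_star {V : Type} [Fintype V] (F : SimpleGraph V) (π : V → V) (hπ : Inv π)
    (G : Finset V) (hG : ∀ v ∈ G, π v ∈ G) (T : ℕ) (w : V) :
    ∀ (i : ℕ) (X : Finset V), (∀ v ∈ X, π v ∈ X) → X.card + 2 * i ≤ T →
      ∀ v ∈ DrChk_C F π G T w i, v ∉ X →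
      ∃ L : List V, L.length = i + 1 ∧ (∀ x ∈ L, x ∈ G ∧ x ∉ X) ∧
        L.Pairwise (fun x y => y ≠ x ∧ y ≠ π x) ∧ DrChk_Cn F π v w L := by
  intro i
  induction i with
  | zero =>
    intro X hX _ v hv hvX
    have h1 := mem_filter.1 hv
    refine ⟨[π v], rfl, ?_, List.pairwise_singleton _ _, h1.2, hπ v⟩
    intro x hx
    rw [List.mem_singleton] at hx
    rw [hx]
    refine ⟨hG v h1.1, fun h => hvX ?_⟩
    have := hX _ h
    rw [hπ v] at this
    exact this
  | succ i ih =>
    intro X hX hc v hv hvX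
    have h1 := mem_filter.1 hv
    have hvG : v ∈ G := h1.1
    have hcard := h1.2
    have hX3 : (insert (π v) (insert v X)).card ≤ X.card + 2 := by
      have := card_insert_le (π v) (insert v X)
      have := card_insert_le v X
      omega
    obtain ⟨b, hb, hbX⟩ : ∃ b ∈ (DrChk_C F π G T w i).filter (fun b => F.Adj b (π v)),
        b ∉ insert (π v) (insert v X) := by
      apply exists_mem_notMem_of_card_lt_card
      omega
    rw [mem_filter] at hb
    have hX' : ∀ u ∈ insert (π v) (insert v X), π u ∈ insert (π v) (insert v X) := by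
      intro u hu
      rw [mem_insert, mem_insert] at hu ⊢
      rcases hu with rfl | rfl | h
      · exact Or.inr (Or.inl (hπ v))
      · exact Or.inl rfl
      · exact Or.inr (Or.inr (hX u h))
    obtain ⟨L, hl, hL, hp, hch⟩ := ih (insert (π v) (insert v X)) hX' (by omega) b hb.1 hbX
    have hpvX : π v ∉ X := by
      intro h
      have := hX _ h
      rw [hπ v] at this
      exact hvX this
    refine ⟨L ++ [π v], ?_, ?_, ?_, ?_⟩
    · rw [List.length_append, hl]
      rfl
    · intro x hx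
      rw [List.mem_append, List.mem_singleton] at hx
      rcases hx with hx | rfl
      · obtain ⟨h3, h4⟩ := hL x hx
        rw [mem_insert, mem_insert, not_or, not_or] at h4
        exact ⟨h3, h4.2.2⟩
      · exact ⟨hG v hvG, hpvX⟩
    · rw [List.pairwise_append]
      refine ⟨hp, List.pairwise_singleton _ _, ?_⟩
      intro x hx y hy
      rw [List.mem_singleton] at hy
      subst hy
      obtain ⟨h3, h4⟩ := hL x hx
      rw [mem_insert, mem_insert, not_or, not_or] at h4
      refine ⟨fun h => h4.1 h.symm, fun h => h4.2.1 ?_⟩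
      rw [← hπ x, ← h, hπ v]
    · have h5 := DrChk_snoc F π b (π v) hb.2 L w hch
      rw [hπ v] at h5
      exact h5

private theorem DrChk_img {V : Type} [Fintype V] (π : V → V) (hπ : Inv π) (G : Finset V)
    (hG : ∀ v ∈ G, π v ∈ G) (p : V → Prop) [DecidablePred p] [DecidablePred fun v => p (π v)] :
    (G.filter fun v => p v).card ≤ (G.filter fun v => p (π v)).card := by
  have hinj : Function.Injective π := fun a b h => by rw [← hπ a, h, hπ b]
  rw [← card_image_of_injective (G.filter fun v => p v) hinj]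
  refine card_le_card ?_
  intro x hx
  rw [mem_image] at hx
  obtain ⟨y, hy, rfl⟩ := hx
  rw [mem_filter] at hy ⊢
  rw [hπ y]
  exact ⟨hG y hy.1, hy.2⟩

/-- The sizes of the levels. -/
private theorem DrChk_lev {V : Type} [Fintype V] (F : SimpleGraph V) (D m k : ℕ) (b : ℕ → ℕ)
    (q ζ : ℕ) (hF : Exk F D m k b q ζ) (π : V → V) (hπ : Inv π)
    (G : Finset V) (hG : ∀ v ∈ G, π v ∈ G) (w : V) (B0 Bx : Finset V) (hB1 : m + B0.card ≤ D)
    (hB2 : Bx.card ≤ q) (h0 : ∀ x, F.Adj w x → x ∉ G → x ∈ B0)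
    (hs : ∀ i ≤ k, ∀ x, 4 * k + 12 <
      ((DrChk_C F π G (4 * k + 12) w i).filter fun a => F.Adj a x).card → x ∉ G → x ∈ Bx) :
    ∀ i ≤ k, b i ≤ (DrChk_C F π G (4 * k + 12) w (i + 1)).card + Bx.card := by
  have hbase : m ≤ (DrChk_C F π G (4 * k + 12) w 0).card := by
    have h1 := hF.d1 w
    unfold dg at h1
    have h2 : (univ.filter fun u => F.Adj w u) ⊆ (G.filter fun v => F.Adj w v) ∪ B0 := by
      intro x hx
      rw [mem_filter] at hx
      rw [mem_union, mem_filter]
      by_cases h : x ∈ G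
      · exact Or.inl ⟨h, hx.2⟩
      · exact Or.inr (h0 x hx.2 h)
    have h3 := (card_le_card h2).trans (card_union_le _ _)
    have h4 := DrChk_img π hπ G hG (fun v => F.Adj w v)
    have h5 : (DrChk_C F π G (4 * k + 12) w 0) = G.filter fun v => F.Adj w (π v) := rfl
    rw [h5]
    omega
  have hstep : ∀ i ≤ k, ∀ c : ℕ,
      (∀ Y : Finset V, ee F (DrChk_C F π G (4 * k + 12) w i) Y ≤
        (4 * k + 12) * Fintype.card V → Y.card + c ≤ Fintype.card V) →
      c ≤ (DrChk_C F π G (4 * k + 12) w (i + 1)).card + Bx.card := by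
    intro i hi c hc
    obtain ⟨A, hA⟩ : ∃ A : Finset V, A = DrChk_C F π G (4 * k + 12) w i := ⟨_, rfl⟩
    have hA1 : DrChk_C F π G (4 * k + 12) w (i + 1) =
        G.filter fun v => 4 * k + 12 < (A.filter fun a => F.Adj a (π v)).card := by
      rw [hA]
      rfl
    have hs' := hs i hi
    rw [← hA] at hc hs'
    obtain ⟨NA, hNA⟩ : ∃ NA : Finset V,
      NA = univ.filter (fun y => 4 * k + 12 < (A.filter fun a => F.Adj a y).card) := ⟨_, rfl⟩
    have h1 := hc (univ \ NA) (by
      have h5 : ee F A (univ \ NA) = ∑ y ∈ univ \ NA, (A.filter fun a => F.Adj a y).card := by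
        unfold ee
        rw [card_filter, sum_product_right]
        refine sum_congr rfl fun y _ => ?_
        rw [card_filter]
      rw [h5]
      have h6 : ∑ y ∈ univ \ NA, (A.filter fun a => F.Adj a y).card ≤
          ∑ y ∈ univ \ NA, (4 * k + 12) := by
        refine sum_le_sum fun y hy => ?_
        rw [mem_sdiff, hNA, mem_filter] at hy
        by_contra hcon
        exact hy.2 ⟨mem_univ _, by omega⟩
      have h7 : (univ \ NA).card ≤ Fintype.card V := card_le_univ _
      rw [sum_const, smul_eq_mul] at h6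
      refine h6.trans ?_
      rw [mul_comm]
      exact Nat.mul_le_mul_left _ h7)
    have h2 : (univ \ NA).card = Fintype.card V - NA.card := by
      rw [card_univ_sdiff]
    have h3 : NA.card ≤ Fintype.card V := card_le_univ _
    have h4 : NA ⊆ (G.filter fun v => 4 * k + 12 < (A.filter fun a => F.Adj a v).card) ∪ Bx := by
      intro x hx
      rw [hNA, mem_filter] at hx
      rw [mem_union, mem_filter]
      by_cases h : x ∈ G
      · exact Or.inl ⟨h, hx.2⟩
      · exact Or.inr (hs' x hx.2 h)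
    have h5 := (card_le_card h4).trans (card_union_le _ _)
    have h6 := DrChk_img π hπ G hG (fun v => 4 * k + 12 < (A.filter fun a => F.Adj a v).card)
    rw [hA1]
    omega
  intro i
  induction i with
  | zero =>
    intro hi
    exact hstep 0 hi (b 0) (fun Y hY => hF.p0 _ Y hbase hY)
  | succ i ih =>
    intro hi
    have h1 := ih (by omega)
    exact hstep (i + 1) hi (b (i + 1)) (fun Y hY => hF.ps i (by omega) _ Y (by omega) hY)

/-- The final step. -/
private theorem DrChk_fin {V : Type} [Fintype V] (F : SimpleGraph V) (π : V → V) (hπ : Inv π)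
    (Bl : Finset V) (w1 w2 : V) (hw : w1 ≠ w2) (hw1 : π w1 = w1) (hw2 : π w2 = w2)
    (L : List V) (hf : ∀ x ∈ L, π x ≠ x) (hb : ∀ x ∈ L, x ∉ Bl ∧ π x ∉ Bl)
    (hp : L.Pairwise (fun x y => y ≠ x ∧ y ≠ π x)) (hch : DrChk_Ch F π w2 w1 L) :
    ∃ π' : V → V, Inv π' ∧ (∀ v, π v ≠ v → π' v ≠ v) ∧ π' w1 ≠ w1 ∧ π' w2 ≠ w2 ∧
      (∀ v, π' v = π v ∨ F.Adj v (π' v)) ∧ (∀ v ∈ Bl, v ≠ w1 → v ≠ w2 → π' v = π v) ∧
      (univ.filter fun v => π' v ≠ π v).card ≤ 2 + 2 * L.length := by
  obtain ⟨π', i, hon, hoff⟩ := DrChk_path F w2 L π w1 hπ hw1 hw2 hw hf hp hch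
  refine ⟨π', i, ?_, ?_, ?_, ?_, ?_, ?_⟩
  · intro v hv
    by_cases hvl : v = w1 ∨ v = w2 ∨ v ∈ L ∨ π v ∈ L
    · exact (F.ne_of_adj (hon v hvl)).symm
    · simp only [not_or] at hvl
      rw [hoff v hvl.1 hvl.2.1 hvl.2.2.1 hvl.2.2.2]
      exact hv
  · exact (F.ne_of_adj (hon w1 (Or.inl rfl))).symm
  · exact (F.ne_of_adj (hon w2 (Or.inr (Or.inl rfl)))).symm
  · intro v
    by_cases hvl : v = w1 ∨ v = w2 ∨ v ∈ L ∨ π v ∈ L
    · exact Or.inr (hon v hvl)
    · simp only [not_or] at hvl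
      exact Or.inl (hoff v hvl.1 hvl.2.1 hvl.2.2.1 hvl.2.2.2)
  · intro v hv h3 h4
    refine hoff v h3 h4 (fun h => (hb v h).1 hv) (fun h => ?_)
    have h5 := (hb _ h).2
    rw [hπ v] at h5
    exact h5 hv
  · have h3 : (univ.filter fun v => π' v ≠ π v) ⊆
        ([w1, w2] ++ (L ++ L.map π) : List V).toFinset := by
      intro v hv
      rw [mem_filter] at hv
      rw [List.mem_toFinset]
      by_contra h
      apply hv.2
      rw [List.mem_append, List.mem_append, not_or, not_or] at h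
      obtain ⟨ha, hb', hc⟩ := h
      simp only [List.mem_cons, List.not_mem_nil, not_or, or_false] at ha
      refine hoff v ha.1 ha.2 hb' (fun h4 => hc ?_)
      rw [List.mem_map]
      exact ⟨π v, h4, hπ v⟩
    refine (card_le_card h3).trans ((List.toFinset_card_le _).trans (le_of_eq ?_))
    rw [List.length_append, List.length_append, List.length_map]
    have : ([w1, w2] : List V).length = 2 := rfl
    omega

theorem conk {V : Type} [Fintype V] (F : SimpleGraph V) (D m k : ℕ) (b : ℕ → ℕ) (q ζ β : ℕ)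
    (hF : Exk F D m k b q ζ) (h1 : ζ + 2 * β + m ≤ D) (h2 : ζ + 2 * β + 1 ≤ q)
    (h3 : ζ + q ≤ b k) : Con F ζ β (4 * k + 10) := by
  intro π hπ Bl hBl hZ w1 w2 hw hw1 hw2
  -- the bad vertices
  obtain ⟨Bp, hBp⟩ : ∃ Bp : Finset V, Bp = (Bl ∪ Bl.image π) ∪
      univ.filter (fun v => π v = v ∧ v ∉ Bl) := ⟨_, rfl⟩
  have hBpc : Bp.card ≤ 2 * β + ζ := by
    rw [hBp]
    have h3 := card_union_le (Bl ∪ Bl.image π) (univ.filter (fun v => π v = v ∧ v ∉ Bl))
    have h4 := card_union_le Bl (Bl.image π)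
    have h5 : (Bl.image π).card ≤ Bl.card := card_image_le
    omega
  have hBpi : ∀ v, v ∈ Bp → π v ∈ Bp := by
    intro v hv
    rw [hBp] at hv ⊢
    simp only [mem_union, mem_image, mem_filter, mem_univ, true_and] at hv ⊢
    rcases hv with (h | ⟨u, h, rfl⟩) | ⟨h, h'⟩
    · exact Or.inl (Or.inr ⟨v, h, rfl⟩)
    · rw [hπ u]
      exact Or.inl (Or.inl h)
    · right
      rw [h]
      exact ⟨h, h'⟩
  have hBpn : ∀ v, v ∉ Bp → π v ∉ Bp := by
    intro v hv h
    have := hBpi _ h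
    rw [hπ v] at this
    exact hv this
  have hBpf : ∀ v, π v = v → v ∈ Bp := by
    intro v hv
    rw [hBp]
    simp only [mem_union, mem_image, mem_filter, mem_univ, true_and]
    by_cases h : v ∈ Bl
    · exact Or.inl (Or.inl h)
    · exact Or.inr ⟨hv, h⟩
  have hBpB : ∀ v, v ∈ Bl → v ∈ Bp := by
    intro v hv
    rw [hBp]
    exact mem_union_left _ (mem_union_left _ hv)
  obtain ⟨G, hGd⟩ : ∃ G : Finset V, G = univ \ Bp := ⟨_, rfl⟩
  have hGm : ∀ v, v ∈ G ↔ v ∉ Bp := by
    intro v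
    rw [hGd, mem_sdiff]
    exact ⟨fun h => h.2, fun h => ⟨mem_univ _, h⟩⟩
  have hG : ∀ v ∈ G, π v ∈ G := fun v hv => (hGm _).2 (hBpn v ((hGm v).1 hv))
  have hGB : ∀ x, x ∉ G → x ∈ Bp := fun x hx => by
    by_contra h
    exact hx ((hGm x).2 h)
  have hlev : ∀ w, b k ≤ (DrChk_C F π G (4 * k + 12) w (k + 1)).card + Bp.card := fun w =>
    DrChk_lev F D m k b q ζ hF π hπ G hG w Bp Bp (by omega) (by omega) (fun x _ => hGB x)
      (fun i _ x _ => hGB x) k le_rfl
  have hc1 := hlev w1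
  have hc2 := hlev w2
  have hex : ∃ v1 ∈ DrChk_C F π G (4 * k + 12) w1 (k + 1),
      ∃ v2 ∈ DrChk_C F π G (4 * k + 12) w2 (k + 1), F.Adj v1 v2 ∧ v2 ≠ π v1 := by
    by_contra hcon
    push Not at hcon
    have h4 := hF.pz (DrChk_C F π G (4 * k + 12) w1 (k + 1))
      (DrChk_C F π G (4 * k + 12) w2 (k + 1)) (by omega) (by omega)
    have h5 : ((DrChk_C F π G (4 * k + 12) w1 (k + 1) ×ˢ
        DrChk_C F π G (4 * k + 12) w2 (k + 1)).filter fun x => F.Adj x.1 x.2) ⊆
        (univ : Finset V).image (fun b => (b, π b)) := by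
      intro x hx
      rw [mem_filter, mem_product] at hx
      rw [mem_image]
      refine ⟨x.1, mem_univ _, ?_⟩
      have := hcon x.1 hx.1.1 x.2 hx.1.2 hx.2
      rw [← this]
    have h6 := (card_le_card h5).trans card_image_le
    rw [card_univ] at h6
    unfold ee at h4
    omega
  obtain ⟨v1, hv1, v2, hv2, hvv, hne⟩ := hex
  have hne' : v1 ≠ π v2 := by
    intro h
    apply hne
    rw [h, hπ v2]
  have hnv : v1 ≠ v2 := F.ne_of_adj hvv
  have hx2 : ({v2, π v2} : Finset V).card ≤ 2 := card_le_two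
  obtain ⟨l1, ll1, hl1, hp1, hch1⟩ := DrChk_star F π hπ G hG (4 * k + 12) w1 (k + 1)
    ({v2, π v2} : Finset V) (by
      intro v hv
      rw [mem_insert, mem_singleton] at hv ⊢
      rcases hv with rfl | rfl
      · exact Or.inr rfl
      · exact Or.inl (hπ v2)) (by omega) v1 hv1 (by
      rw [mem_insert, mem_singleton, not_or]
      exact ⟨hnv, hne'⟩)
  have hX2 : (l1 ++ l1.map π).toFinset.card ≤ 2 * (k + 2) := by
    refine (List.toFinset_card_le _).trans (le_of_eq ?_)
    rw [List.length_append, List.length_map, ll1]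
    ring
  have hmX : ∀ v, v ∈ (l1 ++ l1.map π).toFinset ↔ v ∈ l1 ∨ π v ∈ l1 := by
    intro v
    rw [List.mem_toFinset, List.mem_append, List.mem_map]
    constructor
    · rintro (h | ⟨u, h, rfl⟩)
      · exact Or.inl h
      · rw [hπ u]
        exact Or.inr h
    · rintro (h | h)
      · exact Or.inl h
      · exact Or.inr ⟨π v, h, hπ v⟩
  obtain ⟨l2, ll2, hl2, hp2, hch2⟩ := DrChk_star F π hπ G hG (4 * k + 12) w2 (k + 1)
    (l1 ++ l1.map π).toFinset (by
      intro v hv
      rw [hmX] at hv ⊢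
      rw [hπ v]
      exact hv.symm) (by omega) v2 hv2 (by
      rw [hmX, not_or]
      constructor
      · intro h
        exact (hl1 v2 h).2 (mem_insert_self _ _)
      · intro h
        exact (hl1 _ h).2 (mem_insert_of_mem (mem_singleton_self _)))
  have hch : DrChk_Ch F π w2 w1 (l1 ++ (l2.map π).reverse) :=
    DrChk_app F π v1 w2 _ (DrChk_rev F π hπ v2 v1 hvv l2 w2 hch2) l1 w1 hch1
  have hLG : ∀ x ∈ l1 ++ (l2.map π).reverse, x ∈ G := by
    intro x hx
    rw [List.mem_append, List.mem_reverse, List.mem_map] at hx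
    rcases hx with h | ⟨y, h, rfl⟩
    · exact (hl1 x h).1
    · exact hG _ (hl2 y h).1
  have hpw : (l1 ++ (l2.map π).reverse).Pairwise (fun x y => y ≠ x ∧ y ≠ π x) := by
    rw [List.pairwise_append]
    refine ⟨hp1, ?_, ?_⟩
    · rw [List.pairwise_reverse, List.pairwise_map]
      refine List.Pairwise.imp ?_ hp2
      intro a c hac
      constructor
      · intro h
        apply hac.1
        rw [← hπ a, h, hπ c]
      · intro h
        rw [hπ c] at h
        exact hac.2 h.symm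
    · intro x hx y hy
      rw [List.mem_reverse, List.mem_map] at hy
      obtain ⟨z, hz, rfl⟩ := hy
      have h5 := (hl2 z hz).2
      rw [hmX, not_or] at h5
      constructor
      · intro h
        rw [h] at h5
        exact h5.2 hx
      · intro h
        have : z = x := by rw [← hπ z, h, hπ x]
        rw [this] at h5
        exact h5.1 hx
  obtain ⟨π', i, g1, g2, g3, g4, g5, g6⟩ := DrChk_fin F π hπ Bl w1 w2 hw hw1 hw2
    (l1 ++ (l2.map π).reverse)
    (fun x hx h => (hGm x).1 (hLG x hx) (hBpf x h))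
    (fun x hx => ⟨fun h => (hGm x).1 (hLG x hx) (hBpB x h),
      fun h => (hGm _).1 (hG x (hLG x hx)) (hBpB _ h)⟩) hpw hch
  refine ⟨π', i, g1, g2, g3, g4, g5, g6.trans (le_of_eq ?_)⟩
  rw [List.length_append, List.length_reverse, List.length_map, ll1, ll2]
  ring

theorem lrgk {V : Type} [Fintype V] (F : SimpleGraph V) (D m k : ℕ) (b : ℕ → ℕ) (q ζ β : ℕ)
    (hF : Exk F D m k b q ζ) (h1 : ζ + 2 * β + m ≤ D) (h2 : ζ + 2 * β + 1 ≤ q)
    (h3 : ζ + q ≤ b k) : Lrp F ζ β (4 * k + 10) := by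
  intro π hπ Bl hBl w hw hU
  obtain ⟨U, hUd⟩ : ∃ U : Finset V, U = univ.filter fun v => π v = v ∧ v ∉ Bl ∧ v ≠ w := ⟨_, rfl⟩
  rw [← hUd] at hU
  obtain ⟨G, hGd⟩ : ∃ G : Finset V, G = univ.filter fun v => π v ≠ v ∧ v ∉ Bl ∧ π v ∉ Bl :=
    ⟨_, rfl⟩
  have hGm : ∀ v, v ∈ G ↔ π v ≠ v ∧ v ∉ Bl ∧ π v ∉ Bl := by
    intro v
    rw [hGd, mem_filter]
    exact ⟨fun h => h.2, fun h => ⟨mem_univ _, h⟩⟩
  have hUm : ∀ v, v ∈ U ↔ π v = v ∧ v ∉ Bl ∧ v ≠ w := by
    intro v
    rw [hUd, mem_filter]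
    exact ⟨fun h => h.2, fun h => ⟨mem_univ _, h⟩⟩
  have hG : ∀ v ∈ G, π v ∈ G := by
    intro v hv
    rw [hGm] at hv ⊢
    rw [hπ v]
    exact ⟨hv.1.symm, hv.2.2, hv.2.1⟩
  -- the conclusion from a list
  have key : ∀ z ∈ U, ∀ L : List V, L.length ≤ k + 2 → (∀ x ∈ L, x ∈ G) →
      L.Pairwise (fun x y => y ≠ x ∧ y ≠ π x) → DrChk_Ch F π z w L →
      ∃ π' : V → V, Inv π' ∧ (∀ v, π v ≠ v → π' v ≠ v) ∧ π' w ≠ w ∧
        (∀ v, π' v = π v ∨ F.Adj v (π' v)) ∧ (∀ v ∈ Bl, v ≠ w → π' v = π v) ∧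
        (univ.filter fun v => π' v ≠ π v).card ≤ 4 * k + 10 := by
    intro z hz L hl hL hp hch
    rw [hUm] at hz
    obtain ⟨π', i, g1, g2, g3, g4, g5, g6⟩ := DrChk_fin F π hπ Bl w z hz.2.2.symm hw hz.1 L
      (fun x hx => ((hGm x).1 (hL x hx)).1) (fun x hx => ((hGm x).1 (hL x hx)).2) hp hch
    refine ⟨π', i, g1, g2, g4, fun v hv hvw => g5 v hv hvw (fun h => hz.2.1 (h ▸ hv)), ?_⟩
    omega
  by_cases hz1 : ∃ z ∈ U, F.Adj w z
  · obtain ⟨z, hz, hwz⟩ := hz1
    exact key z hz [] (Nat.zero_le _) (fun x hx => absurd hx List.not_mem_nil)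
      List.Pairwise.nil hwz
  have hstar : ∀ z ∈ U, ∀ i ≤ k + 1, ∀ v ∈ DrChk_C F π G (4 * k + 12) w i, F.Adj v z →
      ∃ π' : V → V, Inv π' ∧ (∀ v, π v ≠ v → π' v ≠ v) ∧ π' w ≠ w ∧
        (∀ v, π' v = π v ∨ F.Adj v (π' v)) ∧ (∀ v ∈ Bl, v ≠ w → π' v = π v) ∧
        (univ.filter fun v => π' v ≠ π v).card ≤ 4 * k + 10 := by
    intro z hz i hi v hv hvz
    obtain ⟨l, ll, hl, hp, hch⟩ := DrChk_star F π hπ G hG (4 * k + 12) w i ∅
      (fun v hv => absurd hv (notMem_empty v)) (by rw [card_empty]; omega) v hv (notMem_empty v)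
    exact key z hz l (by omega) (fun x hx => (hl x hx).1) hp (DrChk_end F π v z hvz l w hch)
  by_cases hz2 : ∃ z ∈ U, ∃ i ≤ k, 4 * k + 12 <
      ((DrChk_C F π G (4 * k + 12) w i).filter fun a => F.Adj a z).card
  · obtain ⟨z, hz, i, hi, hc⟩ := hz2
    obtain ⟨a, ha⟩ := card_pos.1 (lt_of_le_of_lt (Nat.zero_le _) hc)
    rw [mem_filter] at ha
    exact hstar z hz i (by omega) a ha.1 ha.2
  obtain ⟨Bx, hBx⟩ : ∃ Bx : Finset V, Bx = insert w (Bl ∪ Bl.image π) := ⟨_, rfl⟩
  have hBxc : Bx.card ≤ 2 * β + 1 := by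
    rw [hBx]
    have h3 := card_insert_le w (Bl ∪ Bl.image π)
    have h4 := card_union_le Bl (Bl.image π)
    have h5 : (Bl.image π).card ≤ Bl.card := card_image_le
    omega
  have hin : ∀ x, x ∉ G → x ∉ U → x ∈ Bx := by
    intro x hx hxU
    rw [hGm] at hx
    rw [hUm] at hxU
    rw [hBx, mem_insert, mem_union, mem_image]
    by_cases hxB : x ∈ Bl
    · exact Or.inr (Or.inl hxB)
    by_cases hxB' : π x ∈ Bl
    · exact Or.inr (Or.inr ⟨π x, hxB', hπ x⟩)
    left
    by_contra hxw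
    have hfx : π x = x := by
      by_contra h
      exact hx ⟨h, hxB, hxB'⟩
    exact hxU ⟨hfx, hxB, hxw⟩
  obtain ⟨B0, hB0⟩ : ∃ B0 : Finset V, B0 = Bl ∪ Bl.image π := ⟨_, rfl⟩
  have hB0c : B0.card ≤ 2 * β := by
    rw [hB0]
    have h4 := card_union_le Bl (Bl.image π)
    have h5 : (Bl.image π).card ≤ Bl.card := card_image_le
    omega
  have h0 : ∀ x, F.Adj w x → x ∉ G → x ∈ B0 := by
    intro x hwx hx
    have h4 := hin x hx (fun hU => hz1 ⟨x, hU, hwx⟩)
    rw [hBx, mem_insert, ← hB0] at h4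
    rcases h4 with h4 | h4
    · exact absurd h4 (F.ne_of_adj hwx).symm
    · exact h4
  have hlev := DrChk_lev F D m k b q ζ hF π hπ G hG w B0 Bx (by omega) (by omega) h0
    (fun i hi x hc hx => hin x hx (fun hU => hz2 ⟨x, hU, i, hi, hc⟩)) k le_rfl
  have h4 := hF.pz (DrChk_C F π G (4 * k + 12) w (k + 1)) U (by omega) hU
  have h5 : 0 < ee F (DrChk_C F π G (4 * k + 12) w (k + 1)) U := lt_of_le_of_lt (Nat.zero_le _) h4
  unfold ee at h5
  obtain ⟨⟨v, z⟩, hvz⟩ := card_pos.1 h5
  rw [mem_filter, mem_product] at hvz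
  exact hstar z hvz.1.2 (k + 1) le_rfl v hvz.1.1 hvz.2

end Pool.Agent.H71.DR
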