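import Mathlib
import Pool.Agent.H71.DR.Chk

/-!
EXK: the graph `F` of the unused reserve edges has the properties `Con` and `Lrp`. Here `Gs` is the graph in which
the reserve `R` was chosen.

Proof (`n = #V`).  Put `b i = min ⌊(α/2 + i ν/2) n⌋ ⌊(1 - α/8) n⌋`. We show `Exk F D m k b q ζ` and use `conk`, `lrgk`.
(*) If `lam n² ≤ ee Gs A B` then `ee F A B ≥ ee R A B - T ≥ q0 lam n² - T > (4 k + 12) n`.
`d1`: `hR1`, `hF1`.
`p0`: `m ≤ #A`, `ee F A Y ≤ (4 k + 12) n`. Suppose `#Y + b 0 > n`, `b 0 ≤ (α/2) n`. Every `a ∈ A` has at least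
 `dg Gs a - (n - #Y) ≥ α n - (α/2) n` neighbours in `Y`, so `ee Gs A Y ≥ m (α/2) n ≥ lam n²`, against (*).
`ps`: `b i ≤ #A + q`, `ee F A Y ≤ (4 k + 12) n`, so `ee Gs A Y < lam n²` by (*).
 If `#A ≤ (1 - α/8) n`: `#A ≥ b i - q ≥ (α/4) n`, so `gro` gives `#Y ≤ n - #A - ν n ≤ n - b i + q - ν n`, and
 `b (i + 1) ≤ b i + (ν/2) n + 1 ≤ b i + ν n - q`.
 If `#A > (1 - α/8) n`: take `A' ⊆ A` with `#A' = ⌊(1 - α/8) n⌋`; `ee Gs A' Y ≤ ee Gs A Y`; `gro` gives
 `#Y ≤ n - #A' - ν n`, and `b (i + 1) ≤ #A'`.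
`pz`: `b k = ⌊(1 - α/8) n⌋` since `k ν ≥ 2`. `b k ≤ #A + q`, `ζ ≤ #Y`: every `y ∈ Y` has at least
 `dg Gs y - (n - #A) ≥ α n - (α/8) n - 1 - q ≥ (α/2) n` neighbours in `A`, so `ee Gs A Y ≥ ζ (α/2) n ≥ lam n²`, and (*).
`ζ + q ≤ 2 q ≤ b k`.
-/

set_option autoImplicit false

namespace Pool.Agent.H71.DR

open Finset Classical
open Pool.Agent.H71.DN Pool.Agent.H71.DX

theorem Exk_ee {V : Type} [Fintype V] (G : SimpleGraph V) (A B : Finset V) :
    ee G A B = ∑ a ∈ A, (B.filter fun y => G.Adj a y).card := by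
  unfold ee
  rw [card_filter, sum_product]
  refine sum_congr rfl fun a _ => ?_
  rw [card_filter]

theorem Exk_ee' {V : Type} [Fintype V] (G : SimpleGraph V) (A B : Finset V) :
    ee G A B = ∑ b ∈ B, (A.filter fun a => G.Adj a b).card := by
  unfold ee
  rw [card_filter, sum_product_right]
  refine sum_congr rfl fun a _ => ?_
  rw [card_filter]

/-- At least `d v + #Y - n` neighbours of `a` in `Y`. -/
theorem Exk_nb {V : Type} [Fintype V] (G : SimpleGraph V) (Y : Finset V) (a : V) :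
    dg G a + Y.card ≤ (Y.filter fun y => G.Adj a y).card + Fintype.card V := by
  have h1 : (univ.filter fun u => G.Adj a u) ⊆ (Y.filter fun y => G.Adj a y) ∪ Yᶜ := by
    intro u hu
    by_cases h : u ∈ Y
    · exact mem_union_left _ (mem_filter.2 ⟨h, (mem_filter.1 hu).2⟩)
    · exact mem_union_right _ (mem_compl.2 h)
  have h2 := (card_le_card h1).trans (card_union_le _ _)
  have h3 := card_add_card_compl Y
  unfold dg
  omega

/-- Lower bound for `ee` from the left. -/
theorem Exk_lowL {V : Type} [Fintype V] (G : SimpleGraph V) (A B : Finset V) (x t : ℝ)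
    (ht : 0 ≤ t) (hx : x ≤ A.card)
    (h : ∀ a ∈ A, t ≤ (B.filter fun y => G.Adj a y).card) : x * t ≤ ee G A B := by
  have h1 : (A.card : ℝ) * t ≤ ∑ a ∈ A, ((B.filter fun y => G.Adj a y).card : ℝ) := by
    rw [← nsmul_eq_mul]
    exact card_nsmul_le_sum A _ _ h
  have h2 : ∑ a ∈ A, ((B.filter fun y => G.Adj a y).card : ℝ) = ee G A B := by
    rw [Exk_ee]
    push_cast
    rfl
  have h3 : x * t ≤ A.card * t := mul_le_mul_of_nonneg_right hx ht
  linarith

/-- Lower bound for `ee` from the right. -/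
theorem Exk_lowR {V : Type} [Fintype V] (G : SimpleGraph V) (A B : Finset V) (x t : ℝ)
    (ht : 0 ≤ t) (hx : x ≤ B.card)
    (h : ∀ b ∈ B, t ≤ (A.filter fun a => G.Adj b a).card) : x * t ≤ ee G A B := by
  have h1 : (B.card : ℝ) * t ≤ ∑ b ∈ B, ((A.filter fun a => G.Adj b a).card : ℝ) := by
    rw [← nsmul_eq_mul]
    exact card_nsmul_le_sum B _ _ h
  have h2 : ∑ b ∈ B, ((A.filter fun a => G.Adj b a).card : ℝ) = ee G A B := by
    rw [Exk_ee']
    push_cast
    refine sum_congr rfl fun b _ => ?_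
    have h4 : (A.filter fun a => G.Adj b a) = A.filter fun a => G.Adj a b :=
      filter_congr fun a _ => ⟨fun h => h.symm, fun h => h.symm⟩
    rw [h4]
  have h3 : x * t ≤ B.card * t := mul_le_mul_of_nonneg_right hx ht
  linarith

/-- Monotonicity of `ee`. -/
theorem Exk_mono {V : Type} [Fintype V] (G : SimpleGraph V) (A A' B : Finset V)
    (h : A' ⊆ A) : ee G A' B ≤ ee G A B := by
  unfold ee
  exact card_le_card (filter_subset_filter _ (product_subset_product_left h))

theorem cxk {V : Type} [Fintype V] (Gs R F : SimpleGraph V) (α ν lam q0 : ℝ)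
    (D m k q ζ β S T : ℕ) (hα : 0 < α) (hα1 : α ≤ 1) (hν : 0 < ν) (hl : 0 < lam)
    (hX : Xc Gs α ν lam) (hk : 2 ≤ k * ν)
    (hR1 : ∀ v, D + S ≤ dg R v)
    (hR2 : ∀ A B : Finset V, lam * (Fintype.card V : ℝ) ^ 2 ≤ ee Gs A B →
      q0 * (lam * (Fintype.card V : ℝ) ^ 2) ≤ ee R A B)
    (hF1 : ∀ v, dg R v ≤ dg F v + S) (hF2 : ∀ A B, ee R A B ≤ ee F A B + T)
    (hT : (T : ℝ) + (4 * k + 12) * Fintype.card V < q0 * (lam * (Fintype.card V : ℝ) ^ 2))
    (hm : lam * Fintype.card V ≤ α / 2 * m) (hζ : lam * Fintype.card V ≤ α / 2 * ζ)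
    (hq1 : (q : ℝ) + 2 ≤ ν / 4 * Fintype.card V) (hq2 : (q : ℝ) + 2 ≤ α / 8 * Fintype.card V)
    (h1 : ζ + 2 * β + m ≤ D) (h2 : ζ + 2 * β + 1 ≤ q) :
    Con F ζ β (4 * k + 10) ∧ Lrp F ζ β (4 * k + 10) := by
  have _ := hl
  obtain ⟨N, hN⟩ : ∃ N : ℝ, N = Fintype.card V := ⟨_, rfl⟩
  obtain ⟨M, hMdef⟩ : ∃ M : ℕ, M = ⌊(1 - α / 8) * N⌋₊ := ⟨_, rfl⟩
  obtain ⟨b, hb⟩ : ∃ b : ℕ → ℕ, ∀ i : ℕ, b i = min ⌊(α / 2 + i * (ν / 2)) * N⌋₊ M :=
    ⟨_, fun _ => rfl⟩
  have hdeg := hX.deg
  have hgro := hX.gro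
  rw [← hN] at hR2 hT hm hζ hq1 hq2 hdeg hgro
  have hq0 : (0 : ℝ) ≤ q := Nat.cast_nonneg _
  have hNp : 0 < N := by
    by_contra h
    have : ν / 4 * N ≤ 0 := mul_nonpos_of_nonneg_of_nonpos (by linarith) (not_lt.1 h)
    linarith
  have hαN : 0 < α * N := mul_pos hα hNp
  have hνN : 0 < ν * N := mul_pos hν hNp
  have hαN1 : α * N ≤ N := by nlinarith
  -- the bounds of `M`
  have hM1 : (M : ℝ) ≤ (1 - α / 8) * N := by
    rw [hMdef]
    exact Nat.floor_le (mul_nonneg (by linarith) hNp.le)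
  have hM2 : (1 - α / 8) * N < M + 1 := by
    rw [hMdef]
    exact Nat.lt_floor_add_one _
  -- the bounds of `b`
  have hbx : ∀ i : ℕ, 0 ≤ (α / 2 + i * (ν / 2)) * N := by
    intro i
    positivity
  have hb1 : ∀ i : ℕ, (b i : ℝ) ≤ (α / 2 + i * (ν / 2)) * N := by
    intro i
    have h1 : b i ≤ ⌊(α / 2 + i * (ν / 2)) * N⌋₊ := by
      rw [hb i]
      exact min_le_left _ _
    have h2 : (b i : ℝ) ≤ (⌊(α / 2 + i * (ν / 2)) * N⌋₊ : ℝ) := by exact_mod_cast h1
    exact h2.trans (Nat.floor_le (hbx i))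
  have hb2 : ∀ i : ℕ, b i ≤ M := by
    intro i
    rw [hb i]
    exact min_le_right _ _
  have hb3 : ∀ i : ℕ, (α / 2 + i * (ν / 2)) * N < b i + 1 ∨ b i = M := by
    intro i
    rcases le_total ⌊(α / 2 + i * (ν / 2)) * N⌋₊ M with h | h
    · left
      rw [hb i, min_eq_left h]
      exact Nat.lt_floor_add_one _
    · right
      rw [hb i, min_eq_right h]
  have key : ∀ A B : Finset V, lam * N ^ 2 ≤ ee Gs A B → (4 * k + 12) * N < ee F A B := by
    intro A B h
    have h1 := hR2 A B h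
    have h2 : (ee R A B : ℝ) ≤ ee F A B + T := by exact_mod_cast hF2 A B
    linarith
  have key2 : ∀ A Y : Finset V, ee F A Y ≤ (4 * k + 12) * Fintype.card V →
      (ee Gs A Y : ℝ) ≤ lam * N ^ 2 := by
    intro A Y h
    by_contra hcon
    have h1 := key A Y (not_le.1 hcon).le
    have h2 : (ee F A Y : ℝ) ≤ (4 * k + 12) * N := by
      rw [hN]
      exact_mod_cast h
    linarith
  have hnb : ∀ (Y : Finset V) (a : V), α * N + Y.card - N ≤
      ((Y.filter fun y => Gs.Adj a y).card : ℝ) := by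
    intro Y a
    have h1 : (dg Gs a : ℝ) + Y.card ≤ (Y.filter fun y => Gs.Adj a y).card + N := by
      rw [hN]
      exact_mod_cast Exk_nb Gs Y a
    have h2 := hdeg a
    linarith
  have hlow : ∀ x : ℝ, lam * N ≤ α / 2 * x → lam * N ^ 2 ≤ x * (α / 2 * N) := by
    intro x hx
    have h1 := mul_le_mul_of_nonneg_right hx hNp.le
    have h2 : α / 2 * x * N = x * (α / 2 * N) := by ring
    have h3 : lam * N * N = lam * N ^ 2 := by ring
    linarith
  have hbk : b k = M := by
    rw [hb k]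
    refine min_eq_right ?_
    rw [hMdef]
    refine Nat.floor_mono (mul_le_mul_of_nonneg_right ?_ hNp.le)
    linarith
  have hEx : Exk F D m k b q ζ := by
    refine ⟨fun v => ?_, fun A Y hA hAY => ?_, fun i _ A Y hA hAY => ?_,
      fun A Y hA hY => ?_⟩
    · have h1 := hR1 v
      have h2 := hF1 v
      omega
    · by_contra hcon
      push Not at hcon
      have hY : N < Y.card + b 0 := by
        rw [hN]
        exact_mod_cast hcon
      have hAY' : (ee F A Y : ℝ) ≤ (4 * k + 12) * N := by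
        rw [hN]
        exact_mod_cast hAY
      have hA' : (m : ℝ) ≤ A.card := by exact_mod_cast hA
      have hb0 := hb1 0
      push_cast at hb0
      have h1 : ∀ a ∈ A, α / 2 * N ≤ ((Y.filter fun y => Gs.Adj a y).card : ℝ) := by
        intro a _
        have h2 := hnb Y a
        linarith
      have h2 := Exk_lowL Gs A Y m (α / 2 * N) (by positivity) hA' h1
      have h3 := key A Y ((hlow m hm).trans h2)
      linarith
    · have hGs := key2 A Y hAY
      have hA' : (b i : ℝ) ≤ A.card + q := by exact_mod_cast hA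
      have hbi : α * N / 4 + q ≤ b i := by
        rcases hb3 i with h | h
        · have h2 : 0 ≤ (i : ℝ) * (ν / 2) * N := by positivity
          have h3 : (α / 2 + i * (ν / 2)) * N = α / 2 * N + i * (ν / 2) * N := by ring
          linarith
        · rw [h]
          linarith
      suffices h : (Y.card : ℝ) + b (i + 1) ≤ N by
        rw [hN] at h
        exact_mod_cast h
      rcases le_total (A.card : ℝ) ((1 - α / 8) * N) with hc | hc
      · have h1 := hgro A Y (by linarith) hc hGs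
        have h2 : (b (i + 1) : ℝ) + q ≤ b i + ν * N := by
          rcases hb3 i with h | h
          · have h3 := hb1 (i + 1)
            have h4 : (α / 2 + ((i + 1 : ℕ) : ℝ) * (ν / 2)) * N =
                (α / 2 + i * (ν / 2)) * N + ν * N / 2 := by
              push_cast
              ring
            linarith
          · have h3 : (b (i + 1) : ℝ) ≤ b i := by
              rw [h]
              exact_mod_cast hb2 (i + 1)
            linarith
        linarith
      · have h0 : M ≤ A.card := by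
          have h1 : (M : ℝ) ≤ A.card := hM1.trans hc
          exact_mod_cast h1
        obtain ⟨A', hA1, hA2⟩ := exists_subset_card_eq h0
        have h1 : (ee Gs A' Y : ℝ) ≤ ee Gs A Y := by
          exact_mod_cast Exk_mono Gs A A' Y hA1
        have h2 := hgro A' Y (by rw [hA2]; linarith) (by rw [hA2]; exact hM1)
          (h1.trans hGs)
        have h3 : (b (i + 1) : ℝ) ≤ A'.card := by
          rw [hA2]
          exact_mod_cast hb2 (i + 1)
        linarith
    · rw [hbk] at hA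
      have hA' : (M : ℝ) ≤ A.card + q := by exact_mod_cast hA
      have hY' : (ζ : ℝ) ≤ Y.card := by exact_mod_cast hY
      have h1 : ∀ y ∈ Y, α / 2 * N ≤ ((A.filter fun a => Gs.Adj y a).card : ℝ) := by
        intro y _
        have h2 := hnb A y
        linarith
      have h2 := Exk_lowR Gs A Y ζ (α / 2 * N) (by positivity) hY' h1
      have h3 := key A Y ((hlow ζ hζ).trans h2)
      have h4 : N < ee F A Y := by
        have h5 : 0 ≤ (k : ℝ) * N := by positivity
        linarith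
      rw [hN] at h4
      exact_mod_cast h4
  have h3 : ζ + q ≤ b k := by
    rw [hbk]
    have h4 : (ζ : ℝ) ≤ q := by
      have h5 : ζ ≤ q := by omega
      exact_mod_cast h5
    have h6 : (ζ : ℝ) + q < M + 1 := by linarith
    have h7 : ζ + q < M + 1 := by exact_mod_cast h6
    omega
  exact ⟨conk F D m k b q ζ β hEx h1 h2 h3, lrgk F D m k b q ζ β hEx h1 h2 h3⟩

end Pool.Agent.H71.DR
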