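import Mathlib
import Pool.Agent.H71.DR.Defs
import Pool.Agent.H71.DX.Lb2
import Pool.Agent.H71.DN.Lab

/-!
LB3: one label, with the property `Con` instead of the expansion properties. Copy `H71/DX/Lb2.lean` (`lab2`) and
`H71/DN/Lab.lean` (`lab`), which are proved: replace the use of `conn3` / `conn` by `hC`, the use of `lrg` by `hL`, and
the constants 14 and 10 by `N`. (In `lab4`: if fewer than `ζ` vertices `v ≠ w` outside `Bl` are uncovered then at most
`ζ` vertices outside `Bl` are uncovered, so `hC` applies; otherwise `hL` applies.)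
-/

set_option autoImplicit false

namespace Pool.Agent.H71.DR

open Finset Classical
open Pool.Agent.H71.DN Pool.Agent.H71.DX

theorem LB3_mul (N : ℕ) {j k : ℕ} (h : j < k) : N * j + N ≤ N * k := by
  calc N * j + N = N * (j + 1) := by ring
    _ ≤ N * k := Nat.mul_le_mul_left N h

theorem lab3 {V : Type} [Fintype V] (F : SimpleGraph V) (ζ β N : ℕ) (hC : Con F ζ β N)
    (π0 : V → V) (hπ : Inv π0) (U Bl : Finset V) (hUB : U ⊆ Bl) (hBl : Bl.card ≤ β)
    (hU : ∀ v ∈ U, π0 v = v) (hev : Even (univ \ U).card)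
    (hζ : (univ.filter fun v => π0 v = v ∧ v ∉ U).card ≤ ζ) :
    ∃ π' : V → V, Inv π' ∧ (∀ v ∈ U, π' v = v) ∧ (∀ v, v ∉ U → π' v ≠ v) ∧
      (∀ v, π' v = π0 v ∨ F.Adj v (π' v)) ∧
      (∀ v ∈ Bl, π0 v ≠ v → π' v = π0 v) ∧
      (univ.filter fun v => π' v ≠ π0 v).card ≤
        N * (univ.filter fun v => π0 v = v ∧ v ∉ U).card := by
  obtain ⟨W, hW⟩ : ∃ W : Finset V, W = univ.filter fun v => π0 v = v ∧ v ∉ U := ⟨_, rfl⟩
  have hmW : ∀ v, v ∈ W ↔ π0 v = v ∧ v ∉ U := by
    intro v
    rw [hW, mem_filter]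
    exact ⟨fun h => h.2, fun h => ⟨mem_univ _, h⟩⟩
  rw [← hW] at hζ ⊢
  have hUfix : ∀ π : V → V, (∀ v ∈ Bl, v ∉ W → π v = π0 v) → ∀ v ∈ U, π v = v := by
    intro π h4 v hv
    rw [h4 v (hUB hv) (fun h => ((hmW v).1 h).2 hv), hU v hv]
  -- composition of changes
  have hcomp : ∀ π π1 : V → V, (univ.filter fun v => π1 v ≠ π0 v).card ≤
      (univ.filter fun v => π1 v ≠ π v).card + (univ.filter fun v => π v ≠ π0 v).card := by
    intro π π1
    refine le_trans (card_le_card ?_) (card_union_le _ _)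
    intro v hv
    rw [mem_filter] at hv
    by_cases h : π1 v = π v
    · refine mem_union_right _ (mem_filter.2 ⟨mem_univ _, ?_⟩)
      rw [← h]
      exact hv.2
    · exact mem_union_left _ (mem_filter.2 ⟨mem_univ _, h⟩)
  have main : ∀ k : ℕ, ∀ π : V → V, Inv π → (∀ v, π0 v ≠ v → π v ≠ v) →
      (∀ v, π v = π0 v ∨ F.Adj v (π v)) → (∀ v ∈ Bl, v ∉ W → π v = π0 v) →
      (univ.filter fun v => π v ≠ π0 v).card + N * k ≤ N * W.card →
      (W.filter fun v => π v = v).card = k →
      ∃ π' : V → V, Inv π' ∧ (∀ v ∈ U, π' v = v) ∧ (∀ v, v ∉ U → π' v ≠ v) ∧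
      (∀ v, π' v = π0 v ∨ F.Adj v (π' v)) ∧
      (∀ v ∈ Bl, π0 v ≠ v → π' v = π0 v) ∧
      (univ.filter fun v => π' v ≠ π0 v).card ≤ N * W.card := by
    intro k
    induction k using Nat.strong_induction_on with
    | _ k ih =>
    intro π hi hii hiii hiv hv hvi
    -- the uncovered vertices
    have hfix : ∀ v, π v = v → v ∉ U → v ∈ W := by
      intro v h1 h2
      exact (hmW v).2 ⟨by_contra fun h => hii v h h1, h2⟩
    by_cases hex : ∃ w ∈ W, π w = w
    swap
    · push Not at hex
      refine ⟨π, hi, hUfix π hiv, ?_, hiii, ?_, by omega⟩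
      · intro v hvU hvv
        exact hex v (hfix v hvv hvU) hvv
      · intro v hvB hv0
        exact hiv v hvB (fun h => hv0 ((hmW v).1 h).1)
    obtain ⟨w, hwW, hw⟩ := hex
    have hwk : w ∈ W.filter fun v => π v = v := mem_filter.2 ⟨hwW, hw⟩
    have hkpos : 0 < k := by
      rw [← hvi]
      exact card_pos.2 ⟨w, hwk⟩
    have hex2 : ∃ w2 ∈ W, w2 ≠ w ∧ π w2 = w2 := by
      by_contra hno
      push Not at hno
      have hpar := par π hi U (hUfix π hiv) hev
      have hset : (univ.filter fun v => π v = v ∧ v ∉ U) = {w} := by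
        ext v
        rw [mem_filter, mem_singleton]
        constructor
        · rintro ⟨_, hv1, hv2⟩
          by_contra hvw
          exact hno v (hfix v hv1 hv2) hvw hv1
        · rintro rfl
          exact ⟨mem_univ _, hw, ((hmW v).1 hwW).2⟩
      rw [hset, card_singleton] at hpar
      exact absurd hpar (by decide)
    obtain ⟨w2, hw2W, hne, hw2⟩ := hex2
    have hZ : (univ.filter fun v => π v = v ∧ v ∉ Bl).card ≤ ζ := by
      refine le_trans (card_le_card ?_) hζ
      intro v hv'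
      rw [mem_filter] at hv'
      exact hfix v hv'.2.1 (fun h => hv'.2.2 (hUB h))
    obtain ⟨π1, a1, a2, a3, a3', a4, a5, a6⟩ := hC
      π hi Bl hBl hZ w w2 (fun h => hne h.symm) hw hw2
    have hlt : (W.filter fun v => π1 v = v).card < k := by
      rw [← hvi]
      refine card_lt_card ⟨?_, ?_⟩
      · intro v hv'
        rw [mem_filter] at hv' ⊢
        exact ⟨hv'.1, by_contra fun h => a2 v h hv'.2⟩
      · intro h
        exact a3 (mem_filter.1 (h hwk)).2
    refine ih _ hlt π1 a1 (fun v h => a2 v (hii v h)) ?_ ?_ ?_ rfl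
    · intro v
      rcases a4 v with h' | h'
      · rw [h']
        exact hiii v
      · exact Or.inr h'
    · intro v hvB hvW
      rw [a5 v hvB (fun h => hvW (h ▸ hwW)) (fun h => hvW (h ▸ hw2W)), hiv v hvB hvW]
    · have := hcomp π π1
      have := LB3_mul N hlt
      omega
  refine main _ π0 hπ (fun v h => h) (fun v => Or.inl rfl) (fun v _ _ => rfl) ?_ rfl
  have h0 : (univ.filter fun v => π0 v ≠ π0 v) = ∅ := by
    ext v
    simp
  rw [h0, card_empty, Nat.zero_add]
  exact Nat.mul_le_mul_left _ (card_le_card (filter_subset _ _))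

theorem lab4 {V : Type} [Fintype V] (F : SimpleGraph V) (ζ β N : ℕ) (hC : Con F ζ β N)
    (hL : Lrp F ζ β N)
    (π0 : V → V) (hπ : Inv π0) (U Bl W J : Finset V) (hUB : U ⊆ Bl) (hJB : J ⊆ Bl)
    (hBl : Bl.card ≤ β) (hU : ∀ v ∈ U, π0 v = v) (hW : ∀ v ∈ W, π0 v = v ∧ v ∉ U)
    (hJ : (∃ z, J = {z} ∧ π0 z = z ∧ z ∉ W ∧ z ∉ U) ∨
      (J = ∅ ∧ Even (univ \ U).card ∧ ∀ v, π0 v = v → v ∈ U ∨ v ∈ W)) :
    ∃ π' : V → V, Inv π' ∧ (∀ v ∈ U, π' v = v) ∧ (∀ v ∈ W, π' v ≠ v) ∧
      (∀ v, π0 v ≠ v → π' v ≠ v) ∧ (∀ v, π' v = π0 v ∨ F.Adj v (π' v)) ∧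
      (∀ v ∈ Bl, v ∉ W → v ∉ J → π' v = π0 v) ∧
      (univ.filter fun v => π' v ≠ π0 v).card ≤ N * W.card := by
  have hJW : ∀ z ∈ J, z ∉ W := by
    intro z hz
    rcases hJ with ⟨z', rfl, _, h, _⟩ | ⟨rfl, _⟩
    · rw [mem_singleton] at hz
      rwa [hz]
    · exact absurd hz (notMem_empty _)
  have hJU : ∀ z ∈ J, z ∉ U := by
    intro z hz
    rcases hJ with ⟨z', rfl, _, _, h⟩ | ⟨rfl, _⟩
    · rw [mem_singleton] at hz
      rwa [hz]
    · exact absurd hz (notMem_empty _)
  have hUfix : ∀ π : V → V, (∀ v ∈ Bl, v ∉ W → v ∉ J → π v = π0 v) → ∀ v ∈ U, π v = v := by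
    intro π h4 v hv
    rw [h4 v (hUB hv) (fun h => (hW v h).2 hv) (fun h => hJU v h hv), hU v hv]
  -- composition of changes
  have hcomp : ∀ π π1 : V → V, (univ.filter fun v => π1 v ≠ π0 v).card ≤
      (univ.filter fun v => π1 v ≠ π v).card + (univ.filter fun v => π v ≠ π0 v).card := by
    intro π π1
    refine le_trans (card_le_card ?_) (card_union_le _ _)
    intro v hv
    rw [mem_filter] at hv
    by_cases h : π1 v = π v
    · refine mem_union_right _ (mem_filter.2 ⟨mem_univ _, ?_⟩)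
      rw [← h]
      exact hv.2
    · exact mem_union_left _ (mem_filter.2 ⟨mem_univ _, h⟩)
  have main : ∀ k : ℕ, ∀ π : V → V, Inv π → (∀ v, π0 v ≠ v → π v ≠ v) →
      (∀ v, π v = π0 v ∨ F.Adj v (π v)) → (∀ v ∈ Bl, v ∉ W → v ∉ J → π v = π0 v) →
      (univ.filter fun v => π v ≠ π0 v).card + N * k ≤ N * W.card →
      (W.filter fun v => π v = v).card = k → (∀ z ∈ J, π z = z) →
      ∃ π' : V → V, Inv π' ∧ (∀ v ∈ U, π' v = v) ∧ (∀ v ∈ W, π' v ≠ v) ∧
      (∀ v, π0 v ≠ v → π' v ≠ v) ∧ (∀ v, π' v = π0 v ∨ F.Adj v (π' v)) ∧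
      (∀ v ∈ Bl, v ∉ W → v ∉ J → π' v = π0 v) ∧
      (univ.filter fun v => π' v ≠ π0 v).card ≤ N * W.card := by
    intro k
    induction k using Nat.strong_induction_on with
    | _ k ih =>
    intro π hi hii hiii hiv hv hvi hvii
    by_cases hex : ∃ w ∈ W, π w = w
    swap
    · push Not at hex
      exact ⟨π, hi, hUfix π hiv, hex, hii, hiii, hiv, by omega⟩
    obtain ⟨w, hwW, hw⟩ := hex
    have hwk : w ∈ W.filter fun v => π v = v := mem_filter.2 ⟨hwW, hw⟩
    have hkpos : 0 < k := by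
      rw [← hvi]
      exact card_pos.2 ⟨w, hwk⟩
    -- step for a new matching
    have hstep : ∀ π1 : V → V, (∀ v, π v ≠ v → π1 v ≠ v) → π1 w ≠ w →
        (W.filter fun v => π1 v = v).card < k := by
      intro π1 hc hw1
      rw [← hvi]
      refine card_lt_card ⟨?_, ?_⟩
      · intro v hv'
        rw [mem_filter] at hv' ⊢
        exact ⟨hv'.1, by_contra fun h => hc v h hv'.2⟩
      · intro h
        exact hw1 (mem_filter.1 (h hwk)).2
    have hadj : ∀ π1 : V → V, (∀ v, π1 v = π v ∨ F.Adj v (π1 v)) →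
        ∀ v, π1 v = π0 v ∨ F.Adj v (π1 v) := by
      intro π1 h v
      rcases h v with h' | h'
      · rw [h']
        exact hiii v
      · exact Or.inr h'
    by_cases hZ : ζ ≤ (univ.filter fun v => π v = v ∧ v ∉ Bl ∧ v ≠ w).card
    · obtain ⟨π1, a1, a2, a3, a4, a5, a6⟩ := hL π hi Bl
        hBl w hw hZ
      have hlt := hstep π1 a2 a3
      refine ih _ hlt π1 a1 (fun v h => a2 v (hii v h)) (hadj π1 a4) ?_ ?_ rfl ?_
      · intro v hvB hvW hvJ
        rw [a5 v hvB (fun h => hvW (h ▸ hwW)), hiv v hvB hvW hvJ]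
      · have := hcomp π π1
        have := LB3_mul N hlt
        omega
      · intro z hz
        rw [a5 z (hJB hz) (fun h => hJW z hz (h ▸ hwW)), hvii z hz]
    · rw [not_le] at hZ
      have hZ' : (univ.filter fun v => π v = v ∧ v ∉ Bl).card ≤ ζ := by
        have hsub : (univ.filter fun v => π v = v ∧ v ∉ Bl) ⊆
            insert w (univ.filter fun v => π v = v ∧ v ∉ Bl ∧ v ≠ w) := by
          intro v hv'
          rw [mem_filter] at hv'
          by_cases h : v = w
          · exact mem_insert.2 (Or.inl h)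
          · exact mem_insert.2 (Or.inr (mem_filter.2 ⟨mem_univ _, hv'.2.1, hv'.2.2, h⟩))
        have := (card_le_card hsub).trans (card_insert_le _ _)
        omega
      by_cases hex2 : ∃ w2 ∈ W, w2 ≠ w ∧ π w2 = w2
      · obtain ⟨w2, hw2W, hne, hw2⟩ := hex2
        obtain ⟨π1, a1, a2, a3, a3', a4, a5, a6⟩ := hC
          π hi Bl hBl hZ' w w2 (fun h => hne h.symm) hw hw2
        have hlt := hstep π1 a2 a3
        refine ih _ hlt π1 a1 (fun v h => a2 v (hii v h)) (hadj π1 a4) ?_ ?_ rfl ?_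
        · intro v hvB hvW hvJ
          rw [a5 v hvB (fun h => hvW (h ▸ hwW)) (fun h => hvW (h ▸ hw2W)), hiv v hvB hvW hvJ]
        · have := hcomp π π1
          have := LB3_mul N hlt
          omega
        · intro z hz
          rw [a5 z (hJB hz) (fun h => hJW z hz (h ▸ hwW)) (fun h => hJW z hz (h ▸ hw2W)),
            hvii z hz]
      · push Not at hex2
        rcases hJ with ⟨z, hJz, _, hzW, hzU⟩ | ⟨hJe, hE, hcov⟩
        · have hzz : π z = z := hvii z (by rw [hJz]; exact mem_singleton_self z)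
          have hwz : w ≠ z := fun h => hzW (h ▸ hwW)
          obtain ⟨π1, a1, a2, a3, a3', a4, a5, a6⟩ := hC π hi Bl hBl hZ' w z hwz hw hzz
          have h4 : ∀ v ∈ Bl, v ∉ W → v ∉ J → π1 v = π0 v := by
            intro v hvB hvW hvJ
            rw [a5 v hvB (fun h => hvW (h ▸ hwW))
              (fun h => hvJ (by rw [hJz, h]; exact mem_singleton_self z)), hiv v hvB hvW hvJ]
          refine ⟨π1, a1, hUfix π1 h4, ?_, fun v h => a2 v (hii v h), hadj π1 a4, h4, ?_⟩
          · intro v hvW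
            by_cases h : v = w
            · rw [h]
              exact a3
            · exact a2 v (hex2 v hvW h)
          · have := hcomp π π1
            have := LB3_mul N hkpos
            omega
        · exfalso
          have hpar := par π hi U (hUfix π hiv) hE
          have hset : (univ.filter fun v => π v = v ∧ v ∉ U) = {w} := by
            ext v
            rw [mem_filter, mem_singleton]
            constructor
            · rintro ⟨_, hv1, hv2⟩
              have h0 : π0 v = v := by_contra fun h => hii v h hv1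
              rcases hcov v h0 with h | h
              · exact absurd h hv2
              · by_contra hvw
                exact hex2 v h hvw hv1
            · rintro rfl
              exact ⟨mem_univ _, hw, (hW v hwW).2⟩
          rw [hset, card_singleton] at hpar
          exact absurd hpar (by decide)
  refine main _ π0 hπ (fun v h => h) (fun v => Or.inl rfl) (fun v _ _ _ => rfl) ?_ rfl ?_
  · have h0 : (univ.filter fun v => π0 v ≠ π0 v) = ∅ := by
      ext v
      simp
    rw [h0, card_empty, Nat.zero_add]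
    exact Nat.mul_le_mul_left _ (card_le_card (filter_subset _ _))
  · intro z hz
    rcases hJ with ⟨z', rfl, h, _, _⟩ | ⟨rfl, _⟩
    · rw [mem_singleton] at hz
      rw [hz]
      exact h
    · exact absurd hz (notMem_empty _)

end Pool.Agent.H71.DR
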