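import Mathlib
import Pool.Agent.H71.DR.Lb3
import Pool.Agent.H71.DX.Pr2

/-!
PR3: all the labels, one after the other. Copy `H71/DX/Pr2.lean` (`prc2`, proved): the hypothesis `hR` has the
conclusion `Con F ζ β N`, `lab3` replaces `lab2`, and `N` replaces 14. (The structure and the definitions of
`Pr2.lean`, such as `pr2U`, `pr2C`, `pr2W`, `pr2F`, `pr2_deg`, can be used from there.)
-/

set_option autoImplicit false

namespace Pool.Agent.H71.DR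

open Finset Classical
open Pool.Agent.H71.DN Pool.Agent.H71.DX

structure Pr3I {V : Type} [Fintype V] (R : SimpleGraph V) (U : ℕ → Finset V)
    (m0 : ℕ → V → V) (S0 N j : ℕ) (mm : ℕ → V → V) : Prop where
  p1 : ∀ ℓ < j, Inv (mm ℓ)
  p2 : ∀ ℓ < j, ∀ v ∈ U ℓ, mm ℓ v = v
  p3 : ∀ ℓ < j, ∀ v, v ∉ U ℓ → mm ℓ v ≠ v
  p5 : ∀ ℓ < j, ∀ v, mm ℓ v = m0 ℓ v ∨ R.Adj v (mm ℓ v)
  p6 : ∀ ℓ < j, ∀ ℓ' < j, ℓ' ≠ ℓ → ∀ v, R.Adj v (mm ℓ v) → mm ℓ v ≠ mm ℓ' v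
  pa : ∀ v, pr2U R mm j v ≤ S0 + pr2C U m0 j v
  pb : ∑ v, pr2U R mm j v ≤ N * ∑ ℓ ∈ range j, pr2W U m0 ℓ

theorem pr3_step {V : Type} [Fintype V] (R : SimpleGraph V) (L : ℕ) (U : ℕ → Finset V)
    (m0 : ℕ → V → V) (ζ β β2 S0 E T N : ℕ) (hS0 : 0 < S0)
    (hR : ∀ F : SimpleGraph V, F ≤ R → (∀ v, dg R v ≤ dg F v + (S0 + E)) →
      (∀ A B, ee R A B ≤ ee F A B + N * T) → Con F ζ β N)
    (hm0 : ∀ ℓ < L, Inv (m0 ℓ)) (hm1 : ∀ ℓ < L, ∀ v, ¬ R.Adj v (m0 ℓ v))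
    (hU : ∀ ℓ < L, ∀ v ∈ U ℓ, m0 ℓ v = v)
    (hζ : ∀ ℓ < L, (univ.filter fun v => m0 ℓ v = v ∧ v ∉ U ℓ).card ≤ ζ)
    (hev : ∀ ℓ < L, Even (univ \ U ℓ).card)
    (hβ : ∀ ℓ < L, (U ℓ).card + β2 ≤ β)
    (hT : ∑ ℓ ∈ range L, (univ.filter fun v => m0 ℓ v = v ∧ v ∉ U ℓ).card ≤ T)
    (hT2 : N * T ≤ S0 * β2)
    (hE : ∀ v, ((range L).filter fun ℓ => m0 ℓ v = v ∧ v ∉ U ℓ).card ≤ E)
    (j : ℕ) (hj : j < L) (mm : ℕ → V → V) (I : Pr3I R U m0 S0 N j mm) :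
    ∃ mm' : ℕ → V → V, Pr3I R U m0 S0 N (j + 1) mm' := by
  have hsum : ∑ v, pr2U R mm j v ≤ N * T := by
    refine I.pb.trans (Nat.mul_le_mul_left _ (le_trans ?_ hT))
    exact sum_le_sum_of_subset (range_subset_range.2 hj.le)
  have hcE : ∀ v, pr2C U m0 j v ≤ E := fun v => by
    refine le_trans (card_le_card ?_) (hE v)
    exact filter_subset_filter _ (range_subset_range.2 hj.le)
  have hEx : Con (pr2F R mm j I.p1) ζ β N := by
    refine hR _ (fun a b hab => hab.1) (fun v => ?_) (fun A B => ?_)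
    · refine (pr2_deg R mm j I.p1 v).trans (Nat.add_le_add_left ?_ _)
      exact (I.pa v).trans (Nat.add_le_add_left (hcE v) _)
    · exact (pr2_ee R mm j I.p1 A B).trans (Nat.add_le_add_left hsum _)
  obtain ⟨Sat, hSat⟩ : ∃ Sat : Finset V, Sat = univ.filter (fun v => S0 ≤ pr2U R mm j v) := ⟨_, rfl⟩
  have hSc : Sat.card ≤ β2 := by
    have h3 : Sat.card * S0 ≤ ∑ v ∈ Sat, pr2U R mm j v := by
      rw [← smul_eq_mul]
      refine card_nsmul_le_sum _ _ _ fun v hv => ?_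
      rw [hSat, mem_filter] at hv
      exact hv.2
    have h4 : ∑ v ∈ Sat, pr2U R mm j v ≤ ∑ v, pr2U R mm j v := sum_le_sum_of_subset (subset_univ _)
    have h5 : S0 * Sat.card ≤ S0 * β2 := by
      rw [mul_comm]
      exact h3.trans (h4.trans (hsum.trans hT2))
    exact Nat.le_of_mul_le_mul_left h5 hS0
  have hBc : (U j ∪ Sat).card ≤ β := by
    have h3 := card_union_le (U j) Sat
    have h5 := hβ j hj
    omega
  obtain ⟨π, q1, q2, q3, q5, q6, q7⟩ := lab3 (pr2F R mm j I.p1) ζ β N hEx (m0 j)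
    (hm0 j hj) (U j) (U j ∪ Sat) subset_union_left hBc (hU j hj) (hev j hj) (hζ j hj)
  have K1 : ∀ v, R.Adj v (π v) → (pr2F R mm j I.p1).Adj v (π v) := by
    intro v hv
    rcases q5 v with h3 | h3
    · rw [h3] at hv
      exact absurd hv (hm1 j hj v)
    · exact h3
  have upd_lt : ∀ ℓ < j, Function.update mm j π ℓ = mm ℓ := fun ℓ hℓ =>
    Function.update_of_ne hℓ.ne _ _
  have upd_self : Function.update mm j π j = π := Function.update_self _ _ _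
  have cases : ∀ ℓ < j + 1, ℓ < j ∨ ℓ = j := fun ℓ hℓ => Nat.lt_succ_iff_lt_or_eq.1 hℓ
  refine ⟨Function.update mm j π, ⟨?_, ?_, ?_, ?_, ?_, ?_, ?_⟩⟩
  · intro ℓ hℓ
    rcases cases ℓ hℓ with h | rfl
    · rw [upd_lt ℓ h]
      exact I.p1 ℓ h
    · rw [upd_self]
      exact q1
  · intro ℓ hℓ
    rcases cases ℓ hℓ with h | rfl
    · rw [upd_lt ℓ h]
      exact I.p2 ℓ h
    · rw [upd_self]
      exact q2
  · intro ℓ hℓ
    rcases cases ℓ hℓ with h | rfl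
    · rw [upd_lt ℓ h]
      exact I.p3 ℓ h
    · rw [upd_self]
      exact q3
  · intro ℓ hℓ v
    rcases cases ℓ hℓ with h | rfl
    · rw [upd_lt ℓ h]
      exact I.p5 ℓ h v
    · rw [upd_self]
      rcases q5 v with h3 | h3
      · exact Or.inl h3
      · exact Or.inr h3.1
  · intro ℓ hℓ ℓ' hℓ' hne v hv
    rcases cases ℓ hℓ with h | rfl
    · rcases cases ℓ' hℓ' with h' | rfl
      · rw [upd_lt ℓ h] at hv ⊢
        rw [upd_lt ℓ' h']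
        exact I.p6 ℓ h ℓ' h' hne v hv
      · rw [upd_lt ℓ h] at hv ⊢
        rw [upd_self]
        intro h3
        rw [h3] at hv
        exact (K1 v hv).2 ℓ h h3
    · rcases cases ℓ' hℓ' with h' | rfl
      · rw [upd_self] at hv ⊢
        rw [upd_lt ℓ' h']
        intro h3
        exact (K1 v hv).2 ℓ' h' h3.symm
      · exact absurd rfl hne
  · intro v
    rw [pr2_u, pr2_c]
    have h3 := I.pa v
    by_cases h4 : R.Adj v (π v)
    · rw [if_pos h4]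
      by_cases h5 : m0 j v = v ∧ v ∉ U j
      · rw [if_pos h5]
        omega
      · rw [if_neg h5]
        have h6 : v ∉ U j := by
          intro h7
          rw [q2 v h7] at h4
          exact R.irrefl h4
        have h5' : m0 j v ≠ v := fun h8 => h5 ⟨h8, h6⟩
        have h7 : v ∉ Sat := by
          intro h8
          have h9 := q6 v (mem_union_right _ h8) h5'
          rw [h9] at h4
          exact hm1 j hj v h4
        rw [hSat, mem_filter] at h7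
        have h8 : ¬ S0 ≤ pr2U R mm j v := fun h9 => h7 ⟨mem_univ _, h9⟩
        omega
    · rw [if_neg h4]
      have : pr2C U m0 j v ≤ pr2C U m0 j v + if m0 j v = v ∧ v ∉ U j then 1 else 0 :=
        Nat.le_add_right _ _
      omega
  · have h3 : ∑ v, pr2U R (Function.update mm j π) (j + 1) v =
        ∑ v, pr2U R mm j v + (univ.filter fun v => R.Adj v (π v)).card := by
      rw [card_filter, ← sum_add_distrib]
      exact sum_congr rfl fun v _ => pr2_u R mm j π v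
    rw [h3, sum_range_succ, mul_add]
    refine Nat.add_le_add I.pb (le_trans (card_le_card fun v hv => ?_) q7)
    rw [mem_filter] at hv ⊢
    refine ⟨mem_univ _, fun h4 => ?_⟩
    rw [h4] at hv
    exact hm1 j hj v hv.2

theorem prc3 {V : Type} [Fintype V] (R : SimpleGraph V) (L : ℕ) (U : ℕ → Finset V)
    (m0 : ℕ → V → V) (ζ β β2 S0 E T N : ℕ) (hS0 : 0 < S0)
    (hR : ∀ F : SimpleGraph V, F ≤ R → (∀ v, dg R v ≤ dg F v + (S0 + E)) →
      (∀ A B, ee R A B ≤ ee F A B + N * T) → Con F ζ β N)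
    (hm0 : ∀ ℓ < L, Inv (m0 ℓ)) (hm1 : ∀ ℓ < L, ∀ v, ¬ R.Adj v (m0 ℓ v))
    (hU : ∀ ℓ < L, ∀ v ∈ U ℓ, m0 ℓ v = v)
    (hζ : ∀ ℓ < L, (univ.filter fun v => m0 ℓ v = v ∧ v ∉ U ℓ).card ≤ ζ)
    (hev : ∀ ℓ < L, Even (univ \ U ℓ).card)
    (hβ : ∀ ℓ < L, (U ℓ).card + β2 ≤ β)
    (hT : ∑ ℓ ∈ range L, (univ.filter fun v => m0 ℓ v = v ∧ v ∉ U ℓ).card ≤ T)
    (hT2 : N * T ≤ S0 * β2)
    (hE : ∀ v, ((range L).filter fun ℓ => m0 ℓ v = v ∧ v ∉ U ℓ).card ≤ E) :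
    ∃ mm : ℕ → V → V,
      (∀ ℓ < L, Inv (mm ℓ)) ∧ (∀ ℓ < L, ∀ v ∈ U ℓ, mm ℓ v = v) ∧
      (∀ ℓ < L, ∀ v, v ∉ U ℓ → mm ℓ v ≠ v) ∧
      (∀ ℓ < L, ∀ v, mm ℓ v = m0 ℓ v ∨ R.Adj v (mm ℓ v)) ∧
      (∀ ℓ < L, ∀ ℓ' < L, ℓ' ≠ ℓ → ∀ v, R.Adj v (mm ℓ v) → mm ℓ v ≠ mm ℓ' v) ∧
      (∀ v, ((range L).filter fun ℓ => R.Adj v (mm ℓ v)).card ≤ S0 + E) ∧
      (∑ v, ((range L).filter fun ℓ => R.Adj v (mm ℓ v)).card ≤ N * T) := by
  have key : ∀ j ≤ L, ∃ mm : ℕ → V → V, Pr3I R U m0 S0 N j mm := by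
    intro j
    induction j with
    | zero =>
      intro _
      refine ⟨fun _ v => v, ⟨?_, ?_, ?_, ?_, ?_, ?_, ?_⟩⟩
      · exact fun ℓ hℓ => absurd hℓ (Nat.not_lt_zero ℓ)
      · exact fun ℓ hℓ => absurd hℓ (Nat.not_lt_zero ℓ)
      · exact fun ℓ hℓ => absurd hℓ (Nat.not_lt_zero ℓ)
      · exact fun ℓ hℓ => absurd hℓ (Nat.not_lt_zero ℓ)
      · exact fun ℓ hℓ => absurd hℓ (Nat.not_lt_zero ℓ)
      · intro v
        simp [pr2U]
      · simp [pr2U]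
    | succ j ih =>
      intro hj
      obtain ⟨mm, I⟩ := ih (Nat.le_of_succ_le hj)
      exact pr3_step R L U m0 ζ β β2 S0 E T N hS0 hR hm0 hm1 hU hζ hev hβ hT
        hT2 hE j hj mm I
  obtain ⟨mm, I⟩ := key L le_rfl
  refine ⟨mm, I.p1, I.p2, I.p3, I.p5, I.p6, fun v => ?_, ?_⟩
  · exact (I.pa v).trans (Nat.add_le_add_left (hE v) _)
  · exact I.pb.trans (Nat.mul_le_mul_left _ hT)

end Pool.Agent.H71.DR
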