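import Mathlib
import Pool.Agent.H71.DR.Defs

/-!
SMP: `K` elements of `Y` approximate the degrees into `Y`.

Proof. Choose `b 0, b 1, ...` one after the other. Let `x_a(y) = [G.Adj y a] - μ_a`, `μ_a = #{y ∈ Y : G.Adj y a} / #Y`,
`D_j(a) = ∑_{i < j} x_a(b i)`. Claim: one can keep `∑_a D_j(a)² ≤ j n` (`n = #V`): the average over `y ∈ Y` of
`∑_a (D_j(a) + x_a(y))²` is `∑_a D_j(a)² + 2 ∑_a D_j(a) avg x_a + ∑_a avg x_a² ≤ ∑_a D_j(a)² + n`, since `avg x_a = 0` and
`|x_a| ≤ 1`. So some `y` is at most the average (`Finset.exists_le_of_sum_le`). At the end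
`D_K(a) = #{j : G.Adj (b j) a} - K μ_a`. (Induction on `K`, `Fin.snoc` or a list / a function on `ℕ`.)
-/

set_option autoImplicit false

namespace Pool.Agent.H71.DR

open Finset Classical
open Pool.Agent.H71.DN Pool.Agent.H71.DX

theorem DrSmp_step {V : Type} [Fintype V] (Y : Finset V) (hY : Y.Nonempty) (e : V → V → ℝ)
    (he0 : ∀ y a, 0 ≤ e y a) (he1 : ∀ y a, e y a ≤ 1) (D : V → ℝ) :
    ∃ y ∈ Y, ∑ a, (D a + (e y a - (∑ y ∈ Y, e y a) / Y.card)) ^ 2 ≤ ∑ a, D a ^ 2 + Fintype.card V := by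
  have hc : (0 : ℝ) < (Y.card : ℝ) := by
    exact_mod_cast hY.card_pos
  apply Finset.exists_le_of_sum_le hY
  rw [Finset.sum_comm, Finset.sum_const, nsmul_eq_mul]
  have h1 : ∀ a, ∑ y ∈ Y, (D a + (e y a - (∑ y ∈ Y, e y a) / Y.card)) ^ 2 ≤ Y.card * (D a ^ 2 + 1) := by
    intro a
    have hs : (∑ y ∈ Y, e y a) / Y.card ≤ 1 := by
      rw [div_le_one hc]
      calc ∑ y ∈ Y, e y a ≤ ∑ _y ∈ Y, (1 : ℝ) := Finset.sum_le_sum (fun y _ => he1 y a)
        _ = Y.card := by simp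
    have hs0 : 0 ≤ (∑ y ∈ Y, e y a) / Y.card := div_nonneg (Finset.sum_nonneg (fun y _ => he0 y a)) hc.le
    obtain ⟨m, hm⟩ : ∃ m : ℝ, m = (∑ y ∈ Y, e y a) / Y.card := ⟨_, rfl⟩
    rw [← hm] at hs hs0 ⊢
    have hm' : ∑ y ∈ Y, e y a = m * Y.card := by
      rw [hm]
      field_simp
    have h2 : ∑ y ∈ Y, (D a + (e y a - m)) ^ 2 =
        Y.card * D a ^ 2 + 2 * D a * (∑ y ∈ Y, e y a - m * Y.card) + ∑ y ∈ Y, (e y a - m) ^ 2 := by
      have h3 : ∀ y ∈ Y, (D a + (e y a - m)) ^ 2 =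
          D a ^ 2 + (2 * D a * e y a + (-(2 * D a * m) + (e y a - m) ^ 2)) := fun y _ => by ring
      rw [Finset.sum_congr rfl h3, Finset.sum_add_distrib, Finset.sum_add_distrib,
        Finset.sum_add_distrib, ← Finset.mul_sum, Finset.sum_const, Finset.sum_const,
        nsmul_eq_mul, nsmul_eq_mul]
      ring
    rw [h2, hm', sub_self, mul_zero, add_zero, mul_add, mul_one]
    have h4 : ∑ y ∈ Y, (e y a - m) ^ 2 ≤ Y.card := by
      calc ∑ y ∈ Y, (e y a - m) ^ 2 ≤ ∑ _y ∈ Y, (1 : ℝ) := by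
            apply Finset.sum_le_sum
            intro y _
            have := he0 y a
            have := he1 y a
            rw [sq_le_one_iff_abs_le_one, abs_le]
            constructor <;> linarith
        _ = Y.card := by simp
    linarith
  refine (Finset.sum_le_sum (fun a _ => h1 a)).trans ?_
  rw [← Finset.mul_sum, Finset.sum_add_distrib]
  simp

theorem DrSmp_main {V : Type} [Fintype V] (Y : Finset V) (hY : Y.Nonempty) (e : V → V → ℝ)
    (he0 : ∀ y a, 0 ≤ e y a) (he1 : ∀ y a, e y a ≤ 1) (K : ℕ) :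
    ∃ b : Fin K → V, ∑ a, ((∑ j, e (b j) a) - K * ((∑ y ∈ Y, e y a) / Y.card)) ^ 2 ≤
      K * Fintype.card V := by
  induction K with
  | zero => exact ⟨Fin.elim0, by simp⟩
  | succ K ih =>
    obtain ⟨b, hb⟩ := ih
    obtain ⟨y, _, hy⟩ := DrSmp_step Y hY e he0 he1
      (fun a => (∑ j, e (b j) a) - K * ((∑ y ∈ Y, e y a) / Y.card))
    refine ⟨Fin.snoc (α := fun _ => V) b y, ?_⟩
    have h1 : ∀ a, ∑ j, e ((Fin.snoc (α := fun _ => V) b y : Fin (K + 1) → V) j) a =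
        (∑ j, e (b j) a) + e y a := by
      intro a
      rw [Fin.sum_univ_castSucc]
      simp only [Fin.snoc_castSucc, Fin.snoc_last]
    have h2 : ∑ a, ((∑ j, e ((Fin.snoc (α := fun _ => V) b y : Fin (K + 1) → V) j) a) -
        ((K + 1 : ℕ) : ℝ) * ((∑ y ∈ Y, e y a) / Y.card)) ^ 2 =
        ∑ a, ((∑ j, e (b j) a) - K * ((∑ y ∈ Y, e y a) / Y.card) +
          (e y a - (∑ y ∈ Y, e y a) / Y.card)) ^ 2 := by
      apply Finset.sum_congr rfl
      intro a _
      rw [h1 a]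
      push_cast
      ring
    rw [h2]
    push_cast
    linarith

theorem smp {V : Type} [Fintype V] (G : SimpleGraph V) (Y : Finset V) (hY : Y.Nonempty) (K : ℕ) :
    ∃ b : Fin K → V, ∑ a, (((univ.filter fun j => G.Adj (b j) a).card : ℝ) -
      K * (((Y.filter fun y => G.Adj y a).card : ℝ) / Y.card)) ^ 2 ≤ K * Fintype.card V := by
  obtain ⟨b, hb⟩ := DrSmp_main Y hY (fun y a => if G.Adj y a then 1 else 0)
    (fun y a => by split_ifs <;> norm_num) (fun y a => by split_ifs <;> norm_num) K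
  refine ⟨b, ?_⟩
  simp only [Finset.sum_boole] at hb
  exact hb

end Pool.Agent.H71.DR
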