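import Mathlib
import Pool.Agent.H71.DR.Smp

/-!
BLW: sets inside a sampled set `X` can be blown up.

`blow` (`n = #V`).  Case 1: `#Y ≤ γ n`: `A' = univ`: `#A ≤ #X ≤ x n + η n` (the sampling property for any constant `b` and
 `i = K`; if `V` is empty everything is 0) and `ee G A' Y ≤ n #Y ≤ γ n²`.
Case 2: `#Y > γ n` (so `Y` is not empty). Take `b` from `smp`; `g a = #{j : G.Adj (b j) a}`, `f a = #{y ∈ Y : G.Adj y a} / #Y`.
 `Bad = {a : |g a - K f a| > γ K}`: `#Bad (γ K)² ≤ K n`, so `#Bad ≤ n / (γ² K) ≤ γ n`.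
 `i := ⌊2 γ K⌋₊`, `A' := {a : g a ≤ i}`. An `a ∈ A ∖ A' ∖ Bad` has `g a > 2 γ K` (`g a ≥ i + 1`), so `f a > γ`; and
 `∑_{a ∈ A} f a = ee G A Y / #Y ≤ lam n / γ`, so there are at most `lam n / γ² ≤ γ n` such `a`. Hence
 `#A ≤ #(A ∩ A') + 2 γ n ≤ #{a ∈ X : g a ≤ i} + 2 γ n ≤ x #A' + η n + 2 γ n`.
 `ee G A' Y = #Y ∑_{a ∈ A'} f a ≤ n (∑_{a ∈ A' ∖ Bad} (g a / K + γ) + #Bad) ≤ n (3 γ n + γ n) = 4 γ n²`.

`blow2`: `blow` for `A, Y` gives `A'`; then `blow` for `Y, A'` (`ee` is symmetric) with `γ1` and `lam := 4 γ ≤ γ1³` gives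
 `Y'` with `ee G Y' A' ≤ 4 γ1 n²` (`K γ1³ ≥ K γ³ ≥ 1` since `γ ≤ γ1`: `4 γ ≤ γ1³ ≤ γ1`).

`reld`: `4 γ1 ≤ lam0`; apply `blow2`. `#A' ≥ #A / x1 - (2 γ + η) n / x1 ≥ (τ + s) n - 4 (2 γ + η) n ≥ τ n`
 (`x1, x2 ≥ 1/4`; `12 γ1 + 4 η ≤ s`).
 If `#A' ≤ (1 - τ) n` then `XP` gives `#A' + #Y' + ν n ≤ n`, and `#A / x1 ≤ #A' + 4 (2 γ + η) n`,
 `#Y / x2 ≤ #Y' + 4 (2 γ1 + η) n`: the first alternative (`4 (2 γ + η) + 4 (2 γ1 + η) ≤ s`).
 If `#A' > (1 - τ) n`: every `y ∈ Y'` has at least `α n - τ n ≥ (α/2) n` neighbours in `A'`, so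
 `#Y' (α/2) n ≤ 4 γ1 n²`, `#Y' ≤ (8 γ1 / α) n`, and `#Y ≤ x2 #Y' + (2 γ1 + η) n ≤ s n`.
 For the choice: `γ1 = min (lam0 / 4) (s α / 100)` (and `≤ 1`), `γ = γ1³ / 4`, `lam = γ³`, `K = ⌈1 / γ³⌉`, `η0 = s / 100`.
-/

set_option autoImplicit false

namespace Pool.Agent.H71.DR

open Finset Classical
open Pool.Agent.H71.DN Pool.Agent.H71.DX

theorem DrBlw_symm {V : Type} [Fintype V] (G : SimpleGraph V) (A B : Finset V) :
    ee G A B = ee G B A := by
  unfold ee
  apply card_bij (fun x _ => x.swap)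
  · intro x hx
    simp only [mem_filter, mem_product, Prod.fst_swap, Prod.snd_swap] at hx ⊢
    exact ⟨⟨hx.1.2, hx.1.1⟩, hx.2.symm⟩
  · intro x _ y _ h
    exact Prod.swap_injective h
  · intro x hx
    simp only [mem_filter, mem_product] at hx
    exact ⟨x.swap, by
      simp only [mem_filter, mem_product, Prod.fst_swap, Prod.snd_swap]
      exact ⟨⟨hx.1.2, hx.1.1⟩, hx.2.symm⟩, Prod.swap_swap x⟩

theorem DrBlw_le {V : Type} [Fintype V] (G : SimpleGraph V) (A B : Finset V) :
    ee G A B ≤ A.card * B.card := by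
  unfold ee
  exact (card_filter_le _ _).trans (le_of_eq (card_product A B))

theorem DrBlw_swap {V : Type} [Fintype V] (G : SimpleGraph V) (A B : Finset V) :
    ee G A B = ∑ b ∈ B, (A.filter fun a => G.Adj a b).card := by
  unfold ee
  rw [card_eq_sum_card_fiberwise (f := Prod.snd) (t := B)]
  · apply sum_congr rfl
    intro b hb
    apply card_bij (fun x _ => x.1)
    · intro x hx
      simp only [mem_filter, mem_product] at hx ⊢
      exact ⟨hx.1.1.1, by rw [← hx.2]; exact hx.1.2⟩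
    · intro x hx y hy h
      simp only [mem_filter, mem_product] at hx hy
      exact Prod.ext h (hx.2.trans hy.2.symm)
    · intro a ha
      simp only [mem_filter] at ha
      exact ⟨(a, b), by simp only [mem_filter, mem_product]; exact ⟨⟨⟨ha.1, hb⟩, ha.2⟩, trivial⟩, rfl⟩
  · intro x hx
    simp only [coe_filter, mem_product, Set.mem_ofPred_eq] at hx
    exact hx.1.2

theorem DrBlw_sum {V : Type} [Fintype V] (G : SimpleGraph V) (A B : Finset V) :
    (ee G A B : ℝ) = ∑ a ∈ A, ((B.filter fun y => G.Adj y a).card : ℝ) := by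
  rw [DrBlw_symm, DrBlw_swap]
  push_cast
  rfl

theorem blow {V : Type} [Fintype V] (G : SimpleGraph V) (X A Y : Finset V) (x η γ lam : ℝ)
    (K : ℕ) (hS : Smpl G X x η K) (hγ : 0 < γ) (hγ1 : γ ≤ 1) (hK : 1 ≤ K * γ ^ 3)
    (hlam : lam ≤ γ ^ 3) (hA : A ⊆ X)
    (h : (ee G A Y : ℝ) ≤ lam * (Fintype.card V : ℝ) ^ 2) :
    ∃ A' : Finset V, (A.card : ℝ) ≤ x * A'.card + (2 * γ + η) * Fintype.card V ∧
      (ee G A' Y : ℝ) ≤ 4 * γ * (Fintype.card V : ℝ) ^ 2 := by
  have hn0 : (0 : ℝ) ≤ (Fintype.card V : ℝ) := Nat.cast_nonneg _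
  by_cases hYc : (Y.card : ℝ) ≤ γ * Fintype.card V
  · rcases isEmpty_or_nonempty V with hV | ⟨⟨v0⟩⟩
    · refine ⟨∅, ?_, ?_⟩
      · have hA0 : A.card = 0 := by
          rw [card_eq_zero]
          exact Finset.eq_empty_of_isEmpty A
        have hc : Fintype.card V = 0 := Fintype.card_eq_zero
        rw [hA0, hc]
        simp
      · have h0 : ee G ∅ Y = 0 := by
          unfold ee
          simp
        rw [h0]
        push_cast
        positivity
    · refine ⟨univ, ?_, ?_⟩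
      · have hs := hS (fun _ => v0) K
        have e0 : ∀ a : V, (univ.filter fun j : Fin K => G.Adj ((fun _ => v0) j) a).card ≤ K := by
          intro a
          exact (card_filter_le _ _).trans (by simp)
        rw [filter_true_of_mem (fun a _ => e0 a), filter_true_of_mem (fun a _ => e0 a),
          card_univ] at hs
        have h3 := (abs_le.mp hs).2
        have h4 : (A.card : ℝ) ≤ X.card := by exact_mod_cast card_le_card hA
        rw [card_univ]
        nlinarith
      · have h5 : (ee G univ Y : ℝ) ≤ (Fintype.card V : ℝ) * Y.card := by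
          have := DrBlw_le G univ Y
          rw [card_univ] at this
          exact_mod_cast this
        nlinarith
  · push Not at hYc
    have hYpos : (0 : ℝ) < Y.card := lt_of_le_of_lt (by positivity) hYc
    have hYne : Y.Nonempty := by
      rw [← card_pos]
      exact_mod_cast hYpos
    obtain ⟨b, hb⟩ := smp G Y hYne K
    set g : V → ℕ := fun a => (univ.filter fun j => G.Adj (b j) a).card with hg
    set f : V → ℝ := fun a => ((Y.filter fun y => G.Adj y a).card : ℝ) / Y.card with hf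
    have hb' : ∑ a, ((g a : ℝ) - K * f a) ^ 2 ≤ K * Fintype.card V := hb
    have hKpos : (0 : ℝ) < K := by
      by_contra hcon
      push Not at hcon
      have : (K : ℝ) * γ ^ 3 ≤ 0 := mul_nonpos_of_nonpos_of_nonneg hcon (by positivity)
      linarith
    have hYn : (Y.card : ℝ) ≤ Fintype.card V := by exact_mod_cast card_le_univ Y
    have hfY : ∀ a, ((Y.filter fun y => G.Adj y a).card : ℝ) = Y.card * f a := by
      intro a
      show ((Y.filter fun y => G.Adj y a).card : ℝ) =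
        Y.card * (((Y.filter fun y => G.Adj y a).card : ℝ) / Y.card)
      rw [← mul_div_assoc, mul_div_cancel_left₀ _ hYpos.ne']
    have hf0 : ∀ a, 0 ≤ f a := fun a => by
      show 0 ≤ ((Y.filter fun y => G.Adj y a).card : ℝ) / Y.card
      exact div_nonneg (Nat.cast_nonneg _) hYpos.le
    set Bad : Finset V := univ.filter (fun a => γ * K < |(g a : ℝ) - K * f a|) with hBad
    have hBadc : (Bad.card : ℝ) ≤ γ * Fintype.card V := by
      have h1 : (Bad.card : ℝ) * (γ * K) ^ 2 ≤ K * Fintype.card V := by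
        calc (Bad.card : ℝ) * (γ * K) ^ 2 = ∑ _a ∈ Bad, (γ * K : ℝ) ^ 2 := by
              rw [sum_const, nsmul_eq_mul]
          _ ≤ ∑ a ∈ Bad, ((g a : ℝ) - K * f a) ^ 2 := by
              refine sum_le_sum (fun a ha => ?_)
              have h2 := (mem_filter.mp ha).2
              rw [← sq_abs ((g a : ℝ) - K * f a)]
              exact pow_le_pow_left₀ (by positivity) h2.le 2
          _ ≤ ∑ a, ((g a : ℝ) - K * f a) ^ 2 :=
              sum_le_sum_of_subset_of_nonneg (subset_univ _) (fun _ _ _ => sq_nonneg _)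
          _ ≤ K * Fintype.card V := hb'
      have h3 : (Bad.card : ℝ) * (γ ^ 2 * K) ≤ Fintype.card V := by
        have h4 : (K : ℝ) * ((Bad.card : ℝ) * (γ ^ 2 * K)) ≤ (K : ℝ) * Fintype.card V := by
          calc (K : ℝ) * ((Bad.card : ℝ) * (γ ^ 2 * K)) = (Bad.card : ℝ) * (γ * K) ^ 2 := by ring
            _ ≤ (K : ℝ) * Fintype.card V := h1
        exact le_of_mul_le_mul_left h4 hKpos
      calc (Bad.card : ℝ) ≤ (Bad.card : ℝ) * (K * γ ^ 3) := by
            have : (0 : ℝ) ≤ Bad.card := Nat.cast_nonneg _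
            nlinarith
        _ = γ * ((Bad.card : ℝ) * (γ ^ 2 * K)) := by ring
        _ ≤ γ * Fintype.card V := mul_le_mul_of_nonneg_left h3 hγ.le
    set i : ℕ := ⌊2 * γ * K⌋₊ with hi
    have hi1 : (i : ℝ) ≤ 2 * γ * K := Nat.floor_le (by positivity)
    have hi2 : 2 * γ * K < (i : ℝ) + 1 := Nat.lt_floor_add_one _
    set A' : Finset V := univ.filter (fun a => g a ≤ i) with hA'
    have hs := hS b i
    have hs1 := (abs_le.mp hs).2
    have hs2 : ((X.filter fun a => g a ≤ i).card : ℝ) - x * (A'.card : ℝ)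
        ≤ η * Fintype.card V := hs1
    refine ⟨A', ?_, ?_⟩
    · set W : Finset V := A.filter (fun a => γ < f a) with hW
      have hWc : (W.card : ℝ) ≤ γ * Fintype.card V := by
        have h1 : (ee G A Y : ℝ) = Y.card * ∑ a ∈ A, f a := by
          rw [DrBlw_sum, mul_sum]
          exact sum_congr rfl (fun a _ => hfY a)
        have h2 : (W.card : ℝ) * γ ≤ ∑ a ∈ A, f a := by
          calc (W.card : ℝ) * γ = ∑ _a ∈ W, γ := by rw [sum_const, nsmul_eq_mul]
            _ ≤ ∑ a ∈ W, f a := sum_le_sum (fun a ha => ((mem_filter.mp ha).2).le)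
            _ ≤ ∑ a ∈ A, f a :=
              sum_le_sum_of_subset_of_nonneg (filter_subset _ _) (fun a _ _ => hf0 a)
        have h3 : (Y.card : ℝ) * ((W.card : ℝ) * γ) ≤ γ ^ 3 * (Fintype.card V : ℝ) ^ 2 := by
          calc (Y.card : ℝ) * ((W.card : ℝ) * γ) ≤ Y.card * ∑ a ∈ A, f a :=
                mul_le_mul_of_nonneg_left h2 hYpos.le
            _ = (ee G A Y : ℝ) := h1.symm
            _ ≤ lam * (Fintype.card V : ℝ) ^ 2 := h
            _ ≤ γ ^ 3 * (Fintype.card V : ℝ) ^ 2 :=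
              mul_le_mul_of_nonneg_right hlam (by positivity)
        have hnpos : (0 : ℝ) < Fintype.card V := lt_of_lt_of_le hYpos hYn
        have h4 : (γ * Fintype.card V) * ((W.card : ℝ) * γ) ≤
            (γ * Fintype.card V) * (γ ^ 2 * Fintype.card V) := by
          calc (γ * Fintype.card V) * ((W.card : ℝ) * γ) ≤ (Y.card : ℝ) * ((W.card : ℝ) * γ) :=
                mul_le_mul_of_nonneg_right hYc.le (mul_nonneg (Nat.cast_nonneg _) hγ.le)
            _ ≤ γ ^ 3 * (Fintype.card V : ℝ) ^ 2 := h3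
            _ = (γ * Fintype.card V) * (γ ^ 2 * Fintype.card V) := by ring
        have h5 : (W.card : ℝ) * γ ≤ γ ^ 2 * Fintype.card V :=
          le_of_mul_le_mul_left h4 (by positivity)
        have h6 : γ * (W.card : ℝ) ≤ γ * (γ * Fintype.card V) := by
          calc γ * (W.card : ℝ) = (W.card : ℝ) * γ := by ring
            _ ≤ γ ^ 2 * Fintype.card V := h5
            _ = γ * (γ * Fintype.card V) := by ring
        exact le_of_mul_le_mul_left h6 hγ
      have hsub : A ⊆ (X.filter fun a => g a ≤ i) ∪ (Bad ∪ W) := by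
        intro a ha
        by_cases h1 : g a ≤ i
        · exact mem_union_left _ (mem_filter.mpr ⟨hA ha, h1⟩)
        apply mem_union_right
        by_cases h2 : a ∈ Bad
        · exact mem_union_left _ h2
        apply mem_union_right
        rw [hW, mem_filter]
        refine ⟨ha, ?_⟩
        have h3 : |(g a : ℝ) - K * f a| ≤ γ * K := by
          by_contra hcon
          push Not at hcon
          exact h2 (mem_filter.mpr ⟨mem_univ _, hcon⟩)
        have h4 : (i : ℝ) + 1 ≤ g a := by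
          have : i + 1 ≤ g a := by omega
          exact_mod_cast this
        have h5 := (abs_le.mp h3).2
        have h6 : K * γ < K * f a := by nlinarith
        exact lt_of_mul_lt_mul_left h6 hKpos.le
      have hcard : (A.card : ℝ) ≤ ((X.filter fun a => g a ≤ i).card : ℝ) +
          ((Bad.card : ℝ) + W.card) := by
        have h1 := card_le_card hsub
        have h2 := card_union_le (X.filter fun a => g a ≤ i) (Bad ∪ W)
        have h3 := card_union_le Bad W
        have h4 : A.card ≤ (X.filter fun a => g a ≤ i).card + (Bad.card + W.card) := by omega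
        exact_mod_cast h4
      linarith
    · have h1 : ∀ a ∈ A', ((Y.filter fun y => G.Adj y a).card : ℝ) ≤
          3 * γ * Fintype.card V + (if a ∈ Bad then (Fintype.card V : ℝ) else 0) := by
        intro a ha
        have h2 : g a ≤ i := (mem_filter.mp ha).2
        by_cases h3 : a ∈ Bad
        · rw [if_pos h3]
          have h4 : ((Y.filter fun y => G.Adj y a).card : ℝ) ≤ Y.card := by
            exact_mod_cast card_filter_le _ _
          have h5 : 0 ≤ 3 * γ * (Fintype.card V : ℝ) := by positivity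
          linarith
        · rw [if_neg h3]
          have h4 : |(g a : ℝ) - K * f a| ≤ γ * K := by
            by_contra hcon
            push Not at hcon
            exact h3 (mem_filter.mpr ⟨mem_univ _, hcon⟩)
          have h5 := (abs_le.mp h4).1
          have h6 : (g a : ℝ) ≤ i := by exact_mod_cast h2
          have h7 : K * f a ≤ K * (3 * γ) := by nlinarith
          have h8 : f a ≤ 3 * γ := le_of_mul_le_mul_left h7 hKpos
          rw [hfY a]
          have h9 : (Y.card : ℝ) * f a ≤ Fintype.card V * (3 * γ) :=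
            mul_le_mul hYn h8 (hf0 a) hn0
          linarith
      calc (ee G A' Y : ℝ) = ∑ a ∈ A', ((Y.filter fun y => G.Adj y a).card : ℝ) := DrBlw_sum G A' Y
        _ ≤ ∑ a ∈ A', (3 * γ * Fintype.card V + (if a ∈ Bad then (Fintype.card V : ℝ) else 0)) :=
            sum_le_sum h1
        _ = A'.card * (3 * γ * Fintype.card V) +
            ((A'.filter fun a => a ∈ Bad).card : ℝ) * Fintype.card V := by
            rw [sum_add_distrib, sum_const, nsmul_eq_mul, ← sum_filter, sum_const, nsmul_eq_mul]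
        _ ≤ Fintype.card V * (3 * γ * Fintype.card V) + (γ * Fintype.card V) * Fintype.card V := by
            have h2 : (A'.card : ℝ) ≤ Fintype.card V := by exact_mod_cast card_le_univ A'
            have h3 : ((A'.filter fun a => a ∈ Bad).card : ℝ) ≤ Bad.card := by
              have : (A'.filter fun a => a ∈ Bad).card ≤ Bad.card := by
                apply card_le_card
                intro a ha
                exact (mem_filter.mp ha).2
              exact_mod_cast this
            have h4 := h3.trans hBadc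
            exact add_le_add (mul_le_mul_of_nonneg_right h2 (by positivity))
              (mul_le_mul_of_nonneg_right h4 hn0)
        _ = 4 * γ * (Fintype.card V : ℝ) ^ 2 := by ring

theorem blow2 {V : Type} [Fintype V] (G : SimpleGraph V) (X1 X2 A Y : Finset V)
    (x1 x2 η γ γ1 lam : ℝ) (K : ℕ) (hS1 : Smpl G X1 x1 η K) (hS2 : Smpl G X2 x2 η K)
    (hγ : 0 < γ) (hγ1 : γ1 ≤ 1) (hγγ : 4 * γ ≤ γ1 ^ 3) (hγ10 : 0 < γ1) (hK : 1 ≤ K * γ ^ 3)
    (hlam : lam ≤ γ ^ 3) (hA : A ⊆ X1) (hY : Y ⊆ X2)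
    (h : (ee G A Y : ℝ) ≤ lam * (Fintype.card V : ℝ) ^ 2) :
    ∃ A' Y' : Finset V, (A.card : ℝ) ≤ x1 * A'.card + (2 * γ + η) * Fintype.card V ∧
      (Y.card : ℝ) ≤ x2 * Y'.card + (2 * γ1 + η) * Fintype.card V ∧
      (ee G A' Y' : ℝ) ≤ 4 * γ1 * (Fintype.card V : ℝ) ^ 2 := by
  have h13 : γ1 ^ 3 ≤ γ1 := by
    have h1 : γ1 ^ 3 ≤ γ1 ^ 1 := pow_le_pow_of_le_one hγ10.le hγ1 (by norm_num)
    simpa using h1
  have hγ' : γ ≤ 1 := by linarith
  obtain ⟨A', hA1, hA2⟩ := blow G X1 A Y x1 η γ lam K hS1 hγ hγ' hK hlam hA h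
  have hγle : γ ≤ γ1 := by linarith
  have hK1 : 1 ≤ K * γ1 ^ 3 := by
    have h1 : γ ^ 3 ≤ γ1 ^ 3 := pow_le_pow_left₀ hγ.le hγle 3
    have h2 : (K : ℝ) * γ ^ 3 ≤ K * γ1 ^ 3 := mul_le_mul_of_nonneg_left h1 (Nat.cast_nonneg _)
    linarith
  obtain ⟨Y', hY1, hY2⟩ := blow G X2 Y A' x2 η γ1 (4 * γ) K hS2 hγ10 hγ1 hK1 hγγ hY
    (by rw [DrBlw_symm]; exact hA2)
  exact ⟨A', Y', hA1, hY1, by rw [DrBlw_symm]; exact hY2⟩

/-- Relative expansion in sampled sets. -/
theorem reld (α τ ν lam0 s : ℝ) (hα : 0 < α) (hα1 : α ≤ 1) (hτ : 2 * τ ≤ α) (hl : 0 < lam0)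
    (hs : 0 < s) (hs1 : s ≤ 1) :
    ∃ (lam η0 : ℝ) (K : ℕ), 0 < lam ∧ 0 < η0 ∧ 1 ≤ K ∧
      ∀ (V : Type) [Fintype V] (G : SimpleGraph V) (X1 X2 A Y : Finset V) (x1 x2 η : ℝ),
        (∀ v, α * Fintype.card V ≤ (dg G v : ℝ)) → XP G τ ν lam0 → η ≤ η0 →
        1 / 4 ≤ x1 → x1 ≤ 1 → 1 / 4 ≤ x2 → x2 ≤ 1 →
        Smpl G X1 x1 η K → Smpl G X2 x2 η K → A ⊆ X1 → Y ⊆ X2 →
        (ee G A Y : ℝ) ≤ lam * (Fintype.card V : ℝ) ^ 2 →
        (τ + s) * x1 * Fintype.card V ≤ (A.card : ℝ) →
        (A.card : ℝ) / x1 + Y.card / x2 + ν * Fintype.card V ≤ (1 + s) * Fintype.card V ∨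
          (Y.card : ℝ) ≤ s * Fintype.card V := by
  set γ1 : ℝ := min (lam0 / 4) (s * α / 100) with hγ1
  have hγ10 : 0 < γ1 := lt_min (by positivity) (by positivity)
  have hγ1a : γ1 ≤ lam0 / 4 := min_le_left _ _
  have hγ1b : γ1 ≤ s * α / 100 := min_le_right _ _
  have hsα : s * α ≤ s := by nlinarith
  have hγ1c : γ1 ≤ s / 100 := by linarith
  have hγ1d : γ1 ≤ 1 := by linarith
  set γ : ℝ := γ1 ^ 3 / 4 with hγd
  have hγ : 0 < γ := by positivity
  have h13 : γ1 ^ 3 ≤ γ1 := by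
    have h1 : γ1 ^ 3 ≤ γ1 ^ 1 := pow_le_pow_of_le_one hγ10.le hγ1d (by norm_num)
    simpa using h1
  have hγle : γ ≤ s / 100 := by
    have : γ ≤ γ1 := by rw [hγd]; linarith
    linarith
  have hKc : 1 / γ ^ 3 ≤ (⌈1 / γ ^ 3⌉₊ : ℝ) := Nat.le_ceil _
  have hK1 : 1 ≤ (⌈1 / γ ^ 3⌉₊ : ℝ) * γ ^ 3 := by
    have h1 := mul_le_mul_of_nonneg_right hKc (by positivity : (0 : ℝ) ≤ γ ^ 3)
    rwa [one_div, inv_mul_cancel₀ (by positivity), ← one_div] at h1
  refine ⟨γ ^ 3, s / 100, ⌈1 / γ ^ 3⌉₊, by positivity, by positivity,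
    Nat.one_le_ceil_iff.mpr (by positivity), ?_⟩
  intro V _ G X1 X2 A Y x1 x2 η hdeg hXP hη hx1 hx1' hx2 hx2' hS1 hS2 hA hY hee hAl
  obtain ⟨A', Y', h1, h2, h3⟩ := blow2 G X1 X2 A Y x1 x2 η γ γ1 (γ ^ 3) ⌈1 / γ ^ 3⌉₊ hS1 hS2 hγ
    hγ1d (by rw [hγd]; linarith) hγ10 hK1 le_rfl hA hY hee
  have hn0 : (0 : ℝ) ≤ (Fintype.card V : ℝ) := Nat.cast_nonneg _
  rcases hn0.eq_or_lt with hn | hn
  · right
    have h4 : Y.card ≤ Fintype.card V := card_le_univ Y
    have h5 : (Y.card : ℝ) ≤ Fintype.card V := by exact_mod_cast h4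
    rw [← hn] at h5 ⊢
    linarith
  have hx10 : 0 < x1 := by linarith
  have hx20 : 0 < x2 := by linarith
  have he1 : (2 * γ + η) * Fintype.card V ≤ x1 * (12 * s / 100 * Fintype.card V) := by
    have h4 : 2 * γ + η ≤ x1 * (12 * s / 100) := by
      have h5 : 1 / 4 * (12 * s / 100) ≤ x1 * (12 * s / 100) :=
        mul_le_mul_of_nonneg_right hx1 (by positivity)
      linarith
    have h6 := mul_le_mul_of_nonneg_right h4 hn.le
    linarith
  have he2 : (2 * γ1 + η) * Fintype.card V ≤ x2 * (12 * s / 100 * Fintype.card V) := by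
    have h4 : 2 * γ1 + η ≤ x2 * (12 * s / 100) := by
      have h5 : 1 / 4 * (12 * s / 100) ≤ x2 * (12 * s / 100) :=
        mul_le_mul_of_nonneg_right hx2 (by positivity)
      linarith
    have h6 := mul_le_mul_of_nonneg_right h4 hn.le
    linarith
  have hA1 : (A.card : ℝ) / x1 ≤ A'.card + 12 * s / 100 * Fintype.card V := by
    rw [div_le_iff₀ hx10]
    linarith
  have hY1 : (Y.card : ℝ) / x2 ≤ Y'.card + 12 * s / 100 * Fintype.card V := by
    rw [div_le_iff₀ hx20]
    linarith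
  have hAlow : τ * Fintype.card V ≤ (A'.card : ℝ) := by
    have h4 : (τ + s) * Fintype.card V ≤ (A.card : ℝ) / x1 := by
      rw [le_div_iff₀ hx10]
      linarith
    have h5 : 0 ≤ s * (Fintype.card V : ℝ) := by positivity
    nlinarith
  by_cases hc : (A'.card : ℝ) ≤ (1 - τ) * Fintype.card V
  · left
    have h4 : (ee G A' Y' : ℝ) ≤ lam0 * (Fintype.card V : ℝ) ^ 2 := by
      have h5 : 4 * γ1 ≤ lam0 := by linarith
      have h6 := mul_le_mul_of_nonneg_right h5 (by positivity : (0 : ℝ) ≤ (Fintype.card V : ℝ) ^ 2)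
      linarith
    have h7 := hXP A' Y' hAlow hc h4
    have h5 : 0 ≤ s * (Fintype.card V : ℝ) := by positivity
    nlinarith
  · right
    push Not at hc
    have h4 : ∀ y, α / 2 * Fintype.card V ≤ ((A'.filter fun a => G.Adj a y).card : ℝ) := by
      intro y
      have h5 := hdeg y
      have h6 : dg G y ≤ (A'.filter fun a => G.Adj a y).card + (univ \ A').card := by
        unfold dg
        have h7 : (univ.filter fun u => G.Adj y u) ⊆
            (A'.filter fun a => G.Adj a y) ∪ (univ \ A') := by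
          intro u hu
          have h8 := (mem_filter.mp hu).2
          by_cases h9 : u ∈ A'
          · exact mem_union_left _ (mem_filter.mpr ⟨h9, h8.symm⟩)
          · exact mem_union_right _ (mem_sdiff.mpr ⟨mem_univ _, h9⟩)
        exact (card_le_card h7).trans (card_union_le _ _)
      have h7 : ((univ \ A').card : ℝ) = Fintype.card V - A'.card := by
        rw [card_sdiff_of_subset (subset_univ _), card_univ, Nat.cast_sub (card_le_univ A')]
      have h8 : (dg G y : ℝ) ≤ ((A'.filter fun a => G.Adj a y).card : ℝ) + (univ \ A').card := by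
        exact_mod_cast h6
      have h9 : τ * (Fintype.card V : ℝ) ≤ α / 2 * Fintype.card V :=
        mul_le_mul_of_nonneg_right (by linarith) hn.le
      rw [h7] at h8
      nlinarith
    have h5 : (Y'.card : ℝ) * (α / 2 * Fintype.card V) ≤ (ee G A' Y' : ℝ) := by
      rw [DrBlw_swap]
      push_cast
      calc (Y'.card : ℝ) * (α / 2 * Fintype.card V) = ∑ _y ∈ Y', (α / 2 * Fintype.card V : ℝ) := by
            rw [sum_const, nsmul_eq_mul]
        _ ≤ ∑ y ∈ Y', ((A'.filter fun a => G.Adj a y).card : ℝ) := sum_le_sum (fun y _ => h4 y)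
    have h6 : (Y'.card : ℝ) * (α / 2 * Fintype.card V) ≤
        (8 * s / 100 * Fintype.card V) * (α / 2 * Fintype.card V) := by
      calc (Y'.card : ℝ) * (α / 2 * Fintype.card V) ≤ 4 * γ1 * (Fintype.card V : ℝ) ^ 2 :=
            h5.trans h3
        _ ≤ 4 * (s * α / 100) * (Fintype.card V : ℝ) ^ 2 :=
            mul_le_mul_of_nonneg_right (by linarith) (by positivity)
        _ = (8 * s / 100 * Fintype.card V) * (α / 2 * Fintype.card V) := by ring
    have h7 : (Y'.card : ℝ) ≤ 8 * s / 100 * Fintype.card V :=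
      le_of_mul_le_mul_right h6 (by positivity)
    have h8 : x2 * (Y'.card : ℝ) ≤ Y'.card := by
      have : (0 : ℝ) ≤ Y'.card := Nat.cast_nonneg _
      nlinarith
    have h9 : x2 * (12 * s / 100 * Fintype.card V) ≤ 12 * s / 100 * Fintype.card V := by
      have : (0 : ℝ) ≤ 12 * s / 100 * Fintype.card V := by positivity
      nlinarith
    have h10 : 0 ≤ s * (Fintype.card V : ℝ) := by positivity
    nlinarith

end Pool.Agent.H71.DR
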