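import Mathlib
import Pool.Agent.H71.DR.Defs
import Pool.Agent.H71.DX.Rnd

/-!
FAM: a random set `Z` of density `(M - 1) / (2 M)` samples all the sets
`T_{b,i} = {a : #{j : G.Adj (b j) a} ≤ i}`, `b : Fin K → V`, `i ≤ K` (for `i > K` the set is `T_{b,K}`).

Proof of `rndF`: as `rndZ` in `H71/DX/Rnd.lean` (proved): `E = V`, `Q = 2 M`, `I v = {i : i < M - 1}`,
`Z = {v : f v ∈ I v}`, `tail2x` with `D = T_{b,i}` for the `(K + 1) n ^ K` pairs `(b, i)` (index type
`(Fin K → V) × Fin (K + 1)`), `x = min η 1`: the number of bad `f` is at most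
`Q ^ n (K + 1) n ^ K 2 exp (- x² n / 4) < Q ^ n` for `n ≥ n0`. `Rnd_good` gives `Z`.
`smpl_card`: any constant `b` and `i = K` (`V` is not empty, or both sides vanish).
`smpl_deg`: `b` constant `= v`, `i = 0`, `K ≥ 1`: the set is `{a : ¬ G.Adj v a}`; subtract from `smpl_card`.
`smpl_compl`: `Xᶜ` contains the elements of `T_{b,i}` that are not in `X`.
`smpl_mono`: clear.
-/

set_option autoImplicit false

namespace Pool.Agent.H71.DR

open Finset Classical
open Pool.Agent.H71.DN Pool.Agent.H71.DX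

theorem Fam_num (K : ℕ) (c : ℝ) (hc : 0 < c) :
    ∃ n0 : ℕ, ∀ n : ℕ, n0 ≤ n → 1 ≤ n ∧
      ((n : ℝ) ^ K * (K + 1)) * (2 * Real.exp (-(c * n))) < 1 := by
  obtain ⟨A, hA⟩ : ∃ A : ℝ, A = 2 * (K + 1) * (K + 1).factorial / c ^ (K + 1) := ⟨_, rfl⟩
  refine ⟨⌈A⌉₊ + 1, fun n hn => ⟨by omega, ?_⟩⟩
  have h1 : A < n := by
    have h2 := Nat.le_ceil A
    have h3 : ((⌈A⌉₊ + 1 : ℕ) : ℝ) ≤ n := by exact_mod_cast hn
    push_cast at h3
    linarith
  have hn0 : (0 : ℝ) < n := by
    have : 0 < n := by omega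
    exact_mod_cast this
  have hcn : 0 ≤ c * n := by positivity
  have h4 := Real.pow_div_factorial_le_exp (c * n) hcn (K + 1)
  have hF : (0 : ℝ) < (K + 1).factorial := by exact_mod_cast Nat.factorial_pos _
  rw [div_le_iff₀ hF] at h4
  rw [hA, div_lt_iff₀ (by positivity)] at h1
  have hE := Real.exp_pos (c * n)
  rw [Real.exp_neg, show ((n : ℝ) ^ K * (K + 1)) * (2 * (Real.exp (c * n))⁻¹) =
    ((n : ℝ) ^ K * (K + 1) * 2) / Real.exp (c * n) by rw [div_eq_mul_inv]; ring, div_lt_one hE]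
  obtain ⟨F, hF'⟩ : ∃ F : ℝ, F = ((K + 1).factorial : ℝ) := ⟨_, rfl⟩
  rw [← hF'] at hF h4 h1
  have h5 : (n : ℝ) ^ K * (2 * (K + 1) * F) < (n : ℝ) ^ K * (n * c ^ (K + 1)) :=
    mul_lt_mul_of_pos_left h1 (by positivity)
  have h6 : (n : ℝ) ^ K * (n * c ^ (K + 1)) = (c * n) ^ (K + 1) := by
    rw [mul_pow, pow_succ (n : ℝ) K]
    ring
  rw [h6] at h5
  have h7 : (n : ℝ) ^ K * (K + 1) * 2 * F < Real.exp (c * n) * F := by
    calc (n : ℝ) ^ K * (K + 1) * 2 * F = (n : ℝ) ^ K * (2 * (K + 1) * F) := by ring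
      _ < (c * n) ^ (K + 1) := h5
      _ ≤ _ := h4
  exact lt_of_mul_lt_mul_right h7 hF.le

/-- the set sampled -/
noncomputable def FamT {V : Type} [Fintype V] (G : SimpleGraph V) {K : ℕ} (b : Fin K → V) (i : ℕ) :
    Finset V :=
  univ.filter fun a => (univ.filter fun j => G.Adj (b j) a).card ≤ i

theorem FamT_big {V : Type} [Fintype V] (G : SimpleGraph V) {K : ℕ} (b : Fin K → V) (i : ℕ)
    (hi : K ≤ i) (a : V) : (univ.filter fun j => G.Adj (b j) a).card ≤ i := by
  have h := Finset.card_le_univ (univ.filter fun j => G.Adj (b j) a)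
  rw [Fintype.card_fin] at h
  exact h.trans hi

theorem FamT_min {V : Type} [Fintype V] (G : SimpleGraph V) {K : ℕ} (b : Fin K → V) (i : ℕ)
    (a : V) : (univ.filter fun j => G.Adj (b j) a).card ≤ i ↔
      (univ.filter fun j => G.Adj (b j) a).card ≤ min i K := by
  have h := FamT_big G b K le_rfl a
  constructor
  · intro h1
    exact le_min h1 h
  · intro h1
    exact h1.trans (min_le_left _ _)

theorem rndF (M : ℕ) (hM : 2 ≤ M) (K : ℕ) (η : ℝ) (hη : 0 < η) :
    ∃ n0 : ℕ, ∀ (V : Type) [Fintype V] (G : SimpleGraph V), n0 ≤ Fintype.card V →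
      ∃ Z : Finset V, Smpl G Z ((M - 1) / (2 * M)) η K := by
  obtain ⟨n0, hn0⟩ := Fam_num K ((min η 1) ^ 2 / 4) (by positivity)
  refine ⟨n0, fun V _ G hV => ?_⟩
  obtain ⟨n, hn⟩ : ∃ n : ℕ, n = Fintype.card V := ⟨_, rfl⟩
  rw [← hn] at hV
  obtain ⟨hn1, hnum⟩ := hn0 n hV
  obtain ⟨x, hx⟩ : ∃ x : ℝ, x = min η 1 := ⟨_, rfl⟩
  have hx0 : 0 ≤ x := by rw [hx]; positivity
  have hx1 : x ≤ 1 := by rw [hx]; exact min_le_right _ _
  have hxη : x ≤ η := by rw [hx]; exact min_le_left _ _
  rw [← hx] at hnum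
  have hn1' : (1 : ℝ) ≤ n := by exact_mod_cast hn1
  have hM0 : (0 : ℝ) < M := by
    have : 0 < M := by omega
    exact_mod_cast this
  obtain ⟨D, hD⟩ : ∃ D : (Fin K → V) × Fin (K + 1) → Finset V, D = fun o =>
    FamT G o.1 (o.2 : ℕ) := ⟨_, rfl⟩
  obtain ⟨B, hB⟩ : ∃ B : (Fin K → V) × Fin (K + 1) → Finset (V → Fin (2 * M)), B = fun o =>
    univ.filter fun f : V → Fin (2 * M) =>
      x * (n : ℝ) < |(((D o).filter fun e => f e ∈ Iv (2 * M) 0 (M - 1)).card : ℝ) -
        (∑ e ∈ D o, ((Iv (2 * M) 0 (M - 1)).card : ℝ)) / (2 * M : ℕ)| := ⟨_, rfl⟩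
  have hBc : ∀ o, ((B o).card : ℝ) ≤
      2 * ((2 * M : ℕ) : ℝ) ^ Fintype.card V * Real.exp (-(x ^ 2 * n / 4)) := by
    intro o
    have h := tail2x (E := V) (2 * M) (by omega) (D o) (fun _ => Iv (2 * M) 0 (M - 1)) x n hx0 hx1
      (by
        rw [hn]
        exact_mod_cast Finset.card_le_univ _)
    rw [hB]
    refine (le_of_eq ?_).trans h
    refine congrArg (fun k : ℕ => (k : ℝ)) (congrArg Finset.card ?_)
    ext f
    simp only [Finset.mem_filter, Finset.mem_univ, true_and]
  obtain ⟨f, hf⟩ := Rnd_good (E := V) (2 * M) (univ : Finset ((Fin K → V) × Fin (K + 1))) B (by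
    refine lt_of_le_of_lt (Finset.sum_le_sum fun o _ => hBc o) ?_
    rw [Finset.sum_const, Finset.card_univ, Fintype.card_prod, Fintype.card_fun, Fintype.card_fin,
      Fintype.card_fin, nsmul_eq_mul, ← hn]
    push_cast
    obtain ⟨Ω, hΩ⟩ : ∃ Ω : ℝ, Ω = (2 * (M : ℝ)) ^ n := ⟨_, rfl⟩
    have hΩp : 0 < Ω := by rw [hΩ]; positivity
    rw [← hΩ]
    have he : Real.exp (-(x ^ 2 * n / 4)) = Real.exp (-(x ^ 2 / 4 * n)) := by
      congr 1
      ring
    rw [he]
    have h4 := mul_lt_mul_of_pos_left hnum hΩp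
    linarith)
  have hIc : ((Iv (2 * M) 0 (M - 1)).card : ℝ) = (M : ℝ) - 1 := by
    rw [Rnd_Iv_card _ _ _ (by omega), Nat.sub_zero, Nat.cast_sub (by omega)]
    simp
  have hgen : ∀ o, |(((D o).filter fun e => f e ∈ Iv (2 * M) 0 (M - 1)).card : ℝ) -
      (M - 1) / (2 * M) * (D o).card| ≤ η * n := by
    intro o
    have h := hf o (Finset.mem_univ _)
    rw [hB] at h
    simp only [Finset.mem_filter, Finset.mem_univ, true_and, not_lt] at h
    rw [Finset.sum_const, nsmul_eq_mul, hIc] at h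
    have h5 : (M - 1 : ℝ) / (2 * M) * (D o).card = (D o).card * (M - 1) / (2 * M : ℕ) := by
      push_cast
      ring
    rw [h5]
    exact h.trans (mul_le_mul_of_nonneg_right hxη (by linarith))
  refine ⟨univ.filter fun v => f v ∈ Iv (2 * M) 0 (M - 1), ?_⟩
  intro b i
  have h := hgen (b, ⟨min i K, by have := min_le_right i K; omega⟩)
  rw [hD] at h
  simp only at h
  have e1 : (univ.filter fun a => (univ.filter fun j => G.Adj (b j) a).card ≤ i) =
      FamT G b (min i K) := by
    unfold FamT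
    ext a
    simp only [Finset.mem_filter, Finset.mem_univ, true_and]
    exact FamT_min G b i a
  have e2 : ((univ.filter fun v => f v ∈ Iv (2 * M) 0 (M - 1)).filter fun a =>
      (univ.filter fun j => G.Adj (b j) a).card ≤ i) =
      (FamT G b (min i K)).filter fun e => f e ∈ Iv (2 * M) 0 (M - 1) := by
    unfold FamT
    ext a
    simp only [Finset.mem_filter, Finset.mem_univ, true_and]
    rw [FamT_min G b i a]
    exact and_comm
  rw [e1, e2, ← hn]
  exact h

theorem smpl_card {V : Type} [Fintype V] (G : SimpleGraph V) (X : Finset V) (x η : ℝ) (K : ℕ)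
    (h : Smpl G X x η K) :
    |(X.card : ℝ) - x * Fintype.card V| ≤ η * Fintype.card V := by
  rcases isEmpty_or_nonempty V with hV | hV
  · rw [Fintype.card_eq_zero, Finset.eq_empty_of_isEmpty X]
    simp
  · obtain ⟨v⟩ := hV
    have h1 := h (fun _ => v) K
    have e1 : (univ.filter fun a => (univ.filter fun _ : Fin K => G.Adj v a).card ≤ K) =
        (univ : Finset V) := by
      ext a
      simp only [Finset.mem_filter, Finset.mem_univ, true_and, iff_true]
      exact FamT_big G (fun _ : Fin K => v) K le_rfl a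
    have e2 : (X.filter fun a => (univ.filter fun _ : Fin K => G.Adj v a).card ≤ K) = X := by
      ext a
      simp only [Finset.mem_filter, and_iff_left_iff_imp]
      intro _
      exact FamT_big G (fun _ : Fin K => v) K le_rfl a
    rw [e1, e2, Finset.card_univ] at h1
    exact h1

theorem smpl_deg {V : Type} [Fintype V] (G : SimpleGraph V) (X : Finset V) (x η : ℝ) (K : ℕ)
    (hK : 1 ≤ K) (h : Smpl G X x η K) (v : V) :
    |((univ.filter fun u => G.Adj v u ∧ u ∈ X).card : ℝ) - x * dg G v| ≤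
      2 * η * Fintype.card V := by
  have h0 := smpl_card G X x η K h
  have h1 := h (fun _ => v) 0
  have hP : ∀ a, (univ.filter fun _ : Fin K => G.Adj v a).card ≤ 0 ↔ ¬ G.Adj v a := by
    intro a
    rw [Nat.le_zero, Finset.card_eq_zero, Finset.filter_eq_empty_iff]
    constructor
    · intro h2
      exact h2 (Finset.mem_univ (⟨0, hK⟩ : Fin K))
    · intro h2 _ _
      exact h2
  have e1 : (univ.filter fun a => (univ.filter fun _ : Fin K => G.Adj v a).card ≤ 0) =
      univ.filter fun a => ¬ G.Adj v a := by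
    ext a
    simp only [Finset.mem_filter, Finset.mem_univ, true_and]
    exact hP a
  have e2 : (X.filter fun a => (univ.filter fun _ : Fin K => G.Adj v a).card ≤ 0) =
      X.filter fun a => ¬ G.Adj v a := by
    ext a
    simp only [Finset.mem_filter]
    rw [hP a]
  rw [e1, e2] at h1
  have e3 : (univ.filter fun u => G.Adj v u ∧ u ∈ X) = X.filter fun u => G.Adj v u := by
    ext u
    simp only [Finset.mem_filter, Finset.mem_univ, true_and]
    exact and_comm
  have e4 : ((X.filter fun u => G.Adj v u).card : ℝ) + ((X.filter fun a => ¬ G.Adj v a).card : ℝ) =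
      X.card := by
    exact_mod_cast Finset.card_filter_add_card_filter_not (s := X) (fun u => G.Adj v u)
  have e5 : (dg G v : ℝ) + ((univ.filter fun a => ¬ G.Adj v a).card : ℝ) = Fintype.card V := by
    unfold dg
    rw [← Finset.card_univ]
    exact_mod_cast Finset.card_filter_add_card_filter_not (s := (univ : Finset V))
      (fun u => G.Adj v u)
  rw [e3]
  have e6 : ((X.filter fun u => G.Adj v u).card : ℝ) - x * dg G v =
      ((X.card : ℝ) - x * Fintype.card V) - (((X.filter fun a => ¬ G.Adj v a).card : ℝ) -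
        x * ((univ.filter fun a => ¬ G.Adj v a).card : ℝ)) := by
    rw [← e4, ← e5]
    ring
  rw [e6]
  have h3 := abs_sub ((X.card : ℝ) - x * Fintype.card V)
    (((X.filter fun a => ¬ G.Adj v a).card : ℝ) -
        x * ((univ.filter fun a => ¬ G.Adj v a).card : ℝ))
  linarith

theorem smpl_compl {V : Type} [Fintype V] (G : SimpleGraph V) (X : Finset V) (x η : ℝ) (K : ℕ)
    (h : Smpl G X x η K) : Smpl G (univ \ X) (1 - x) η K := by
  intro b i
  have h1 := h b i
  have e1 : (((univ \ X).filter fun a => (univ.filter fun j => G.Adj (b j) a).card ≤ i).card : ℝ) +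
      ((X.filter fun a => (univ.filter fun j => G.Adj (b j) a).card ≤ i).card : ℝ) =
      ((univ.filter fun a => (univ.filter fun j => G.Adj (b j) a).card ≤ i).card : ℝ) := by
    have e2 : (univ.filter fun a => (univ.filter fun j => G.Adj (b j) a).card ≤ i) =
        ((univ \ X).filter fun a => (univ.filter fun j => G.Adj (b j) a).card ≤ i) ∪
        (X.filter fun a => (univ.filter fun j => G.Adj (b j) a).card ≤ i) := by
      rw [← Finset.filter_union, Finset.sdiff_union_of_subset (Finset.subset_univ X)]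
    rw [e2, Finset.card_union_of_disjoint]
    · push_cast
      ring
    · exact Finset.disjoint_filter_filter Finset.sdiff_disjoint
  rw [abs_sub_comm] at h1
  refine (le_of_eq ?_).trans h1
  congr 1
  rw [← e1]
  ring

theorem smpl_mono {V : Type} [Fintype V] (G : SimpleGraph V) (X : Finset V) (x η η' : ℝ) (K : ℕ)
    (hη : η ≤ η') (h : Smpl G X x η K) : Smpl G X x η' K := by
  intro b i
  exact (h b i).trans (mul_le_mul_of_nonneg_right hη (Nat.cast_nonneg _))

end Pool.Agent.H71.DR
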