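import Mathlib
import Pool.Agent.H71.DR.Blw
import Pool.Agent.H71.DR.Fam

/-!
GZX: `gz G Z` (no edges inside `Z`) expands, if `G` does and `Z` samples with density `z = 1/2 - c`.

Notation: `n = #V`, `W = univ \ Z`, `w = 1/2 + c`, `z ≥ 7/16`; `e := min (min ν c) α / 1000` (the small error), `s := μ := e`,
`lam := min lam' (e² )` with `lam'` from `reld` (for this `s`), `η0 := min η0' (e)` (and `≤ c α / 4`), `K` from `reld`,
`ν' := min (min ν c) α / 100`.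
`deg`: for `v ∉ Z` `dg (gz G Z) v = dg G v ≥ α n`; for `v ∈ Z` it is the number of neighbours in `W`, at least
 `w dg G v - 2 η n ≥ (1/2 + c) α n - 2 η n ≥ (α/2) n` (`smpl_deg` for `W`, `smpl_compl`).
`gro`: let `A` with `(α/8) n ≤ #A ≤ (1 - α/16) n` and `ee (gz G Z) A Y ≤ lam n²`. `A_W = A ∩ W` etc.; all pairs with one
 vertex in `W` are the same for `gz G Z` and `G`: `ee G A_W Y_W`, `ee G A_W Y_Z`, `ee G A_Z Y_W ≤ lam n²`.
 `a_W = #A_W / (w n)`, `a_Z = #A_Z / (z n)`, `y_W`, `y_Z` similarly; all are `≤ 1 + 3 e` (`smpl_card`). To show: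
 `w a_W + z a_Z + w y_W + z y_Z + ν' ≤ 1`.
 (R) `reld`: if `a_W ≥ τ + s` then `y_W ≤ max (3 s) (1 + s - ν - a_W)` and `y_Z ≤ max (3 s) (1 + s - ν - a_W)`; if
 `a_Z ≥ τ + s` then `y_W ≤ max (3 s) (1 + s - ν - a_Z)`.
 Case 1: `a_W, a_Z ≥ τ + s`.
  1a `y_W ≤ 1 + s - ν - a_W`, `y_W ≤ 1 + s - ν - a_Z`, `y_Z ≤ 1 + s - ν - a_W`: the sum is `≤ 1 + s - ν`: if `a_Z ≥ a_W` use
     `w y_W ≤ w (1 + s - ν) - w a_Z`, `z y_Z ≤ z (1 + s - ν) - z a_W` and `(w - z)(a_W - a_Z) ≤ 0`; if `a_W ≥ a_Z` use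
     `w y_W ≤ w (1 + s - ν) - w a_W` and `z (a_Z - a_W) ≤ 0`.
  1b `y_W ≤ 1 + s - ν - a_W`, `y_Z ≤ 3 s`: the sum is `≤ z a_Z + w (1 + s - ν) + 3 s ≤ 1 - w ν + 10 e`.
  1c `y_W ≤ 3 s`, `y_Z ≤ 1 + s - ν - a_W`: `≤ (w - z) a_W + z a_Z + 3 s + z (1 + s - ν) ≤ 1 - z ν + 10 e`.
  1d `y_W, y_Z ≤ 3 s`: `≤ #A / n + 3 s ≤ 1 - α/16 + 3 s`.
  (If one of the two bounds for `y_W` is `3 s` we are in 1c or 1d.)
 Case 2: `a_W < τ + s`. Then `z a_Z ≥ α/8 - w (τ + s) ≥ α/10`, so `a_Z ≥ τ + s`.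
  2a `#A_W ≥ μ n`: every `a ∈ A_W` has at least `z α n - 2 η n` neighbours in `Z`, so at least
     `z α n - 2 η n - (#Z - #Y_Z)` in `Y_Z`; `ee G A_W Y_Z ≤ lam n²` gives `z y_Z ≤ z (1 - α) + 3 η + lam / μ ≤ z (1 - α) + 4 e`.
     If `y_W ≤ 1 + s - ν - a_Z`: the sum is `≤ w (τ + s) + z a_Z + w (1 + s - ν) - w a_Z + z (1 - α) + 4 e`
     `≤ 1 - w ν + w τ - z α + 10 e ≤ 1 - w ν + 10 e` (`a_Z ≥ 0`, `τ ≤ α/32`). If `y_W ≤ 3 s`: `≤ 2 z + w τ - z α + 20 e ≤ 1 - 2 c + 20 e`.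
  2b `#A_W < μ n`: `z y_Z ≤ z + η`. If `y_W ≤ 1 + s - ν - a_Z`: `≤ μ + z a_Z + w (1 + s - ν) - w a_Z + z + η ≤ 1 - w ν + 10 e`. If
     `y_W ≤ 3 s`: `≤ μ + z a_Z + 3 s + z + η ≤ 2 z + 20 e = 1 - 2 c + 20 e`.
 Case 3: `a_Z < τ + s`, so `w a_W ≥ α/8 - z (τ + s) ≥ α/10`, `a_W ≥ τ + s`. `y_W, y_Z ≤ y := max (3 s) (1 + s - ν - a_W)`: the
  sum is `≤ w a_W + z (τ + s) + y`; for `y = 1 + s - ν - a_W` it is `≤ 1 + s - ν` (`z a_W ≥ z (τ + s)`), for `y = 3 s` it is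
  `≤ w + z τ + 10 e ≤ 1 - 1/4 + 10 e`.
-/

set_option autoImplicit false

namespace Pool.Agent.H71.DR

open Finset Classical
open Pool.Agent.H71.DN Pool.Agent.H71.DX

theorem Gzx_num {c α τ ν e a1 a2 y1 y2 : ℝ} (hα : 0 < α) (hα1 : α ≤ 1) (hτ0 : 0 < τ)
    (hτ : τ ≤ α / 32) (hν : 0 < ν) (hc : 0 < c) (hc1 : c ≤ 1 / 16) (he : 0 < e)
    (heν : 1000 * e ≤ ν) (hec : 1000 * e ≤ c) (heα : 1000 * e ≤ α)
    (ha2 : 0 ≤ a2)
    (H1 : α / 8 ≤ (1 / 2 + c) * a1 + (1 / 2 - c) * a2)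
    (H2 : (1 / 2 + c) * a1 + (1 / 2 - c) * a2 ≤ 1 - α / 16)
    (RWW : τ + e ≤ a1 → a1 + y1 + ν ≤ 1 + e ∨ (1 / 2 + c) * y1 ≤ e)
    (RWZ : τ + e ≤ a1 → a1 + y2 + ν ≤ 1 + e ∨ (1 / 2 - c) * y2 ≤ e)
    (RZW : τ + e ≤ a2 → a2 + y1 + ν ≤ 1 + e ∨ (1 / 2 + c) * y1 ≤ e)
    (C1 : (1 / 2 + c) * a1 ≤ 1 / 2 + c + e) (C2 : (1 / 2 - c) * a2 ≤ 1 / 2 - c + e)
    (D2 : (1 / 2 - c) * y2 ≤ 1 / 2 - c + e)
    (E : e ≤ (1 / 2 + c) * a1 → (1 / 2 - c) * y2 ≤ (1 / 2 - c) * (1 - α) + 4 * e) :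
    (1 / 2 + c) * a1 + (1 / 2 - c) * a2 + ((1 / 2 + c) * y1 + (1 / 2 - c) * y2) + 10 * e ≤ 1 := by
  have hw : 0 < 1 / 2 + c := by linarith
  have hz : 0 < 1 / 2 - c := by linarith
  have hce : 0 ≤ c * e := by positivity
  have hce1 : c * e ≤ e / 16 := by nlinarith
  have hcν : 0 ≤ c * ν := by positivity
  have hcν1 : c * ν ≤ ν / 16 := by nlinarith
  have hcτ : 0 ≤ c * τ := by positivity
  have hcτ1 : c * τ ≤ τ / 16 := by nlinarith
  have hcα : 0 ≤ c * α := by positivity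
  have hcα1 : c * α ≤ α / 16 := by nlinarith
  have hca2 : 0 ≤ c * a2 := by positivity
  have ha1e : a1 ≤ 1 + 2 * e := by
    by_contra hcon
    push Not at hcon
    nlinarith [mul_lt_mul_of_pos_left hcon hw]
  have hca1 : c * a1 ≤ c * (1 + 2 * e) := mul_le_mul_of_nonneg_left ha1e hc.le
  by_cases h1 : τ + e ≤ a1
  · by_cases h2 : τ + e ≤ a2
    · -- case 1
      rcases RWW h1 with r1 | r1
      · rcases RWZ h1 with r2 | r2
        · rcases RZW h2 with r3 | r3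
          · rcases le_total a1 a2 with h | h
            · have k1 := mul_le_mul_of_nonneg_left r3 hw.le
              have k2 := mul_le_mul_of_nonneg_left r2 hz.le
              have k3 := mul_le_mul_of_nonneg_left h hc.le
              linarith
            · have k1 := mul_le_mul_of_nonneg_left r1 hw.le
              have k2 := mul_le_mul_of_nonneg_left r2 hz.le
              have k3 := mul_le_mul_of_nonneg_left h hz.le
              linarith
          · have k2 := mul_le_mul_of_nonneg_left r2 hz.le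
            linarith
        · have k1 := mul_le_mul_of_nonneg_left r1 hw.le
          linarith
      · rcases RWZ h1 with r2 | r2
        · have k2 := mul_le_mul_of_nonneg_left r2 hz.le
          linarith
        · linarith
    · -- case 3
      push Not at h2
      have k0 := mul_le_mul_of_nonneg_left h2.le hz.le
      have k4 := mul_le_mul_of_nonneg_left h1 hz.le
      rcases RWW h1 with r1 | r1
      · rcases RWZ h1 with r2 | r2
        · have k1 := mul_le_mul_of_nonneg_left r1 hw.le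
          have k2 := mul_le_mul_of_nonneg_left r2 hz.le
          linarith
        · have k1 := mul_le_mul_of_nonneg_left r1 hw.le
          linarith
      · rcases RWZ h1 with r2 | r2
        · have k2 := mul_le_mul_of_nonneg_left r2 hz.le
          linarith
        · linarith
  · -- case 2
    push Not at h1
    have k0 := mul_le_mul_of_nonneg_left h1.le hw.le
    have h2 : τ + e ≤ a2 := by
      nlinarith
    rcases RZW h2 with r3 | r3
    · have k1 := mul_le_mul_of_nonneg_left r3 hw.le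
      by_cases hE : e ≤ (1 / 2 + c) * a1
      · have := E hE
        linarith
      · push Not at hE
        linarith
    · by_cases hE : e ≤ (1 / 2 + c) * a1
      · have := E hE
        linarith
      · push Not at hE
        linarith

theorem Gzx_deg {V : Type} [Fintype V] (G : SimpleGraph V) (Z : Finset V) (v : V) :
    (univ.filter fun u => G.Adj v u ∧ u ∈ univ \ Z).card ≤ dg (gz G Z) v := by
  unfold dg
  refine card_le_card ?_
  intro u hu
  rw [mem_filter] at hu ⊢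
  refine ⟨mem_univ _, hu.2.1, fun h => ?_⟩
  exact (mem_sdiff.1 hu.2.2).2 h.2

theorem Gzx_ee {V : Type} [Fintype V] (G : SimpleGraph V) (Z A Y A' Y' : Finset V)
    (hA : A' ⊆ A) (hY : Y' ⊆ Y) (h : ∀ a ∈ A', ∀ y ∈ Y', ¬ (a ∈ Z ∧ y ∈ Z)) :
    ee G A' Y' ≤ ee (gz G Z) A Y := by
  unfold ee
  refine card_le_card ?_
  intro x hx
  rw [mem_filter, mem_product] at hx ⊢
  exact ⟨⟨hA hx.1.1, hY hx.1.2⟩, hx.2, h _ hx.1.1 _ hx.1.2⟩

theorem Gzx_sum {V : Type} [Fintype V] (G : SimpleGraph V) (A Y : Finset V) :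
    ee G A Y = ∑ a ∈ A, (Y.filter fun y => G.Adj a y).card := by
  unfold ee
  rw [card_filter, sum_product]
  refine sum_congr rfl fun a _ => ?_
  rw [card_filter]

theorem Gzx_cnt {V : Type} [Fintype V] (G : SimpleGraph V) (Z A Y : Finset V) (d : ℝ)
    (hYZ : Y ⊆ Z)
    (hd : ∀ a ∈ A, d ≤ ((univ.filter fun u => G.Adj a u ∧ u ∈ Z).card : ℝ)) :
    (A.card : ℝ) * (d - (Z.card - Y.card)) ≤ (ee G A Y : ℝ) := by
  rw [Gzx_sum, Nat.cast_sum]
  have h : ∑ a ∈ A, (d - ((Z.card : ℝ) - Y.card)) ≤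
      ∑ a ∈ A, ((Y.filter fun y => G.Adj a y).card : ℝ) := by
    refine sum_le_sum fun a ha => ?_
    have h1 := hd a ha
    have h2 : (univ.filter fun u => G.Adj a u ∧ u ∈ Z) ⊆
        (Y.filter fun y => G.Adj a y) ∪ (Z \ Y) := by
      intro u hu
      rw [mem_filter] at hu
      rw [mem_union, mem_filter, mem_sdiff]
      by_cases huY : u ∈ Y
      · exact Or.inl ⟨huY, hu.2.1⟩
      · exact Or.inr ⟨hu.2.2, huY⟩
    have h3 := (card_le_card h2).trans (card_union_le _ _)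
    have h4 := card_sdiff_add_card_eq_card hYZ
    have h5 : ((univ.filter fun u => G.Adj a u ∧ u ∈ Z).card : ℝ) ≤
        (Y.filter fun y => G.Adj a y).card + (Z \ Y).card := by exact_mod_cast h3
    have h6 : ((Z \ Y).card : ℝ) + Y.card = Z.card := by exact_mod_cast h4
    linarith
  rw [sum_const, nsmul_eq_mul] at h
  exact h

theorem gzx (α τ ν lam0 c : ℝ) (hα : 0 < α) (hα1 : α ≤ 1) (hτ0 : 0 < τ) (hτ : τ ≤ α / 32)
    (hν : 0 < ν) (hν1 : ν ≤ 1) (hl : 0 < lam0) (hc : 0 < c) (hc1 : c ≤ 1 / 16) :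
    ∃ (ν' lam η0 : ℝ) (K : ℕ), 0 < ν' ∧ 0 < lam ∧ 0 < η0 ∧ 1 ≤ K ∧
      ∀ (V : Type) [Fintype V] (G : SimpleGraph V) (Z : Finset V) (η : ℝ),
        1 ≤ Fintype.card V → (∀ v, α * Fintype.card V ≤ (dg G v : ℝ)) → XP G τ ν lam0 → 0 ≤ η →
        η ≤ η0 → Smpl G Z (1 / 2 - c) η K → Xc (gz G Z) (α / 2) ν' lam := by
  have hm0 : 0 < min (min ν c) α := lt_min (lt_min hν hc) hα
  set e : ℝ := min (min ν c) α / 1000 with hedef
  have he : 0 < e := by rw [hedef]; positivity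
  have heν : 1000 * e ≤ ν := by
    rw [hedef]
    have : min (min ν c) α ≤ ν := (min_le_left _ _).trans (min_le_left _ _)
    linarith
  have hec : 1000 * e ≤ c := by
    rw [hedef]
    have : min (min ν c) α ≤ c := (min_le_left _ _).trans (min_le_right _ _)
    linarith
  have heα : 1000 * e ≤ α := by
    rw [hedef]
    have : min (min ν c) α ≤ α := min_le_right _ _
    linarith
  have he1 : e ≤ 1 := by linarith
  obtain ⟨lam', η0', K, hlam', hη0', hK, hrel⟩ :=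
    reld α τ ν lam0 e hα hα1 (by linarith) hl he he1
  refine ⟨10 * e, min lam' (e ^ 2), min η0' (min e (c * α / 4)), K, by positivity,
    lt_min hlam' (by positivity), lt_min hη0' (lt_min he (by positivity)), hK, ?_⟩
  intro V _ G Z η hV hdeg hXP hη hη0 hZ
  have hη1 : η ≤ η0' := hη0.trans (min_le_left _ _)
  have hη2 : η ≤ e := hη0.trans ((min_le_right _ _).trans (min_le_left _ _))
  have hη3 : η ≤ c * α / 4 := hη0.trans ((min_le_right _ _).trans (min_le_right _ _))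
  have hn1 : (1 : ℝ) ≤ Fintype.card V := by exact_mod_cast hV
  have hW := smpl_compl G Z _ η K hZ
  have hww : (1 : ℝ) - (1 / 2 - c) = 1 / 2 + c := by ring
  rw [hww] at hW
  have hw : 0 < 1 / 2 + c := by linarith
  have hz : 0 < 1 / 2 - c := by linarith
  obtain ⟨n, hn⟩ : ∃ n : ℝ, n = (Fintype.card V : ℝ) := ⟨_, rfl⟩
  have hn0 : 0 < n := by rw [hn]; linarith
  refine ⟨fun v => ?_, fun A Y hA1 hA2 hAY => ?_⟩
  · have h1 := smpl_deg G (univ \ Z) _ η K hK hW v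
    have h2 : ((univ.filter fun u => G.Adj v u ∧ u ∈ univ \ Z).card : ℝ) ≤
        dg (gz G Z) v := by exact_mod_cast Gzx_deg G Z v
    have h3 := hdeg v
    have h4 := (abs_le.1 h1).1
    rw [← hn] at h3 h4 ⊢
    have h5 := mul_le_mul_of_nonneg_left h3 hw.le
    have h6 := mul_le_mul_of_nonneg_right hη3 hn0.le
    have h7 : 0 < c * α * n := by positivity
    linarith
  · have hee : ∀ A' Y' : Finset V, A' ⊆ A → Y' ⊆ Y → (∀ a ∈ A', ∀ y ∈ Y', ¬ (a ∈ Z ∧ y ∈ Z)) →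
        (ee G A' Y' : ℝ) ≤ lam' * (Fintype.card V : ℝ) ^ 2 ∧
        (ee G A' Y' : ℝ) ≤ e ^ 2 * (Fintype.card V : ℝ) ^ 2 := by
      intro A' Y' hA' hY' h
      have h1 : (ee G A' Y' : ℝ) ≤ ee (gz G Z) A Y := by
        exact_mod_cast Gzx_ee G Z A Y A' Y' hA' hY' h
      have h2 := h1.trans hAY
      have h3 : (0 : ℝ) ≤ (Fintype.card V : ℝ) ^ 2 := by positivity
      exact ⟨h2.trans (mul_le_mul_of_nonneg_right (min_le_left _ _) h3),
        h2.trans (mul_le_mul_of_nonneg_right (min_le_right _ _) h3)⟩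
    obtain ⟨AW, hAW⟩ : ∃ S, S = A.filter (fun v => v ∉ Z) := ⟨_, rfl⟩
    obtain ⟨AZ, hAZ⟩ : ∃ S, S = A.filter (fun v => v ∈ Z) := ⟨_, rfl⟩
    obtain ⟨YW, hYW⟩ : ∃ S, S = Y.filter (fun v => v ∉ Z) := ⟨_, rfl⟩
    obtain ⟨YZ, hYZ⟩ : ∃ S, S = Y.filter (fun v => v ∈ Z) := ⟨_, rfl⟩
    have mAW : ∀ v, v ∈ AW ↔ v ∈ A ∧ v ∉ Z := fun v => by rw [hAW, mem_filter]
    have mAZ : ∀ v, v ∈ AZ ↔ v ∈ A ∧ v ∈ Z := fun v => by rw [hAZ, mem_filter]
    have mYW : ∀ v, v ∈ YW ↔ v ∈ Y ∧ v ∉ Z := fun v => by rw [hYW, mem_filter]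
    have mYZ : ∀ v, v ∈ YZ ↔ v ∈ Y ∧ v ∈ Z := fun v => by rw [hYZ, mem_filter]
    have cA : (AZ.card : ℝ) + AW.card = A.card := by
      have := card_filter_add_card_filter_not (s := A) (fun v => v ∈ Z)
      rw [hAW, hAZ]
      exact_mod_cast this
    have cY : (YZ.card : ℝ) + YW.card = Y.card := by
      have := card_filter_add_card_filter_not (s := Y) (fun v => v ∈ Z)
      rw [hYW, hYZ]
      exact_mod_cast this
    have sAW : AW ⊆ A := fun v hv => ((mAW v).1 hv).1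
    have sAZ : AZ ⊆ A := fun v hv => ((mAZ v).1 hv).1
    have sYW : YW ⊆ Y := fun v hv => ((mYW v).1 hv).1
    have sYZ : YZ ⊆ Y := fun v hv => ((mYZ v).1 hv).1
    have tAW : AW ⊆ univ \ Z := fun v hv => mem_sdiff.2 ⟨mem_univ _, ((mAW v).1 hv).2⟩
    have tAZ : AZ ⊆ Z := fun v hv => ((mAZ v).1 hv).2
    have tYW : YW ⊆ univ \ Z := fun v hv => mem_sdiff.2 ⟨mem_univ _, ((mYW v).1 hv).2⟩
    have tYZ : YZ ⊆ Z := fun v hv => ((mYZ v).1 hv).2
    have eWW := hee AW YW sAW sYW (fun a ha y _ h => ((mAW a).1 ha).2 h.1)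
    have eWZ := hee AW YZ sAW sYZ (fun a ha y _ h => ((mAW a).1 ha).2 h.1)
    have eZW := hee AZ YW sAZ sYW (fun a _ y hy h => ((mYW y).1 hy).2 h.2)
    have rWW := hrel V G (univ \ Z) (univ \ Z) AW YW (1 / 2 + c) (1 / 2 + c) η hdeg hXP hη1
      (by linarith) (by linarith) (by linarith) (by linarith) hW hW tAW tYW eWW.1
    have rWZ := hrel V G (univ \ Z) Z AW YZ (1 / 2 + c) (1 / 2 - c) η hdeg hXP hη1
      (by linarith) (by linarith) (by linarith) (by linarith) hW hZ tAW tYZ eWZ.1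
    have rZW := hrel V G Z (univ \ Z) AZ YW (1 / 2 - c) (1 / 2 + c) η hdeg hXP hη1
      (by linarith) (by linarith) (by linarith) (by linarith) hZ hW tAZ tYW eZW.1
    have cW := (abs_le.1 (smpl_card G _ _ η K hW)).2
    have cZ := (abs_le.1 (smpl_card G _ _ η K hZ)).2
    have lAW : (AW.card : ℝ) ≤ (univ \ Z).card := by exact_mod_cast card_le_card tAW
    have lAZ : (AZ.card : ℝ) ≤ Z.card := by exact_mod_cast card_le_card tAZ
    have lYZ : (YZ.card : ℝ) ≤ Z.card := by exact_mod_cast card_le_card tYZ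
    have hcnt := Gzx_cnt G Z AW YZ ((1 / 2 - c) * (α * n) - 2 * η * n) tYZ (by
      intro a _
      have h1 := (abs_le.1 (smpl_deg G Z _ η K hK hZ a)).1
      have h2 := mul_le_mul_of_nonneg_left (hdeg a) hz.le
      rw [← hn] at h1 h2
      linarith)
    have hcnt2 := hcnt.trans eWZ.2
    have hηn := mul_le_mul_of_nonneg_right hη2 hn0.le
    rw [← hn] at rWW rWZ rZW cW cZ hA1 hA2 hcnt2 ⊢
    clear hcnt
    -- normalised variables
    have hwn : 0 < (1 / 2 + c) * n := by positivity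
    have hzn : 0 < (1 / 2 - c) * n := mul_pos hz hn0
    obtain ⟨a1, ha1⟩ : ∃ a1 : ℝ, (AW.card : ℝ) = (1 / 2 + c) * a1 * n :=
      ⟨AW.card / ((1 / 2 + c) * n), by field_simp⟩
    obtain ⟨a2, ha2⟩ : ∃ a2 : ℝ, (AZ.card : ℝ) = (1 / 2 - c) * a2 * n :=
      ⟨AZ.card / ((1 / 2 - c) * n), by
        rw [mul_comm (1 / 2 - c) (_ / _), mul_assoc, div_mul_cancel₀ _ hzn.ne']⟩
    obtain ⟨y1, hy1⟩ : ∃ y1 : ℝ, (YW.card : ℝ) = (1 / 2 + c) * y1 * n :=
      ⟨YW.card / ((1 / 2 + c) * n), by field_simp⟩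
    obtain ⟨y2, hy2⟩ : ∃ y2 : ℝ, (YZ.card : ℝ) = (1 / 2 - c) * y2 * n :=
      ⟨YZ.card / ((1 / 2 - c) * n), by
        rw [mul_comm (1 / 2 - c) (_ / _), mul_assoc, div_mul_cancel₀ _ hzn.ne']⟩
    have pa2 : 0 ≤ a2 := by
      by_contra hcon
      push Not at hcon
      have h1 : (1 / 2 - c) * n * a2 < 0 := mul_neg_of_pos_of_neg hzn hcon
      have h2 : (0 : ℝ) ≤ AZ.card := Nat.cast_nonneg _
      rw [ha2] at h2
      linarith
    rw [← cA] at hA1 hA2 ⊢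
    rw [← cY]
    rw [ha1] at rWW rWZ lAW hcnt2 hA1 hA2 ⊢
    rw [ha2] at rZW lAZ hA1 hA2 ⊢
    rw [hy1] at rWW rZW ⊢
    rw [hy2] at rWZ lYZ hcnt2 ⊢
    have dW : ∀ x : ℝ, (1 / 2 + c) * x * n / (1 / 2 + c) = x * n := fun x => by
      rw [mul_assoc]
      exact mul_div_cancel_left₀ _ hw.ne'
    have dZ : ∀ x : ℝ, (1 / 2 - c) * x * n / (1 / 2 - c) = x * n := fun x => by
      rw [mul_assoc]
      exact mul_div_cancel_left₀ _ hz.ne'
    rw [dW, dW] at rWW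
    rw [dW, dZ] at rWZ
    rw [dZ, dW] at rZW
    have hdv : ∀ x y : ℝ, x * n ≤ y * n → x ≤ y := fun x y h => le_of_mul_le_mul_right h hn0
    have RWW : τ + e ≤ a1 → a1 + y1 + ν ≤ 1 + e ∨ (1 / 2 + c) * y1 ≤ e := by
      intro h
      have h1 := mul_le_mul_of_nonneg_left h hwn.le
      rcases rWW (by linarith) with h2 | h2
      · exact Or.inl (hdv _ _ (by linarith))
      · exact Or.inr (hdv _ _ (by linarith))
    have RWZ : τ + e ≤ a1 → a1 + y2 + ν ≤ 1 + e ∨ (1 / 2 - c) * y2 ≤ e := by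
      intro h
      have h1 := mul_le_mul_of_nonneg_left h hwn.le
      rcases rWZ (by linarith) with h2 | h2
      · exact Or.inl (hdv _ _ (by linarith))
      · exact Or.inr (hdv _ _ (by linarith))
    have RZW : τ + e ≤ a2 → a2 + y1 + ν ≤ 1 + e ∨ (1 / 2 + c) * y1 ≤ e := by
      intro h
      have h1 := mul_le_mul_of_nonneg_left h hzn.le
      rcases rZW (by linarith) with h2 | h2
      · exact Or.inl (hdv _ _ (by linarith))
      · exact Or.inr (hdv _ _ (by linarith))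
    have E : e ≤ (1 / 2 + c) * a1 → (1 / 2 - c) * y2 ≤ (1 / 2 - c) * (1 - α) + 4 * e := by
      intro h
      by_contra hcon
      push Not at hcon
      have h1 := mul_lt_mul_of_pos_right hcon hn0
      have h2 : e * n ≤ (1 / 2 + c) * a1 * n := mul_le_mul_of_nonneg_right h hn0.le
      have h3 : e * n < (1 / 2 - c) * (α * n) - 2 * η * n - (↑(#Z) - (1 / 2 - c) * y2 * n) := by
        linarith
      have h4 : 0 < e * n := by positivity
      have h5 := mul_lt_mul' h2 h3 h4.le (lt_of_lt_of_le h4 h2)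
      have h6 : e * n * (e * n) = e ^ 2 * n ^ 2 := by ring
      linarith
    have key := Gzx_num (y1 := y1) (y2 := y2) hα hα1 hτ0 hτ hν hc hc1 he heν hec heα pa2
      (hdv _ _ (by linarith)) (hdv _ _ (by linarith)) RWW RWZ RZW (hdv _ _ (by linarith))
      (hdv _ _ (by linarith)) (hdv _ _ (by linarith)) E
    have hfin := mul_le_mul_of_nonneg_right key hn0.le
    linarith

end Pool.Agent.H71.DR
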