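import Mathlib
import Pool.Agent.H71.DR.Defs

/-! The numerical lemmas of `DR/Nm3.lean` (split for the build time). -/

set_option autoImplicit false

namespace Pool.Agent.H71.DR

open Finset Classical
open Pool.Agent.H71.DN Pool.Agent.H71.DX

theorem MQ3 (ε : ℝ) (hε : 0 < ε) (hε1 : ε ≤ 1 / 4) :
    ∃ (M Q J : ℕ) (c r : ℝ), 32 ≤ M ∧ 1 ≤ J ∧ (J + 1) * (M + 1) ≤ Q ∧ c = 1 / (2 * M) ∧
      r = ((M : ℝ) + 1) ^ 2 / (2 * M * Q) ∧ 64 * c ≤ ε ∧ c / 5000 ≤ r ∧ r ≤ 4 * c / 5000 ∧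
      3 * ε / 16 - r < J * r ∧ J * r ≤ 3 * ε / 16 ∧ ε * c / 16 ≤ 2 * (J : ℝ) / Q / 4 := by
  obtain ⟨M, hM⟩ : ∃ M : ℕ, M = ⌈32 / ε⌉₊ := ⟨_, rfl⟩
  have hM1 : 32 / ε ≤ (M : ℝ) := by
    rw [hM]
    exact Nat.le_ceil _
  have hM8 : 32 ≤ M * ε := by
    rw [div_le_iff₀ hε] at hM1
    exact hM1
  have hM32 : (32 : ℝ) ≤ M := by nlinarith
  have hM32' : 32 ≤ M := by exact_mod_cast hM32
  have hM0 : (0 : ℝ) < M := by linarith
  obtain ⟨Q, hQ⟩ : ∃ Q : ℕ, Q = 5000 * M ^ 2 := ⟨_, rfl⟩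
  have hQr : (Q : ℝ) = 5000 * (M : ℝ) ^ 2 := by
    rw [hQ]
    push_cast
    ring
  have hQ0 : (0 : ℝ) < Q := by
    rw [hQr]
    positivity
  obtain ⟨c, hc⟩ : ∃ c : ℝ, c = 1 / (2 * M) := ⟨_, rfl⟩
  have hcM : c * M = 1 / 2 := by
    rw [hc]
    field_simp
  have hc0 : 0 < c := by
    rw [hc]
    positivity
  obtain ⟨r, hr⟩ : ∃ r : ℝ, r = ((M : ℝ) + 1) ^ 2 / (2 * M * Q) := ⟨_, rfl⟩
  have hr0 : 0 < r := by
    rw [hr]
    positivity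
  have hrQ : r * (2 * M * Q) = ((M : ℝ) + 1) ^ 2 := by
    rw [hr]
    field_simp
  have hc16 : 64 * c ≤ ε := by
    have : 64 * c * M ≤ ε * M := by nlinarith
    exact le_of_mul_le_mul_right this hM0
  have hr1 : c / 5000 ≤ r := by
    rw [hr, hc, hQr, div_div, div_le_div_iff₀ (by positivity) (by positivity)]
    nlinarith [mul_pos hM0 hM0, mul_pos (mul_pos hM0 hM0) hM0]
  have hr2 : r ≤ 4 * c / 5000 := by
    rw [hr, hc, hQr, mul_one_div, div_div, div_le_div_iff₀ (by positivity) (by positivity)]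
    have h4 : ((M : ℝ) + 1) ^ 2 ≤ 4 * (M : ℝ) ^ 2 := by nlinarith
    nlinarith [mul_le_mul_of_nonneg_right h4 hM0.le]
  obtain ⟨J, hJ⟩ : ∃ J : ℕ, J = ⌊(3 * ε / 16) / r⌋₊ := ⟨_, rfl⟩
  have hJ1 : (J : ℝ) ≤ (3 * ε / 16) / r := by
    rw [hJ]
    exact Nat.floor_le (by positivity)
  have hJ2 : (3 * ε / 16) / r < J + 1 := by
    rw [hJ]
    exact Nat.lt_floor_add_one _
  have hJr1 : J * r ≤ 3 * ε / 16 := by
    rw [le_div_iff₀ hr0] at hJ1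
    exact hJ1
  have hJr2 : 3 * ε / 16 - r < J * r := by
    rw [div_lt_iff₀ hr0] at hJ2
    linarith
  have hrε : r ≤ ε / 16 := by linarith
  have hJp : 1 ≤ J := by
    by_contra hcon
    have h0 : J = 0 := by omega
    rw [h0] at hJr2
    push_cast at hJr2
    linarith
  refine ⟨M, Q, J, c, r, hM32', hJp, ?_, hc, hr, hc16, hr1, hr2, hJr2, hJr1, ?_⟩
  · have h1 : (J : ℝ) * (M + 1) ≤ Q / 4 := by
      have h2 : (J : ℝ) * r * (2 * M * Q) ≤ 3 * ε / 16 * (2 * M * Q) :=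
        mul_le_mul_of_nonneg_right hJr1 (by positivity)
      have h3 : (J : ℝ) * r * (2 * M * Q) = J * (M + 1) * (M + 1) := by
        rw [mul_assoc, hrQ]
        ring
      rw [h3] at h2
      have h4 : 3 * ε / 16 * (2 * M * Q) ≤ Q / 4 * (M + 1) := by
        have h5 : 3 * ε / 16 * (2 * M * Q) ≤ 3 / 32 * (M * Q) := by
          have : 0 ≤ (M : ℝ) * Q := by positivity
          nlinarith
        nlinarith [mul_pos hM0 hQ0]
      have h6 : (J : ℝ) * (M + 1) * (M + 1) ≤ Q / 4 * (M + 1) := h2.trans h4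
      exact le_of_mul_le_mul_right h6 (by linarith)
    have h2 : (M : ℝ) + 1 ≤ Q / 2 := by
      rw [hQr]
      nlinarith
    have h3 : ((J : ℝ) + 1) * (M + 1) ≤ Q := by nlinarith
    exact_mod_cast h3
  · have h1 : ε / 8 ≤ J * r := by linarith
    have h2 : ε / 8 * (2 * M * Q) ≤ J * ((M : ℝ) + 1) ^ 2 := by
      have := mul_le_mul_of_nonneg_right h1 (show 0 ≤ 2 * (M : ℝ) * Q by positivity)
      rwa [mul_assoc (J : ℝ) r, hrQ] at this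
    have h3 : ((M : ℝ) + 1) ^ 2 ≤ 4 * (M : ℝ) ^ 2 := by nlinarith
    have h4 : ε / 8 * (2 * M * Q) ≤ J * (4 * (M : ℝ) ^ 2) :=
      h2.trans (mul_le_mul_of_nonneg_left h3 (Nat.cast_nonneg J))
    have h5 : ε * Q ≤ 16 * (J * M) := by
      have : ε * Q * (M / 4) ≤ 16 * (J * M) * (M / 4) := by nlinarith
      exact le_of_mul_le_mul_right this (by positivity)
    rw [div_div, div_le_div_iff₀ (by norm_num) (by positivity)]
    have h6 : ε * Q * c ≤ 16 * (J * M) * c := mul_le_mul_of_nonneg_right h5 hc0.le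
    have h7 : 16 * ((J : ℝ) * M) * c = 8 * J := by
      have : 16 * ((J : ℝ) * M) * c = 16 * J * (c * M) := by ring
      rw [this, hcM]
      ring
    nlinarith

theorem nm3_basics (ω σ κ ρ α c ε n : ℝ) (NN : ℕ) (hNN : 10 ≤ NN) (hω : 0 < ω) (hσ : 0 < σ)
    (hρ : 0 < ρ) (hα : 0 < α) (hα1 : α ≤ 1) (hc : 0 < c) (hc1 : 256 * c ≤ 1)
    (hε : 0 < ε) (hε1 : ε ≤ 1 / 4) (ho2 : 1000 * ω ≤ α * c) (ho3 : 400 * ω ≤ ε * α)
    (hs1 : 10 ^ 5 * σ ≤ ω * c * α) (hs2 : 1000 * NN * σ ≤ ω ^ 2)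
    (hκ : κ = σ ^ 2 / (1000 * NN)) (hr1 : 10 ^ 6 * NN * ρ ≤ σ ^ 2 * ω) (hn : 1000 ≤ ρ * n) :
    0 < n ∧ 0 < κ ∧ 1000 * (ρ * n) ≤ κ * n ∧ 10 ^ 6 * (κ * n) ≤ σ * n ∧
      10 ^ 6 * (σ * n) ≤ ω * n ∧ 400 * (ω * n) ≤ ε * α * n ∧ 1000 * (ω * n) ≤ c * α * n ∧
      (σ * n) * (σ * n) = 1000 * (NN * (n * (κ * n))) ∧
      1000 * (NN * (n * (σ * n))) ≤ (ω * n) * (ω * n) ∧
      10 ^ 6 * (n * (ρ * n)) ≤ (σ * n) * (ω * n) ∧
      10 ^ 5 * (n * (σ * n)) ≤ (c * α * n) * (ω * n) := by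
  have hNr : (10 : ℝ) ≤ NN := by exact_mod_cast hNN
  have hN0 : (0 : ℝ) < NN := by linarith
  have hκ0 : 0 < κ := by rw [hκ]; positivity
  have hn0 : 0 < n := by
    by_contra h
    push Not at h
    have : ρ * n ≤ 0 := mul_nonpos_of_nonneg_of_nonpos hρ.le h
    linarith
  have hκ2 : 1000 * NN * κ = σ ^ 2 := by rw [hκ]; field_simp
  have hαc : α * c ≤ 1 / 256 := by nlinarith
  have hω1 : ω ≤ 1 / 256000 := by linarith
  have hαc0 : 0 < α * c := by positivity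
  have hσω : 10 ^ 6 * σ ≤ ω := by
    have h1 : ω * c * α = ω * (α * c) := by ring
    have h2 : ω * (α * c) ≤ ω * (1 / 256) := mul_le_mul_of_nonneg_left hαc hω.le
    linarith
  have hσ1 : σ ≤ 1 / 10 ^ 6 := by linarith
  have hκσ : 10 ^ 6 * κ ≤ σ := by
    have h1 : 10 ^ 4 * κ ≤ σ ^ 2 := by nlinarith
    nlinarith
  have hρκ : 1000 * ρ ≤ κ := by
    have h1 : 10 ^ 6 * NN * ρ ≤ 1000 * NN * κ * ω := by rw [hκ2]; exact hr1
    have h2 : 1000 * NN * (1000 * ρ) ≤ 1000 * NN * (κ * ω) := by linarith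
    have h3 : 1000 * ρ ≤ κ * ω := le_of_mul_le_mul_left h2 (by positivity)
    have h4 : κ * ω ≤ κ * 1 := mul_le_mul_of_nonneg_left (by linarith) hκ0.le
    linarith
  refine ⟨hn0, hκ0, ?_, ?_, ?_, ?_, ?_, ?_, ?_, ?_, ?_⟩
  · have := mul_le_mul_of_nonneg_right hρκ hn0.le
    linarith
  · have := mul_le_mul_of_nonneg_right hκσ hn0.le
    linarith
  · have := mul_le_mul_of_nonneg_right hσω hn0.le
    linarith
  · have := mul_le_mul_of_nonneg_right ho3 hn0.le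
    linarith
  · have := mul_le_mul_of_nonneg_right ho2 hn0.le
    linarith
  · have h1 : (σ * n) * (σ * n) = σ ^ 2 * (n * n) := by ring
    rw [h1, ← hκ2]; ring
  · have h3 := mul_le_mul_of_nonneg_right hs2 (show 0 ≤ n * n by positivity)
    calc 1000 * (NN * (n * (σ * n))) = 1000 * NN * σ * (n * n) := by ring
      _ ≤ ω ^ 2 * (n * n) := h3
      _ = (ω * n) * (ω * n) := by ring
  · have h1 : 10 ^ 6 * ρ ≤ σ * ω := by
      have h2 : 10 ^ 6 * ρ ≤ 10 ^ 6 * NN * ρ := by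
        have : (1 : ℝ) * (10 ^ 6 * ρ) ≤ NN * (10 ^ 6 * ρ) :=
          mul_le_mul_of_nonneg_right (by linarith) (by positivity)
        linarith
      have h3 : σ ^ 2 * ω ≤ σ * ω := by
        have : σ * (σ * ω) ≤ 1 * (σ * ω) :=
          mul_le_mul_of_nonneg_right (by linarith) (by positivity)
        linarith
      linarith
    have h3 := mul_le_mul_of_nonneg_right h1 (show 0 ≤ n * n by positivity)
    calc 10 ^ 6 * (n * (ρ * n)) = 10 ^ 6 * ρ * (n * n) := by ring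
      _ ≤ σ * ω * (n * n) := h3
      _ = (σ * n) * (ω * n) := by ring
  · have h3 := mul_le_mul_of_nonneg_right hs1 (show 0 ≤ n * n by positivity)
    calc 10 ^ 5 * (n * (σ * n)) = 10 ^ 5 * σ * (n * n) := by ring
      _ ≤ ω * c * α * (n * n) := h3
      _ = (c * α * n) * (ω * n) := by ring

theorem nm3_div (N e z : ℕ) (w t x : ℝ) (hw : 0 < w) (ht : 0 < t) (hz : w ≤ z)
    (he : (e : ℝ) ≤ 22 * x) (hxw : 10 ^ 6 * (N * x) ≤ t * w) :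
    ((N * e / z : ℕ) : ℝ) ≤ t / 100 := by
  have h1 : (N * e / z) * z ≤ N * e := Nat.div_mul_le_self _ _
  have h2 : (((N * e / z : ℕ) : ℝ)) * z ≤ N * e := by exact_mod_cast h1
  set g : ℝ := ((N * e / z : ℕ) : ℝ) with hg
  have hg0 : 0 ≤ g := Nat.cast_nonneg _
  have hN0 : (0 : ℝ) ≤ N := Nat.cast_nonneg _
  have h3 : g * w ≤ g * z := mul_le_mul_of_nonneg_left hz hg0
  have h4 : (N : ℝ) * e ≤ N * (22 * x) := mul_le_mul_of_nonneg_left he hN0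
  have h6 : 0 ≤ t * w := by positivity
  have h5 : g * w ≤ (t / 100) * w := by linarith
  exact le_of_mul_le_mul_right h5 hw

theorem nm3_nums (N NN ζ0 β m q D s dS S1 e0 f0 : ℕ) (w g h x k t : ℝ) (hNN : 10 ≤ NN)
    (hx : 1000 ≤ x) (hxk : 1000 * x ≤ k) (hkt : 10 ^ 6 * k ≤ t) (htw : 10 ^ 6 * t ≤ w)
    (_hwh : 400 * w ≤ h) (hwg : 1000 * w ≤ g) (htt : t * t = 1000 * (NN * (N * k)))
    (hww : 1000 * (NN * (N * t)) ≤ w * w) (hxw : 10 ^ 6 * (N * x) ≤ t * w)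
    (hgw : 10 ^ 5 * (N * t) ≤ g * w)
    (hζ1 : w ≤ ζ0) (hζ2 : (ζ0 : ℝ) ≤ w + 1)
    (hβ1 : 3 * w + 1 ≤ β) (hβ2 : (β : ℝ) ≤ 3 * w + 2)
    (hm2 : (m : ℝ) ≤ w + 1)
    (hq1 : 10 * w ≤ q) (hD1 : 11 * w ≤ D) (hD2 : (D : ℝ) ≤ 11 * w + 1)
    (_hs1 : k ≤ s) (hs2 : (s : ℝ) ≤ k + 2)
    (hd1 : 4 * t ≤ dS) (hd2 : (dS : ℝ) ≤ 4 * t + 1)
    (hS1 : t ≤ S1) (hS2 : (S1 : ℝ) ≤ t + 1)
    (he2 : (e0 : ℝ) ≤ 21 * x + 3) (hf2 : (f0 : ℝ) ≤ 10 * x + 3) :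
    β + 2 * β + m ≤ D ∧ β + 2 * β + 1 ≤ q ∧ s + S1 ≤ β ∧ s + ζ0 + ζ0 ≤ β ∧
      ζ0 + s + ζ0 ≤ β ∧ NN * (N * (e0 + 12 * s)) ≤ S1 * S1 ∧
      NN * (N * (f0 + 12 * (s + dS))) ≤ ζ0 * ζ0 ∧
      N * e0 / ζ0 + s + 12 * s + (S1 + (e0 + 12 * s)) ≤ dS ∧ 2 ≤ ζ0 ∧
      ((N * e0 / ζ0 : ℕ) : ℝ) ≤ t / 100 ∧ ((N * f0 / ζ0 : ℕ) : ℝ) ≤ t / 100 ∧
      ((2 * s + 2 * dS + N * dS / (ζ0 - 1) : ℕ) : ℝ) < g / 5500 ∧
      ((NN * (N * (e0 + 12 * s)) + NN * (N * (f0 + 12 * (s + dS))) : ℕ) : ℝ) +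
        2 * (NN * N) ≤ 60 * (NN * (N * t)) ∧
      ((D + ((S1 + (e0 + 12 * s)) + (ζ0 + (f0 + 12 * (s + dS)))) : ℕ) : ℝ) ≤
        13 * w := by
  have hx0 : 0 < x := by linarith
  have hk0 : 0 < k := by linarith
  have ht0 : 0 < t := by linarith
  have hw0 : 0 < w := by linarith
  have hN0 : (0 : ℝ) ≤ N := Nat.cast_nonneg _
  have hNr : (10 : ℝ) ≤ NN := by exact_mod_cast hNN
  have hNN0 : (0 : ℝ) ≤ NN := by linarith
  have he22 : (e0 : ℝ) ≤ 22 * x := by linarith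
  have hf22 : (f0 : ℝ) ≤ 22 * x := by linarith
  have hE1 := nm3_div N e0 ζ0 w t x hw0 ht0 hζ1 he22 hxw
  have hE2 := nm3_div N f0 ζ0 w t x hw0 ht0 hζ1 hf22 hxw
  have hA : (e0 : ℝ) + 12 * s ≤ 13 * k := by linarith
  have hB : (f0 : ℝ) + 12 * (s + dS) ≤ 50 * t := by linarith
  have hNA : (NN : ℝ) * (N * (e0 + 12 * s)) ≤ NN * (N * (13 * k)) :=
    mul_le_mul_of_nonneg_left (mul_le_mul_of_nonneg_left hA hN0) hNN0
  have hNB : (NN : ℝ) * (N * (f0 + 12 * (s + dS))) ≤ NN * (N * (50 * t)) :=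
    mul_le_mul_of_nonneg_left (mul_le_mul_of_nonneg_left hB hN0) hNN0
  have hNk : (NN : ℝ) * (N * k) ≤ NN * (N * t) / 10 ^ 6 := by
    have h0 : k ≤ t / 10 ^ 6 := by linarith
    calc (NN : ℝ) * (N * k) ≤ NN * (N * (t / 10 ^ 6)) :=
          mul_le_mul_of_nonneg_left (mul_le_mul_of_nonneg_left h0 hN0) hNN0
      _ = NN * (N * t) / 10 ^ 6 := by ring
  have hNt0 : (0 : ℝ) ≤ NN * (N * t) := by positivity
  have hNk0 : (0 : ℝ) ≤ NN * (N * k) := by positivity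
  refine ⟨?_, ?_, ?_, ?_, ?_, ?_, ?_, ?_, ?_, hE1, hE2, ?_, ?_, ?_⟩
  · have : ((β + 2 * β + m : ℕ) : ℝ) ≤ (D : ℕ) := by push_cast; linarith
    exact_mod_cast this
  · have : ((β + 2 * β + 1 : ℕ) : ℝ) ≤ (q : ℕ) := by push_cast; linarith
    exact_mod_cast this
  · have : ((s + S1 : ℕ) : ℝ) ≤ (β : ℕ) := by push_cast; linarith
    exact_mod_cast this
  · have : ((s + ζ0 + ζ0 : ℕ) : ℝ) ≤ (β : ℕ) := by push_cast; linarith
    exact_mod_cast this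
  · have : ((ζ0 + s + ζ0 : ℕ) : ℝ) ≤ (β : ℕ) := by push_cast; linarith
    exact_mod_cast this
  · have h1 : t * t ≤ (S1 : ℝ) * S1 := mul_le_mul hS1 hS1 ht0.le (ht0.le.trans hS1)
    have : ((NN * (N * (e0 + 12 * s)) : ℕ) : ℝ) ≤ ((S1 * S1 : ℕ) : ℝ) := by
      push_cast; linarith
    exact_mod_cast this
  · have h1 : w * w ≤ (ζ0 : ℝ) * ζ0 := mul_le_mul hζ1 hζ1 hw0.le (hw0.le.trans hζ1)
    have : ((NN * (N * (f0 + 12 * (s + dS))) : ℕ) : ℝ) ≤ ((ζ0 * ζ0 : ℕ) : ℝ) := by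
      push_cast; linarith
    exact_mod_cast this
  · have : ((N * e0 / ζ0 + s + 12 * s + (S1 + (e0 + 12 * s)) : ℕ) : ℝ) ≤ (dS : ℕ) := by
      rw [Nat.cast_add, Nat.cast_add, Nat.cast_add]
      push_cast at hE1 ⊢
      linarith
    exact_mod_cast this
  · have : ((2 : ℕ) : ℝ) ≤ (ζ0 : ℕ) := by push_cast; linarith
    exact_mod_cast this
  · have h2 : 2 ≤ ζ0 := by
      have : ((2 : ℕ) : ℝ) ≤ (ζ0 : ℕ) := by push_cast; linarith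
      exact_mod_cast this
    have hz : ((ζ0 - 1 : ℕ) : ℝ) = ζ0 - 1 := by
      rw [Nat.cast_sub (by omega)]; norm_num
    have hz1 : w / 2 ≤ ((ζ0 - 1 : ℕ) : ℝ) := by rw [hz]; linarith
    have h3 : (N * dS / (ζ0 - 1)) * (ζ0 - 1) ≤ N * dS := Nat.div_mul_le_self _ _
    have h4 : ((N * dS / (ζ0 - 1) : ℕ) : ℝ) * ((ζ0 - 1 : ℕ) : ℝ) ≤ N * dS := by
      exact_mod_cast h3
    set y : ℝ := ((N * dS / (ζ0 - 1) : ℕ) : ℝ) with hy
    have hy0 : 0 ≤ y := Nat.cast_nonneg _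
    have h5 : y * (w / 2) ≤ y * ((ζ0 - 1 : ℕ) : ℝ) := mul_le_mul_of_nonneg_left hz1 hy0
    have h6 : (N : ℝ) * dS ≤ N * (5 * t) := mul_le_mul_of_nonneg_left (by linarith) hN0
    have h7 : y * w ≤ (g / 10 ^ 4) * w := by linarith
    have h8 : y ≤ g / 10 ^ 4 := le_of_mul_le_mul_right h7 hw0
    rw [Nat.cast_add, ← hy]
    push_cast
    linarith
  · push_cast
    have h1 : (2 : ℝ) * (NN * N) ≤ NN * (N * t) / 100 := by
      have h0 : (2 : ℝ) ≤ t / 100 := by linarith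
      calc (2 : ℝ) * (NN * N) ≤ (t / 100) * (NN * N) :=
            mul_le_mul_of_nonneg_right h0 (mul_nonneg hNN0 hN0)
        _ = NN * (N * t) / 100 := by ring
    linarith
  · push_cast
    linarith

end Pool.Agent.H71.DR
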