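import Mathlib
import Pool.Agent.H71.DR.InD
import Pool.Agent.H71.DX.Cr2

/-!
CR3: the core theorem for one graph with parameters `Par3`. Copy `H71/DX/Cr2.lean` (`cr2`, proved): `inD` replaces
`inC` and `N` replaces 14. (`Cr2_par`, `Cr2_sig`, `Cr2_mul_le`, `Cr2_memf` can be used from there.)
-/

set_option autoImplicit false

namespace Pool.Agent.H71.DR

open Finset Classical
open Pool.Agent.H71.DN Pool.Agent.H71.DX

theorem cr3 {V : Type} [Fintype V] (G R H : SimpleGraph V) (Z : Finset V)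
    (K1 K2 ζ0 e0 e1 f0 f1 u s t1 t2 ζ β S1 c1 S2 c2 dS cap N : ℕ)
    (ν1 ν2 : ℕ → V → V)
    (hP : Par3 G R H Z K1 K2 ζ0 e0 e1 f0 f1 u s t1 t2 ζ β S1 c1 S2 c2 dS cap N ν1 ν2)
    (U : ℕ → Finset V) (hU : ∀ ℓ < K1 + K2, (U ℓ).card + 1 ≤ u)
    (hs : ∀ v, mul (K1 + K2) U v + 1 ≤ s)
    (hB : ((range (K1 + K2)).filter fun ℓ => ¬ Even (univ \ U ℓ).card).card + u < Z.card) :
    ∃ mm : ℕ → V → V, Cnc G (K1 + K2) U mm := by
  obtain ⟨U2, z, B, hev, hcard, hmul, hsub, hz, hzZ, hzi⟩ := Cr2_par Z (K1 + K2) u s U hU hs hB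
  have hRg : ∀ a b, R.Adj a b → G.Adj a b ∧ ¬ (a ∈ Z ∧ b ∈ Z) := fun a b h => hP.hR h
  have hHg : ∀ a b, H.Adj a b → G.Adj a b ∧ ¬ (a ∈ Z ∧ b ∈ Z) := fun a b h => hP.hH h
  have hβ1 := hP.hβ1
  have hβ2 := hP.hβ2
  have hζ := hP.hζ
  -- first batch
  obtain ⟨mm1, F1, hPM1, hcov1, hlft1, hF1R, hF1m, hF1d, hF1e⟩ :=
    inD (G \ (R ⊔ H)) R (fun a b h h' => by
        rw [SimpleGraph.sdiff_adj] at h
        exact h.2 (Or.inl h')) K1 ζ0 e0 e1 s t1 N ν1 hP.hν1 U2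
      (fun v => (by
        have h1 := Cr2_mul_le (K1 + K2) K1 0 U2 v (fun j hj => by omega)
        simp only [Nat.zero_add] at h1
        exact h1.trans (hmul v))) hP.ht1 ζ β c1 S1 hP.hS1
      (fun F hF h1 h2 => hP.ex F hF (fun v => (h1 v).trans (by omega))
        (fun A B => (h2 A B).trans (by omega)))
      (fun ℓ hℓ => by
        have := hcard ℓ (by omega)
        omega)
      (fun ℓ hℓ => by
        have := hcard ℓ (by omega)
        omega) hP.hT1 (fun ℓ hℓ => hev ℓ (by omega))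
  -- the graph S
  obtain ⟨S, hS⟩ : ∃ S : SimpleGraph V, ∀ a b, S.Adj a b ↔
      G.Adj a b ∧ a ∈ Z ∧ b ∈ Z ∧ ∀ ℓ < K1, mm1 ℓ a ≠ b :=
    ⟨{ Adj := fun a b => G.Adj a b ∧ a ∈ Z ∧ b ∈ Z ∧ ∀ ℓ < K1, mm1 ℓ a ≠ b
       symm := ⟨fun a b h => ⟨h.1.symm, h.2.2.1, h.2.1, fun ℓ hℓ he => h.2.2.2 ℓ hℓ (by
        rw [← he]
        exact hPM1.inv ℓ hℓ b)⟩⟩
       loopless := ⟨fun a h => G.irrefl h.1⟩ }, fun a b => Iff.rfl⟩
  have hdS : ∀ v, dg S v ≤ dS := by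
    intro v
    refine le_trans ?_ ((hlft1 v).trans hP.hdS)
    unfold dg
    refine Finset.card_le_card ?_
    intro w hw
    rw [Finset.mem_filter] at hw
    obtain ⟨h1, h2, h3, h4⟩ := (hS v w).1 hw.2
    refine Cr2_memf _ _ _ ⟨?_, h4⟩
    rw [SimpleGraph.sdiff_adj]
    refine ⟨h1, fun h5 => ?_⟩
    rcases h5 with h5 | h5
    · exact (hRg _ _ h5).2 ⟨h2, h3⟩
    · exact (hHg _ _ h5).2 ⟨h2, h3⟩
  obtain ⟨σ, hσi, hσa, hσd, hσc, hσf, hσn⟩ := sas S K2 (fun j => U2 (K1 + j)) dS s cap hdS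
    (fun v => (Cr2_mul_le (K1 + K2) K2 K1 U2 v (fun j hj => by omega)).trans (hmul v))
    hP.hcap hP.hK2
  obtain ⟨U3, hU3⟩ : ∃ U3 : ℕ → Finset V, ∀ j, U3 j = U2 (K1 + j) ∪
      (univ.filter fun v => σ j v ≠ v) := ⟨_, fun _ => rfl⟩
  have hU3c : ∀ j < K2, (U3 j).card ≤ u + cap := by
    intro j hj
    rw [hU3]
    refine (Finset.card_union_le _ _).trans (Nat.add_le_add (hcard _ (by omega)) ?_)
    exact hσn j hj
  have hU3e : ∀ j < K2, Even (univ \ U3 j).card := by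
    intro j hj
    have h1 := par (σ j) (hσi j hj) (U2 (K1 + j)) (hσf j hj) (hev _ (by omega))
    have h2 : univ \ U3 j = (univ.filter fun v => σ j v = v ∧ v ∉ U2 (K1 + j)) := by
      ext v
      rw [hU3, Finset.mem_sdiff, Finset.mem_union, Finset.mem_filter, Finset.mem_filter]
      simp only [Finset.mem_univ, true_and]
      tauto
    rw [h2]
    exact h1
  have hU3m : ∀ v, mul K2 U3 v ≤ s + dS := by
    intro v
    have h1 := Cr2_sig S K2 dS σ hdS hσa hσd v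
    have h2 := (Cr2_mul_le (K1 + K2) K2 K1 U2 v (fun j hj => by omega)).trans (hmul v)
    unfold mul at h2 ⊢
    beta_reduce at h2
    have h3 : ((range K2).filter fun j => v ∈ U3 j) ⊆
        ((range K2).filter fun j => v ∈ U2 (K1 + j)) ∪ ((range K2).filter fun j => σ j v ≠ v) := by
      intro j hj
      rw [Finset.mem_filter, hU3, Finset.mem_union, Finset.mem_filter] at hj
      rw [Finset.mem_union, Finset.mem_filter, Finset.mem_filter]
      rcases hj.2 with h4 | h4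
      · exact Or.inl ⟨hj.1, h4⟩
      · exact Or.inr ⟨hj.1, h4.2⟩
    have h4 := (Finset.card_le_card h3).trans (Finset.card_union_le _ _)
    omega
  -- second batch
  obtain ⟨mm2, F2, hPM2, hcov2, -, -, -, -, -⟩ :=
    inD H F1 (fun a b h h' => hP.hRH a b (hF1R h') h) K2 ζ0 f0 f1 (s + dS) t2 N ν2 hP.hν2 U3
      hU3m hP.ht2 ζ β c2 S2 hP.hS2
      (fun F hF h1 h2 => hP.ex F (hF.trans hF1R)
        (fun v => by
          have h3 := h1 v
          have h4 := hF1d v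
          omega)
        (fun A B => by
          have h3 := h2 A B
          have h4 := hF1e A B
          omega))
      (fun ℓ hℓ => by
        have := hU3c ℓ hℓ
        omega)
      (fun ℓ hℓ => by
        have := hU3c ℓ hℓ
        omega) hP.hT2 hU3e
  -- the combined matchings of the second batch
  obtain ⟨m3, hm3⟩ : ∃ m3 : ℕ → V → V, ∀ j v, m3 j v = if σ j v ≠ v then σ j v else mm2 j v :=
    ⟨_, fun _ _ => rfl⟩
  have hm3a : ∀ j v, σ j v ≠ v → m3 j v = σ j v := fun j v h => by rw [hm3, if_pos h]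
  have hm3b : ∀ j v, σ j v = v → m3 j v = mm2 j v := fun j v h => by
    rw [hm3, if_neg (not_not.2 h)]
  have hmemU3 : ∀ j v, σ j v ≠ v → v ∈ U3 j := fun j v h => by
    rw [hU3, Finset.mem_union, Finset.mem_filter]
    exact Or.inr ⟨Finset.mem_univ _, h⟩
  have hm3inv : ∀ j < K2, ∀ v, m3 j (m3 j v) = v := by
    intro j hj v
    by_cases h : σ j v = v
    · rw [hm3b j v h]
      by_cases h1 : σ j (mm2 j v) = mm2 j v
      · rw [hm3b j _ h1]
        exact hPM2.inv j hj v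
      · have h2 := hPM2.fix j hj _ (hmemU3 j _ h1)
        rw [hPM2.inv j hj v] at h2
        rw [← h2] at h1
        exact absurd h h1
    · rw [hm3a j v h]
      have h1 : σ j (σ j v) ≠ σ j v := by
        rw [hσi j hj v]
        exact fun h2 => h h2.symm
      rw [hm3a j _ h1]
      exact hσi j hj v
  have hm3adj : ∀ j < K2, ∀ v, m3 j v ≠ v →
      (σ j v ≠ v ∧ m3 j v = σ j v ∧ S.Adj v (m3 j v)) ∨
      (σ j v = v ∧ m3 j v = mm2 j v ∧ (H ⊔ F1).Adj v (m3 j v)) := by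
    intro j hj v hv
    by_cases h : σ j v = v
    · right
      rw [hm3b j v h] at hv ⊢
      exact ⟨h, rfl, hPM2.adj j hj v hv⟩
    · left
      rw [hm3a j v h]
      exact ⟨h, rfl, hσa j hj v h⟩
  have hHFg : ∀ a b, (H ⊔ F1).Adj a b → G.Adj a b ∧ ¬ (a ∈ Z ∧ b ∈ Z) := by
    intro a b h
    rcases h with h | h
    · exact hHg _ _ h
    · exact hRg _ _ (hF1R h)
  have hG0g : ∀ a b, ((G \ (R ⊔ H)) ⊔ R).Adj a b → G.Adj a b := by
    intro a b h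
    rcases h with h | h
    · rw [SimpleGraph.sdiff_adj] at h
      exact h.1
    · exact (hRg _ _ h).1
  have hm3fix : ∀ j < K2, ∀ v ∈ U2 (K1 + j), m3 j v = v := by
    intro j hj v hv
    rw [hm3b j v (hσf j hj v hv)]
    exact hPM2.fix j hj v (by
      rw [hU3, Finset.mem_union]
      exact Or.inl hv)
  have hm3cov : ∀ j < K2, ∀ v, v ∉ U2 (K1 + j) → m3 j v ≠ v := by
    intro j hj v hv
    by_cases h : σ j v = v
    · rw [hm3b j v h]
      refine hcov2 j hj v ?_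
      rw [hU3, Finset.mem_union, Finset.mem_filter, not_or]
      exact ⟨hv, fun h1 => h1.2 h⟩
    · rw [hm3a j v h]
      exact h
  -- disjointness between the batches
  have hd12 : ∀ ℓ < K1, ∀ j < K2, ∀ v, mm1 ℓ v ≠ v → mm1 ℓ v ≠ m3 j v := by
    intro ℓ hℓ j hj v hv he
    have hv3 : m3 j v ≠ v := by
      rw [← he]
      exact hv
    rcases hm3adj j hj v hv3 with ⟨-, -, h1⟩ | ⟨-, -, h1⟩
    · exact ((hS _ _).1 h1).2.2.2 ℓ hℓ he
    · have h2 := hPM1.adj ℓ hℓ v hv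
      rw [← he] at h1
      rcases h1 with h1 | h1
      · rcases h2 with h2 | h2
        · rw [SimpleGraph.sdiff_adj] at h2
          exact h2.2 (Or.inr h1)
        · exact hP.hRH _ _ h2 h1
      · exact hF1m ℓ hℓ v h1
  have hd33 : ∀ i < K2, ∀ j < K2, i ≠ j → ∀ v, m3 i v ≠ v → m3 i v ≠ m3 j v := by
    intro i hi j hj hij v hv he
    have hv3 : m3 j v ≠ v := by
      rw [← he]
      exact hv
    rcases hm3adj i hi v hv with ⟨a1, a2, a3⟩ | ⟨a1, a2, a3⟩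
    · rcases hm3adj j hj v hv3 with ⟨c1, c2, c3⟩ | ⟨c1, c2, c3⟩
      · exact hσd i hi j hj hij v a1 (by rw [← a2, ← c2]; exact he)
      · rw [← he] at c3
        obtain ⟨-, e2, e3, -⟩ := (hS _ _).1 a3
        exact (hHFg _ _ c3).2 ⟨e2, e3⟩
    · rcases hm3adj j hj v hv3 with ⟨c1, c2, c3⟩ | ⟨c1, c2, c3⟩
      · rw [← he] at c3
        obtain ⟨-, e2, e3, -⟩ := (hS _ _).1 c3
        exact (hHFg _ _ a3).2 ⟨e2, e3⟩
      · rw [a2] at hv
        exact hPM2.dis i hi j hj hij v hv (by rw [← a2, ← c2]; exact he)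
  obtain ⟨mm, hmm⟩ : ∃ mm : ℕ → V → V, ∀ ℓ, mm ℓ = if ℓ < K1 then mm1 ℓ else m3 (ℓ - K1) :=
    ⟨_, fun _ => rfl⟩
  have hmma : ∀ ℓ < K1, mm ℓ = mm1 ℓ := fun ℓ hℓ => by rw [hmm, if_pos hℓ]
  have hmmb : ∀ j, mm (K1 + j) = m3 j := fun j => by
    rw [hmm, if_neg (by omega), Nat.add_sub_cancel_left]
  have hcase : ∀ ℓ < K1 + K2, ℓ < K1 ∨ ∃ j < K2, ℓ = K1 + j := by
    intro ℓ hℓ
    by_cases h : ℓ < K1
    · exact Or.inl h
    · exact Or.inr ⟨ℓ - K1, by omega, by omega⟩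
  have hunc : ∀ ℓ < K1 + K2, ∀ v, v ∉ U ℓ → mm ℓ v = v → ℓ ∈ B ∧ v = z ℓ := by
    intro ℓ hℓ v hv he
    refine hz ℓ v ?_ hv
    by_contra h1
    rcases hcase ℓ hℓ with h2 | ⟨j, hj, rfl⟩
    · rw [hmma ℓ h2] at he
      exact hcov1 ℓ h2 v h1 he
    · rw [hmmb j] at he
      exact hm3cov j hj v h1 he
  refine ⟨mm, ⟨?_, ?_, ?_, ?_⟩, ?_, ?_⟩
  · intro ℓ hℓ
    rcases hcase ℓ hℓ with h2 | ⟨j, hj, rfl⟩
    · rw [hmma ℓ h2]
      exact hPM1.inv ℓ h2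
    · rw [hmmb j]
      exact hm3inv j hj
  · intro ℓ hℓ v hv
    rcases hcase ℓ hℓ with h2 | ⟨j, hj, rfl⟩
    · rw [hmma ℓ h2] at hv ⊢
      exact hG0g _ _ (hPM1.adj ℓ h2 v hv)
    · rw [hmmb j] at hv ⊢
      rcases hm3adj j hj v hv with ⟨-, -, h1⟩ | ⟨-, -, h1⟩
      · exact ((hS _ _).1 h1).1
      · exact (hHFg _ _ h1).1
  · intro ℓ hℓ ℓ' hℓ' hne v hv
    rcases hcase ℓ hℓ with h2 | ⟨j, hj, rfl⟩
    · rcases hcase ℓ' hℓ' with h3 | ⟨j', hj', rfl⟩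
      · rw [hmma ℓ h2] at hv ⊢
        rw [hmma ℓ' h3]
        exact hPM1.dis ℓ h2 ℓ' h3 hne v hv
      · rw [hmma ℓ h2] at hv ⊢
        rw [hmmb j']
        exact hd12 ℓ h2 j' hj' v hv
    · rcases hcase ℓ' hℓ' with h3 | ⟨j', hj', rfl⟩
      · rw [hmmb j] at hv ⊢
        rw [hmma ℓ' h3]
        intro he
        refine hd12 ℓ' h3 j hj v ?_ he.symm
        rw [← he]
        exact hv
      · rw [hmmb j] at hv ⊢
        rw [hmmb j']
        exact hd33 j hj j' hj' (fun h => hne (by rw [h])) v hv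
  · intro ℓ hℓ v hv
    have hv2 := hsub ℓ hv
    rcases hcase ℓ hℓ with h2 | ⟨j, hj, rfl⟩
    · rw [hmma ℓ h2]
      exact hPM1.fix ℓ h2 v hv2
    · rw [hmmb j]
      exact hm3fix j hj v hv2
  · intro v
    rw [Finset.card_le_one]
    intro ℓ hℓ ℓ' hℓ'
    rw [Finset.mem_filter, Finset.mem_range] at hℓ hℓ'
    obtain ⟨a1, a2⟩ := hunc ℓ hℓ.1 v hℓ.2.1 hℓ.2.2
    obtain ⟨b1, b2⟩ := hunc ℓ' hℓ'.1 v hℓ'.2.1 hℓ'.2.2
    exact hzi ℓ a1 ℓ' b1 (a2.symm.trans b2)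
  · rintro a b hab ⟨ℓ, hℓ, ha1, ha2⟩ ⟨ℓ', hℓ', hb1, hb2⟩
    obtain ⟨a1, a2⟩ := hunc ℓ hℓ a ha1 ha2
    obtain ⟨b1, b2⟩ := hunc ℓ' hℓ' b hb1 hb2
    have haZ : a ∈ Z := by
      rw [a2]
      exact hzZ ℓ a1
    have hbZ : b ∈ Z := by
      rw [b2]
      exact hzZ ℓ' b1
    by_cases h : ∃ k < K1, mm1 k a = b
    · obtain ⟨k, hk, he⟩ := h
      exact ⟨k, by omega, by rw [hmma k hk]; exact he⟩
    · have hSab : S.Adj a b := by
        rw [hS]
        refine ⟨hab, haZ, hbZ, fun k hk he => h ⟨k, hk, he⟩⟩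
      obtain ⟨j, hj, he⟩ := hσc a b hSab
      have hne : σ j a ≠ a := by
        rw [he]
        exact fun h1 => hab.ne h1.symm
      exact ⟨K1 + j, by omega, by rw [hmmb j, hm3a j a hne]; exact he⟩

end Pool.Agent.H71.DR
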