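import Mathlib
import Pool.Agent.H71.DR.Defs

/-!
CHL: split the classes of a colouring into parts of size at most `s`; greedy colouring with pairs.

`chl`: for a class with `a` elements use `a / s + 1` (natural division) parts of size at most `s` (number the
elements of the class from 0 and divide the number by `s`); in total at most `∑_i (a_i / s + 1) ≤ n / s + k` parts.
(For example: the pairs `(i, j)`, `i < k`, `j < a_i / s + 1`, ordered lexicographically: label
`∑_{i' < i} (a_{i'} / s + 1) + j`; or any injection of this finite set of pairs into `range (k + n / s)`.)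

`grc`: colour the vertices `u` with `π u ≠ u` first, every pair `{u, π u}` with its own colour (at most `k` pairs).
Then colour the other vertices one after the other (induction over a finset `T` of coloured vertices containing the
moved ones, such that `c u = c (π u)` for all `u` and `c u ≠ c v` for adjacent `u, v ∈ T`): a vertex `v` sees on its
neighbours at most `dg G v - P_v` colours, where `P_v` is the number of pairs `{u, π u}` contained in the
neighbourhood of `v`, i.e. `2 P_v = #{u : G.Adj v u ∧ π u ≠ u ∧ G.Adj v (π u)}`; by `hk` this is less than `k`.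
-/

set_option autoImplicit false

namespace Pool.Agent.H71.DR

open Finset Classical
open Pool.Agent.H71.DN Pool.Agent.H71.DX

/-- A small finset injects into `range k`. -/
theorem chl_inj {α : Type*} [DecidableEq α] (P : Finset α) (k : ℕ) (h : P.card ≤ k) :
    ∃ f : α → ℕ, (∀ x ∈ P, f x < k) ∧ ∀ x ∈ P, ∀ y ∈ P, f x = f y → x = y := by
  refine ⟨fun x => if hx : x ∈ P then (P.equivFin ⟨x, hx⟩ : ℕ) else 0, ?_, ?_⟩
  · intro x hx
    simp only [hx, dif_pos]
    exact lt_of_lt_of_le (P.equivFin ⟨x, hx⟩).isLt h
  · intro x hx y hy hxy
    simp only [hx, hy, dif_pos] at hxy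
    have h1 := P.equivFin.injective (Fin.ext hxy)
    exact congrArg Subtype.val h1

theorem chl {V : Type} [Fintype V] (k : ℕ) (col : V → ℕ) (h : ∀ v, col v < k) (s : ℕ)
    (hs : 1 ≤ s) :
    ∃ c : V → ℕ, (∀ v, c v < k + Fintype.card V / s) ∧ (∀ u v, c u = c v → col u = col v) ∧
      ∀ i, (univ.filter fun v => c v = i).card ≤ s := by
  obtain ⟨e⟩ : Nonempty (V ≃ Fin (Fintype.card V)) := ⟨Fintype.equivFin V⟩
  set idx : V → ℕ := fun v => (univ.filter fun u => col u = col v ∧ e u < e v).card with hidx
  have hmono : ∀ u v, col u = col v → e u < e v → idx u < idx v := by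
    intro u v hc hlt
    apply Finset.card_lt_card
    rw [Finset.ssubset_iff_of_subset]
    · refine ⟨u, ?_, ?_⟩
      · simp [hc, hlt]
      · simp
    · intro x hx
      simp only [mem_filter, mem_univ, true_and] at hx ⊢
      exact ⟨hx.1.trans hc, hx.2.trans hlt⟩
  have hidl : ∀ v, idx v < (univ.filter fun u => col u = col v).card := by
    intro v
    apply Finset.card_lt_card
    rw [Finset.ssubset_iff_of_subset]
    · exact ⟨v, by simp, by simp⟩
    · intro x hx
      simp only [mem_filter, mem_univ, true_and] at hx ⊢
      exact hx.1
  have hinj : ∀ u v, col u = col v → idx u = idx v → u = v := by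
    intro u v hc hi
    rcases lt_trichotomy (e u) (e v) with hlt | heq | hgt
    · exact absurd hi (ne_of_lt (hmono u v hc hlt))
    · exact e.injective heq
    · exact absurd hi.symm (ne_of_lt (hmono v u hc.symm hgt))
  set P : Finset (Σ _ : ℕ, ℕ) :=
    (range k).sigma fun i => range ((univ.filter fun u => col u = i).card / s + 1) with hP
  have hPc : P.card ≤ k + Fintype.card V / s := by
    rw [hP, Finset.card_sigma]
    simp only [card_range]
    rw [Finset.sum_add_distrib]
    simp only [sum_const, card_range, smul_eq_mul, mul_one]
    rw [add_comm]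
    apply Nat.add_le_add_left
    rw [Nat.le_div_iff_mul_le (by omega), Finset.sum_mul]
    calc ∑ i ∈ range k, (univ.filter fun u => col u = i).card / s * s
        ≤ ∑ i ∈ range k, (univ.filter fun u => col u = i).card :=
          Finset.sum_le_sum fun i _ => Nat.div_mul_le_self _ _
      _ = (univ : Finset V).card := by
          rw [Finset.card_eq_sum_card_fiberwise (f := col) (t := range k)]
          intro x _
          simpa using h x
      _ = Fintype.card V := rfl
  obtain ⟨f, hf1, hf2⟩ := chl_inj P _ hPc
  have hmem : ∀ v, (⟨col v, idx v / s⟩ : Σ _ : ℕ, ℕ) ∈ P := by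
    intro v
    rw [hP, Finset.mem_sigma]
    refine ⟨mem_range.2 (h v), mem_range.2 ?_⟩
    exact Nat.lt_succ_of_le (Nat.div_le_div_right (hidl v).le)
  refine ⟨fun v => f ⟨col v, idx v / s⟩, fun v => hf1 _ (hmem v), ?_, ?_⟩
  · intro u v huv
    have h1 := hf2 _ (hmem u) _ (hmem v) huv
    exact congrArg Sigma.fst h1
  · intro i
    by_cases hne : ∃ w, f ⟨col w, idx w / s⟩ = i
    · obtain ⟨w, hw⟩ := hne
      have hsub : ∀ v ∈ univ.filter (fun v => f ⟨col v, idx v / s⟩ = i),
          col v = col w ∧ idx v / s = idx w / s := by
        intro v hv
        simp only [mem_filter, mem_univ, true_and] at hv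
        have h1 := hf2 _ (hmem v) _ (hmem w) (hv.trans hw.symm)
        refine ⟨congrArg Sigma.fst h1, ?_⟩
        have h2 : (⟨col v, idx v / s⟩ : Σ _ : ℕ, ℕ).2 = (⟨col w, idx w / s⟩ : Σ _ : ℕ, ℕ).2 := by
          rw [h1]
        exact h2
      have hcard : (univ.filter (fun v => f ⟨col v, idx v / s⟩ = i)).card ≤
          (Finset.Ico (idx w / s * s) (idx w / s * s + s)).card := by
        apply Finset.card_le_card_of_injOn idx
        · intro v hv
          have h2 := (hsub v (by simpa using hv)).2
          simp only [coe_Ico, Set.mem_Ico]
          rw [← h2]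
          constructor
          · exact Nat.div_mul_le_self _ _
          · have := Nat.lt_div_mul_add (a := idx v) (b := s) (by omega)
            exact this
        · intro u hu v hv huv
          have h1 := (hsub u (by simpa using hu)).1
          have h2 := (hsub v (by simpa using hv)).1
          exact hinj u v (h1.trans h2.symm) huv
      calc _ ≤ _ := hcard
        _ = s := by simp
    · have : (univ.filter fun v => f ⟨col v, idx v / s⟩ = i) = ∅ := by
        apply Finset.filter_eq_empty_iff.2
        intro v _ hv
        exact hne ⟨v, hv⟩
      rw [this]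
      simp

/-- If every element of `M` has a partner in `M` with the same value then the image is at most
half of `M`. -/
theorem grc_half {V β : Type*} [DecidableEq V] [DecidableEq β] (M : Finset V) (π : V → V)
    (f : V → β) (h1 : ∀ u ∈ M, π u ∈ M) (h2 : ∀ u ∈ M, π u ≠ u) (h3 : ∀ u ∈ M, f (π u) = f u) :
    2 * (M.image f).card ≤ M.card := by
  rw [Finset.card_eq_sum_card_image f M, mul_comm, ← smul_eq_mul]
  apply Finset.card_nsmul_le_sum
  intro b hb
  obtain ⟨u, hu, rfl⟩ := Finset.mem_image.1 hb
  have hsub : ({π u, u} : Finset V) ⊆ M.filter fun a => f a = f u := by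
    intro x hx
    rcases Finset.mem_insert.1 hx with rfl | hx
    · exact Finset.mem_filter.2 ⟨h1 u hu, h3 u hu⟩
    · rw [Finset.mem_singleton] at hx
      subst hx
      exact Finset.mem_filter.2 ⟨hu, rfl⟩
  calc 2 = ({π u, u} : Finset V).card := (Finset.card_pair (h2 u hu)).symm
    _ ≤ _ := Finset.card_le_card hsub

theorem grc {V : Type} [Fintype V] (G : SimpleGraph V) (π : V → V) (hπ : Inv π)
    (hadj : ∀ v, π v ≠ v → ¬ G.Adj v (π v)) (k : ℕ)
    (hp : (univ.filter fun v => π v ≠ v).card ≤ 2 * k)
    (hk : ∀ v, 2 * dg G v + 2 ≤
      2 * k + (univ.filter fun u => G.Adj v u ∧ π u ≠ u ∧ G.Adj v (π u)).card) :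
    G.Colorable k := by
  set M : Finset V := univ.filter fun v => π v ≠ v with hM
  have hMm : ∀ u, u ∈ M ↔ π u ≠ u := fun u => by simp [hM]
  have hMπ : ∀ u ∈ M, π u ∈ M := by
    intro u hu
    rw [hMm] at hu ⊢
    rw [hπ u]
    exact hu.symm
  have key : ∀ T : Finset V, ∃ c : V → ℕ, (∀ u ∈ M ∪ T, c u < k) ∧
      (∀ u ∈ M ∪ T, c (π u) = c u) ∧
      ∀ u ∈ M ∪ T, ∀ v ∈ M ∪ T, G.Adj u v → c u ≠ c v := by
    intro T
    induction T using Finset.induction_on with
    | empty =>
      have hP : (M.image fun u => s(u, π u)).card ≤ k := by
        have := grc_half M π (fun u => s(u, π u)) hMπ (fun u hu => (hMm u).1 hu) (by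
          intro u hu
          simp only [hπ u]
          exact Sym2.eq_swap)
        omega
      obtain ⟨f, hf1, hf2⟩ := chl_inj _ k hP
      have hin : ∀ u ∈ M, s(u, π u) ∈ M.image fun u => s(u, π u) := fun u hu =>
        Finset.mem_image.2 ⟨u, hu, rfl⟩
      refine ⟨fun u => f s(u, π u), ?_, ?_, ?_⟩
      · intro u hu
        rw [Finset.union_empty] at hu
        exact hf1 _ (hin u hu)
      · intro u hu
        simp only [hπ u]
        rw [Sym2.eq_swap]
      · intro u hu v hv huv heq
        rw [Finset.union_empty] at hu hv
        have h1 := hf2 _ (hin u hu) _ (hin v hv) heq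
        rw [Sym2.eq_iff] at h1
        rcases h1 with ⟨h1, _⟩ | ⟨h1, _⟩
        · subst h1
          exact G.irrefl huv
        · subst h1
          rw [hMm] at hv
          exact hadj v hv huv.symm
    | insert v T hvT ih =>
      obtain ⟨c, hc1, hc2, hc3⟩ := ih
      by_cases hvM : v ∈ M
      · have hset : M ∪ insert v T = M ∪ T := by
          rw [Finset.union_insert, Finset.insert_eq_self]
          exact Finset.mem_union_left _ hvM
        rw [hset]
        exact ⟨c, hc1, hc2, hc3⟩
      have hv0 : v ∉ M ∪ T := by
        rw [Finset.mem_union]
        tauto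
      have hπv : π v = v := by
        by_contra hne
        exact hvM ((hMm v).2 hne)
      set N' : Finset V := (M ∪ T).filter fun u => G.Adj v u with hN'
      set Q : Finset V := univ.filter fun u => G.Adj v u ∧ π u ≠ u ∧ G.Adj v (π u) with hQ
      have hQN : Q ⊆ N' := by
        intro u hu
        simp only [hQ, mem_filter, mem_univ, true_and] at hu
        simp only [hN', mem_filter, mem_union]
        exact ⟨Or.inl ((hMm u).2 hu.2.1), hu.1⟩
      have hQh : 2 * (Q.image c).card ≤ Q.card := by
        apply grc_half Q π c
        · intro u hu
          simp only [hQ, mem_filter, mem_univ, true_and] at hu ⊢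
          rw [hπ u]
          exact ⟨hu.2.2, hu.2.1.symm, hu.1⟩
        · intro u hu
          simp only [hQ, mem_filter, mem_univ, true_and] at hu
          exact hu.2.1
        · intro u hu
          have := hQN hu
          rw [hN', mem_filter] at this
          exact hc2 u this.1
      have hN'd : N'.card ≤ dg G v := by
        apply Finset.card_le_card
        intro u hu
        rw [hN', mem_filter] at hu
        simpa using hu.2
      have himg : (N'.image c).card < k := by
        have h1 : N'.image c ⊆ (N' \ Q).image c ∪ Q.image c := by
          rw [← Finset.image_union, Finset.sdiff_union_of_subset hQN]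
        have h2 : (N'.image c).card ≤ ((N' \ Q).image c).card + (Q.image c).card :=
          (Finset.card_le_card h1).trans (Finset.card_union_le _ _)
        have h3 : ((N' \ Q).image c).card ≤ (N' \ Q).card := Finset.card_image_le
        have h4 : (N' \ Q).card = N'.card - Q.card := Finset.card_sdiff_of_subset hQN
        have h5 : Q.card ≤ N'.card := Finset.card_le_card hQN
        have h6 := hk v
        rw [← hQ] at h6
        omega
      obtain ⟨x, hx, hxn⟩ : ∃ x ∈ range k, x ∉ N'.image c := by
        by_contra hcon
        push Not at hcon
        have := Finset.card_le_card (fun x hx => hcon x hx : range k ⊆ N'.image c)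
        rw [card_range] at this
        omega
      have hne : ∀ u ∈ M ∪ T, u ≠ v := fun u hu huv => hv0 (huv ▸ hu)
      refine ⟨Function.update c v x, ?_, ?_, ?_⟩
      · intro u hu
        rw [Finset.union_insert, Finset.mem_insert] at hu
        rcases hu with rfl | hu
        · rw [Function.update_self]
          exact mem_range.1 hx
        · rw [Function.update_of_ne (hne u hu)]
          exact hc1 u hu
      · intro u hu
        rw [Finset.union_insert, Finset.mem_insert] at hu
        rcases hu with rfl | hu
        · rw [hπv]
        · have h1 : π u ≠ v := by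
            intro h1
            have h2 : u = v := by
              rw [← hπ u, h1, hπv]
            exact hne u hu h2
          rw [Function.update_of_ne (hne u hu), Function.update_of_ne h1]
          exact hc2 u hu
      · intro u hu w hw huw
        rw [Finset.union_insert, Finset.mem_insert] at hu hw
        rcases hu with rfl | hu
        · rcases hw with rfl | hw
          · exact absurd huw G.irrefl
          · rw [Function.update_self, Function.update_of_ne (hne w hw)]
            intro heq
            apply hxn
            rw [heq]
            exact Finset.mem_image_of_mem c (Finset.mem_filter.2 ⟨hw, huw⟩)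
        · rcases hw with rfl | hw
          · rw [Function.update_self, Function.update_of_ne (hne u hu)]
            intro heq
            apply hxn
            rw [← heq]
            exact Finset.mem_image_of_mem c (Finset.mem_filter.2 ⟨hu, huw.symm⟩)
          · rw [Function.update_of_ne (hne u hu), Function.update_of_ne (hne w hw)]
            exact hc3 u hu w hw huw
  obtain ⟨c, hc1, _, hc3⟩ := key univ
  have hu : ∀ u : V, u ∈ M ∪ univ := fun u => Finset.mem_union_right _ (mem_univ u)
  refine ⟨SimpleGraph.Coloring.mk (fun v => (⟨c v, hc1 v (hu v)⟩ : Fin k)) ?_⟩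
  intro u v huv heq
  exact hc3 u (hu u) v (hu v) huv (congrArg Fin.val heq)

end Pool.Agent.H71.DR
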