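import Mathlib
import Pool.Agent.H71.DR.Defs

/-!
RPI: a random set of disjoint non-adjacent pairs.

Proof (`n = #V`).  `a := min p μ / 64`..., `t := ⌊a n⌋₊` random ordered pairs `f : Fin t → V × V` (uniform; `#(V × V) = n²`).
For `v` let `P v = {(x, y) : G.Adj v x, G.Adj v y, x ≠ y, ¬ G.Adj x y}`; `S = {v : p n² ≤ #(P v)}`.
 (1) For `v ∈ S` the number of `f` with `#{i : f i ∈ P v} ≤ p t / 4` is at most `(n²) ^ t exp (- p t / 4)`: by Markov for
 `(1/2) ^ #{i : f i ∈ P v}`: `∑_f ∏_i (1/2)^{[f i ∈ P v]} = (n² - #(P v) / 2) ^ t ≤ (n²) ^ t (1 - p/2) ^ t ≤ (n²) ^ t exp (- p t / 2)`,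
 and `2 ^ (p t / 4) ≤ exp (p t / 4)`.
 (2) Call `i` bad for `f` if `{x_i, y_i}` meets some `{x_j, y_j}`, `j ≠ i`. The sum over `f` of the number of bad `i` is at
 most `(n²) ^ t t² 4 / n` (for fixed `i ≠ j` there are at most `4 n³` choices of the two pairs). So the number of `f` with
 more than `p t / 8` bad `i` is at most `(n²) ^ t (4 t² / n) / (p t / 8) = (n²) ^ t (32 t / (p n)) ≤ (n²) ^ t / 2` if `a ≤ p / 64`.
 For `n ≥ n0`: `n exp (- p t / 4) < 1 / 2`, so some `f` is good for all `v ∈ S` and has at most `p t / 8` bad `i`.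
 `π`: for every `i` which is not bad and has `x_i ≠ y_i`, `¬ G.Adj x_i y_i`, interchange `x_i, y_i`; everything else is fixed.
 `#{u : π u ≠ u} ≤ 2 t ≤ μ n`. For `v ∈ S` at least `p t / 4 - p t / 8 = p t / 8` indices `i` with `f i ∈ P v` are not bad: each
 gives two vertices `u` (`x_i` and `y_i`; different `i` give different vertices): at least `p t / 4 ≥ η n`.
-/

set_option autoImplicit false

namespace Pool.Agent.H71.DR

open Finset Classical
open Pool.Agent.H71.DN Pool.Agent.H71.DX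

private theorem Rpi_w {α : Type} [Fintype α] (P : α → Prop) (p : ℝ)
    (hP : p * Fintype.card α ≤ ((univ.filter P).card : ℝ)) :
    ∑ x : α, (if P x then Real.exp (-1) else 1) ≤ (Fintype.card α : ℝ) * Real.exp (-(p / 2)) := by
  have h1 : ∑ x : α, (if P x then Real.exp (-1) else 1) =
      (Fintype.card α : ℝ) - ((univ.filter P).card : ℝ) * (1 - Real.exp (-1)) := by
    have h2 : ∀ x : α, (if P x then Real.exp (-1) else 1) =
        1 - (if P x then (1 - Real.exp (-1)) else 0) := by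
      intro x
      by_cases h : P x
      · rw [if_pos h, if_pos h]; ring
      · rw [if_neg h, if_neg h]; ring
    rw [sum_congr rfl fun x _ => h2 x, sum_sub_distrib, ← sum_filter, sum_const, nsmul_eq_mul,
      sum_const, nsmul_eq_mul, card_univ, mul_one]
  have he : Real.exp (-1) ≤ 1 / 2 := by
    have h3 : (2 : ℝ) ≤ Real.exp 1 := by
      have := Real.add_one_le_exp (1 : ℝ)
      linarith
    rw [Real.exp_neg]
    rw [one_div]
    exact inv_anti₀ (by norm_num) h3
  have h4 : 1 - p / 2 ≤ Real.exp (-(p / 2)) := by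
    have := Real.add_one_le_exp (-(p / 2))
    linarith
  have h5 : (0 : ℝ) ≤ ((univ.filter P).card : ℝ) := Nat.cast_nonneg _
  have h6 : (0 : ℝ) ≤ (Fintype.card α : ℝ) := Nat.cast_nonneg _
  rw [h1]
  nlinarith [mul_le_mul_of_nonneg_left h4 h6]

private theorem Rpi_tail {α : Type} [Fintype α] (t : ℕ) (P : α → Prop) (p : ℝ)
    (hP : p * Fintype.card α ≤ ((univ.filter P).card : ℝ)) :
    ((univ.filter fun f : Fin t → α =>
        ((univ.filter fun i => P (f i)).card : ℝ) ≤ p * t / 4).card : ℝ) ≤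
      (Fintype.card α : ℝ) ^ t * Real.exp (-(p * t / 4)) := by
  have h1 := Fintype.sum_pow (fun x : α => if P x then Real.exp (-1) else 1) t
  have hw := Rpi_w P p hP
  have h0 : (0 : ℝ) ≤ ∑ x : α, (if P x then Real.exp (-1) else 1) := by
    refine sum_nonneg fun x _ => ?_
    by_cases h : P x
    · rw [if_pos h]; exact (Real.exp_pos _).le
    · rw [if_neg h]; norm_num
  have h2 : (∑ x : α, (if P x then Real.exp (-1) else 1)) ^ t ≤
      (Fintype.card α : ℝ) ^ t * Real.exp (-(p * t / 2)) := by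
    refine (pow_le_pow_left₀ h0 hw t).trans (le_of_eq ?_)
    rw [mul_pow, ← Real.exp_nat_mul]
    congr 2
    ring
  have h3 : ∀ f : Fin t → α, ∏ i, (if P (f i) then Real.exp (-1) else 1) =
      Real.exp (-((univ.filter fun i => P (f i)).card : ℝ)) := by
    intro f
    rw [← prod_filter]
    rw [prod_const, ← Real.exp_nat_mul]
    congr 1
    ring
  have h4 : ((univ.filter fun f : Fin t → α =>
        ((univ.filter fun i => P (f i)).card : ℝ) ≤ p * t / 4).card : ℝ) *
        Real.exp (-(p * t / 4)) ≤ (∑ x : α, (if P x then Real.exp (-1) else 1)) ^ t := by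
    rw [h1]
    calc ((univ.filter fun f : Fin t → α =>
        ((univ.filter fun i => P (f i)).card : ℝ) ≤ p * t / 4).card : ℝ) *
        Real.exp (-(p * t / 4))
        = ∑ f ∈ univ.filter (fun f : Fin t → α =>
            ((univ.filter fun i => P (f i)).card : ℝ) ≤ p * t / 4), Real.exp (-(p * t / 4)) := by
          rw [sum_const, nsmul_eq_mul]
      _ ≤ ∑ f ∈ univ.filter (fun f : Fin t → α =>
            ((univ.filter fun i => P (f i)).card : ℝ) ≤ p * t / 4),
            ∏ i, (if P (f i) then Real.exp (-1) else 1) := by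
          refine sum_le_sum fun f hf => ?_
          rw [h3 f]
          have := (mem_filter.1 hf).2
          exact Real.exp_le_exp.2 (by linarith)
      _ ≤ ∑ f : Fin t → α, ∏ i, (if P (f i) then Real.exp (-1) else 1) := by
          refine sum_le_sum_of_subset_of_nonneg (filter_subset _ _) fun f _ _ => ?_
          rw [h3 f]
          exact (Real.exp_pos _).le
  have h5 := h4.trans h2
  have h6 : Real.exp (-(p * t / 2)) = Real.exp (-(p * t / 4)) * Real.exp (-(p * t / 4)) := by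
    rw [← Real.exp_add]; congr 1; ring
  rw [h6, ← mul_assoc] at h5
  exact le_of_mul_le_mul_right h5 (Real.exp_pos _)

private theorem Rpi_ev {V : Type} [Fintype V] (t : ℕ) (i j : Fin t) (hij : i ≠ j)
    (c : V × V → V) (d : V × V → V) (s : V × V → V → V × V)
    (h1 : ∀ x w, s (s x w) (d x) = x) (h2 : ∀ x w, d (s x w) = w) :
    (Fintype.card V : ℝ) *
      ((univ.filter fun f : Fin t → V × V => c (f i) = d (f j)).card : ℝ) ≤
      (Fintype.card (Fin t → V × V) : ℝ) := by
  have h3 : ((univ : Finset V) ×ˢ (univ.filter fun f : Fin t → V × V => c (f i) = d (f j))).card ≤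
      (univ : Finset (Fin t → V × V)).card := by
    refine card_le_card_of_injOn (fun q => Function.update q.2 j (s (q.2 j) q.1))
      (fun _ _ => mem_coe.2 (mem_univ _)) ?_
    rintro ⟨v, f⟩ hf ⟨w, g⟩ hg h
    have hf' : c (f i) = d (f j) := (mem_filter.1 (mem_product.1 (mem_coe.1 hf)).2).2
    have hg' : c (g i) = d (g j) := (mem_filter.1 (mem_product.1 (mem_coe.1 hg)).2).2
    have e1 : ∀ k, k ≠ j → f k = g k := by
      intro k hk
      have := congrFun h k
      simpa [Function.update_of_ne hk] using this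
    have e2 : s (f j) v = s (g j) w := by
      have := congrFun h j
      simpa using this
    have e3 : v = w := by
      have := congrArg d e2
      rwa [h2, h2] at this
    have e4 : d (f j) = d (g j) := by rw [← hf', ← hg', e1 i hij]
    have e5 : f j = g j := by
      rw [← h1 (f j) v, ← h1 (g j) w, e2, e4]
    refine Prod.ext e3 (funext fun k => ?_)
    by_cases hk : k = j
    · rw [hk]; exact e5
    · exact e1 k hk
  rw [card_product, card_univ, card_univ] at h3
  exact_mod_cast h3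

private theorem Rpi_meet {V : Type} [Fintype V] (t : ℕ) (i j : Fin t) (hij : i ≠ j) :
    (Fintype.card V : ℝ) *
      ((univ.filter fun f : Fin t → V × V => (f i).1 = (f j).1 ∨ (f i).1 = (f j).2 ∨
        (f i).2 = (f j).1 ∨ (f i).2 = (f j).2).card : ℝ) ≤
      4 * (Fintype.card (Fin t → V × V) : ℝ) := by
  have a1 := Rpi_ev t i j hij (fun x : V × V => x.1) (fun x => x.1) (fun x w => (w, x.2))
    (fun x w => rfl) (fun x w => rfl)
  have a2 := Rpi_ev t i j hij (fun x : V × V => x.1) (fun x => x.2) (fun x w => (x.1, w))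
    (fun x w => rfl) (fun x w => rfl)
  have a3 := Rpi_ev t i j hij (fun x : V × V => x.2) (fun x => x.1) (fun x w => (w, x.2))
    (fun x w => rfl) (fun x w => rfl)
  have a4 := Rpi_ev t i j hij (fun x : V × V => x.2) (fun x => x.2) (fun x w => (x.1, w))
    (fun x w => rfl) (fun x w => rfl)
  have h : (univ.filter fun f : Fin t → V × V => (f i).1 = (f j).1 ∨ (f i).1 = (f j).2 ∨
        (f i).2 = (f j).1 ∨ (f i).2 = (f j).2).card ≤
      (univ.filter fun f : Fin t → V × V => (f i).1 = (f j).1).card +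
      (univ.filter fun f : Fin t → V × V => (f i).1 = (f j).2).card +
      (univ.filter fun f : Fin t → V × V => (f i).2 = (f j).1).card +
      (univ.filter fun f : Fin t → V × V => (f i).2 = (f j).2).card := by
    refine le_trans (card_le_card (t := ((univ.filter fun f : Fin t → V × V => (f i).1 = (f j).1) ∪
      (univ.filter fun f : Fin t → V × V => (f i).1 = (f j).2)) ∪
      (univ.filter fun f : Fin t → V × V => (f i).2 = (f j).1) ∪
      (univ.filter fun f : Fin t → V × V => (f i).2 = (f j).2)) ?_) ?_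
    · intro f hf
      rcases (mem_filter.1 hf).2 with h | h | h | h
      · simp [h]
      · simp [h]
      · simp [h]
      · simp [h]
    · refine (card_union_le _ _).trans (Nat.add_le_add_right ?_ _)
      refine (card_union_le _ _).trans (Nat.add_le_add_right ?_ _)
      exact card_union_le _ _
  have h' : ((univ.filter fun f : Fin t → V × V => (f i).1 = (f j).1 ∨ (f i).1 = (f j).2 ∨
        (f i).2 = (f j).1 ∨ (f i).2 = (f j).2).card : ℝ) ≤
      ((univ.filter fun f : Fin t → V × V => (f i).1 = (f j).1).card : ℝ) +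
      (univ.filter fun f : Fin t → V × V => (f i).1 = (f j).2).card +
      (univ.filter fun f : Fin t → V × V => (f i).2 = (f j).1).card +
      (univ.filter fun f : Fin t → V × V => (f i).2 = (f j).2).card := by exact_mod_cast h
  have h0 : (0 : ℝ) ≤ (Fintype.card V : ℝ) := Nat.cast_nonneg _
  have h'' := mul_le_mul_of_nonneg_left h' h0
  simp only [mul_add] at h''
  linarith

/-- number of bad indices -/
private theorem Rpi_bad {V : Type} [Fintype V] (t : ℕ) :
    (Fintype.card V : ℝ) * ∑ f : Fin t → V × V,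
      ((univ.filter fun i : Fin t => ∃ j, i ≠ j ∧ ((f i).1 = (f j).1 ∨ (f i).1 = (f j).2 ∨
        (f i).2 = (f j).1 ∨ (f i).2 = (f j).2)).card : ℝ) ≤
      4 * (t : ℝ) ^ 2 * (Fintype.card (Fin t → V × V) : ℝ) := by
  have h1 : ∀ f : Fin t → V × V,
      ((univ.filter fun i : Fin t => ∃ j, i ≠ j ∧ ((f i).1 = (f j).1 ∨ (f i).1 = (f j).2 ∨
        (f i).2 = (f j).1 ∨ (f i).2 = (f j).2)).card : ℝ) ≤
      ∑ i : Fin t, ∑ j : Fin t, if i ≠ j ∧ ((f i).1 = (f j).1 ∨ (f i).1 = (f j).2 ∨
        (f i).2 = (f j).1 ∨ (f i).2 = (f j).2) then (1 : ℝ) else 0 := by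
    intro f
    rw [card_filter]
    push_cast
    refine sum_le_sum fun i _ => ?_
    by_cases h : ∃ j, i ≠ j ∧ ((f i).1 = (f j).1 ∨ (f i).1 = (f j).2 ∨
        (f i).2 = (f j).1 ∨ (f i).2 = (f j).2)
    · rw [if_pos h]
      obtain ⟨j, hj⟩ := h
      refine le_trans (le_of_eq ?_) (single_le_sum (f := fun j => if i ≠ j ∧ ((f i).1 = (f j).1 ∨
        (f i).1 = (f j).2 ∨ (f i).2 = (f j).1 ∨ (f i).2 = (f j).2) then (1 : ℝ) else 0)
        (fun j _ => ?_) (mem_univ j))
      · simp only [if_pos hj]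
      · split_ifs <;> norm_num
    · rw [if_neg h]
      refine sum_nonneg fun j _ => ?_
      split_ifs <;> norm_num
  have h2 : ∑ f : Fin t → V × V,
      ((univ.filter fun i : Fin t => ∃ j, i ≠ j ∧ ((f i).1 = (f j).1 ∨ (f i).1 = (f j).2 ∨
        (f i).2 = (f j).1 ∨ (f i).2 = (f j).2)).card : ℝ) ≤
      ∑ i : Fin t, ∑ j : Fin t, ∑ f : Fin t → V × V,
        if i ≠ j ∧ ((f i).1 = (f j).1 ∨ (f i).1 = (f j).2 ∨
        (f i).2 = (f j).1 ∨ (f i).2 = (f j).2) then (1 : ℝ) else 0 := by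
    refine (sum_le_sum fun f _ => h1 f).trans (le_of_eq ?_)
    rw [sum_comm]
    exact sum_congr rfl fun i _ => sum_comm
  have h0 : (0 : ℝ) ≤ (Fintype.card V : ℝ) := Nat.cast_nonneg _
  refine (mul_le_mul_of_nonneg_left h2 h0).trans ?_
  rw [mul_sum]
  have h3 : ∀ i : Fin t, (Fintype.card V : ℝ) * ∑ j : Fin t, ∑ f : Fin t → V × V,
        (if i ≠ j ∧ ((f i).1 = (f j).1 ∨ (f i).1 = (f j).2 ∨
        (f i).2 = (f j).1 ∨ (f i).2 = (f j).2) then (1 : ℝ) else 0) ≤
        t * (4 * (Fintype.card (Fin t → V × V) : ℝ)) := by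
    intro i
    rw [mul_sum]
    have h4 : ∀ j : Fin t, (Fintype.card V : ℝ) * ∑ f : Fin t → V × V,
        (if i ≠ j ∧ ((f i).1 = (f j).1 ∨ (f i).1 = (f j).2 ∨
        (f i).2 = (f j).1 ∨ (f i).2 = (f j).2) then (1 : ℝ) else 0) ≤
        4 * (Fintype.card (Fin t → V × V) : ℝ) := by
      intro j
      by_cases hij : i = j
      · have : ∑ f : Fin t → V × V,
          (if i ≠ j ∧ ((f i).1 = (f j).1 ∨ (f i).1 = (f j).2 ∨
          (f i).2 = (f j).1 ∨ (f i).2 = (f j).2) then (1 : ℝ) else 0) = 0 := by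
          refine sum_eq_zero fun f _ => ?_
          rw [if_neg]
          exact fun h => h.1 hij
        rw [this, mul_zero]
        positivity
      · refine le_trans (le_of_eq ?_) (Rpi_meet t i j hij)
        congr 1
        rw [← sum_filter, sum_const, nsmul_eq_mul, mul_one]
        congr 2
        ext f
        simp [hij]
    refine (sum_le_sum fun j _ => h4 j).trans (le_of_eq ?_)
    rw [sum_const, card_univ, Fintype.card_fin, nsmul_eq_mul]
  refine (sum_le_sum fun i _ => h3 i).trans (le_of_eq ?_)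
  rw [sum_const, card_univ, Fintype.card_fin, nsmul_eq_mul]
  ring


/-- the matching -/
private theorem Rpi_inv {V : Type} [Fintype V] (G : SimpleGraph V) (M : V → V → Prop)
    (hs : ∀ u w, M u w → M w u) (hu : ∀ u w w', M u w → M u w' → w = w')
    (ha : ∀ u w, M u w → ¬ G.Adj u w) :
    ∃ π : V → V, Inv π ∧ (∀ u, π u ≠ u → ¬ G.Adj u (π u)) ∧ (∀ u w, M u w → π u = w) ∧
      (∀ u, π u ≠ u → ∃ w, M u w) := by
  have hf : ∀ u, ∃ w, (M u w) ∨ ((¬ ∃ w', M u w') ∧ w = u) := by
    intro u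
    by_cases h : ∃ w', M u w'
    · obtain ⟨w, hw⟩ := h
      exact ⟨w, Or.inl hw⟩
    · exact ⟨u, Or.inr ⟨h, rfl⟩⟩
  choose π hπ using hf
  have h1 : ∀ u w, M u w → π u = w := by
    intro u w h
    rcases hπ u with h2 | ⟨h2, _⟩
    · exact hu u _ _ h2 h
    · exact absurd ⟨w, h⟩ h2
  have h2 : ∀ u, π u ≠ u → M u (π u) := by
    intro u h
    rcases hπ u with h2 | ⟨_, h2⟩
    · exact h2
    · exact absurd h2 h
  refine ⟨π, ?_, ?_, h1, fun u h => ⟨_, h2 u h⟩⟩
  · intro u
    by_cases h : π u = u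
    · rw [h, h]
    · exact h1 _ _ (hs _ _ (h2 u h))
  · intro u h
    exact ha _ _ (h2 u h)

/-- from a good choice to the matching -/
private theorem Rpi_fin {V : Type} [Fintype V] (G : SimpleGraph V) (t : ℕ) (p : ℝ)
    (f : Fin t → V × V)
    (hb : ((univ.filter fun i : Fin t => ∃ j, i ≠ j ∧ ((f i).1 = (f j).1 ∨ (f i).1 = (f j).2 ∨
        (f i).2 = (f j).1 ∨ (f i).2 = (f j).2)).card : ℝ) ≤ p * t / 8)
    (S : V → Prop)
    (hv : ∀ v, S v → p * t / 4 < ((univ.filter fun i => G.Adj v (f i).1 ∧ G.Adj v (f i).2 ∧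
      (f i).1 ≠ (f i).2 ∧ ¬ G.Adj (f i).1 (f i).2).card : ℝ)) :
    ∃ π : V → V, Inv π ∧ (∀ u, π u ≠ u → ¬ G.Adj u (π u)) ∧
      ((univ.filter fun u => π u ≠ u).card : ℝ) ≤ 2 * t ∧
      ∀ v, S v → p * t / 4 ≤
        ((univ.filter fun u => G.Adj v u ∧ π u ≠ u ∧ G.Adj v (π u)).card : ℝ) := by
  set Bd : Finset (Fin t) := univ.filter fun i : Fin t => ∃ j, i ≠ j ∧
    ((f i).1 = (f j).1 ∨ (f i).1 = (f j).2 ∨ (f i).2 = (f j).1 ∨ (f i).2 = (f j).2) with hBd
  have hB : ∀ i, i ∉ Bd → ∀ j, i ≠ j → (f i).1 ≠ (f j).1 ∧ (f i).1 ≠ (f j).2 ∧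
      (f i).2 ≠ (f j).1 ∧ (f i).2 ≠ (f j).2 := by
    intro i hi j hj
    rw [hBd, mem_filter] at hi
    refine ⟨fun h => hi ⟨mem_univ _, j, hj, Or.inl h⟩,
      fun h => hi ⟨mem_univ _, j, hj, Or.inr (Or.inl h)⟩,
      fun h => hi ⟨mem_univ _, j, hj, Or.inr (Or.inr (Or.inl h))⟩,
      fun h => hi ⟨mem_univ _, j, hj, Or.inr (Or.inr (Or.inr h))⟩⟩
  let M : V → V → Prop := fun u w => ∃ i, i ∉ Bd ∧ (f i).1 ≠ (f i).2 ∧
    ¬ G.Adj (f i).1 (f i).2 ∧ (((f i).1 = u ∧ (f i).2 = w) ∨ ((f i).1 = w ∧ (f i).2 = u))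
  obtain ⟨π, p1, p2, p3, p4⟩ := Rpi_inv G M
    (by
      rintro u w ⟨i, h1, h2, h3, h4⟩
      exact ⟨i, h1, h2, h3, h4.symm⟩)
    (by
      rintro u w w' ⟨i, h1, h2, h3, h4⟩ ⟨j, k1, k2, k3, k4⟩
      have hij : i = j := by
        by_contra hne
        obtain ⟨a1, a2, a3, a4⟩ := hB i h1 j hne
        rcases h4 with ⟨x1, x2⟩ | ⟨x1, x2⟩ <;> rcases k4 with ⟨y1, y2⟩ | ⟨y1, y2⟩
        · exact a1 (x1.trans y1.symm)
        · exact a2 (x1.trans y2.symm)
        · exact a3 (x2.trans y1.symm)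
        · exact a4 (x2.trans y2.symm)
      subst hij
      rcases h4 with ⟨x1, x2⟩ | ⟨x1, x2⟩ <;> rcases k4 with ⟨y1, y2⟩ | ⟨y1, y2⟩
      · exact x2.symm.trans y2
      · exact absurd (x1.trans y2.symm) h2
      · exact absurd (y1.trans x2.symm) h2
      · exact x1.symm.trans y1)
    (by
      rintro u w ⟨i, h1, h2, h3, ⟨x1, x2⟩ | ⟨x1, x2⟩⟩
      · rw [← x1, ← x2]; exact h3
      · rw [← x1, ← x2]; exact fun h => h3 h.symm)
  refine ⟨π, p1, p2, ?_, ?_⟩
  · have h1 : (univ.filter fun u => π u ≠ u) ⊆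
        (univ.image fun i : Fin t => (f i).1) ∪ (univ.image fun i : Fin t => (f i).2) := by
      intro u hu
      obtain ⟨w, i, _, _, _, h | h⟩ := p4 u (mem_filter.1 hu).2
      · exact mem_union_left _ (mem_image.2 ⟨i, mem_univ _, h.1⟩)
      · exact mem_union_right _ (mem_image.2 ⟨i, mem_univ _, h.2⟩)
    have h2 := (card_le_card h1).trans (card_union_le _ _)
    have h3 : (univ.image fun i : Fin t => (f i).1).card ≤ t := by
      refine card_image_le.trans (le_of_eq ?_)
      rw [card_univ, Fintype.card_fin]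
    have h4 : (univ.image fun i : Fin t => (f i).2).card ≤ t := by
      refine card_image_le.trans (le_of_eq ?_)
      rw [card_univ, Fintype.card_fin]
    have h5 : (univ.filter fun u => π u ≠ u).card ≤ 2 * t := by omega
    exact_mod_cast h5
  · intro v hSv
    have hv1 := hv v hSv
    set I : Finset (Fin t) := univ.filter fun i => G.Adj v (f i).1 ∧ G.Adj v (f i).2 ∧
      (f i).1 ≠ (f i).2 ∧ ¬ G.Adj (f i).1 (f i).2 with hI
    have h1 : (I.card : ℝ) ≤ ((I \ Bd).card : ℝ) + Bd.card := by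
      have : I.card ≤ (I \ Bd).card + Bd.card := by
        have := card_le_card_sdiff_add_card (s := I) (t := Bd)
        omega
      exact_mod_cast this
    have h2 : ((I \ Bd).image fun i => (f i).1) ∪ ((I \ Bd).image fun i => (f i).2) ⊆
        univ.filter fun u => G.Adj v u ∧ π u ≠ u ∧ G.Adj v (π u) := by
      intro u hu
      rw [mem_union, mem_image, mem_image] at hu
      rcases hu with ⟨i, hi, hiu⟩ | ⟨i, hi, hiu⟩
      · obtain ⟨hi1, hi2⟩ := mem_sdiff.1 hi
        obtain ⟨_, b1, b2, b3, b4⟩ := mem_filter.1 hi1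
        have h5 : π u = (f i).2 := p3 u _ ⟨i, hi2, b3, b4, Or.inl ⟨hiu, rfl⟩⟩
        rw [mem_filter, h5, ← hiu]
        exact ⟨mem_univ _, b1, b3.symm, b2⟩
      · obtain ⟨hi1, hi2⟩ := mem_sdiff.1 hi
        obtain ⟨_, b1, b2, b3, b4⟩ := mem_filter.1 hi1
        have h5 : π u = (f i).1 := p3 u _ ⟨i, hi2, b3, b4, Or.inr ⟨rfl, hiu⟩⟩
        rw [mem_filter, h5, ← hiu]
        exact ⟨mem_univ _, b2, b3, b1⟩
    have h3 : (((I \ Bd).image fun i => (f i).1) ∪ ((I \ Bd).image fun i => (f i).2)).card =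
        (I \ Bd).card + (I \ Bd).card := by
      rw [card_union_of_disjoint, card_image_of_injOn, card_image_of_injOn]
      · intro i hi j hj hij
        by_contra hne
        exact (hB i (mem_sdiff.1 (mem_coe.1 hi)).2 j hne).2.2.2 hij
      · intro i hi j hj hij
        by_contra hne
        exact (hB i (mem_sdiff.1 (mem_coe.1 hi)).2 j hne).1 hij
      · rw [disjoint_left]
        intro u hu hu'
        obtain ⟨i, hi, hiu⟩ := mem_image.1 hu
        obtain ⟨j, hj, hju⟩ := mem_image.1 hu'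
        by_cases hij : i = j
        · subst hij
          exact (mem_filter.1 (mem_sdiff.1 hi).1).2.2.2.1 (hiu.trans hju.symm)
        · exact (hB i (mem_sdiff.1 hi).2 j hij).2.1 (hiu.trans hju.symm)
    have h4 : (((I \ Bd).card + (I \ Bd).card : ℕ) : ℝ) ≤
        ((univ.filter fun u => G.Adj v u ∧ π u ≠ u ∧ G.Adj v (π u)).card : ℝ) := by
      rw [← h3]
      exact_mod_cast card_le_card h2
    push_cast at h4
    linarith

private def RpiP {V : Type} (G : SimpleGraph V) (v : V) (x : V × V) : Prop :=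
  G.Adj v x.1 ∧ G.Adj v x.2 ∧ x.1 ≠ x.2 ∧ ¬ G.Adj x.1 x.2

private def RpiS {V : Type} [Fintype V] (G : SimpleGraph V) (p : ℝ) (v : V) : Prop :=
  p * (Fintype.card V : ℝ) ^ 2 ≤ ((univ.filter (RpiP G v)).card : ℝ)

theorem rpi (p μ : ℝ) (hp : 0 < p) (hp1 : p ≤ 1) (hμ : 0 < μ) :
    ∃ (η : ℝ) (n0 : ℕ), 0 < η ∧
      ∀ (V : Type) [Fintype V] (G : SimpleGraph V), n0 ≤ Fintype.card V →
        ∃ π : V → V, Inv π ∧ (∀ u, π u ≠ u → ¬ G.Adj u (π u)) ∧
          ((univ.filter fun u => π u ≠ u).card : ℝ) ≤ μ * Fintype.card V ∧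
          ∀ v, p * (Fintype.card V : ℝ) ^ 2 ≤
              ((univ.filter fun x : V × V => G.Adj v x.1 ∧ G.Adj v x.2 ∧ x.1 ≠ x.2 ∧
                ¬ G.Adj x.1 x.2).card : ℝ) →
            η * Fintype.card V ≤
              ((univ.filter fun u => G.Adj v u ∧ π u ≠ u ∧ G.Adj v (π u)).card : ℝ) := by
  set a : ℝ := min p μ / 64 with ha
  have ha0 : 0 < a := by
    have := lt_min hp hμ
    rw [ha]; positivity
  have hap : a ≤ p / 64 := by rw [ha]; exact div_le_div_of_nonneg_right (min_le_left _ _) (by norm_num)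
  have haμ : a ≤ μ / 64 := by rw [ha]; exact div_le_div_of_nonneg_right (min_le_right _ _) (by norm_num)
  have hlim : Filter.Tendsto (fun n : ℕ => (n : ℝ) * Real.exp (-(p * a / 8 * n)))
      Filter.atTop (nhds 0) := by
    have hc : 0 < p * a / 8 := by positivity
    have h1 := (Real.tendsto_pow_mul_exp_neg_atTop_nhds_zero 1)
    have h2 : Filter.Tendsto (fun n : ℕ => p * a / 8 * (n : ℝ)) Filter.atTop Filter.atTop :=
      tendsto_natCast_atTop_atTop.const_mul_atTop hc
    have h3 := (h1.comp h2).const_mul (1 / (p * a / 8))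
    rw [mul_zero] at h3
    refine h3.congr fun n => ?_
    simp only [Function.comp_apply, pow_one]
    field_simp
  obtain ⟨n1, hn1⟩ := Filter.eventually_atTop.1
    (hlim.eventually (gt_mem_nhds (show (0 : ℝ) < 1 / 4 by norm_num)))
  refine ⟨p * a / 8, max n1 (⌈2 / a⌉₊ + 1), by positivity, ?_⟩
  intro V _ G hn
  set n : ℕ := Fintype.card V with hnn
  have hn1' : n1 ≤ n := (le_max_left _ _).trans hn
  have hn2 : 2 / a ≤ (n : ℝ) := by
    have h1 : ⌈2 / a⌉₊ + 1 ≤ n := (le_max_right _ _).trans hn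
    have h2 := Nat.le_ceil (2 / a)
    have h3 : ((⌈2 / a⌉₊ : ℕ) : ℝ) + 1 ≤ (n : ℝ) := by exact_mod_cast h1
    linarith
  have hn0 : (0 : ℝ) < (n : ℝ) := lt_of_lt_of_le (by positivity) hn2
  have han : 2 ≤ a * n := by
    rw [div_le_iff₀ ha0] at hn2
    linarith
  set t : ℕ := ⌊a * n⌋₊ with ht
  have ht1 : (t : ℝ) ≤ a * n := Nat.floor_le (by positivity)
  have ht2 : a * n / 2 ≤ (t : ℝ) := by
    have := Nat.lt_floor_add_one (a * n)
    rw [← ht] at this
    linarith
  have ht0 : (0 : ℝ) < (t : ℝ) := by linarith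
  set T0 : ℝ := (Fintype.card (Fin t → V × V) : ℝ) with hT0
  have hT1 : T0 = (Fintype.card (V × V) : ℝ) ^ t := by
    rw [hT0, Fintype.card_fun, Fintype.card_fin]
    push_cast
    rfl
  have hcard : (Fintype.card (V × V) : ℝ) = (n : ℝ) ^ 2 := by
    rw [Fintype.card_prod]
    push_cast
    rw [← hnn]
    ring
  have hT2 : 0 < T0 := by
    rw [hT1, hcard]
    positivity
  -- the sets to avoid
  let S : V → Prop := RpiS G p
  let A : V → Finset (Fin t → V × V) := fun v => univ.filter fun f : Fin t → V × V =>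
    ((univ.filter fun i => RpiP G v (f i)).card : ℝ) ≤ p * t / 4
  let C : Finset (Fin t → V × V) := univ.filter fun f : Fin t → V × V => p * t / 8 <
    ((univ.filter fun i : Fin t => ∃ j, i ≠ j ∧ ((f i).1 = (f j).1 ∨ (f i).1 = (f j).2 ∨
        (f i).2 = (f j).1 ∨ (f i).2 = (f j).2)).card : ℝ)
  have hA : ∀ v, S v → ((A v).card : ℝ) ≤ T0 * Real.exp (-(p * t / 4)) := by
    intro v hv
    have := Rpi_tail t (RpiP G v) p (by rw [hcard]; exact hv)
    rw [hT1]
    exact this
  have hC : ((C.card : ℕ) : ℝ) ≤ T0 / 2 := by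
    have h1 := Rpi_bad (V := V) t
    rw [← hnn, ← hT0] at h1
    have h2 : (C.card : ℝ) * (p * t / 8) ≤ ∑ f : Fin t → V × V,
      ((univ.filter fun i : Fin t => ∃ j, i ≠ j ∧ ((f i).1 = (f j).1 ∨ (f i).1 = (f j).2 ∨
        (f i).2 = (f j).1 ∨ (f i).2 = (f j).2)).card : ℝ) := by
      rw [← nsmul_eq_mul, ← sum_const]
      refine (sum_le_sum fun f hf => (mem_filter.1 hf).2.le).trans ?_
      exact sum_le_sum_of_subset_of_nonneg (filter_subset _ _) fun f _ _ => Nat.cast_nonneg _
    have h3 := mul_le_mul_of_nonneg_left h2 hn0.le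
    have h4 := h3.trans h1
    -- n * C * p t / 8 <= 4 t^2 T0
    have h5 : (n : ℝ) * C.card * p ≤ 32 * t * T0 := by
      have h6 : (t : ℝ) * ((n : ℝ) * C.card * p) ≤ t * (32 * t * T0) := by nlinarith
      exact le_of_mul_le_mul_left h6 ht0
    have h7 : 32 * (t : ℝ) ≤ p * n / 2 := by nlinarith
    have h8 : (n : ℝ) * C.card * p ≤ p * n / 2 * T0 :=
      h5.trans (mul_le_mul_of_nonneg_right h7 hT2.le)
    have h9 : (p * n) * (C.card : ℝ) ≤ (p * n) * (T0 / 2) := by linarith
    exact le_of_mul_le_mul_left h9 (by positivity)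
  have hex : ∃ f : Fin t → V × V, f ∉ C ∧ ∀ v, S v → f ∉ A v := by
    by_contra hcon
    have hcon : ∀ f ∉ C, ∃ v, S v ∧ f ∈ A v := by
      intro f hf
      by_contra h
      exact hcon ⟨f, hf, fun v hv hfv => h ⟨v, hv, hfv⟩⟩
    have h1 : (univ : Finset (Fin t → V × V)) ⊆ C ∪ (univ.filter S).biUnion A := by
      intro f _
      by_cases hf : f ∈ C
      · exact mem_union_left _ hf
      · obtain ⟨v, hv, hfv⟩ := hcon f hf
        exact mem_union_right _ (mem_biUnion.2 ⟨v, mem_filter.2 ⟨mem_univ _, hv⟩, hfv⟩)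
    have h2 := (card_le_card h1).trans (card_union_le _ _)
    have h3 : T0 ≤ C.card + ((univ.filter S).biUnion A).card := by
      rw [hT0, ← card_univ]
      exact_mod_cast h2
    have h4 : ((((univ.filter S).biUnion A).card : ℕ) : ℝ) ≤
        n * (T0 * Real.exp (-(p * t / 4))) := by
      have h5 : ((((univ.filter S).biUnion A).card : ℕ) : ℝ) ≤
          ∑ v ∈ univ.filter S, ((A v).card : ℝ) := by exact_mod_cast card_biUnion_le
      refine h5.trans ((sum_le_sum fun v hv => hA v (mem_filter.1 hv).2).trans ?_)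
      rw [sum_const, nsmul_eq_mul]
      refine mul_le_mul_of_nonneg_right ?_ (by positivity)
      have h51 : (univ.filter S).card ≤ n := card_le_univ _
      exact_mod_cast h51
    have h6 : Real.exp (-(p * t / 4)) ≤ Real.exp (-(p * a / 8 * n)) := by
      refine Real.exp_le_exp.2 ?_
      nlinarith
    have h7 : (n : ℝ) * Real.exp (-(p * a / 8 * n)) < 1 / 4 := hn1 n hn1'
    have h8 : (n : ℝ) * Real.exp (-(p * t / 4)) < 1 / 4 :=
      lt_of_le_of_lt (mul_le_mul_of_nonneg_left h6 hn0.le) h7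
    have h9 : (n : ℝ) * (T0 * Real.exp (-(p * t / 4))) ≤ T0 / 4 := by nlinarith
    linarith
  obtain ⟨f, hf1, hf2⟩ := hex
  obtain ⟨π, q1, q2, q3, q4⟩ := Rpi_fin G t p f
    (by
      by_contra h
      exact hf1 (mem_filter.2 ⟨mem_univ _, not_le.1 h⟩)) S
    (by
      intro v hv
      by_contra h
      refine hf2 v hv (mem_filter.2 ⟨mem_univ _, ?_⟩)
      refine le_trans (le_of_eq ?_) (not_lt.1 h)
      congr 2
      ext i
      simp only [mem_filter, mem_univ, true_and, RpiP])
  refine ⟨π, q1, q2, q3.trans ?_, ?_⟩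
  · have : 2 * (t : ℝ) ≤ 2 * (a * n) := by linarith
    refine this.trans ?_
    have : a * n ≤ μ / 64 * n := mul_le_mul_of_nonneg_right haμ hn0.le
    nlinarith
  · intro v hv
    refine le_trans ?_ (q4 v ?_)
    · nlinarith
    · change p * (Fintype.card V : ℝ) ^ 2 ≤ ((univ.filter (RpiP G v)).card : ℝ)
      refine hv.trans (le_of_eq ?_)
      congr 2
      ext x
      simp only [mem_filter, mem_univ, true_and, RpiP]

end Pool.Agent.H71.DR
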