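import Mathlib
import Pool.Agent.H71.DR.Lb3
import Pool.Agent.H71.DN.InB

/-!
INE: the case with jokers and deficiencies, with `Con` and `Lrp` instead of the expansion properties `DN.Ex`.
Copy `H71/DN/Prc.lean` (`prc`) and `H71/DN/InB.lean` (`inB`), which are proved: `lab4` replaces `lab`, the constant
10 is replaced by `N`, `hR` has the conclusion `Con F ζ β N ∧ Lrp F ζ β N` (the hypotheses `h1`, `h2` disappear). The
definitions `prcU`, `prcC`, `prcF`, ... and their lemmas can be used from `Prc.lean`.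
-/

set_option autoImplicit false

namespace Pool.Agent.H71.DR

open Finset Classical
open Pool.Agent.H71.DN Pool.Agent.H71.DX

structure InEI {V : Type} [Fintype V] (R : SimpleGraph V) (U W0 J : ℕ → Finset V)
    (m0 : ℕ → V → V) (S0 N j : ℕ) (mm : ℕ → V → V) : Prop where
  p1 : ∀ ℓ < j, Inv (mm ℓ)
  p2 : ∀ ℓ < j, ∀ v ∈ U ℓ, mm ℓ v = v
  p3 : ∀ ℓ < j, ∀ v ∈ W0 ℓ, mm ℓ v ≠ v
  p4 : ∀ ℓ < j, ∀ v, m0 ℓ v ≠ v → mm ℓ v ≠ v
  p5 : ∀ ℓ < j, ∀ v, mm ℓ v = m0 ℓ v ∨ R.Adj v (mm ℓ v)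
  p6 : ∀ ℓ < j, ∀ ℓ' < j, ℓ' ≠ ℓ → ∀ v, R.Adj v (mm ℓ v) → mm ℓ v ≠ mm ℓ' v
  pa : ∀ v, prcU R mm j v ≤ S0 + prcC W0 J j v
  pb : ∑ v, prcU R mm j v ≤ N * ∑ ℓ ∈ range j, (W0 ℓ).card

theorem InE_step {V : Type} [Fintype V] (R : SimpleGraph V) (L : ℕ) (U W0 J : ℕ → Finset V)
    (m0 : ℕ → V → V) (ζ β β2 S0 E T N : ℕ) (hS0 : 0 < S0)
    (hR : ∀ F : SimpleGraph V, F ≤ R → (∀ v, dg R v ≤ dg F v + (S0 + E)) →
      (∀ A B, ee R A B ≤ ee F A B + N * T) → Con F ζ β N ∧ Lrp F ζ β N)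
    (hm0 : ∀ ℓ < L, Inv (m0 ℓ)) (hm1 : ∀ ℓ < L, ∀ v, ¬ R.Adj v (m0 ℓ v))
    (hU : ∀ ℓ < L, ∀ v ∈ U ℓ, m0 ℓ v = v)
    (hW : ∀ ℓ < L, ∀ v ∈ W0 ℓ, m0 ℓ v = v ∧ v ∉ U ℓ)
    (hJ : ∀ ℓ < L, (∃ z, J ℓ = {z} ∧ m0 ℓ z = z ∧ z ∉ W0 ℓ ∧ z ∉ U ℓ) ∨
      (J ℓ = ∅ ∧ Even (univ \ U ℓ).card ∧ ∀ v, m0 ℓ v = v → v ∈ U ℓ ∨ v ∈ W0 ℓ))
    (hβ : ∀ ℓ < L, (U ℓ).card + 1 + β2 ≤ β) (hT : ∑ ℓ ∈ range L, (W0 ℓ).card ≤ T)
    (hT2 : N * T ≤ S0 * β2)
    (hE : ∀ v, ((range L).filter fun ℓ => v ∈ W0 ℓ ∨ v ∈ J ℓ).card ≤ E)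
    (j : ℕ) (hj : j < L) (mm : ℕ → V → V) (I : InEI R U W0 J m0 S0 N j mm) :
    ∃ mm' : ℕ → V → V, InEI R U W0 J m0 S0 N (j + 1) mm' := by
  have hsum : ∑ v, prcU R mm j v ≤ N * T := by
    refine I.pb.trans (Nat.mul_le_mul_left _ (le_trans ?_ hT))
    exact sum_le_sum_of_subset (range_subset_range.2 hj.le)
  have hcE : ∀ v, prcC W0 J j v ≤ E := fun v => by
    refine le_trans (card_le_card ?_) (hE v)
    exact filter_subset_filter _ (range_subset_range.2 hj.le)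
  have hEx : Con (prcF R mm j I.p1) ζ β N ∧ Lrp (prcF R mm j I.p1) ζ β N := by
    refine hR _ (fun a b hab => hab.1) (fun v => ?_) (fun A B => ?_)
    · refine (prc_deg R mm j I.p1 v).trans (Nat.add_le_add_left ?_ _)
      exact (I.pa v).trans (Nat.add_le_add_left (hcE v) _)
    · exact (prc_ee R mm j I.p1 A B).trans (Nat.add_le_add_left hsum _)
  obtain ⟨Sat, hSat⟩ : ∃ Sat : Finset V, Sat = univ.filter (fun v => S0 ≤ prcU R mm j v) := ⟨_, rfl⟩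
  have hSc : Sat.card ≤ β2 := by
    have h3 : Sat.card * S0 ≤ ∑ v ∈ Sat, prcU R mm j v := by
      rw [← smul_eq_mul]
      refine card_nsmul_le_sum _ _ _ fun v hv => ?_
      rw [hSat, mem_filter] at hv
      exact hv.2
    have h4 : ∑ v ∈ Sat, prcU R mm j v ≤ ∑ v, prcU R mm j v := sum_le_sum_of_subset (subset_univ _)
    have h5 : S0 * Sat.card ≤ S0 * β2 := by
      rw [mul_comm]
      exact h3.trans (h4.trans (hsum.trans hT2))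
    exact Nat.le_of_mul_le_mul_left h5 hS0
  have hJc : (J j).card ≤ 1 := by
    rcases hJ j hj with ⟨z, hz, _⟩ | ⟨hz, _⟩
    · rw [hz, card_singleton]
    · rw [hz, card_empty]
      exact Nat.zero_le _
  have hBc : (U j ∪ J j ∪ Sat).card ≤ β := by
    have h3 := card_union_le (U j ∪ J j) Sat
    have h4 := card_union_le (U j) (J j)
    have h5 := hβ j hj
    omega
  obtain ⟨π, q1, q2, q3, q4, q5, q6, q7⟩ := lab4 (prcF R mm j I.p1) ζ β N hEx.1 hEx.2 (m0 j)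
    (hm0 j hj) (U j) (U j ∪ J j ∪ Sat) (W0 j) (J j)
    (fun v hv => mem_union_left _ (mem_union_left _ hv))
    (fun v hv => mem_union_left _ (mem_union_right _ hv)) hBc (hU j hj) (hW j hj) (hJ j hj)
  have K1 : ∀ v, R.Adj v (π v) → (prcF R mm j I.p1).Adj v (π v) := by
    intro v hv
    rcases q5 v with h3 | h3
    · rw [h3] at hv
      exact absurd hv (hm1 j hj v)
    · exact h3
  have upd_lt : ∀ ℓ < j, Function.update mm j π ℓ = mm ℓ := fun ℓ hℓ =>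
    Function.update_of_ne hℓ.ne _ _
  have upd_self : Function.update mm j π j = π := Function.update_self _ _ _
  have cases : ∀ ℓ < j + 1, ℓ < j ∨ ℓ = j := fun ℓ hℓ => Nat.lt_succ_iff_lt_or_eq.1 hℓ
  refine ⟨Function.update mm j π, ⟨?_, ?_, ?_, ?_, ?_, ?_, ?_, ?_⟩⟩
  · intro ℓ hℓ
    rcases cases ℓ hℓ with h | rfl
    · rw [upd_lt ℓ h]
      exact I.p1 ℓ h
    · rw [upd_self]
      exact q1
  · intro ℓ hℓ
    rcases cases ℓ hℓ with h | rfl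
    · rw [upd_lt ℓ h]
      exact I.p2 ℓ h
    · rw [upd_self]
      exact q2
  · intro ℓ hℓ
    rcases cases ℓ hℓ with h | rfl
    · rw [upd_lt ℓ h]
      exact I.p3 ℓ h
    · rw [upd_self]
      exact q3
  · intro ℓ hℓ
    rcases cases ℓ hℓ with h | rfl
    · rw [upd_lt ℓ h]
      exact I.p4 ℓ h
    · rw [upd_self]
      exact q4
  · intro ℓ hℓ v
    rcases cases ℓ hℓ with h | rfl
    · rw [upd_lt ℓ h]
      exact I.p5 ℓ h v
    · rw [upd_self]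
      rcases q5 v with h3 | h3
      · exact Or.inl h3
      · exact Or.inr h3.1
  · intro ℓ hℓ ℓ' hℓ' hne v hv
    rcases cases ℓ hℓ with h | rfl
    · rcases cases ℓ' hℓ' with h' | rfl
      · rw [upd_lt ℓ h] at hv ⊢
        rw [upd_lt ℓ' h']
        exact I.p6 ℓ h ℓ' h' hne v hv
      · rw [upd_lt ℓ h] at hv ⊢
        rw [upd_self]
        intro h3
        rw [h3] at hv
        exact (K1 v hv).2 ℓ h h3
    · rcases cases ℓ' hℓ' with h' | rfl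
      · rw [upd_self] at hv ⊢
        rw [upd_lt ℓ' h']
        intro h3
        exact (K1 v hv).2 ℓ' h' h3.symm
      · exact absurd rfl hne
  · intro v
    rw [prc_u, prc_c]
    have h3 := I.pa v
    by_cases h4 : R.Adj v (π v)
    · rw [if_pos h4]
      by_cases h5 : v ∈ W0 j ∨ v ∈ J j
      · rw [if_pos h5]
        omega
      · rw [if_neg h5]
        push Not at h5
        have h6 : v ∉ U j ∪ J j ∪ Sat := by
          intro h7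
          have h8 := q6 v h7 h5.1 h5.2
          rw [h8] at h4
          exact hm1 j hj v h4
        have h7 : v ∉ Sat := fun h8 => h6 (mem_union_right _ h8)
        rw [hSat, mem_filter] at h7
        have h8 : ¬ S0 ≤ prcU R mm j v := fun h9 => h7 ⟨mem_univ _, h9⟩
        omega
    · rw [if_neg h4]
      have : prcC W0 J j v ≤ prcC W0 J j v + if v ∈ W0 j ∨ v ∈ J j then 1 else 0 :=
        Nat.le_add_right _ _
      omega
  · have h3 : ∑ v, prcU R (Function.update mm j π) (j + 1) v =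
        ∑ v, prcU R mm j v + (univ.filter fun v => R.Adj v (π v)).card := by
      rw [card_filter, ← sum_add_distrib]
      exact sum_congr rfl fun v _ => prc_u R mm j π v
    rw [h3, sum_range_succ, mul_add]
    refine Nat.add_le_add I.pb (le_trans (card_le_card fun v hv => ?_) q7)
    rw [mem_filter] at hv ⊢
    refine ⟨mem_univ _, fun h4 => ?_⟩
    rw [h4] at hv
    exact hm1 j hj v hv.2

theorem prc4 {V : Type} [Fintype V] (R : SimpleGraph V) (L : ℕ) (U W0 J : ℕ → Finset V)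
    (m0 : ℕ → V → V) (ζ β β2 S0 E T N : ℕ) (hS0 : 0 < S0)
    (hR : ∀ F : SimpleGraph V, F ≤ R → (∀ v, dg R v ≤ dg F v + (S0 + E)) →
      (∀ A B, ee R A B ≤ ee F A B + N * T) → Con F ζ β N ∧ Lrp F ζ β N)
    (hm0 : ∀ ℓ < L, Inv (m0 ℓ)) (hm1 : ∀ ℓ < L, ∀ v, ¬ R.Adj v (m0 ℓ v))
    (hU : ∀ ℓ < L, ∀ v ∈ U ℓ, m0 ℓ v = v)
    (hW : ∀ ℓ < L, ∀ v ∈ W0 ℓ, m0 ℓ v = v ∧ v ∉ U ℓ)
    (hJ : ∀ ℓ < L, (∃ z, J ℓ = {z} ∧ m0 ℓ z = z ∧ z ∉ W0 ℓ ∧ z ∉ U ℓ) ∨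
      (J ℓ = ∅ ∧ Even (univ \ U ℓ).card ∧ ∀ v, m0 ℓ v = v → v ∈ U ℓ ∨ v ∈ W0 ℓ))
    (hβ : ∀ ℓ < L, (U ℓ).card + 1 + β2 ≤ β) (hT : ∑ ℓ ∈ range L, (W0 ℓ).card ≤ T)
    (hT2 : N * T ≤ S0 * β2)
    (hE : ∀ v, ((range L).filter fun ℓ => v ∈ W0 ℓ ∨ v ∈ J ℓ).card ≤ E) :
    ∃ mm : ℕ → V → V,
      (∀ ℓ < L, Inv (mm ℓ)) ∧ (∀ ℓ < L, ∀ v ∈ U ℓ, mm ℓ v = v) ∧
      (∀ ℓ < L, ∀ v ∈ W0 ℓ, mm ℓ v ≠ v) ∧ (∀ ℓ < L, ∀ v, m0 ℓ v ≠ v → mm ℓ v ≠ v) ∧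
      (∀ ℓ < L, ∀ v, mm ℓ v = m0 ℓ v ∨ R.Adj v (mm ℓ v)) ∧
      (∀ ℓ < L, ∀ ℓ' < L, ℓ' ≠ ℓ → ∀ v, R.Adj v (mm ℓ v) → mm ℓ v ≠ mm ℓ' v) := by
  have key : ∀ j ≤ L, ∃ mm : ℕ → V → V, InEI R U W0 J m0 S0 N j mm := by
    intro j
    induction j with
    | zero =>
      intro _
      refine ⟨fun _ v => v, ⟨?_, ?_, ?_, ?_, ?_, ?_, ?_, ?_⟩⟩
      · exact fun ℓ hℓ => absurd hℓ (Nat.not_lt_zero ℓ)
      · exact fun ℓ hℓ => absurd hℓ (Nat.not_lt_zero ℓ)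
      · exact fun ℓ hℓ => absurd hℓ (Nat.not_lt_zero ℓ)
      · exact fun ℓ hℓ => absurd hℓ (Nat.not_lt_zero ℓ)
      · exact fun ℓ hℓ => absurd hℓ (Nat.not_lt_zero ℓ)
      · exact fun ℓ hℓ => absurd hℓ (Nat.not_lt_zero ℓ)
      · intro v
        simp [prcU]
      · simp [prcU]
    | succ j ih =>
      intro hj
      obtain ⟨mm, I⟩ := ih (Nat.le_of_succ_le hj)
      exact InE_step R L U W0 J m0 ζ β β2 S0 E T N hS0 hR hm0 hm1 hU hW hJ hβ hT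
        hT2 hE j hj mm I
  obtain ⟨mm, I⟩ := key L le_rfl
  exact ⟨mm, I.p1, I.p2, I.p3, I.p4, I.p5, I.p6⟩

theorem inE {V : Type} [Fintype V] (G R : SimpleGraph V) (L K s t : ℕ) (U : ℕ → Finset V)
    (ζ β β2 S0 E N : ℕ) (hP : Par4 G R K s t ζ β β2 S0 E N) (hL : L ≤ K)
    (Δ : ℕ) (z : ℕ → V) (hz : ∀ ℓ < L, z ℓ ∉ U ℓ)
    (hzd : ∀ v, dg G v + ((range L).filter fun ℓ => z ℓ = v).card ≤ Δ)
    (hU : ∀ v, ((range L).filter fun ℓ => v ∈ U ℓ ∨ z ℓ = v).card ≤ s)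
    (hE : ∀ v, K + dg G v + t + 2 * s ≤ dg (G \ R) v + Δ + E) (hE' : t + 2 * s ≤ E)
    (hβ : ∀ ℓ < L, (U ℓ).card + 1 + β2 ≤ β) :
    ∃ mm : ℕ → V → V, PM G L U mm ∧
      ∀ v, dg G v + ((range L).filter fun ℓ => v ∉ U ℓ ∧ mm ℓ v = v).card ≤ Δ := by
  set U' : ℕ → Finset V := fun ℓ => insert (z ℓ) (U ℓ) with hU'def
  have hU'z : ∀ ℓ, z ℓ ∈ U' ℓ := fun ℓ => Finset.mem_insert_self _ _
  have hU'U : ∀ ℓ v, v ∈ U ℓ → v ∈ U' ℓ := fun ℓ v h => Finset.mem_insert_of_mem h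
  have hU'm : ∀ ℓ v, v ∈ U' ℓ → v ∈ U ℓ ∨ z ℓ = v := by
    intro ℓ v h
    rcases Finset.mem_insert.mp h with h1 | h1
    · exact Or.inr h1.symm
    · exact Or.inl h1
  have hs' : ∀ v, ((range L).filter fun ℓ => v ∈ U' ℓ).card ≤ s := by
    intro v
    refine le_trans (Finset.card_le_card ?_) (hU v)
    intro ℓ hℓ
    rw [Finset.mem_filter] at hℓ ⊢
    exact ⟨hℓ.1, hU'm ℓ v hℓ.2⟩
  obtain ⟨μ, μinv, μadj, μdis, μc1, μc2⟩ := natm (G \ R) K L s t hP.hK hL U' hs' hP.ht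
  obtain ⟨m0, hm0def⟩ : ∃ m0 : ℕ → V → V, ∀ ℓ v, m0 ℓ v =
      if v ∈ U' ℓ ∨ μ ℓ v ∈ U' ℓ then v else μ ℓ v := ⟨fun ℓ v => _, fun ℓ v => rfl⟩
  have hm0a : ∀ ℓ v, v ∈ U' ℓ → m0 ℓ v = v := by
    intro ℓ v h
    rw [hm0def, if_pos (Or.inl h)]
  have hm0b : ∀ ℓ v, m0 ℓ v ≠ v → m0 ℓ v = μ ℓ v ∧ μ ℓ v ≠ v := by
    intro ℓ v h
    have h1 := hm0def ℓ v
    by_cases hc : v ∈ U' ℓ ∨ μ ℓ v ∈ U' ℓ
    · rw [if_pos hc] at h1
      exact absurd h1 h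
    · rw [if_neg hc] at h1
      exact ⟨h1, fun h2 => h (h1.trans h2)⟩
  have hm0c : ∀ ℓ v, m0 ℓ v = v → v ∉ U' ℓ → μ ℓ v ≠ v → μ ℓ v ∈ U' ℓ := by
    intro ℓ v h h2 h3
    by_contra h4
    have h1 := hm0def ℓ v
    rw [if_neg (fun hc => hc.elim h2 h4)] at h1
    exact h3 (h1.symm.trans h)
  have hm0inv : ∀ ℓ, Inv (m0 ℓ) := by
    intro ℓ v
    by_cases hc : v ∈ U' ℓ ∨ μ ℓ v ∈ U' ℓ
    · have h1 : m0 ℓ v = v := by rw [hm0def, if_pos hc]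
      rw [h1, h1]
    · have h1 : m0 ℓ v = μ ℓ v := by rw [hm0def, if_neg hc]
      rw [h1, hm0def ℓ (μ ℓ v), μinv ℓ v, if_neg (fun h => hc h.symm)]
  have hm0G : ∀ ℓ v, m0 ℓ v ≠ v → G.Adj v (m0 ℓ v) ∧ ¬ R.Adj v (m0 ℓ v) := by
    intro ℓ v h
    obtain ⟨h1, h2⟩ := hm0b ℓ v h
    have h3 := μadj ℓ v h2
    rw [SimpleGraph.sdiff_adj] at h3
    rw [h1]
    exact h3
  have hm0R : ∀ ℓ v, ¬ R.Adj v (m0 ℓ v) := by
    intro ℓ v
    by_cases h : m0 ℓ v = v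
    · rw [h]
      exact R.irrefl
    · exact (hm0G ℓ v h).2
  set NM : V → Finset ℕ := fun v => (range L).filter fun ℓ => μ ℓ v = v ∧ v ∉ U' ℓ with hNM
  set zt : V → ℕ := fun v => ((range L).filter fun ℓ => z ℓ = v).card with hzt
  have hzs : ∀ v, zt v ≤ s := by
    intro v
    refine le_trans (Finset.card_le_card ?_) (hU v)
    intro ℓ hℓ
    rw [Finset.mem_filter] at hℓ ⊢
    exact ⟨hℓ.1, Or.inr hℓ.2⟩
  have hzd' : ∀ v, dg G v + zt v ≤ Δ := hzd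
  have hF : ∀ v, ∃ F ⊆ NM v, F.card = min (NM v).card (Δ - dg G v - zt v) := fun v =>
    Finset.exists_subset_card_eq (min_le_left _ _)
  choose F' hF'sub hF'card using hF
  obtain ⟨W0, hW0⟩ : ∃ W0 : ℕ → Finset V, ∀ ℓ v, v ∈ W0 ℓ ↔ (v ∉ U' ℓ ∧ m0 ℓ v = v ∧ ℓ ∉ F' v) :=
    ⟨fun ℓ => univ.filter fun v => v ∉ U' ℓ ∧ m0 ℓ v = v ∧ ℓ ∉ F' v, fun ℓ v => by
      rw [Finset.mem_filter]
      exact ⟨fun h => h.2, fun h => ⟨Finset.mem_univ v, h⟩⟩⟩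
  have hNMc : ∀ v, (NM v).card + dg (G \ R) v ≤ K := by
    intro v
    refine le_trans (Nat.add_le_add_right (Finset.card_le_card ?_) _) (μc1 v)
    intro ℓ hℓ
    rw [hNM] at hℓ
    rw [Finset.mem_filter] at hℓ ⊢
    exact ⟨hℓ.1, hℓ.2.1⟩
  have hcount : ∀ v, ((range L).filter fun ℓ => v ∈ W0 ℓ ∨ v ∈ ({z ℓ} : Finset V)).card ≤ E := by
    intro v
    have hsub : ((range L).filter fun ℓ => v ∈ W0 ℓ ∨ v ∈ ({z ℓ} : Finset V)) ⊆
        ((NM v \ F' v) ∪ ((range L).filter fun ℓ => μ ℓ v ≠ v ∧ μ ℓ v ∈ U' ℓ)) ∪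
          ((range L).filter fun ℓ => z ℓ = v) := by
      intro ℓ hℓ
      rw [Finset.mem_filter] at hℓ
      obtain ⟨hℓL, h1 | h1⟩ := hℓ
      · apply Finset.mem_union_left
        obtain ⟨h2, h3, h4⟩ := (hW0 ℓ v).mp h1
        by_cases h5 : μ ℓ v = v
        · apply Finset.mem_union_left
          rw [Finset.mem_sdiff]
          exact ⟨Finset.mem_filter.mpr ⟨hℓL, h5, h2⟩, h4⟩
        · apply Finset.mem_union_right
          exact Finset.mem_filter.mpr ⟨hℓL, h5, hm0c ℓ v h3 h2 h5⟩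
      · apply Finset.mem_union_right
        exact Finset.mem_filter.mpr ⟨hℓL, (Finset.mem_singleton.mp h1).symm⟩
    have h1 := Finset.card_le_card hsub
    have h2 := Finset.card_union_le ((NM v \ F' v) ∪
      ((range L).filter fun ℓ => μ ℓ v ≠ v ∧ μ ℓ v ∈ U' ℓ)) ((range L).filter fun ℓ => z ℓ = v)
    have h3 := Finset.card_union_le (NM v \ F' v)
      ((range L).filter fun ℓ => μ ℓ v ≠ v ∧ μ ℓ v ∈ U' ℓ)
    have h4 : (NM v \ F' v).card = (NM v).card - (F' v).card :=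
      Finset.card_sdiff_of_subset (hF'sub v)
    have h5 := μc2 v
    have h6 := hF'card v
    have h7 := hNMc v
    have h8 := hE v
    have h9 := hzs v
    have h10 := hzd' v
    have h11 : ((range L).filter fun ℓ => z ℓ = v).card = zt v := rfl
    rcases le_total (NM v).card (Δ - dg G v - zt v) with hle | hle
    · rw [min_eq_left hle] at h6
      omega
    · rw [min_eq_right hle] at h6
      omega
  have hTs : ∑ ℓ ∈ range L, (W0 ℓ).card ≤ Fintype.card V * E := by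
    have e1 : ∑ ℓ ∈ range L, (W0 ℓ).card =
        ∑ v : V, ((range L).filter fun ℓ => v ∈ W0 ℓ).card := by
      have e2 : ∀ ℓ ∈ range L, (W0 ℓ).card = ∑ v : V, if v ∈ W0 ℓ then 1 else 0 := by
        intro ℓ _
        rw [Finset.sum_ite_mem, Finset.univ_inter, Finset.sum_const, smul_eq_mul, mul_one]
      rw [Finset.sum_congr rfl e2, Finset.sum_comm]
      apply Finset.sum_congr rfl
      intro v _
      rw [Finset.card_filter]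
    rw [e1]
    calc ∑ v : V, ((range L).filter fun ℓ => v ∈ W0 ℓ).card ≤ ∑ _v : V, E := by
          apply Finset.sum_le_sum
          intro v _
          refine le_trans (Finset.card_le_card ?_) (hcount v)
          intro ℓ hℓ
          rw [Finset.mem_filter] at hℓ ⊢
          exact ⟨hℓ.1, Or.inl hℓ.2⟩
      _ = Fintype.card V * E := by
          rw [Finset.sum_const, Finset.card_univ, smul_eq_mul]
  obtain ⟨mm, mminv, mmfix, mmW, mmm, mmR, mmd⟩ := prc4 R L U W0 (fun ℓ => {z ℓ}) m0 ζ β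
    β2 S0 E (Fintype.card V * E) N hP.hS0 hP.ex (fun ℓ _ => hm0inv ℓ)
    (fun ℓ _ v => hm0R ℓ v) (fun ℓ _ v hv => hm0a ℓ v (hU'U ℓ v hv))
    (fun ℓ _ v hv => ⟨((hW0 ℓ v).mp hv).2.1, fun h => ((hW0 ℓ v).mp hv).1 (hU'U ℓ v h)⟩)
    (fun ℓ hℓ => Or.inl ⟨z ℓ, rfl, hm0a ℓ _ (hU'z ℓ), fun h => ((hW0 ℓ _).mp h).1 (hU'z ℓ),
      hz ℓ hℓ⟩) hβ hTs hP.hT hcount
  refine ⟨mm, ⟨mminv, ?_, ?_, mmfix⟩, ?_⟩
  · intro ℓ hℓ v hv
    rcases mmR ℓ hℓ v with h1 | h1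
    · rw [h1] at hv ⊢
      exact (hm0G ℓ v hv).1
    · exact hP.le h1
  · intro ℓ hℓ ℓ' hℓ' hne v hv heq
    by_cases hR : R.Adj v (mm ℓ v)
    · exact mmd ℓ hℓ ℓ' hℓ' hne.symm v hR heq
    · have h1 : mm ℓ v = m0 ℓ v := (mmR ℓ hℓ v).resolve_right hR
      have h2 : mm ℓ' v = m0 ℓ' v := by
        refine (mmR ℓ' hℓ' v).resolve_right ?_
        rw [← heq]
        exact hR
      have h3 := hm0b ℓ v (by rw [← h1]; exact hv)
      have h4 := hm0b ℓ' v (by rw [← h2, ← heq]; exact hv)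
      apply μdis ℓ hℓ ℓ' hℓ' hne v h3.2
      rw [← h3.1, ← h4.1, ← h1, ← h2]
      exact heq
  · intro v
    have hsub : ((range L).filter fun ℓ => v ∉ U ℓ ∧ mm ℓ v = v) ⊆
        ((range L).filter fun ℓ => z ℓ = v) ∪ F' v := by
      intro ℓ hℓ
      rw [Finset.mem_filter] at hℓ
      obtain ⟨hℓL, h1, h2⟩ := hℓ
      by_cases h3 : z ℓ = v
      · exact Finset.mem_union_left _ (Finset.mem_filter.mpr ⟨hℓL, h3⟩)
      · apply Finset.mem_union_right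
        by_contra h4
        have h5 : v ∉ U' ℓ := fun h => (hU'm ℓ v h).elim h1 h3
        have h6 : m0 ℓ v = v := by
          by_contra h7
          exact mmm ℓ (Finset.mem_range.mp hℓL) v h7 h2
        exact mmW ℓ (Finset.mem_range.mp hℓL) v ((hW0 ℓ v).mpr ⟨h5, h6, h4⟩) h2
    have h1 := Finset.card_le_card hsub
    have h2 := Finset.card_union_le ((range L).filter fun ℓ => z ℓ = v) (F' v)
    have h3 := hF'card v
    have h4 := min_le_right (NM v).card (Δ - dg G v - zt v)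
    have h5 := hzd' v
    have h6 : ((range L).filter fun ℓ => z ℓ = v).card = zt v := rfl
    omega

end Pool.Agent.H71.DR
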