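import Mathlib
import Pool.Agent.H71.DR.Exk
import Pool.Agent.H71.DN.Num

/-!
NM4: the choice of all parameters for graphs with large deficiency. Compare `H71/DN/Num.lean` (`params`), proved.

`xcg` (`n = #V`): `deg` is the hypothesis. `gro`: `(α/4) n ≤ #A ≤ (1 - α/8) n`: `τ ≤ α/8`, so `XP` applies.

`params4` (`α n ≤ dg G v ≤ Δ`, `n ≥ n0`). `k := ⌈2 / ν⌉₊`, `N := 4 k + 10`, `g := ⌈4 / ε⌉₊` (`1 / g ≤ ε / 4`, `g ≤ 5 / ε`),
 `ω := min (min ν α) ε * α / 1000`, `lam := min lam0 (α ω / 2)`, `σ := min (ω / 100) (lam / (1000 g N))`,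
 `ρ := σ² / (100 N)`, `κ := ρ / 24`. `R` from `reserve g ρ lam` (`|dg R v - dg G v / g| ≤ ρ n`;
 `ee G A B ≤ 4 g ee R A B` if `lam n² ≤ ee G A B`).
 `K := ⌊(1 - 1/g) Δ + ρ n⌋₊ + 1`, `s := ⌈κ n⌉₊`, `t := ⌈ρ n⌉₊`, `E := ⌊5 ρ n⌋₊`, `S0 := β2 := ⌈σ n⌉₊`,
 `β := ⌈2 σ n⌉₊`, `ζ := ⌈ω n⌉₊`, `m := ⌈ω n⌉₊`, `q := ⌈3 ω n⌉₊`, `D := ⌈4 ω n⌉₊`.
 * `hK`, `ht` (`Num_ht`), `hE`, `t + 2 s ≤ E`, `(1 - ε/2) Δ ≤ K` as in `Num.lean`. `κ n + 1 + β2 ≤ β`.
 * `hT`: `N n E ≤ 5 N ρ n² ≤ σ² n² ≤ S0 β2`.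
 * `ex`: `cxk` with `Gs = G`, `α`, `ν`, `lam`, `q0 = 1 / (4 g)`, `S = S0 + E`, `T = N n E`. `hR1`:
   `D + S ≤ 4 ω n + 1 + 2 σ n ≤ (α / g) n - ρ n ≤ dg R v` (`α / g ≥ α ε / 5 ≥ 200 ω`... ). `hT`:
   `5 N ρ n² + (4 k + 12) n < lam n² / (4 g)`. `hm`, `hζ`: `lam n ≤ (α/2) ω n`. `hq1`, `hq2`: `3 ω n + 3 ≤ (ν/4) n`, `(α/8) n`.
   `h1`: `ζ + 2 β + m ≤ 2 ω n + 4 σ n + 8 ≤ D`; `h2`: `ζ + 2 β + 1 ≤ ω n + 4 σ n + 8 ≤ q`.
-/

set_option autoImplicit false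

namespace Pool.Agent.H71.DR

open Finset Classical
open Pool.Agent.H71.DN Pool.Agent.H71.DX

theorem xcg {V : Type} [Fintype V] (G : SimpleGraph V) (α τ ν lam0 : ℝ) (hτ : τ ≤ α / 8)
    (hd : ∀ v, α * Fintype.card V ≤ (dg G v : ℝ)) (hX : XP G τ ν lam0) : Xc G α ν lam0 := by
  refine ⟨hd, ?_⟩
  intro A Y hA1 hA2 hE
  have hn : (0 : ℝ) ≤ Fintype.card V := Nat.cast_nonneg _
  have hA0 : (0 : ℝ) ≤ A.card := Nat.cast_nonneg _
  have h1 : τ * Fintype.card V ≤ α / 8 * Fintype.card V := mul_le_mul_of_nonneg_right hτ hn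
  refine hX A Y ?_ ?_ hE
  · rcases le_total 0 (α * Fintype.card V) with h2 | h2
    · linarith
    · linarith
  · have h3 : (1 - τ) * (Fintype.card V : ℝ) = Fintype.card V - τ * Fintype.card V := by ring
    have h4 : (1 - α / 8) * (Fintype.card V : ℝ) = Fintype.card V - α / 8 * Fintype.card V := by
      ring
    rw [h4] at hA2
    rw [h3]
    linarith

theorem params4 (ε α τ ν lam0 : ℝ) (hε : 0 < ε) (hε1 : ε ≤ 1) (hα : 0 < α) (hα1 : α ≤ 1)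
    (hτ : τ ≤ α / 8) (hν : 0 < ν) (hν1 : ν ≤ 1) (hl : 0 < lam0) :
    ∃ (κ : ℝ) (n0 : ℕ), 0 < κ ∧ κ ≤ 1 / 10 ∧
      ∀ (V : Type) [Fintype V] (G : SimpleGraph V) (Δ : ℕ), n0 ≤ Fintype.card V →
        (∀ v, α * Fintype.card V ≤ (dg G v : ℝ)) → (∀ v, dg G v ≤ Δ) → XP G τ ν lam0 →
        ∃ (R : SimpleGraph V) (K s t ζ β β2 S0 E N : ℕ),
          Par4 G R K s t ζ β β2 S0 E N ∧ (1 - ε / 2) * Δ ≤ (K : ℝ) ∧
          κ * Fintype.card V ≤ s ∧ κ * Fintype.card V + 1 + β2 ≤ β ∧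
          (∀ v, K + dg G v + t + 2 * s ≤ dg (G \ R) v + Δ + E) ∧ t + 2 * s ≤ E := by
  obtain ⟨μ, hμdef⟩ : ∃ μ : ℝ, μ = min (min ν α) ε := ⟨_, rfl⟩
  have hμ0 : 0 < μ := by rw [hμdef]; exact lt_min (lt_min hν hα) hε
  have hμν : μ ≤ ν := by rw [hμdef]; exact (min_le_left _ _).trans (min_le_left _ _)
  have hμα : μ ≤ α := by rw [hμdef]; exact (min_le_left _ _).trans (min_le_right _ _)
  have hμε : μ ≤ ε := by rw [hμdef]; exact min_le_right _ _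
  obtain ⟨ω, hω⟩ : ∃ ω : ℝ, ω = μ * α / 1000 := ⟨_, rfl⟩
  have hω0 : 0 < ω := by rw [hω]; positivity
  have hων : 1000 * ω ≤ ν := by
    rw [hω]
    have : μ * α ≤ μ * 1 := mul_le_mul_of_nonneg_left hα1 hμ0.le
    linarith
  have hωα : 1000 * ω ≤ α := by
    rw [hω]
    have : μ * α ≤ μ * 1 := mul_le_mul_of_nonneg_left hα1 hμ0.le
    linarith
  have hωε : 1000 * ω ≤ ε * α := by
    rw [hω]
    have : μ * α ≤ ε * α := mul_le_mul_of_nonneg_right hμε hα.le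
    linarith
  obtain ⟨lam, hlam⟩ : ∃ lam : ℝ, lam = min lam0 (α * ω / 2) := ⟨_, rfl⟩
  have hlam0 : 0 < lam := by rw [hlam]; exact lt_min hl (by positivity)
  have hlaml : lam ≤ lam0 := by rw [hlam]; exact min_le_left _ _
  have hlamω : lam ≤ α * ω / 2 := by rw [hlam]; exact min_le_right _ _
  obtain ⟨k, hk⟩ : ∃ k : ℕ, k = ⌈2 / ν⌉₊ := ⟨_, rfl⟩
  have hk2 : 2 ≤ (k : ℝ) * ν := by
    have h1 : 2 / ν ≤ (k : ℝ) := by rw [hk]; exact Nat.le_ceil _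
    rwa [div_le_iff₀ hν] at h1
  obtain ⟨N, hN⟩ : ∃ N : ℕ, N = 4 * k + 10 := ⟨_, rfl⟩
  have hNR : (N : ℝ) = 4 * k + 10 := by rw [hN]; push_cast; ring
  have hN10 : (10 : ℝ) ≤ N := by
    rw [hNR]
    have : (0 : ℝ) ≤ k := Nat.cast_nonneg _
    linarith
  obtain ⟨g, hg⟩ : ∃ g : ℕ, g = ⌈4 / ε⌉₊ := ⟨_, rfl⟩
  have hgl : 4 / ε ≤ (g : ℝ) := by rw [hg]; exact Nat.le_ceil _
  have hgu : (g : ℝ) < 4 / ε + 1 := by rw [hg]; exact Nat.ceil_lt_add_one (by positivity)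
  have h1ε : 1 ≤ 1 / ε := by rw [le_div_iff₀ hε]; linarith
  have hgu5 : (g : ℝ) ≤ 5 / ε := by
    have : (5 : ℝ) / ε = 4 / ε + 1 / ε := by ring
    linarith
  have hg0 : (0 : ℝ) < g := lt_of_lt_of_le (by positivity) hgl
  have hg1 : 1 ≤ g := by
    have : 0 < g := by exact_mod_cast hg0
    omega
  have hg1R : (1 : ℝ) ≤ g := by exact_mod_cast hg1
  have hginv : 1 / (g : ℝ) ≤ ε / 4 := by
    rw [div_le_iff₀ hg0]
    have := mul_le_mul_of_nonneg_left hgl (by positivity : (0 : ℝ) ≤ ε / 4)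
    have e1 : ε / 4 * (4 / ε) = 1 := by field_simp
    linarith
  have hginv5 : ε / 5 ≤ 1 / (g : ℝ) := by
    rw [le_div_iff₀ hg0]
    have := mul_le_mul_of_nonneg_left hgu5 (by positivity : (0 : ℝ) ≤ ε / 5)
    have e1 : ε / 5 * (5 / ε) = 1 := by field_simp
    linarith
  have hginv0 : 0 < 1 / (g : ℝ) := by positivity
  have hN0 : (0 : ℝ) < N := by linarith
  obtain ⟨σ, hσ⟩ : ∃ σ : ℝ, σ = min (ω / 100) (lam / (1000 * g * N)) := ⟨_, rfl⟩
  have hσ0 : 0 < σ := by rw [hσ]; exact lt_min (by positivity) (by positivity)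
  have hσω : 100 * σ ≤ ω := by
    have : σ ≤ ω / 100 := by rw [hσ]; exact min_le_left _ _
    linarith
  have hσl : 1000 * (g * N) * σ ≤ lam := by
    have h1 : σ ≤ lam / (1000 * g * N) := by rw [hσ]; exact min_le_right _ _
    rw [le_div_iff₀ (by positivity)] at h1
    have e1 : σ * (1000 * g * N) = 1000 * (g * N) * σ := by ring
    linarith
  have hσ1 : σ ≤ 1 / 100000 := by linarith
  obtain ⟨ρ, hρdef⟩ : ∃ ρ : ℝ, ρ = σ ^ 2 / (100 * N) := ⟨_, rfl⟩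
  have hρ : 0 < ρ := by rw [hρdef]; positivity
  have hρN : 100 * N * ρ = σ ^ 2 := by rw [hρdef]; field_simp
  have hρσ : 1000 * ρ ≤ σ := by
    have h1 : 1000 * ρ ≤ 100 * N * ρ := by
      have := mul_le_mul_of_nonneg_right hN10 hρ.le
      linarith
    have h2 : σ ^ 2 ≤ σ * 1 := by
      rw [pow_two]
      exact mul_le_mul_of_nonneg_left (by linarith) hσ0.le
    linarith
  have hρ1 : ρ ≤ 1 := by linarith
  have hρ2 : ρ ≤ 1 / 1000 := by linarith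
  obtain ⟨n1, hn1⟩ := reserve g hg1 ρ lam hρ hρ1 hlam0
  refine ⟨ρ / 24, max n1 ⌈1 / ρ ^ 2⌉₊, by positivity, by linarith, ?_⟩
  intro V _ G Δ hn hd hdΔ hXP
  obtain ⟨R, hRG, hR1, hR2⟩ := hn1 V G (le_trans (le_max_left _ _) hn)
  have hXc := xcg G α τ ν lam0 hτ hd hXP
  obtain ⟨x, hx⟩ : ∃ x : ℝ, x = Fintype.card V := ⟨_, rfl⟩
  have hxρ : 1 / ρ ^ 2 ≤ x := by
    rw [hx]
    have h1 : ⌈1 / ρ ^ 2⌉₊ ≤ Fintype.card V := le_trans (le_max_right _ _) hn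
    exact (Nat.le_ceil _).trans (by exact_mod_cast h1)
  have hx1 : 1 ≤ ρ ^ 2 * x := by
    rw [div_le_iff₀ (by positivity)] at hxρ
    linarith
  have hx0 : 0 < x := lt_of_lt_of_le (by positivity) hxρ
  have hxx : x ≤ (ρ * x) ^ 2 := by
    have h1 := mul_le_mul_of_nonneg_right hx1 hx0.le
    have e1 : (ρ * x) ^ 2 = ρ ^ 2 * x * x := by ring
    linarith
  -- the scales
  obtain ⟨r, hr⟩ : ∃ r : ℝ, r = ρ * x := ⟨_, rfl⟩
  obtain ⟨sg, hsg⟩ : ∃ sg : ℝ, sg = σ * x := ⟨_, rfl⟩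
  obtain ⟨w, hw⟩ : ∃ w : ℝ, w = ω * x := ⟨_, rfl⟩
  have hr0 : 1000 ≤ r := by
    have h1 : ρ ^ 2 * x = ρ * r := by rw [hr]; ring
    rw [h1] at hx1
    have hr00 : 0 ≤ r := by rw [hr]; positivity
    have h2 : ρ * r ≤ 1 / 1000 * r := mul_le_mul_of_nonneg_right hρ2 hr00
    linarith
  have hrs : 1000 * r ≤ sg := by
    have := mul_le_mul_of_nonneg_right hρσ hx0.le
    rw [hr, hsg]
    linarith
  have hsw : 100 * sg ≤ w := by
    have := mul_le_mul_of_nonneg_right hσω hx0.le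
    rw [hsg, hw]
    linarith
  have hwν : 1000 * w ≤ ν * x := by
    have := mul_le_mul_of_nonneg_right hων hx0.le
    rw [hw]
    linarith
  have hwα : 1000 * w ≤ α * x := by
    have := mul_le_mul_of_nonneg_right hωα hx0.le
    rw [hw]
    linarith
  have hwε : 1000 * w ≤ ε * α * x := by
    have := mul_le_mul_of_nonneg_right hωε hx0.le
    rw [hw]
    linarith
  -- the parameters
  obtain ⟨s, hs⟩ : ∃ s : ℕ, s = ⌈ρ / 24 * x⌉₊ := ⟨_, rfl⟩
  obtain ⟨t, ht⟩ : ∃ t : ℕ, t = ⌈r⌉₊ := ⟨_, rfl⟩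
  obtain ⟨E, hE⟩ : ∃ E : ℕ, E = ⌊5 * r⌋₊ := ⟨_, rfl⟩
  obtain ⟨S0, hS0⟩ : ∃ S0 : ℕ, S0 = ⌈sg⌉₊ := ⟨_, rfl⟩
  obtain ⟨β, hβ⟩ : ∃ β : ℕ, β = ⌈2 * sg⌉₊ := ⟨_, rfl⟩
  obtain ⟨m, hm⟩ : ∃ m : ℕ, m = ⌈w⌉₊ := ⟨_, rfl⟩
  obtain ⟨D, hD⟩ : ∃ D : ℕ, D = ⌈4 * w⌉₊ := ⟨_, rfl⟩
  obtain ⟨q, hq⟩ : ∃ q : ℕ, q = ⌈3 * w⌉₊ := ⟨_, rfl⟩
  obtain ⟨F0, hF0⟩ : ∃ F0 : ℕ, F0 = ⌊(1 - 1 / (g : ℝ)) * Δ + r⌋₊ := ⟨_, rfl⟩
  have hs1 : ρ / 24 * x ≤ s := by rw [hs]; exact Nat.le_ceil _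
  have hs2 : (s : ℝ) < ρ / 24 * x + 1 := by
    rw [hs]; exact Nat.ceil_lt_add_one (by positivity)
  have hρ24 : ρ / 24 * x = r / 24 := by rw [hr]; ring
  rw [hρ24] at hs1 hs2
  have ht1 : r ≤ t := by rw [ht]; exact Nat.le_ceil _
  have ht2 : (t : ℝ) < r + 1 := by
    rw [ht]; exact Nat.ceil_lt_add_one (by linarith)
  have hE1 : (E : ℝ) ≤ 5 * r := by rw [hE]; exact Nat.floor_le (by linarith)
  have hE2 : 5 * r < (E : ℝ) + 1 := by rw [hE]; exact Nat.lt_floor_add_one _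
  have hS01 : sg ≤ S0 := by rw [hS0]; exact Nat.le_ceil _
  have hS02 : (S0 : ℝ) < sg + 1 := by
    rw [hS0]; exact Nat.ceil_lt_add_one (by linarith)
  have hβ1 : 2 * sg ≤ β := by rw [hβ]; exact Nat.le_ceil _
  have hβ2 : (β : ℝ) < 2 * sg + 1 := by
    rw [hβ]; exact Nat.ceil_lt_add_one (by linarith)
  have hm1 : w ≤ m := by rw [hm]; exact Nat.le_ceil _
  have hm2 : (m : ℝ) < w + 1 := by
    rw [hm]; exact Nat.ceil_lt_add_one (by linarith)
  have hD1 : 4 * w ≤ D := by rw [hD]; exact Nat.le_ceil _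
  have hD2 : (D : ℝ) < 4 * w + 1 := by
    rw [hD]; exact Nat.ceil_lt_add_one (by linarith)
  have hq1 : 3 * w ≤ q := by rw [hq]; exact Nat.le_ceil _
  have hq2 : (q : ℝ) < 3 * w + 1 := by
    rw [hq]; exact Nat.ceil_lt_add_one (by linarith)
  have hginv1 : 1 / (g : ℝ) ≤ 1 := by linarith
  have hA0 : 0 ≤ (1 - 1 / (g : ℝ)) * Δ + r := by
    have : 0 ≤ (1 - 1 / (g : ℝ)) * Δ := mul_nonneg (by linarith) (Nat.cast_nonneg _)
    linarith
  have hF1 : (F0 : ℝ) ≤ (1 - 1 / (g : ℝ)) * Δ + r := by rw [hF0]; exact Nat.floor_le hA0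
  have hF2 : (1 - 1 / (g : ℝ)) * Δ + r < (F0 : ℝ) + 1 := by
    rw [hF0]; exact Nat.lt_floor_add_one _
  -- degrees in G minus R
  have hdl : ∀ v, (1 - 1 / (g : ℝ)) * dg G v - r ≤ (dg (G \ R) v : ℝ) := by
    intro v
    have h5 := (abs_le.1 (hR1 v)).2
    have h6 : (dg (G \ R) v : ℝ) + dg R v = dg G v := by exact_mod_cast Num_sdiff G R hRG v
    have h7 : (dg G v : ℝ) / g = 1 / (g : ℝ) * dg G v := by ring
    rw [← hx, h7, ← hr] at h5
    linarith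
  have hdu : ∀ v, (dg (G \ R) v : ℝ) ≤ (1 - 1 / (g : ℝ)) * dg G v + r := by
    intro v
    have h5 := (abs_le.1 (hR1 v)).1
    have h6 : (dg (G \ R) v : ℝ) + dg R v = dg G v := by exact_mod_cast Num_sdiff G R hRG v
    have h7 : (dg G v : ℝ) / g = 1 / (g : ℝ) * dg G v := by ring
    rw [← hx, h7, ← hr] at h5
    linarith
  -- the size of the reserve degrees
  have hdR : ∀ v, 200 * w - r ≤ (dg R v : ℝ) := by
    intro v
    have h5 := (abs_le.1 (hR1 v)).1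
    have h7 : (dg G v : ℝ) / g = dg G v * (1 / (g : ℝ)) := by ring
    have h8 : α * x ≤ (dg G v : ℝ) := by rw [hx]; exact hd v
    have h9 : α * x * (ε / 5) ≤ dg G v * (1 / (g : ℝ)) :=
      mul_le_mul h8 hginv5 (by positivity) (Nat.cast_nonneg _)
    have h10 : α * x * (ε / 5) = ε * α * x / 5 := by ring
    rw [← hx, h7, ← hr] at h5
    linarith
  -- the error terms
  have hNE : (N : ℝ) * (x * E) ≤ sg ^ 2 / 20 := by
    have h1 : x * E ≤ x * (5 * r) := mul_le_mul_of_nonneg_left hE1 hx0.le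
    have h2 : (N : ℝ) * (x * E) ≤ N * (x * (5 * r)) := mul_le_mul_of_nonneg_left h1 hN0.le
    have h3 : (N : ℝ) * (x * (5 * r)) = (100 * N * ρ) * x ^ 2 / 20 := by rw [hr]; ring
    rw [h3, hρN] at h2
    have h4 : σ ^ 2 * x ^ 2 / 20 = sg ^ 2 / 20 := by rw [hsg]; ring
    linarith
  have hbig : (N : ℝ) * (x * E) + (4 * k + 12) * x < 1 / (4 * g) * (lam * x ^ 2) := by
    have h1 : sg ^ 2 ≤ σ * x ^ 2 := by
      have e1 : sg ^ 2 = σ * (σ * x ^ 2) := by rw [hsg]; ring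
      have h2 : σ * x ^ 2 * σ ≤ σ * x ^ 2 * 1 :=
        mul_le_mul_of_nonneg_left (by linarith) (by positivity)
      linarith
    have h2 : (4 * (k : ℝ) + 12) * x ≤ 2 * N * x := by
      refine mul_le_mul_of_nonneg_right ?_ hx0.le
      linarith
    have h3 : x ≤ σ * x ^ 2 := by
      have h4 : 1 ≤ sg := by linarith
      have h5 : x * 1 ≤ x * sg := mul_le_mul_of_nonneg_left h4 hx0.le
      have e1 : x * sg = σ * x ^ 2 := by rw [hsg]; ring
      linarith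
    have h4 : 2 * N * x ≤ 2 * N * (σ * x ^ 2) := mul_le_mul_of_nonneg_left h3 (by linarith)
    have h5 : (250 * N) * (σ * x ^ 2) ≤ 1 / (4 * g) * (lam * x ^ 2) := by
      have h6 : 1000 * (g * N) * σ * x ^ 2 ≤ lam * x ^ 2 :=
        mul_le_mul_of_nonneg_right hσl (by positivity)
      have h7 := mul_le_mul_of_nonneg_left h6 (by positivity : (0 : ℝ) ≤ 1 / (4 * g))
      have e1 : 1 / (4 * (g : ℝ)) * (1000 * (g * N) * σ * x ^ 2) = (250 * N) * (σ * x ^ 2) := by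
        field_simp
        ring
      linarith
    have h6 : 0 < σ * x ^ 2 := by positivity
    have h7 : σ * x ^ 2 ≤ N * (σ * x ^ 2) := by
      have := mul_le_mul_of_nonneg_right (by linarith : (1 : ℝ) ≤ N) h6.le
      linarith
    have h8 : 0 < (N : ℝ) * (σ * x ^ 2) := by positivity
    have h9 : (250 * (N : ℝ)) * (σ * x ^ 2) = 250 * (N * (σ * x ^ 2)) := by ring
    have h10 : 2 * (N : ℝ) * (σ * x ^ 2) = 2 * (N * (σ * x ^ 2)) := by ring
    linarith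
  refine ⟨R, F0 + 1, s, t, m, β, S0, S0, E, N, ?_, ?_, ?_, ?_, ?_, ?_⟩
  · refine ⟨hRG, ?_, ?_, ?_, ?_, ?_⟩
    · -- hS0
      have : (0 : ℝ) < S0 := by linarith
      exact_mod_cast this
    · -- hK
      intro v
      refine Nat.succ_le_succ ?_
      rw [hF0]
      refine Nat.le_floor ?_
      refine (hdu v).trans ?_
      have h5 : (dg G v : ℝ) ≤ Δ := by exact_mod_cast hdΔ v
      have h6 := mul_le_mul_of_nonneg_left h5 (by linarith : (0 : ℝ) ≤ 1 - 1 / (g : ℝ))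
      linarith
    · -- ht
      refine Num_ht _ s t ?_ ?_ ?_
      · have : ((12 * s : ℕ) : ℝ) ≤ t := by
          push_cast
          linarith
        exact_mod_cast this
      · have : ((Fintype.card V : ℕ) : ℝ) ≤ ((t * t : ℕ) : ℝ) := by
          push_cast
          rw [← hx]
          have h5 : r ^ 2 ≤ (t : ℝ) ^ 2 := pow_le_pow_left₀ (by linarith) ht1 2
          rw [hr] at h5
          have e1 : (t : ℝ) ^ 2 = t * t := by ring
          linarith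
        exact_mod_cast this
      · have : (0 : ℝ) < t := by linarith
        exact_mod_cast this
    · -- ex
      intro F hFR hF1' hF2'
      rw [hN]
      rw [hN] at hF2'
      have hXc' : Xc G α ν lam := by
        refine ⟨hXc.deg, fun A Y h1 h2 h3 => hXc.gro A Y h1 h2 (h3.trans ?_)⟩
        exact mul_le_mul_of_nonneg_right hlaml (by positivity)
      refine cxk G R F α ν lam (1 / (4 * g)) D m k q m β (S0 + E)
        ((4 * k + 10) * (Fintype.card V * E)) hα hα1 hν hlam0 hXc' hk2 ?_ ?_ hF1' hF2'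
        ?_ ?_ ?_ ?_ ?_ ?_ ?_
      · intro v
        have h5 := hdR v
        have : ((D + (S0 + E) : ℕ) : ℝ) ≤ (dg R v : ℝ) := by
          push_cast
          linarith
        exact_mod_cast this
      · intro A B hAB
        have h5 := hR2 A B hAB
        rw [← hx] at hAB
        rw [← hx]
        have h6 : lam * x ^ 2 ≤ 4 * g * ee R A B := hAB.trans h5
        have h7 := mul_le_mul_of_nonneg_left h6 (by positivity : (0 : ℝ) ≤ 1 / (4 * g))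
        have e1 : 1 / (4 * (g : ℝ)) * (4 * g * ee R A B) = ee R A B := by field_simp
        linarith
      · rw [← hx]
        push_cast
        rw [← hx, ← hNR]
        exact hbig
      · rw [← hx]
        have h5 : lam * x ≤ α * ω / 2 * x := mul_le_mul_of_nonneg_right hlamω hx0.le
        have h6 : α / 2 * w ≤ α / 2 * m := mul_le_mul_of_nonneg_left hm1 (by positivity)
        have h7 : α * ω / 2 * x = α / 2 * w := by rw [hw]; ring
        linarith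
      · rw [← hx]
        have h5 : lam * x ≤ α * ω / 2 * x := mul_le_mul_of_nonneg_right hlamω hx0.le
        have h6 : α / 2 * w ≤ α / 2 * m := mul_le_mul_of_nonneg_left hm1 (by positivity)
        have h7 : α * ω / 2 * x = α / 2 * w := by rw [hw]; ring
        linarith
      · rw [← hx]
        have e1 : ν / 4 * x = ν * x / 4 := by ring
        rw [e1]
        linarith
      · rw [← hx]
        have e1 : α / 8 * x = α * x / 8 := by ring
        rw [e1]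
        linarith
      · have : ((m + 2 * β + m : ℕ) : ℝ) ≤ D := by
          push_cast
          linarith
        exact_mod_cast this
      · have : ((m + 2 * β + 1 : ℕ) : ℝ) ≤ q := by
          push_cast
          linarith
        exact_mod_cast this
    · -- hT
      have : ((N * (Fintype.card V * E) : ℕ) : ℝ) ≤ ((S0 * S0 : ℕ) : ℝ) := by
        push_cast
        rw [← hx]
        have h5 : sg * sg ≤ (S0 : ℝ) * S0 :=
          mul_le_mul hS01 hS01 (by linarith) (Nat.cast_nonneg _)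
        have h6 : sg ^ 2 = sg * sg := by ring
        have h7 : 0 ≤ sg * sg := mul_self_nonneg _
        linarith
      exact_mod_cast this
  · -- (1 - ε/2) Δ ≤ K
    push_cast
    have h5 : (1 / (g : ℝ)) * Δ ≤ ε / 4 * Δ := mul_le_mul_of_nonneg_right hginv (Nat.cast_nonneg _)
    have h6 : 0 ≤ ε * (Δ : ℝ) := mul_nonneg hε.le (Nat.cast_nonneg _)
    linarith
  · rw [← hx, hρ24]; exact hs1
  · rw [← hx, hρ24]
    linarith
  · intro v
    have : ((F0 + 1 + dg G v + t + 2 * s : ℕ) : ℝ) ≤ ((dg (G \ R) v + Δ + E : ℕ) : ℝ) := by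
      push_cast
      have h5 := hdl v
      have h6 : (dg G v : ℝ) ≤ Δ := by exact_mod_cast hdΔ v
      have h7 : (1 / (g : ℝ)) * dg G v ≤ (1 / (g : ℝ)) * Δ :=
        mul_le_mul_of_nonneg_left h6 hginv0.le
      linarith
    exact_mod_cast this
  · have : ((t + 2 * s : ℕ) : ℝ) ≤ (E : ℝ) := by
      push_cast
      linarith
    exact_mod_cast this

end Pool.Agent.H71.DR
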