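import Mathlib
import Pool.Agent.H71.DR.InE
import Pool.Agent.H71.DR.Nm4

/-!
The core theorem for robust expanders with deficiencies.
-/

set_option autoImplicit false

namespace Pool.Agent.H71.DR

open Finset Classical
open Pool.Agent.H71.DN Pool.Agent.H71.DX

theorem core4 (ε α τ ν lam : ℝ) (hε : 0 < ε) (hε1 : ε ≤ 1) (hα : 0 < α) (hα1 : α ≤ 1)
    (hτ : τ ≤ α / 8) (hν : 0 < ν) (hν1 : ν ≤ 1) (hl : 0 < lam) :
    ∃ (κ : ℝ) (n0 : ℕ), 0 < κ ∧ κ ≤ 1 / 10 ∧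
      ∀ (V : Type) [Fintype V] (G : SimpleGraph V) (Δ : ℕ), n0 ≤ Fintype.card V →
        (∀ v, α * Fintype.card V ≤ (dg G v : ℝ)) → (∀ v, dg G v ≤ Δ) → XP G τ ν lam →
        ∀ (L : ℕ) (U : ℕ → Finset V), (L : ℝ) ≤ (1 - ε / 2) * Δ →
          (∀ ℓ < L, ((U ℓ).card : ℝ) ≤ κ * Fintype.card V) →
          (∀ z : ℕ → V, (∀ ℓ < L, z ℓ ∉ U ℓ) →
            (∀ v, dg G v + ((range L).filter fun ℓ => z ℓ = v).card ≤ Δ) →
            (∀ v, (((range L).filter fun ℓ => v ∈ U ℓ ∨ z ℓ = v).card : ℝ)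
              ≤ κ * Fintype.card V) →
            ∃ mm : ℕ → V → V, PM G L U mm ∧
              ∀ v, dg G v + ((range L).filter fun ℓ => v ∉ U ℓ ∧ mm ℓ v = v).card ≤ Δ) := by
  obtain ⟨κ, n0, hκ, hκ1, h⟩ := params4 ε α τ ν lam hε hε1 hα hα1 hτ hν hν1 hl
  refine ⟨κ, n0, hκ, hκ1, ?_⟩
  intro V _ G Δ hn hδ hΔ hX L U hL hU z hz hzd hUs
  obtain ⟨R, K, s, t, ζ, β, β2, S0, E, N, hP, hK, hs, hβ, hB, hB'⟩ := h V G Δ hn hδ hΔ hX
  have hLK : L ≤ K := by exact_mod_cast hL.trans hK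
  refine inE G R L K s t U ζ β β2 S0 E N hP hLK Δ z hz hzd ?_ hB hB' ?_
  · intro v
    exact_mod_cast (hUs v).trans hs
  · intro ℓ hℓ
    have := hU ℓ hℓ
    have h3 : (((U ℓ).card + 1 + β2 : ℕ) : ℝ) ≤ β := by
      push_cast
      linarith
    exact_mod_cast h3

end Pool.Agent.H71.DR
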