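import Mathlib
import Pool.Agent.H71.DR.Chl
import Pool.Agent.H71.DR.Rpi

/-!
CHI: robust expanders have chromatic number at most `(1 - η) Δ`.

`spr` (`n = #V`): `A` = the neighbours of `v`, `#A = dg G v`, `B = univ \ A`, `#B ≥ n - Δ ≥ α n`. `#A ≥ (1 - η1) Δ ≥ τ n` and
 `#A ≤ Δ ≤ (1 - α) n ≤ (1 - τ) n`. If `ee G A B ≤ lam n²` then `XP` gives `#A + #B + ν n ≤ n`, impossible as `ν n > 0`. So
 `ee G A B > lam n²`, `ee G A A = ∑_{a ∈ A} dg G a - ee G A B ≤ #A Δ - lam n²`, and the number of pairs in `A × A` that are not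
 adjacent is `#A² - ee G A A ≥ lam n² - #A (Δ - #A) ≥ lam n² - η1 n²`; subtract the `#A ≤ n` pairs `(a, a)`.
 With `η1 ≤ lam / 4` and `n ≥ 4 / lam`: at least `(lam / 2) n²`.

`chi`: `p := lam / 2` (and `≤ 1`: if `lam > 1` replace it by 1), `μ := α / 4`; `rpi` gives `η2` and `π`. Let
 `k := ⌈(1 - η') Δ⌉₊` with `η' = min (lam / 16) (η2 / 8)` (and `≤ 1/2`...). `grc` with this `k`: `#{moved} ≤ (α/4) n ≤ Δ / 4 ≤ 2 k`. For a
 vertex `v` with `dg G v ≥ (1 - 4 η') Δ` (`4 η' ≤ η1`): `2 dg G v + 2 ≤ 2 Δ + 2 ≤ 2 k + η2 n` (`η2 n ≥ 2 η' Δ + 2`). For the other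
 vertices `2 dg G v + 2 ≤ 2 (1 - 4 η') Δ + 2 ≤ 2 (1 - η') Δ ≤ 2 k` (`6 η' Δ ≥ 2`). And `k ≤ (1 - η') Δ + 1 ≤ (1 - η) Δ` with
 `η = η' / 2` for large `n`.
-/

set_option autoImplicit false

namespace Pool.Agent.H71.DR

open Finset Classical
open Pool.Agent.H71.DN Pool.Agent.H71.DX

private theorem ee_sum {V : Type} [Fintype V] (G : SimpleGraph V) (A B : Finset V) :
    ee G A B = ∑ a ∈ A, ∑ b ∈ B, if G.Adj a b then 1 else 0 := by
  unfold ee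
  rw [Finset.card_filter, Finset.sum_product]

private theorem ee_split {V : Type} [Fintype V] (G : SimpleGraph V) (A : Finset V) (Δ : ℕ)
    (hΔ : ∀ v, dg G v ≤ Δ) : ee G A A + ee G A Aᶜ ≤ A.card * Δ := by
  rw [ee_sum, ee_sum, ← Finset.sum_add_distrib]
  have h : ∀ a ∈ A, (∑ b ∈ A, if G.Adj a b then 1 else 0) +
      (∑ b ∈ Aᶜ, if G.Adj a b then 1 else 0) ≤ Δ := by
    intro a _
    rw [Finset.sum_add_sum_compl]
    have h2 := hΔ a
    unfold dg at h2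
    rwa [Finset.card_filter] at h2
  have h3 := Finset.sum_le_card_nsmul A _ Δ h
  rwa [smul_eq_mul] at h3

private theorem cnt {V : Type} [Fintype V] (G : SimpleGraph V) (v : V) (A : Finset V)
    (hA : A = univ.filter fun u => G.Adj v u) :
    A.card * A.card ≤ ee G A A + A.card +
      (univ.filter fun x : V × V => G.Adj v x.1 ∧ G.Adj v x.2 ∧ x.1 ≠ x.2 ∧
        ¬ G.Adj x.1 x.2).card := by
  have hmem : ∀ u, u ∈ A ↔ G.Adj v u := by
    intro u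
    rw [hA]
    simp
  have h1 : (A.image fun u => (u, u)).card ≤ A.card := Finset.card_image_le
  have h2 : A ×ˢ A ⊆ ((A ×ˢ A).filter fun x => G.Adj x.1 x.2) ∪ (A.image fun u => (u, u)) ∪
      (univ.filter fun x : V × V => G.Adj v x.1 ∧ G.Adj v x.2 ∧ x.1 ≠ x.2 ∧
        ¬ G.Adj x.1 x.2) := by
    rintro ⟨x, y⟩ hxy
    obtain ⟨hx, hy⟩ := Finset.mem_product.1 hxy
    by_cases h3 : G.Adj x y
    · exact Finset.mem_union_left _ (Finset.mem_union_left _ (Finset.mem_filter.2 ⟨hxy, h3⟩))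
    · by_cases h4 : x = y
      · refine Finset.mem_union_left _ (Finset.mem_union_right _ (Finset.mem_image.2 ⟨x, hx, ?_⟩))
        rw [← h4]
      · refine Finset.mem_union_right _ (Finset.mem_filter.2 ⟨Finset.mem_univ _, ?_⟩)
        exact ⟨(hmem x).1 hx, (hmem y).1 hy, h4, h3⟩
  have h5 := (Finset.card_le_card h2).trans ((Finset.card_union_le _ _).trans
    (Nat.add_le_add_right (Finset.card_union_le _ _) _))
  rw [Finset.card_product] at h5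
  unfold ee
  omega

theorem spr {V : Type} [Fintype V] (G : SimpleGraph V) (Δ : ℕ) (α τ ν lam η1 : ℝ)
    (hn : 4 ≤ lam * Fintype.card V) (hα : 0 < α) (hτ : τ ≤ α / 2) (hν : 0 < ν) (hl : 0 < lam)
    (hη : η1 ≤ lam / 4) (hη2 : η1 ≤ 1 / 2) (hη0 : 0 ≤ η1) (hΔ : ∀ v, dg G v ≤ Δ)
    (hΔ1 : α * Fintype.card V ≤ Δ) (hΔ2 : (Δ : ℝ) ≤ (1 - α) * Fintype.card V)
    (hX : XP G τ ν lam) (v : V) (hv : (1 - η1) * Δ ≤ dg G v) :
    lam / 2 * (Fintype.card V : ℝ) ^ 2 ≤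
      ((univ.filter fun x : V × V => G.Adj v x.1 ∧ G.Adj v x.2 ∧ x.1 ≠ x.2 ∧
        ¬ G.Adj x.1 x.2).card : ℝ) := by
  obtain ⟨A, hA⟩ : ∃ A : Finset V, A = univ.filter fun u => G.Adj v u := ⟨_, rfl⟩
  obtain ⟨n, hnn⟩ : ∃ n : ℝ, n = (Fintype.card V : ℝ) := ⟨_, rfl⟩
  obtain ⟨a, ha⟩ : ∃ a : ℝ, a = (A.card : ℝ) := ⟨_, rfl⟩
  have hdg : dg G v = A.card := by
    rw [hA]
    rfl
  have hc := cnt G v A hA
  have hsp := ee_split G A Δ hΔ
  have hcc : A.card + Aᶜ.card = Fintype.card V := Finset.card_add_card_compl A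
  have haD : A.card ≤ Δ := hdg ▸ hΔ v
  have hX' := hX A Aᶜ
  rw [hdg, ← ha] at hv
  have hc' : a * a ≤ (ee G A A : ℝ) + a +
      ((univ.filter fun x : V × V => G.Adj v x.1 ∧ G.Adj v x.2 ∧ x.1 ≠ x.2 ∧
        ¬ G.Adj x.1 x.2).card : ℝ) := by
    rw [ha]
    exact_mod_cast hc
  have hsp' : (ee G A A : ℝ) + ee G A Aᶜ ≤ a * Δ := by
    rw [ha]
    exact_mod_cast hsp
  have hcc' : a + (Aᶜ.card : ℝ) = n := by
    rw [ha, hnn]
    exact_mod_cast hcc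
  have haD' : a ≤ Δ := by
    rw [ha]
    exact_mod_cast haD
  rw [← hnn] at hn hΔ1 hΔ2 ⊢
  rw [← hnn, ← ha] at hX'
  have hn0 : 0 < n := by
    by_contra hcon
    have : lam * n ≤ 0 := mul_nonpos_of_nonneg_of_nonpos hl.le (not_lt.1 hcon)
    linarith
  have ha0 : 0 ≤ a := by
    rw [ha]
    positivity
  have hD0 : (0 : ℝ) ≤ Δ := by positivity
  have hαn : 0 < α * n := mul_pos hα hn0
  have hDn : (Δ : ℝ) ≤ n := by nlinarith
  have h1 : τ * n ≤ a := by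
    have e1 : (1 - η1) * (Δ : ℝ) ≥ 1 / 2 * Δ := by nlinarith
    have e2 : τ * n ≤ α / 2 * n := mul_le_mul_of_nonneg_right hτ hn0.le
    nlinarith
  have h2 : a ≤ (1 - τ) * n := by
    have e2 : τ * n ≤ α / 2 * n := mul_le_mul_of_nonneg_right hτ hn0.le
    nlinarith
  have h3 : lam * n ^ 2 < (ee G A Aᶜ : ℝ) := by
    by_contra hcon
    have h4 := hX' h1 h2 (not_lt.1 hcon)
    have h5 : 0 < ν * n := mul_pos hν hn0
    linarith
  have h6 : a * (Δ - a) ≤ lam / 4 * n ^ 2 := by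
    have e1 : (Δ : ℝ) - a ≤ η1 * Δ := by linarith
    have e2 : η1 * (Δ : ℝ) ≤ lam / 4 * n :=
      mul_le_mul hη hDn hD0 (by positivity)
    calc a * (Δ - a) ≤ n * (lam / 4 * n) :=
          mul_le_mul (haD'.trans hDn) (e1.trans e2) (by linarith) hn0.le
      _ = lam / 4 * n ^ 2 := by ring
  have h7 : a ≤ lam / 4 * n ^ 2 := by
    have : 4 * n ≤ lam * n * n := mul_le_mul_of_nonneg_right hn hn0.le
    nlinarith [haD'.trans hDn]
  nlinarith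

theorem chi (α τ ν lam : ℝ) (hα : 0 < α) (hα1 : α ≤ 1) (hτ : τ ≤ α / 2) (hν : 0 < ν)
    (hl : 0 < lam) :
    ∃ (η : ℝ) (n0 : ℕ), 0 < η ∧ η ≤ 1 / 4 ∧
      ∀ (V : Type) [Fintype V] (G : SimpleGraph V) (Δ : ℕ), n0 ≤ Fintype.card V →
        (∀ v, dg G v ≤ Δ) → α * Fintype.card V ≤ Δ → (Δ : ℝ) ≤ (1 - α) * Fintype.card V →
        XP G τ ν lam → ∃ k : ℕ, G.Colorable k ∧ (k : ℝ) ≤ (1 - η) * Δ := by
  obtain ⟨η2, n1, hη2, hr⟩ := rpi (min (lam / 2) 1) (α / 4) (lt_min (by linarith) one_pos)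
    (min_le_right _ _) (by linarith)
  obtain ⟨e, he0, he1, he2, he3⟩ : ∃ e : ℝ, 0 < e ∧ e ≤ lam / 16 ∧ e ≤ η2 / 8 ∧ e ≤ 1 / 8 :=
    ⟨min (lam / 16) (min (η2 / 8) (1 / 8)), lt_min (by linarith) (lt_min (by linarith)
      (by norm_num)), min_le_left _ _, (min_le_right _ _).trans (min_le_left _ _),
      (min_le_right _ _).trans (min_le_right _ _)⟩
  refine ⟨e / 2, max n1 ⌈4 / lam + 4 / η2 + 2 / (e * α)⌉₊, by linarith, by linarith, ?_⟩
  intro V _ G Δ hn hΔ hΔ1 hΔ2 hX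
  obtain ⟨n, hnn⟩ : ∃ n : ℝ, n = (Fintype.card V : ℝ) := ⟨_, rfl⟩
  have hn1 : n1 ≤ Fintype.card V := (le_max_left _ _).trans hn
  have hn2 : 4 / lam + 4 / η2 + 2 / (e * α) ≤ n := by
    rw [hnn]
    exact (Nat.le_ceil _).trans (by exact_mod_cast (le_max_right _ _).trans hn)
  have hea : 0 < e * α := mul_pos he0 hα
  have q1 : 0 < 4 / lam := by positivity
  have q2 : 0 < 4 / η2 := by positivity
  have q3 : 0 < 2 / (e * α) := by positivity
  have p1 : 4 ≤ lam * n := by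
    have : 4 / lam ≤ n := by linarith
    rw [div_le_iff₀ hl] at this
    linarith
  have p2 : 4 ≤ η2 * n := by
    have : 4 / η2 ≤ n := by linarith
    rw [div_le_iff₀ hη2] at this
    linarith
  have p3 : 2 ≤ e * (α * n) := by
    have : 2 / (e * α) ≤ n := by linarith
    rw [div_le_iff₀ hea] at this
    linarith
  obtain ⟨π, hπ, hadj, hmov, hpr⟩ := hr V G hn1
  rw [← hnn] at hmov
  have hΔ1' := hΔ1
  have hΔ2' := hΔ2
  rw [← hnn] at hΔ1' hΔ2'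
  have hn0 : 0 < n := by linarith
  have hD0 : 0 < (Δ : ℝ) := lt_of_lt_of_le (mul_pos hα hn0) hΔ1'
  have hDn : (Δ : ℝ) ≤ n := by nlinarith
  have p4 : 2 ≤ e * Δ := p3.trans (mul_le_mul_of_nonneg_left hΔ1' he0.le)
  have hk1 : (1 - e) * (Δ : ℝ) ≤ (⌈(1 - e) * (Δ : ℝ)⌉₊ : ℝ) := Nat.le_ceil _
  have hk2 : (⌈(1 - e) * (Δ : ℝ)⌉₊ : ℝ) < (1 - e) * (Δ : ℝ) + 1 :=
    Nat.ceil_lt_add_one (mul_nonneg (by linarith) hD0.le)
  refine ⟨⌈(1 - e) * (Δ : ℝ)⌉₊, grc G π hπ (fun v hv => hadj v hv) _ ?_ ?_, by linarith⟩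
  · have h1 : ((univ.filter fun v => π v ≠ v).card : ℝ) ≤
        ((2 * ⌈(1 - e) * (Δ : ℝ)⌉₊ : ℕ) : ℝ) := by
      push_cast
      have h2 : α / 4 * n ≤ Δ / 4 := by linarith
      have h3 : (Δ : ℝ) / 4 ≤ 2 * ((1 - e) * Δ) := by nlinarith
      linarith
    exact_mod_cast h1
  · intro v
    have hv := hΔ v
    have hv' : (dg G v : ℝ) ≤ Δ := by exact_mod_cast hv
    have key : (2 * (dg G v : ℝ) + 2) ≤ 2 * (⌈(1 - e) * (Δ : ℝ)⌉₊ : ℝ) +
        ((univ.filter fun u => G.Adj v u ∧ π u ≠ u ∧ G.Adj v (π u)).card : ℝ) := by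
      rcases le_or_gt ((1 - 4 * e) * (Δ : ℝ)) (dg G v) with h | h
      · have h1 := spr G Δ α τ ν lam (4 * e) (by rw [← hnn]; exact p1) hα hτ hν hl
          (by linarith) (by linarith) (by linarith) hΔ hΔ1 hΔ2 hX v h
        have h2 : min (lam / 2) 1 * (Fintype.card V : ℝ) ^ 2 ≤
            lam / 2 * (Fintype.card V : ℝ) ^ 2 :=
          mul_le_mul_of_nonneg_right (min_le_left _ _) (sq_nonneg _)
        have h3 := hpr v (h2.trans h1)
        rw [← hnn] at h3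
        have h4 : e * (Δ : ℝ) ≤ η2 / 8 * n := mul_le_mul he2 hDn hD0.le (by linarith)
        linarith
      · have h3 : (0 : ℝ) ≤
            ((univ.filter fun u => G.Adj v u ∧ π u ≠ u ∧ G.Adj v (π u)).card : ℝ) := by
          positivity
        linarith
    exact_mod_cast key

end Pool.Agent.H71.DR
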