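import Mathlib
import Pool.Agent.H71.DR.Nm3a
import Pool.Agent.H71.DR.Exk
import Pool.Agent.H71.DR.Gzx
import Pool.Agent.H71.DX.Nmb0

/-!
NM3: the choice of all parameters for nearly regular graphs. Compare `H71/DX/Nma.lean` (`MQJ`) and `H71/DX/Nmb.lean`
(`params2`), which are proved.

`MQ3`: as `MQJ` with `M = ⌈32 / ε⌉₊` (`Q = 5000 M²`, `J = ⌊(3 ε / 16) / r⌋₊`), which gives `64 c ≤ ε`.

`params3` (`n = #V`, all claims for `n ≥ n0`). `M, Q, J, c, r` from `MQ3 ε`. `gzx (α/2) τ ν lam0 c` gives `ν', lamx, η0, K`;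
 `k := ⌈2 / ν'⌉₊`, `N := 4 k + 10`, `q0 := 2 J / Q / 4 ≥ ε c / 16`, `ω := min (min ν' α) ε * α c / 1000` (so `400 ω ≤ ν'`,
 `400 ω ≤ ε α`), `lam := min lamx (α ω / 8)`, `σ := min (min (ω c α / 10^5) (ω² / (1000 N))) (q0 lam / (1000 N))`,
 `κ := σ² / (1000 N)`, `ρ := min (σ² ω / (10^6 N)) (α / 4)` (so `22 ρ n + 12 κ n ≤ 13 κ n`-type bounds hold).
 `rndF M K (min η0 (ρ / 2))` gives `Z` (`(M - 1) / (2 M) = 1/2 - c`): `|#Z - (1/2 - c) n| ≤ ρ n`, and by `smpl_deg` the numbers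
 of neighbours in `Z` are `(1/2 - c) dg G v` up to `ρ n`. `dg G v ≥ Δ - ρ n ≥ (α/2) n`; so
 `Xc (gz G Z) (α/4) ν' lamx`, and also with `lam ≤ lamx`. `rndR M Q J` with `η = ρ` and `lam` gives `R, H`; `meanb`:
 `|dg R v - J r Δ| ≤ 5 ρ n`, `|dg H v - r Δ| ≤ 5 ρ n`.
 `ζ0 := S2 := c2 := cap := ⌈ω n⌉₊`, `β := ζ := ⌈3 ω n⌉₊ + 1`, `m := ⌈ω n⌉₊`, `q := ⌈10 ω n⌉₊`, `D := ⌈11 ω n⌉₊`,
 `u := s := ⌈κ n⌉₊ + 1`, `t1 := 12 s`, `dS := ⌈4 σ n⌉₊`, `t2 := 12 (s + dS)`, `S1 := c1 := ⌈σ n⌉₊`,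
 `N1 := ⌊(1 - (J + 1) r) Δ + 10 ρ n⌋₊ + 1`, `e0 := ⌈21 ρ n⌉₊ + 2`, `N2 := ⌊r Δ + 5 ρ n⌋₊ + 1`, `f0 := ⌈10 ρ n⌉₊ + 2`,
 `e1 := n e0 / ζ0`, `f1 := n f0 / ζ0`; `natf` gives `K1, ν1` (for `G \ (R ⊔ H)`, `N1`, `e0`) and `K2, ν2` (for
 `H`, `N2`, `f0`), both with `ζ = ζ0`.
Checks (`α n ≤ Δ ≤ n`):
 * `e1 ≤ (21 ρ n + 3) / ω ≤ 0.01 σ n`, the same for `f1`.
 * `hT1`: `N n (e0 + t1) ≤ N n (13 κ n + 30) ≤ σ² n² ≤ S1 c1`. `hdS`: `e1 + s + t1 + S1 + e0 + t1 ≤ 4 σ n`.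
 * `hT2`: `f0 + t2 ≤ 50 σ n`, `N n (f0 + t2) ≤ 50 N σ n² ≤ ω² n² ≤ S2 c2`.
 * `ht1`, `ht2`: `fact12`. `hβ1`, `hβ2`, `hζ`: `κ n + 2 + 2 (ω n + 1) ≤ 3 ω n`.
 * `hK2`: `K2 ≥ N2 - n f0 / ζ0 ≥ r Δ - 0.01 σ n ≥ (c / 5000) α n - σ n`; the left side is at most
   `2 (κ n + 2) + 2 (4 σ n + 1) + n (4 σ n + 1) / (ω n - 1) ≤ 10 σ n + 10 σ n / ω ≤ c α n / 5500`.
 * `ex`: `cxk` with `Gs = gz G Z`, `α := α / 4`, `ν := ν'`, `S = (S1 + (e0 + t1)) + (S2 + (f0 + t2)) ≤ 2 ω n`,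
   `T = N n (e0 + t1) + N n (f0 + t2) ≤ 60 N σ n²`; `hT`: `60 N σ n² + (4 k + 12) n < q0 lam n²`; `hR1`:
   `D + S ≤ 14 ω n ≤ ε α n / 8 - 5 ρ n ≤ J r Δ - 5 ρ n` (`J r ≥ ε / 8`); `hm`, `hζ`: `lam n ≤ (α / 8) ω n`.
 * `K1 + K2 ≥ N1 + N2 - n (e0 + f0) / ζ0 - 1 ≥ (1 - J r) Δ - σ n ≥ (1 - 3ε/16) Δ - σ n ≥ (1 - ε/4) Δ`;
   `K1 + K2 ≤ N1 + N2 ≤ (1 - J r) Δ + 15 ρ n + 2 ≤ (1 - 3ε/16 + r) Δ + 15 ρ n + 2 ≤ (1 - ε/8) Δ`.
 * `#Z ≥ (1/2 - c) n - ρ n > (1/2 - 2 c) n + u`.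
-/

set_option autoImplicit false

namespace Pool.Agent.H71.DR

open Finset Classical
open Pool.Agent.H71.DN Pool.Agent.H71.DX

theorem params3 (ε α τ ν lam0 : ℝ) (hε : 0 < ε) (hε1 : ε ≤ 1 / 4) (hα : 0 < α) (hα1 : α ≤ 1)
    (hτ0 : 0 < τ) (hτ : τ ≤ α / 64) (hν : 0 < ν) (hν1 : ν ≤ 1) (hl : 0 < lam0) :
    ∃ (c κ ρ : ℝ) (n0 : ℕ), 0 < c ∧ 64 * c ≤ ε ∧ 0 < κ ∧ 0 < ρ ∧
      ∀ (V : Type) [Fintype V] (G : SimpleGraph V) (Δ : ℕ), n0 ≤ Fintype.card V →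
        α * Fintype.card V ≤ Δ → Δ ≤ Fintype.card V →
        (∀ v, dg G v ≤ Δ ∧ (Δ : ℝ) ≤ dg G v + ρ * Fintype.card V) → XP G τ ν lam0 →
        ∃ (R H : SimpleGraph V) (Z : Finset V)
          (K1 K2 ζ0 e0 e1 f0 f1 u s t1 t2 ζ β S1 c1 S2 c2 dS cap N : ℕ)
          (ν1 ν2 : ℕ → V → V),
          Par3 G R H Z K1 K2 ζ0 e0 e1 f0 f1 u s t1 t2 ζ β S1 c1 S2 c2 dS cap N ν1 ν2 ∧
          (1 - ε / 4) * Δ ≤ ((K1 + K2 : ℕ) : ℝ) ∧ ((K1 + K2 : ℕ) : ℝ) ≤ (1 - ε / 8) * Δ ∧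
          κ * Fintype.card V + 1 ≤ u ∧ κ * Fintype.card V + 1 ≤ s ∧
          (1 / 2 - 2 * c) * Fintype.card V + u < Z.card := by
  obtain ⟨M, Q, J, c, r, hM32, hJ1, hQ, hc, hr, hcε, hr1, hr2, hJr1, hJr2, hq0⟩ := MQ3 ε hε hε1
  have hM0 : (0 : ℝ) < M := by
    have : 0 < M := by omega
    exact_mod_cast this
  have hc0 : 0 < c := by rw [hc]; positivity
  have hc256 : 256 * c ≤ 1 := by linarith
  have hM2 : 2 ≤ M := by omega
  have hQJ : J * (M + 1) ≤ Q := le_trans (Nat.mul_le_mul_right _ (Nat.le_succ J)) hQ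
  have hQ0 : 0 < Q := lt_of_lt_of_le (by positivity) hQ
  have hQ1 : 1 * (M + 1) ≤ Q := le_trans (Nat.mul_le_mul_right _ (Nat.le_add_left 1 J)) hQ
  have hz : ((M : ℝ) - 1) / (2 * M) = 1 / 2 - c := by rw [hc]; field_simp
  have hJ0 : (0 : ℝ) < J := by
    have : 0 < J := by omega
    exact_mod_cast this
  have hQr : (0 : ℝ) < Q := by exact_mod_cast hQ0
  obtain ⟨ν', lamx, η0, K, hν'0, hlamx0, hη0, hK1, hgzx⟩ := gzx (α / 2) τ ν lam0 c (by positivity)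
    (by linarith) hτ0 (by linarith) hν hν1 hl hc0 (by linarith)
  obtain ⟨k, hk⟩ : ∃ k : ℕ, k = ⌈2 / ν'⌉₊ := ⟨_, rfl⟩
  have hkν : 2 ≤ (k : ℝ) * ν' := by
    have h1 : 2 / ν' ≤ (k : ℝ) := by rw [hk]; exact Nat.le_ceil _
    rwa [div_le_iff₀ hν'0] at h1
  obtain ⟨NN, hNN⟩ : ∃ NN : ℕ, NN = 4 * k + 10 := ⟨_, rfl⟩
  have hNN10 : 10 ≤ NN := by omega
  have hNNr : (10 : ℝ) ≤ NN := by exact_mod_cast hNN10
  have hNN0 : (0 : ℝ) < NN := by linarith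
  obtain ⟨q0, hq0d⟩ : ∃ q0 : ℝ, q0 = 2 * (J : ℝ) / Q / 4 := ⟨_, rfl⟩
  have hq00 : 0 < q0 := by rw [hq0d]; positivity
  obtain ⟨ω, hω⟩ : ∃ ω : ℝ, ω = min (min ν' α) ε * (α * c) / 1000 := ⟨_, rfl⟩
  have hω0 : 0 < ω := by rw [hω]; positivity
  have hαc0 : 0 < α * c := by positivity
  have hαc1 : α * c ≤ 1 := by nlinarith
  have hmin0 : 0 ≤ min (min ν' α) ε := by positivity
  have ho2 : 1000 * ω ≤ α * c := by
    have h1 : min (min ν' α) ε ≤ 1 := (min_le_right _ _).trans (by linarith)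
    have h2 : min (min ν' α) ε * (α * c) ≤ 1 * (α * c) := mul_le_mul_of_nonneg_right h1 hαc0.le
    rw [hω]; linarith
  have ho1 : 1000 * ω ≤ ν' := by
    have h1 : min (min ν' α) ε ≤ ν' := (min_le_left _ _).trans (min_le_left _ _)
    have h2 : min (min ν' α) ε * (α * c) ≤ ν' * 1 := mul_le_mul h1 hαc1 hαc0.le hν'0.le
    rw [hω]; linarith
  have ho3 : 400 * ω ≤ ε * α := by
    have h1 : min (min ν' α) ε ≤ ε := min_le_right _ _
    have h3 : α * c ≤ α * 1 := mul_le_mul_of_nonneg_left (by linarith) hα.le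
    have h2 : min (min ν' α) ε * (α * c) ≤ ε * (α * 1) := mul_le_mul h1 h3 hαc0.le hε.le
    rw [hω]; linarith
  obtain ⟨lam, hlam⟩ : ∃ lam : ℝ, lam = min lamx (α * ω / 8) := ⟨_, rfl⟩
  have hlam0 : 0 < lam := by rw [hlam]; positivity
  have hlam1 : lam ≤ lamx := by rw [hlam]; exact min_le_left _ _
  have hlam2 : lam ≤ α * ω / 8 := by rw [hlam]; exact min_le_right _ _
  obtain ⟨σ, hσ⟩ : ∃ σ : ℝ, σ = min (min (ω * c * α / 10 ^ 5) (ω ^ 2 / (1000 * NN)))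
    (q0 * lam / (1000 * NN)) := ⟨_, rfl⟩
  have hσ0 : 0 < σ := by rw [hσ]; positivity
  have hs1 : 10 ^ 5 * σ ≤ ω * c * α := by
    have : σ ≤ ω * c * α / 10 ^ 5 := by
      rw [hσ]; exact (min_le_left _ _).trans (min_le_left _ _)
    linarith
  have hs2 : 1000 * NN * σ ≤ ω ^ 2 := by
    have : σ ≤ ω ^ 2 / (1000 * NN) := by
      rw [hσ]; exact (min_le_left _ _).trans (min_le_right _ _)
    rw [le_div_iff₀ (by positivity)] at this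
    linarith
  have hs3 : 1000 * NN * σ ≤ q0 * lam := by
    have : σ ≤ q0 * lam / (1000 * NN) := by
      rw [hσ]; exact min_le_right _ _
    rw [le_div_iff₀ (by positivity)] at this
    linarith
  obtain ⟨κ, hκ⟩ : ∃ κ : ℝ, κ = σ ^ 2 / (1000 * NN) := ⟨_, rfl⟩
  have hκ0 : 0 < κ := by rw [hκ]; positivity
  obtain ⟨ρ, hρ⟩ : ∃ ρ : ℝ, ρ = min (σ ^ 2 * ω / (10 ^ 6 * NN)) (α / 4) := ⟨_, rfl⟩
  have hρ0 : 0 < ρ := by rw [hρ]; positivity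
  have hρ1 : 10 ^ 6 * NN * ρ ≤ σ ^ 2 * ω := by
    have : ρ ≤ σ ^ 2 * ω / (10 ^ 6 * NN) := by rw [hρ]; exact min_le_left _ _
    rw [le_div_iff₀ (by positivity)] at this
    linarith
  have hρ2 : ρ ≤ α / 4 := by rw [hρ]; exact min_le_right _ _
  obtain ⟨nZ, hnZ⟩ := rndF M hM2 K (min η0 (ρ / 2)) (by positivity)
  obtain ⟨nR, hnR⟩ := rndR M Q J hM2 hJ1 hQ ρ lam hρ0 hlam0
  obtain ⟨nF, hnF⟩ := fact12 κ hκ0
  refine ⟨c, κ, ρ, max (max nZ nR) (max nF ⌈1000 / ρ⌉₊), hc0, hcε, hκ0, hρ0, ?_⟩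
  intro V _ G Δ hn hαΔ hΔn hΔ hXP
  have hn1 : nZ ≤ Fintype.card V := le_trans (le_trans (le_max_left _ _) (le_max_left _ _)) hn
  have hn2 : nR ≤ Fintype.card V := le_trans (le_trans (le_max_right _ _) (le_max_left _ _)) hn
  have hn3 : nF ≤ Fintype.card V := le_trans (le_trans (le_max_left _ _) (le_max_right _ _)) hn
  have hn4 : ⌈1000 / ρ⌉₊ ≤ Fintype.card V :=
    le_trans (le_trans (le_max_right _ _) (le_max_right _ _)) hn
  have hn5 : 1000 ≤ ρ * Fintype.card V := by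
    have h1 : 1000 / ρ ≤ Fintype.card V := le_trans (Nat.le_ceil _) (by exact_mod_cast hn4)
    rw [div_le_iff₀ hρ0] at h1
    linarith
  obtain ⟨Z, hZS⟩ := hnZ V G hn1
  have hZ1 := smpl_card G Z _ _ K hZS
  have hZ2 := smpl_deg G Z _ _ K hK1 hZS
  have hcard0 : (0 : ℝ) ≤ Fintype.card V := Nat.cast_nonneg _
  have hηρ : min η0 (ρ / 2) * (Fintype.card V : ℝ) ≤ ρ / 2 * Fintype.card V :=
    mul_le_mul_of_nonneg_right (min_le_right _ _) hcard0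
  have hZ1' : |(Z.card : ℝ) - (M - 1) / (2 * M) * Fintype.card V| ≤ ρ * Fintype.card V := by
    refine le_trans hZ1 ?_
    have : 0 ≤ ρ * (Fintype.card V : ℝ) := mul_nonneg hρ0.le hcard0
    linarith
  have hZ2' : ∀ v, |((univ.filter fun u => G.Adj v u ∧ u ∈ Z).card : ℝ) -
      (M - 1) / (2 * M) * dg G v| ≤ ρ * Fintype.card V := by
    intro v
    refine le_trans (hZ2 v) ?_
    linarith
  obtain ⟨R, H, hR, hH, hRH, hdR, hdH, hee⟩ := hnR V G Z hn2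
  have hmR := meanb G Z M Q J Δ hM2 hQJ hQ0 ρ ρ hZ2' hΔ
  have hmH := meanb G Z M Q 1 Δ hM2 hQ1 hQ0 ρ ρ hZ2' hΔ
  rw [hz] at hZ1' hZS
  rw [← hr] at hmR hmH
  rw [Nat.cast_one, one_mul] at hmH
  obtain ⟨hN0, -, hxk, hkt, htw, hwh, hwg, htt, hww, hxw, hgw⟩ :=
    nm3_basics ω σ κ ρ α c ε (Fintype.card V) NN hNN10 hω0 hσ0 hρ0 hα hα1 hc0 hc256 hε hε1 ho2
      ho3 hs1 hs2 hκ hρ1 hn5
  have hX : Xc (gz G Z) (α / 2 / 2) ν' lamx := by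
    refine hgzx V G Z (min η0 (ρ / 2)) ?_ ?_ hXP (by positivity) (min_le_left _ _) hZS
    · have : (0 : ℝ) < Fintype.card V := hN0
      have h1 : 0 < Fintype.card V := by exact_mod_cast this
      omega
    · intro v
      have h1 := (hΔ v).2
      have h2 : ρ * (Fintype.card V : ℝ) ≤ α / 4 * Fintype.card V :=
        mul_le_mul_of_nonneg_right hρ2 hcard0
      have h3 : 0 ≤ α * (Fintype.card V : ℝ) := mul_nonneg hα.le hcard0
      linarith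
  have hX' : Xc (gz G Z) (α / 4) ν' lam := by
    have e : α / 2 / 2 = α / 4 := by ring
    rw [e] at hX
    refine ⟨hX.deg, ?_⟩
    intro A Y h1 h2 h3
    refine hX.gro A Y h1 h2 (h3.trans ?_)
    exact mul_le_mul_of_nonneg_right hlam1 (by positivity)
  set N : ℕ := Fintype.card V with hN
  obtain ⟨x, hx⟩ : ∃ x : ℝ, x = ρ * N := ⟨_, rfl⟩
  obtain ⟨kk, hkk⟩ : ∃ k : ℝ, k = κ * N := ⟨_, rfl⟩
  obtain ⟨t, ht⟩ : ∃ t : ℝ, t = σ * N := ⟨_, rfl⟩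
  obtain ⟨w, hw⟩ : ∃ w : ℝ, w = ω * N := ⟨_, rfl⟩
  obtain ⟨h, hh⟩ : ∃ h : ℝ, h = ε * α * N := ⟨_, rfl⟩
  obtain ⟨g, hg⟩ : ∃ g : ℝ, g = c * α * N := ⟨_, rfl⟩
  rw [← hx, ← hkk] at hxk
  rw [← hkk, ← ht] at hkt
  rw [← ht, ← hw] at htw
  rw [← hw, ← hh] at hwh
  rw [← hw, ← hg] at hwg
  rw [← hkk, ← ht] at htt
  rw [← ht, ← hw] at hww
  rw [← hx, ← ht, ← hw] at hxw
  rw [← ht, ← hg, ← hw] at hgw
  rw [← hx] at hn5
  have hx0 : 0 < x := by linarith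
  have hk0 : 0 < kk := by linarith
  have ht0 : 0 < t := by linarith
  have hw0 : 0 < w := by linarith
  have hh0 : 0 < h := by linarith
  have hg0 : 0 < g := by linarith
  -- degrees of `R` and `H`
  have hdR5 : ∀ v, |(dg R v : ℝ) - J * r * Δ| ≤ 5 * x := by
    intro v
    have h1 := hdR v
    have h2 := hmR v
    have h3 := abs_sub_le (dg R v : ℝ) (mean G Z M Q J v) (J * r * Δ)
    rw [hx]
    linarith
  have hdH5 : ∀ v, |(dg H v : ℝ) - r * Δ| ≤ 5 * x := by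
    intro v
    have h1 := hdH v
    have h2 := hmH v
    have h3 := abs_sub_le (dg H v : ℝ) (mean G Z M Q 1 v) (r * Δ)
    rw [hx]
    linarith
  have hgz : gz G Z ≤ G := fun a b h => h.1
  have hsum := fun v => nmb_dg G R H (hR.trans hgz) (hH.trans hgz) hRH v
  have hd0 := fun v => nmb_deg _ _ _ _ Δ (J * r * Δ) (r * Δ) x (hsum v) (hdR5 v) (hdH5 v)
    (hΔ v).1 (by rw [hx]; exact (hΔ v).2)
  -- bounds for `Δ`
  have hΔ2 : (Δ : ℝ) ≤ N := by exact_mod_cast hΔn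
  have hr0 : 0 < r := lt_of_lt_of_le (by positivity) hr1
  have hrΔ1 : g / 5000 ≤ r * Δ := by
    have h1 : c / 5000 * (α * N) ≤ r * Δ := mul_le_mul hr1 hαΔ (by positivity) hr0.le
    rw [hg]
    linarith
  have hrε : r ≤ ε / 1000 := by linarith
  have hεΔ1 : h ≤ ε * Δ := by
    have h1 : ε * (α * N) ≤ ε * Δ := mul_le_mul_of_nonneg_left hαΔ hε.le
    rw [hh]; linarith
  have hrΔ2 : r * Δ ≤ ε * Δ / 1000 := by
    have h1 : r * Δ ≤ ε / 1000 * Δ := mul_le_mul_of_nonneg_right hrε (Nat.cast_nonneg _)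
    linarith
  have hJrΔ1 : 3 / 16 * (ε * Δ) - r * Δ ≤ J * r * Δ := by
    have h1 : (3 * ε / 16 - r) * Δ ≤ J * r * Δ :=
      mul_le_mul_of_nonneg_right hJr1.le (by positivity)
    linarith
  have hJrΔ2 : J * r * Δ ≤ 3 / 16 * (ε * Δ) := by
    have h1 : J * r * Δ ≤ 3 * ε / 16 * Δ := mul_le_mul_of_nonneg_right hJr2 (by positivity)
    linarith
  have hεΔ2 : ε * Δ ≤ Δ / 4 := by
    have h1 : ε * Δ ≤ 1 / 4 * Δ := mul_le_mul_of_nonneg_right hε1 (Nat.cast_nonneg _)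
    linarith
  -- the parameters
  obtain ⟨ζ0, hζ1, hζ2⟩ := nmb_ceil w hw0.le
  obtain ⟨β', hβ1, hβ2⟩ := nmb_ceil (3 * w) (by positivity)
  obtain ⟨β, hβ⟩ : ∃ β : ℕ, β = β' + 1 := ⟨_, rfl⟩
  have hβr : (β : ℝ) = β' + 1 := by rw [hβ]; push_cast; ring
  obtain ⟨m, hm1, hm2⟩ := nmb_ceil w hw0.le
  obtain ⟨q, hq1, hq2⟩ := nmb_ceil (10 * w) (by positivity)
  obtain ⟨D, hD1, hD2⟩ := nmb_ceil (11 * w) (by positivity)
  obtain ⟨s', hs1', hs2'⟩ := nmb_ceil kk (by positivity)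
  obtain ⟨s, hs⟩ : ∃ s : ℕ, s = s' + 1 := ⟨_, rfl⟩
  have hsr : (s : ℝ) = s' + 1 := by rw [hs]; push_cast; ring
  obtain ⟨dS, hdS1, hdS2⟩ := nmb_ceil (4 * t) (by positivity)
  obtain ⟨S1, hS11, hS12⟩ := nmb_ceil t (by positivity)
  obtain ⟨e', he1, he2⟩ := nmb_ceil (21 * x) (by positivity)
  obtain ⟨e0, he0⟩ : ∃ e0 : ℕ, e0 = e' + 2 := ⟨_, rfl⟩
  have her : (e0 : ℝ) = e' + 2 := by rw [he0]; push_cast; ring
  obtain ⟨f', hf1, hf2⟩ := nmb_ceil (10 * x) (by positivity)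
  obtain ⟨f0, hf0⟩ : ∃ f0 : ℕ, f0 = f' + 2 := ⟨_, rfl⟩
  have hfr : (f0 : ℝ) = f' + 2 := by rw [hf0]; push_cast; ring
  obtain ⟨p1, p2, p3, p4, p5, p6, p7, p8, p9, p10, p11, p12, p13, p14⟩ :=
    nm3_nums N NN ζ0 β m q D s dS S1 e0 f0 w g h x kk t hNN10 hn5 hxk hkt htw hwh hwg htt hww
      hxw hgw hζ1 hζ2 (by linarith) (by linarith) hm2 hq1 hD1 hD2 (by linarith) (by linarith)
      hdS1 hdS2 hS11 hS12 (by linarith) (by linarith)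
  -- the first family
  obtain ⟨n1, hn11, hn12⟩ := nmb_floor (Δ - J * r * Δ - r * Δ + 10 * x) (by linarith)
  obtain ⟨K1, ν1, hK1, hK1', hν1⟩ := natf (G \ (R ⊔ H)) (n1 + 1) ζ0 e0 (by omega)
    (by
      intro v
      have h1 : ((dg (G \ (R ⊔ H)) v : ℕ) : ℝ) < ((n1 + 1 : ℕ) : ℝ) := by
        push_cast
        linarith [(hd0 v).1]
      have h2 : dg (G \ (R ⊔ H)) v < n1 + 1 := by exact_mod_cast h1
      omega)
    (by
      intro v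
      have h1 : ((n1 + 1 : ℕ) : ℝ) ≤ ((dg (G \ (R ⊔ H)) v + e0 : ℕ) : ℝ) := by
        push_cast
        linarith [(hd0 v).2]
      exact_mod_cast h1)
  -- the second family
  obtain ⟨n2, hn21, hn22⟩ := nmb_floor (r * Δ + 5 * x) (by positivity)
  obtain ⟨K2, ν2, hK2, hK2', hν2⟩ := natf H (n2 + 1) ζ0 f0 (by omega)
    (by
      intro v
      have h0 := abs_le.1 (hdH5 v)
      have h1 : ((dg H v : ℕ) : ℝ) < ((n2 + 1 : ℕ) : ℝ) := by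
        push_cast
        linarith [h0.1, h0.2]
      have h2 : dg H v < n2 + 1 := by exact_mod_cast h1
      omega)
    (by
      intro v
      have h0 := abs_le.1 (hdH5 v)
      have h1 : ((n2 + 1 : ℕ) : ℝ) ≤ ((dg H v + f0 : ℕ) : ℝ) := by
        push_cast
        linarith [h0.1, h0.2]
      exact_mod_cast h1)
  rw [← hN] at hK1' hν1 hK2' hν2
  have hK1r : ((n1 : ℝ) + 1) ≤ K1 + t / 100 := by
    have h1 : ((n1 + 1 : ℕ) : ℝ) ≤ ((K1 + N * e0 / ζ0 : ℕ) : ℝ) := Nat.cast_le.2 hK1'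
    rw [Nat.cast_add K1, Nat.cast_add n1, Nat.cast_one] at h1
    linarith
  have hK2r : ((n2 : ℝ) + 1) ≤ K2 + t / 100 := by
    have h1 : ((n2 + 1 : ℕ) : ℝ) ≤ ((K2 + N * f0 / ζ0 : ℕ) : ℝ) := Nat.cast_le.2 hK2'
    rw [Nat.cast_add K2, Nat.cast_add n2, Nat.cast_one] at h1
    linarith
  have hK1s : (K1 : ℝ) ≤ n1 + 1 := by exact_mod_cast hK1
  have hK2s : (K2 : ℝ) ≤ n2 + 1 := by exact_mod_cast hK2
  have hΔ0 : (0 : ℝ) ≤ Δ := Nat.cast_nonneg _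
  refine ⟨R, H, Z, K1, K2, ζ0, e0, N * e0 / ζ0, f0, N * f0 / ζ0, s, s, 12 * s, 12 * (s + dS),
    β, β, S1, S1, ζ0, ζ0, dS, ζ0, NN, ν1, ν2, ?_, ?_, ?_, ?_, ?_, ?_⟩
  · refine ⟨hR, hH, hRH, hν1, hν2, ?_, ?_, ?_, ?_, p3, p4, p5, p6, p7, p8, p9, ?_, ?_⟩
    · exact hnF _ s hn3 (by rw [← hkk]; linarith)
    · exact hnF _ (s + dS) hn3 (by
        rw [← hkk]; push_cast
        have : (0 : ℝ) ≤ dS := Nat.cast_nonneg _
        linarith)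
    · have h1 : ((0 : ℕ) : ℝ) < S1 := by push_cast; linarith
      exact_mod_cast h1
    · omega
    · have h1 : ((2 * s + 2 * dS + N * dS / (ζ0 - 1) : ℕ) : ℝ) < (K2 : ℕ) := by
        refine lt_trans p12 ?_
        linarith
      exact_mod_cast h1
    · intro F hF hF1 hF2
      have hcx := cxk (gz G Z) R F (α / 4) ν' lam q0 D m k q β β
        ((S1 + (e0 + 12 * s)) + (ζ0 + (f0 + 12 * (s + dS))))
        (NN * (N * (e0 + 12 * s)) + NN * (N * (f0 + 12 * (s + dS)))) (by positivity)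
        (by linarith) hν'0 hlam0 hX' hkν ?_ ?_ hF1 hF2 ?_ ?_ ?_ ?_ ?_ p1 p2
      · rw [hNN]; exact hcx.1
      · intro v
        have h0 := abs_le.1 (hdR5 v)
        have h1 : ((D + ((S1 + (e0 + 12 * s)) + (ζ0 + (f0 + 12 * (s + dS)))) : ℕ) : ℝ) ≤
            (dg R v : ℕ) := by
          refine le_trans p14 ?_
          linarith [h0.1, h0.2]
        exact_mod_cast h1
      · intro A B hAB
        rw [hq0d]
        exact hee A B hAB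
      · rw [← hN]
        have hNNk : (4 * (k : ℝ) + 12) * N ≤ 2 * (NN * N) := by
          have h1 : (4 * (k : ℝ) + 12) ≤ 2 * NN := by
            have h2 : (NN : ℝ) = 4 * k + 10 := by rw [hNN]; push_cast; ring
            rw [h2]
            have : (0 : ℝ) ≤ k := Nat.cast_nonneg _
            linarith
          have h3 := mul_le_mul_of_nonneg_right h1 (Nat.cast_nonneg N : (0 : ℝ) ≤ N)
          linarith
        have h1 : 1000 * (NN * (N * t)) ≤ q0 * (lam * (N : ℝ) ^ 2) := by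
          have h2 := mul_le_mul_of_nonneg_right hs3 (show 0 ≤ (N : ℝ) * N by positivity)
          calc 1000 * (NN * (N * t)) = 1000 * NN * σ * ((N : ℝ) * N) := by rw [ht]; ring
            _ ≤ q0 * lam * ((N : ℝ) * N) := h2
            _ = q0 * (lam * (N : ℝ) ^ 2) := by ring
        have h3 : 0 < (NN : ℝ) * (N * t) := by positivity
        linarith
      · rw [← hN]
        have h1 : lam * (N : ℝ) ≤ α * ω / 8 * N := mul_le_mul_of_nonneg_right hlam2 hN0.le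
        have h2 : α * ω / 8 * N = α / 4 / 2 * w := by rw [hw]; ring
        have h3 : α / 4 / 2 * w ≤ α / 4 / 2 * (m : ℝ) :=
          mul_le_mul_of_nonneg_left hm1 (by positivity)
        linarith
      · rw [← hN]
        have h1 : lam * (N : ℝ) ≤ α * ω / 8 * N := mul_le_mul_of_nonneg_right hlam2 hN0.le
        have h2 : α * ω / 8 * N = α / 4 / 2 * w := by rw [hw]; ring
        have h3 : α / 4 / 2 * w ≤ α / 4 / 2 * (β : ℝ) :=
          mul_le_mul_of_nonneg_left (by linarith) (by positivity)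
        linarith
      · rw [← hN]
        have h1 : 1000 * ω * (N : ℝ) ≤ ν' * N := mul_le_mul_of_nonneg_right ho1 hN0.le
        have h2 : 1000 * ω * (N : ℝ) = 1000 * w := by rw [hw]; ring
        rw [h2] at h1
        linarith
      · rw [← hN]
        have h1 : c * α * (N : ℝ) ≤ α * N / 256 := by
          have h2 : c * (α * N) ≤ 1 / 256 * (α * N) :=
            mul_le_mul_of_nonneg_right (by linarith) (by positivity)
          linarith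
        rw [← hg] at h1
        have h3 : 0 < α * (N : ℝ) := by positivity
        have h4 : α / 4 / 8 * (N : ℝ) = α * N / 32 := by ring
        rw [h4]
        linarith
  · push_cast; linarith
  · push_cast; linarith
  · rw [← hkk]; linarith
  · rw [← hkk]; linarith
  · have h1 := abs_le.1 hZ1'
    rw [← hx] at h1
    have h2 : (1 / 2 - 2 * c) * (N : ℝ) = (1 / 2 - c) * N - c * N := by ring
    have h3 : g ≤ c * N := by
      rw [hg]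
      have : α * (c * N) ≤ 1 * (c * N) := mul_le_mul_of_nonneg_right hα1 (by positivity)
      linarith
    rw [h2]
    linarith [h1.1, h1.2]

end Pool.Agent.H71.DR
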