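import Mathlib
import Pool.Agent.H71.DR.Cr3
import Pool.Agent.H71.DR.Nm3

/-!
The core theorem for nearly regular robust expanders, with one miss for every vertex.
-/

set_option autoImplicit false

namespace Pool.Agent.H71.DR

open Finset Classical
open Pool.Agent.H71.DN Pool.Agent.H71.DX

theorem core3 (ε α τ ν lam : ℝ) (hε : 0 < ε) (hε1 : ε ≤ 1 / 4) (hα : 0 < α) (hα1 : α ≤ 1)
    (hτ0 : 0 < τ) (hτ : τ ≤ α / 64) (hν : 0 < ν) (hν1 : ν ≤ 1) (hl : 0 < lam) :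
    ∃ (c κ ρ : ℝ) (n0 : ℕ), 0 < c ∧ 64 * c ≤ ε ∧ 0 < κ ∧ 0 < ρ ∧
      ∀ (V : Type) [Fintype V] (G : SimpleGraph V) (Δ : ℕ), n0 ≤ Fintype.card V →
        α * Fintype.card V ≤ Δ → Δ ≤ Fintype.card V →
        (∀ v, dg G v ≤ Δ ∧ (Δ : ℝ) ≤ dg G v + ρ * Fintype.card V) → XP G τ ν lam →
        ∃ L : ℕ, (1 - ε / 4) * Δ ≤ (L : ℝ) ∧ (L : ℝ) ≤ (1 - ε / 8) * Δ ∧
          ∀ U : ℕ → Finset V, (∀ ℓ < L, ((U ℓ).card : ℝ) ≤ κ * Fintype.card V) →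
            (∀ v, (mul L U v : ℝ) ≤ κ * Fintype.card V) →
            ((((range L).filter fun ℓ => ¬ Even (univ \ U ℓ).card).card : ℝ) ≤
              (1 / 2 - 2 * c) * Fintype.card V) →
            ∃ mm : ℕ → V → V, Cnc G L U mm := by
  obtain ⟨c, κ, ρ, n0, hc, hc1, hκ, hρ, h⟩ :=
    params3 ε α τ ν lam hε hε1 hα hα1 hτ0 hτ hν hν1 hl
  refine ⟨c, κ, ρ, n0, hc, hc1, hκ, hρ, ?_⟩
  intro V _ G Δ hn hαΔ hΔ hreg hX
  obtain ⟨R, H, Z, K1, K2, ζ0, e0, e1, f0, f1, u, s, t1, t2, ζ, β, S1, c1, S2,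
    c2, dS, cap, N, ν1, ν2, hP, hL1, hL2, hu, hs, hZ⟩ := h V G Δ hn hαΔ hΔ hreg hX
  refine ⟨K1 + K2, hL1, hL2, ?_⟩
  intro U hU hm hw
  refine cr3 G R H Z K1 K2 ζ0 e0 e1 f0 f1 u s t1 t2 ζ β S1 c1 S2 c2 dS cap N ν1 ν2 hP
    U ?_ ?_ ?_
  · intro ℓ hℓ
    have h1 := hU ℓ hℓ
    have h2 : (((U ℓ).card + 1 : ℕ) : ℝ) ≤ u := by
      push_cast
      linarith
    exact_mod_cast h2
  · intro v
    have h1 := hm v
    have h2 : ((mul (K1 + K2) U v + 1 : ℕ) : ℝ) ≤ s := by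
      push_cast
      linarith
    exact_mod_cast h2
  · have h2 : ((((range (K1 + K2)).filter fun ℓ => ¬ Even (univ \ U ℓ).card).card + u : ℕ) : ℝ)
        < Z.card := by
      push_cast
      linarith
    exact_mod_cast h2

end Pool.Agent.H71.DR
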