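import Mathlib
import Pool.Agent.H71.DX.Out
import Pool.Agent.H71.DR.Defs

/-!
OUTG: from the core theorem on the vertices outside `Lo` to a labelling, for any vertex labelling `c`.
-/

set_option autoImplicit false

namespace Pool.Agent.H71.DR

open Finset Classical
open Pool.Agent.H71.DN Pool.Agent.H71.DX

theorem outG {V : Type} [Fintype V] (G : SimpleGraph V) (Δ p L k' w1 κ1 n1 wb : ℕ) (hp : 1 ≤ p)
    (Lo : Finset V) (hΔ : ∀ v, dg G v ≤ Δ) (hn1 : n1 = Fintype.card {v // v ∉ Lo})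
    (c : V → ℕ) (hck : ∀ v, c v < k') (hcp : ∀ u v, G.Adj u v → c u ≠ c v)
    (hcl : ∀ v ∈ Lo, c v < Lo.card) (hWc : ∀ ℓ, (Wn c p ℓ).card ≤ wb)
    (hkL : k' + p - 1 ≤ L) (hLΔ : L + 1 + wb + 2 * Lo.card ≤ Δ + 2 * p)
    (hdeg : ∀ v, wb + 2 * Lo.card ≤ dg G v)
    (hLo : ∀ x ∈ Lo, dg G x + Lo.card ≤ Δ) (hκ : wb + Lo.card ≤ κ1) (hκ2 : 2 * p + Lo.card ≤ κ1)
    (hw : ((range L).filter fun ℓ => ¬ Even (n1 +
        (Lo.filter fun x => Δ + 2 * p - 1 - dg G x ≤ ℓ).card +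
        (univ.filter fun v : {v // v ∉ Lo} => v.1 ∈ Wn c p ℓ).card)).card ≤ w1)
    (hcore : ∀ U : ℕ → Finset {v // v ∉ Lo}, (∀ ℓ < L, (U ℓ).card ≤ κ1) →
      (∀ v, mul L U v ≤ κ1) →
      ((range L).filter fun ℓ => ¬ Even (univ \ U ℓ).card).card ≤ w1 →
      ∃ mm, Cnc (G.comap (fun v : {v // v ∉ Lo} => v.1)) L U mm) :
    H70.HY.HYLab G Δ p := by
  obtain ⟨sx, hsx⟩ : ∃ sx : V → ℕ, ∀ x, sx x = Δ + 2 * p - 1 - dg G x := ⟨_, fun _ => rfl⟩
  obtain ⟨f, hf1, hf2, hf3⟩ := lwp G Lo L wb sx (Wn c p) (fun ℓ _ => hWc ℓ) (by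
    intro x hx
    have h1 := hdeg x
    have h2 := hΔ x
    rw [hsx]
    omega)
  have hf : Fok G Lo sx f c p L := ⟨hf1, hf2, hf3⟩
  obtain ⟨mm1, hmm⟩ := hcore (U1 Lo sx f c p) (fun ℓ _ => by
      have h1 := u1_card Lo sx f c p ℓ
      have h2 := hWc ℓ
      omega) (fun v => by
      have h1 := u1_mul G Lo sx f c p L hf v
      omega) (by
      refine le_trans (card_le_card ?_) hw
      intro ℓ hℓ
      simp only [mem_filter, mem_range] at hℓ ⊢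
      refine ⟨hℓ.1, ?_⟩
      intro h
      apply hℓ.2
      rw [u1_par G Lo sx f c p L hf ℓ hℓ.1, ← hn1]
      simp only [hsx]
      exact h)
  refine glue G Δ p k' L hp hkL ?_ c hck hcp Lo sx f hf ?_ ?_ hΔ mm1 hmm
  · omega
  · intro x hx
    have h1 := hcl x hx
    have h2 := hLo x hx
    rw [hsx]
    omega
  · intro x hx
    have h2 := hΔ x
    rw [hsx]
    omega

end Pool.Agent.H71.DR
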