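import Mathlib
import Pool.Agent.H71.DX.MnE
import Pool.Agent.H71.DR.Chl
import Pool.Agent.H71.DR.Core3
import Pool.Agent.H71.DR.OutG

/-!
CS3: robust expanders with `Δ ≤ (1/2 + c) n` and small total deficiency.
-/

set_option autoImplicit false

namespace Pool.Agent.H71.DR

open Finset Classical
open Pool.Agent.H71.DN Pool.Agent.H71.DX

theorem ee_map {V : Type} [Fintype V] (G : SimpleGraph V) (Lo : Finset V)
    (A Y : Finset {v // v ∉ Lo}) :
    ee (G.comap (fun v : {v // v ∉ Lo} => v.1)) A Y =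
      ee G (A.map ⟨fun v => v.1, Subtype.val_injective⟩)
        (Y.map ⟨fun v => v.1, Subtype.val_injective⟩) := by
  unfold ee
  refine card_bij (fun x _ => (x.1.1, x.2.1)) ?_ ?_ ?_
  · intro x hx
    simp only [mem_filter, mem_product, mem_map] at hx ⊢
    exact ⟨⟨⟨x.1, hx.1.1, rfl⟩, ⟨x.2, hx.1.2, rfl⟩⟩, hx.2⟩
  · intro x _ y _ h
    simp only [Prod.mk.injEq] at h
    exact Prod.ext (Subtype.ext h.1) (Subtype.ext h.2)
  · rintro ⟨a, b⟩ hx
    simp only [mem_filter, mem_product, mem_map] at hx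
    obtain ⟨⟨⟨a', ha, ha2⟩, ⟨b', hb, hb2⟩⟩, hab⟩ := hx
    have ha3 : a'.1 = a := ha2
    have hb3 : b'.1 = b := hb2
    refine ⟨(a', b'), ?_, ?_⟩
    · simp only [mem_filter, mem_product]
      refine ⟨⟨ha, hb⟩, ?_⟩
      show G.Adj a'.1 b'.1
      rw [ha3, hb3]
      exact hab
    · simp only [ha3, hb3]

theorem xp_sub {V : Type} [Fintype V] (G : SimpleGraph V) (Lo : Finset V) (τ ν lam : ℝ)
    (hτ0 : 0 ≤ τ) (hν : 0 ≤ ν) (hl : 0 ≤ lam) (hν1 : ν ≤ 1)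
    (hr : (Lo.card : ℝ) ≤ ν / 2 * Fintype.card V) (hX : XP G τ ν lam) :
    XP (G.comap (fun v : {v // v ∉ Lo} => v.1)) (2 * τ) (ν / 2) lam := by
  obtain ⟨n, hnn⟩ : ∃ n : ℝ, n = (Fintype.card V : ℝ) := ⟨_, rfl⟩
  have h1 : (Fintype.card {v // v ∉ Lo} : ℝ) + Lo.card = n := by
    rw [hnn]
    exact_mod_cast cards Lo
  have hn0 : 0 ≤ n := by rw [hnn]; exact Nat.cast_nonneg _
  intro A Y hA1 hA2 hAY
  have hlo : (0 : ℝ) ≤ Lo.card := Nat.cast_nonneg _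
  obtain ⟨r, hr1⟩ : ∃ r : ℝ, r = Lo.card := ⟨_, rfl⟩
  obtain ⟨n1, hn1⟩ : ∃ n1 : ℝ, n1 = (Fintype.card {v // v ∉ Lo} : ℝ) := ⟨_, rfl⟩
  rw [← hn1, ← hr1] at h1
  rw [← hr1] at hlo
  rw [← hr1, ← hnn] at hr
  rw [← hn1] at hA1 hA2 hAY ⊢
  have hn2 : n / 2 ≤ n1 := by nlinarith
  have hn10 : 0 ≤ n1 := by linarith
  have h2 := hX (A.map ⟨fun v => v.1, Subtype.val_injective⟩)
    (Y.map ⟨fun v => v.1, Subtype.val_injective⟩) (by
      rw [card_map, ← hnn]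
      nlinarith) (by
      rw [card_map, ← hnn]
      nlinarith) (by
      rw [← ee_map, ← hnn]
      refine hAY.trans (mul_le_mul_of_nonneg_left ?_ hl)
      nlinarith)
  rw [card_map, card_map, ← hnn] at h2
  nlinarith

theorem wcs {V : Type} [Fintype V] (Lo : Finset V) (c : V → ℕ) (s p ℓ : ℕ) (hp : 1 ≤ p)
    (hs : ∀ i, (univ.filter fun v : {v // v ∉ Lo} => c v.1 = i).card ≤ s) :
    (Wn c p ℓ).card ≤ (2 * p - 1) * s + Lo.card := by
  have h5 : (Wn c p ℓ) ⊆ ((univ.filter fun v : {v // v ∉ Lo} => v.1 ∈ Wn c p ℓ).image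
      Subtype.val) ∪ Lo := by
    intro v hv
    rw [mem_union]
    by_cases h : v ∈ Lo
    · exact Or.inr h
    · exact Or.inl (mem_image.2 ⟨⟨v, h⟩, mem_filter.2 ⟨mem_univ _, hv⟩, rfl⟩)
  have h6 : (univ.filter fun v : {v // v ∉ Lo} => v.1 ∈ Wn c p ℓ).card ≤ (2 * p - 1) * s := by
    have h4 := card_eq_sum_card_fiberwise (f := fun v : {v // v ∉ Lo} => c v.1)
      (s := univ.filter fun v : {v // v ∉ Lo} => v.1 ∈ Wn c p ℓ)
      (t := Ico (ℓ + 1 - p) (ℓ + p)) (by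
        intro v hv
        have hv2 := (mem_filter.1 (mem_coe.1 hv)).2
        unfold Wn at hv2
        rw [mem_filter] at hv2
        refine mem_coe.2 ?_
        show c v.1 ∈ Ico (ℓ + 1 - p) (ℓ + p)
        rw [mem_Ico]
        omega)
    rw [h4]
    refine (sum_le_card_nsmul _ _ s ?_).trans ?_
    · intro m _
      refine le_trans (card_le_card ?_) (hs m)
      intro v hv
      rw [mem_filter] at hv ⊢
      exact ⟨mem_univ _, hv.2⟩
    · rw [Nat.card_Ico, smul_eq_mul]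
      exact Nat.mul_le_mul_right _ (by omega)
  have h7 := (card_le_card h5).trans (card_union_le _ _)
  have h8 := card_image_le (s := univ.filter fun v : {v // v ∉ Lo} => v.1 ∈ Wn c p ℓ)
    (f := Subtype.val)
  omega

theorem caseIIb (ε α τ ν lam : ℝ) (hε : 0 < ε) (hε1 : ε ≤ 1 / 4) (hεα : ε ≤ α) (hα1 : α ≤ 1)
    (hτ0 : 0 < τ) (hτ : τ ≤ α / 128) (hν : 0 < ν) (hν1 : ν ≤ 1) (hl : 0 < lam) (ρB : ℝ) (hρB : 0 < ρB) :
    ∃ (c : ℝ) (n0 : ℕ), 0 < c ∧ c ≤ ε / 64 ∧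
      ∀ (V : Type) [Fintype V] (G : SimpleGraph V) [DecidableRel G.Adj] (p k : ℕ),
        n0 ≤ Fintype.card V → 1 ≤ p →
        α * Fintype.card V ≤ G.minDegree →
        (G.maxDegree : ℝ) ≤ (1 / 2 + c) * Fintype.card V → XP G τ ν lam →
        G.Colorable k → (k : ℝ) ≤ (1 - ε) * G.maxDegree →
        ∑ v, min ((G.maxDegree : ℝ) - G.degree v) (ρB * Fintype.card V) < Fintype.card V →
        H70.HY.HYLab G G.maxDegree p := by
  obtain ⟨c, κ, ρ, nc, hc, hc1, hκ, hρ, hcore⟩ := core3 ε α (2 * τ) (ν / 2) lam hε hε1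
    (hε.trans_le hεα) hα1 (by linarith) (by linarith) (by linarith) (by linarith) hl
  obtain ⟨ρ', hρ'⟩ : ∃ ρ' : ℝ, ρ' = min (ρ / 2) (min (ε / 50) ρB) := ⟨_, rfl⟩
  have hρ'0 : 0 < ρ' := by
    rw [hρ']
    exact lt_min (by positivity) (lt_min (by positivity) hρB)
  have hρ1 : ρ' ≤ ρ / 2 := by rw [hρ']; exact min_le_left _ _
  have hρ3 : ρ' ≤ ρB := by
    rw [hρ']; exact (min_le_right _ _).trans (min_le_right _ _)
  obtain ⟨R, hR⟩ : ∃ R : ℕ, 1 / ρ' ≤ R := ⟨_, Nat.le_ceil _⟩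
  -- the size of the windows
  obtain ⟨κ', hκ'⟩ : ∃ κ' : ℝ, κ' = min (κ / 4) (ε ^ 2 / 100) := ⟨_, rfl⟩
  have hκ'0 : 0 < κ' := by
    rw [hκ']
    exact lt_min (by positivity) (by positivity)
  have hκ'1 : κ' ≤ κ / 4 := by rw [hκ']; exact min_le_left _ _
  have hκ'2 : κ' ≤ ε ^ 2 / 100 := by rw [hκ']; exact min_le_right _ _
  have hεε : ε ^ 2 ≤ ε / 4 := by nlinarith
  obtain ⟨κ₂, hκ₂⟩ : ∃ κ₂ : ℝ, κ₂ = ε ^ 2 * κ' / 20 := ⟨_, rfl⟩
  have hκ₂0 : 0 < κ₂ := by rw [hκ₂]; positivity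
  have hκ₂1 : κ₂ ≤ κ' / 320 := by
    rw [hκ₂]
    have h1 : ε ^ 2 ≤ 1 / 16 := by nlinarith
    have h2 := mul_le_mul_of_nonneg_right h1 hκ'0.le
    linarith
  obtain ⟨N0, hN0⟩ := H28.HZ.all κ₂ hκ₂0
  obtain ⟨M2, hM2⟩ := evn ε N0 hε
  obtain ⟨M3, hM3⟩ := evn (c * ε) (1000 * (R + 2)) (by positivity)
  obtain ⟨M4, hM4⟩ := evn ρ' (R + 1) hρ'0
  obtain ⟨M5, hM5⟩ := evn (κ / 4) (3 * R + κ * R + 1) (by positivity)
  obtain ⟨M6, hM6⟩ := evn (ρ / 2) (R + ρ * R) (by positivity)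
  obtain ⟨M8, hM8⟩ := evn (ν / 2) R (by positivity)
  obtain ⟨M9, hM9⟩ := evn (ε ^ 2 / 100) (4 * R + 4) (by positivity)
  obtain ⟨M10, hM10⟩ := evn (κ' / 16) 1 (by positivity)
  refine ⟨c, nc + R + M2 + M3 + M4 + M5 + M6 + M8 + M9 + M10 + 1, hc, by linarith, ?_⟩
  intro V _ G _ p k hn hp hδα hΔ hX hcol hk hdef
  have hδ : ε * Fintype.card V ≤ G.minDegree :=
    (mul_le_mul_of_nonneg_right hεα (Nat.cast_nonneg _)).trans hδα
  have hn2 := hM2 (Fintype.card V) (by omega)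
  have hn3 := hM3 (Fintype.card V) (by omega)
  have hn4 := hM4 (Fintype.card V) (by omega)
  have hn5 := hM5 (Fintype.card V) (by omega)
  have hn6 := hM6 (Fintype.card V) (by omega)
  have hn8 := hM8 (Fintype.card V) (by omega)
  have hn9 := hM9 (Fintype.card V) (by omega)
  have hn10 := hM10 (Fintype.card V) (by omega)
  have hn7 : 1 ≤ Fintype.card V := by omega
  obtain ⟨n, hnn⟩ : ∃ n : ℝ, n = (Fintype.card V : ℝ) := ⟨_, rfl⟩
  have hnpos : 0 < n := by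
    rw [hnn]
    exact_mod_cast hn7
  have hαn2 : ∀ v, ε * n ≤ dg G v := by
    intro v
    rw [hnn]
    exact hδ.trans (by exact_mod_cast (dg_bd G v).1)
  have hδΔ : (G.minDegree : ℝ) ≤ G.maxDegree := by exact_mod_cast G.minDegree_le_maxDegree
  have hεn : 0 < ε * n := by positivity
  have hcn : 0 < c * n := by positivity
  rw [← hnn] at hδ hδα hΔ hdef hn2 hn3 hn4 hn5 hn6 hn8 hn9 hn10
  have hΔε : ε * n ≤ G.maxDegree := hδ.trans hδΔ
  have hεc : 64 * (c * n) ≤ ε * n := by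
    have := mul_le_mul_of_nonneg_right hc1 hnpos.le
    linarith
  have hεn1 : ε * n ≤ 1 / 4 * n := mul_le_mul_of_nonneg_right hε1 hnpos.le
  by_cases hpκ : κ₂ * n < p
  · apply hN0 V G p
    · have h2 : (N0 : ℝ) ≤ G.maxDegree := by linarith
      exact_mod_cast h2
    · have h0 : (G.maxDegree : ℝ) ≤ n := by linarith
      have h1 : κ₂ * (G.maxDegree : ℝ) ≤ κ₂ * n := mul_le_mul_of_nonneg_left h0 hκ₂0.le
      linarith
  push Not at hpκ
  have hp0 : (1 : ℝ) ≤ p := by exact_mod_cast hp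
  -- the low vertices
  obtain ⟨Δ, hΔd⟩ : ∃ Δ, Δ = G.maxDegree := ⟨_, rfl⟩
  rw [← hΔd] at hδΔ hΔ hΔε hdef hk ⊢
  have hdΔ : ∀ v, dg G v ≤ Δ := fun v => by rw [hΔd]; exact (dg_bd G v).2
  obtain ⟨Lo, hLo⟩ : ∃ Lo : Finset V, ∀ v, v ∈ Lo ↔ (dg G v : ℝ) + ρ' * n < Δ :=
    ⟨univ.filter fun v => (dg G v : ℝ) + ρ' * n < Δ, fun v => by
      simp only [mem_filter, mem_univ, true_and]⟩
  have hLoR : Lo.card ≤ R := by
    have h1 : ∑ v ∈ Lo, ρ' * n ≤ ∑ v, min ((Δ : ℝ) - G.degree v) (ρB * n) := by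
      refine le_trans (sum_le_sum (f := fun _ => ρ' * n)
        (g := fun v => min ((Δ : ℝ) - G.degree v) (ρB * n)) ?_)
        (sum_le_sum_of_subset_of_nonneg (subset_univ _) ?_)
      · intro v hv
        have h2 := (hLo v).1 hv
        rw [dg_eq] at h2
        exact le_min (by linarith) (mul_le_mul_of_nonneg_right hρ3 hnpos.le)
      · intro v _ _
        have h2 := hdΔ v
        rw [dg_eq] at h2
        have h3 : (G.degree v : ℝ) ≤ Δ := by exact_mod_cast h2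
        exact le_min (by linarith) (by positivity)
    rw [sum_const, nsmul_eq_mul] at h1
    have h2 : (Lo.card : ℝ) * ρ' * n < 1 * n := by linarith
    have h3 : (Lo.card : ℝ) * ρ' < 1 := lt_of_mul_lt_mul_right h2 hnpos.le
    have h4 : (Lo.card : ℝ) < 1 / ρ' := by rwa [lt_div_iff₀ hρ'0]
    have h5 : (Lo.card : ℝ) < R := h4.trans_le hR
    exact_mod_cast h5.le
  obtain ⟨r, hr⟩ : ∃ r, r = Lo.card := ⟨_, rfl⟩
  have hrR : (r : ℝ) ≤ R := by rw [hr]; exact_mod_cast hLoR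
  have hr0 : (0 : ℝ) ≤ r := Nat.cast_nonneg _
  have hR0 : (0 : ℝ) ≤ R := Nat.cast_nonneg _
  have hcε2 : c * ε * n ≤ c * n / 4 := by
    have h2 : c * n * ε ≤ c * n * (1 / 4) := mul_le_mul_of_nonneg_left hε1 hcn.le
    linarith
  obtain ⟨n1, hn1⟩ : ∃ n1, n1 = Fintype.card {v // v ∉ Lo} := ⟨_, rfl⟩
  have hn1r : n1 + r = Fintype.card V := by rw [hn1, hr]; exact cards Lo
  have hn1R : (n1 : ℝ) = n - r := by
    have h1 : ((n1 : ℝ)) + r = Fintype.card V := by exact_mod_cast hn1r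
    rw [hnn]
    linarith
  obtain ⟨G1, hG1⟩ : ∃ G1, G1 = G.comap (fun v : {v // v ∉ Lo} => v.1) := ⟨_, rfl⟩
  have hdg1 : ∀ v, dg G1 v ≤ dg G v.1 ∧ dg G v.1 ≤ dg G1 v + r := by
    intro v
    rw [hG1, hr]
    exact dgs G Lo v
  have hdg2 : ∀ v, (dg G1 v : ℝ) ≤ dg G v.1 ∧ (dg G v.1 : ℝ) ≤ dg G1 v + r := fun v =>
    ⟨by exact_mod_cast (hdg1 v).1, by exact_mod_cast (hdg1 v).2⟩
  have hhi : ∀ v : {v // v ∉ Lo}, (Δ : ℝ) ≤ dg G v.1 + ρ' * n := by
    intro v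
    have h1 := v.2
    rw [hLo] at h1
    linarith
  have hρn : ρ' * n ≤ ρ / 2 * n := mul_le_mul_of_nonneg_right hρ1 hnpos.le
  have hρr : ρ * r ≤ ρ * R := mul_le_mul_of_nonneg_left hrR hρ.le
  have hX1 : XP G1 (2 * τ) (ν / 2) lam := by
    rw [hG1]
    refine xp_sub G Lo τ ν lam hτ0.le hν.le hl.le hν1 ?_ hX
    rw [← hr, ← hnn]
    linarith
  obtain ⟨L, hL1, hL2, hcr⟩ := hcore {v // v ∉ Lo} G1 Δ (by omega) (by
      rw [← hn1, hn1R]
      have : 0 ≤ α * r := mul_nonneg (hε.le.trans hεα) hr0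
      linarith) (by
      rw [← hn1]
      have h1 : (Δ : ℝ) ≤ n1 := by
        rw [hn1R]
        linarith
      exact_mod_cast h1) (by
      intro v
      rw [← hn1, hn1R]
      refine ⟨(hdg1 v).1.trans (hdΔ _), ?_⟩
      have h1 := hhi v
      have h2 := hdg2 v
      linarith) hX1
  rw [← hn1] at hcr
  rw [hn1R] at hcr
  have hε2n : ε * (ε * n) ≤ ε * Δ := mul_le_mul_of_nonneg_left hΔε hε.le
  have hε2n' : ε ^ 2 * n = ε * (ε * n) := by ring
  -- classes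
  have hκ'n : κ' * n ≤ ε ^ 2 / 100 * n := mul_le_mul_of_nonneg_right hκ'2 hnpos.le
  have hκ'n1 : κ' * n ≤ κ / 4 * n := mul_le_mul_of_nonneg_right hκ'1 hnpos.le
  have hκ'n0 : 0 < κ' * n := by positivity
  have hpn : (p : ℝ) ≤ κ' / 320 * n := hpκ.trans (mul_le_mul_of_nonneg_right hκ₂1 hnpos.le)
  obtain ⟨s, hs3, hs1, hs2⟩ := ssize κ' n p hκ'0 hnpos hp0 (by linarith)
  have hs0 : (0 : ℝ) < s := by
    have : 0 < s := by omega
    exact_mod_cast this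
  obtain ⟨col, hcol1, hcol2⟩ := colr G k hcol
  obtain ⟨c0, hc01, hc02, hc03⟩ := chl k (fun v : {v // v ∉ Lo} => col v.1)
    (fun v => hcol1 v.1) s (by omega)
  rw [← hn1] at hc01
  obtain ⟨k', hk'⟩ : ∃ k', k' = r + (k + n1 / s) := ⟨_, rfl⟩
  obtain ⟨c2, hck, hcp, hcl, hcc⟩ := lab G Lo (Ico r k') k' (by
    intro m hm
    rw [mem_Ico] at hm
    rw [← hr]
    exact hm) (by rw [← hr, hk']; exact Nat.le_add_right _ _) (fun v => r + c0 v) (by
    intro v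
    show r + c0 v ∈ Ico r k'
    rw [mem_Ico]
    have := hc01 v
    omega) (by
    intro u v huv h
    have h1 := hc02 u v (by simpa using huv)
    exact hcol2 u.1 v.1 h h1)
  have hcs : ∀ i, (univ.filter fun v : {v // v ∉ Lo} => c2 v.1 = i).card ≤ s := by
    intro i
    refine le_trans (card_le_card ?_) (hc03 (i - r))
    intro v hv
    rw [mem_filter] at hv ⊢
    refine ⟨mem_univ _, ?_⟩
    have h1 := hv.2
    rw [hcc] at h1
    omega
  have hWc : ∀ ℓ, (Wn c2 p ℓ).card ≤ (2 * p - 1) * s + r := fun ℓ => by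
    rw [hr]
    exact wcs Lo c2 s p ℓ hp hcs
  have hwb : (((2 * p - 1) * s + r : ℕ) : ℝ) ≤ κ' * n + r := by
    have h1 : (((2 * p - 1 : ℕ)) : ℝ) = 2 * p - 1 := by
      rw [Nat.cast_sub (by omega)]
      push_cast
      ring
    rw [Nat.cast_add, Nat.cast_mul, h1]
    linarith
  obtain ⟨wb, hwbd⟩ : ∃ wb, wb = (2 * p - 1) * s + r := ⟨_, rfl⟩
  rw [← hwbd] at hwb
  have hns : ((n1 / s : ℕ) : ℝ) ≤ 4 * p / κ' := by
    refine le_trans Nat.cast_div_le ?_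
    refine le_trans ?_ hs2
    apply div_le_div_of_nonneg_right _ hs0.le
    rw [hn1R]
    linarith
  have h4p : 4 * (p : ℝ) / κ' ≤ ε ^ 2 / 5 * n := by
    rw [div_le_iff₀ hκ'0]
    have h1 : κ₂ * n * 4 = ε ^ 2 / 5 * n * κ' := by
      rw [hκ₂]
      ring
    linarith
  have hκn : κ * r ≤ κ * R := mul_le_mul_of_nonneg_left hrR hκ.le
  have hκR : 0 ≤ κ * R := by positivity
  refine outG G Δ p L k' L ⌊κ * (n - r)⌋₊ n1 wb hp Lo hdΔ hn1 c2 hck hcp hcl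
    (fun ℓ => by rw [hwbd]; exact hWc ℓ) ?_ ?_ ?_ ?_ ?_ ?_ ?_ ?_
  · -- k' + p - 1 ≤ L
    have h1 : ((k' + p : ℕ) : ℝ) ≤ L := by
      rw [hk']
      push_cast
      have h2 : (((n1 / s : ℕ)) : ℝ) ≤ ε ^ 2 / 5 * n := hns.trans h4p
      have h3 : κ' / 320 * n ≤ ε ^ 2 / 32000 * n := by linarith
      linarith
    have h2 : k' + p ≤ L := by exact_mod_cast h1
    omega
  · rw [← hr]
    have h1 : (L : ℝ) + 1 + wb + 2 * r ≤ Δ + 2 * p := by linarith
    exact_mod_cast h1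
  · intro v
    rw [← hr]
    have h2 := hαn2 v
    have h3 : ε ^ 2 * n ≤ ε * n / 4 := by
      have := mul_le_mul_of_nonneg_right hεε hnpos.le
      linarith
    have h1 : (wb : ℝ) + 2 * r ≤ dg G v := by linarith
    exact_mod_cast h1
  · intro x hx
    rw [← hr]
    have h2 := (hLo x).1 hx
    have h1 : (dg G x : ℝ) + r ≤ Δ := by linarith
    exact_mod_cast h1
  · rw [← hr]
    apply Nat.le_floor
    push_cast
    linarith
  · rw [← hr]
    apply Nat.le_floor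
    push_cast
    linarith
  · exact (card_filter_le _ _).trans (by rw [card_range])
  · intro U hU1 hU2 hU3
    rw [← hG1]
    have hf1 : 0 ≤ κ * (n - r) := by
      apply mul_nonneg hκ.le
      linarith
    refine hcr U ?_ ?_ ?_
    · intro ℓ hℓ
      refine le_trans ?_ (Nat.floor_le hf1)
      exact_mod_cast hU1 ℓ hℓ
    · intro v
      refine le_trans ?_ (Nat.floor_le hf1)
      exact_mod_cast hU2 v
    · refine le_trans (Nat.cast_le.2 ((card_filter_le _ _).trans (le_of_eq (card_range L)))) ?_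
      have h3 : (1 - ε / 8) * Δ ≤ (1 - ε / 8) * ((1 / 2 + c) * n) :=
        mul_le_mul_of_nonneg_left hΔ (by linarith)
      have h4 : (1 - ε / 8) * ((1 / 2 + c) * n) ≤ (1 / 2 - 3 * c) * n := by
        have h5 : 0 ≤ ε * (c * n) := by positivity
        linarith
      have h6 : (1 / 2 - 2 * c) * (n - r) = (1 / 2 - 2 * c) * n - (1 / 2 - 2 * c) * r := by ring
      have h7 : (1 / 2 - 2 * c) * r ≤ 1 * r := mul_le_mul_of_nonneg_right (by linarith) hr0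
      linarith

end Pool.Agent.H71.DR
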