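import Mathlib
import Pool.Agent.H71.DR.Chi
import Pool.Agent.H71.DR.Cs2
import Pool.Agent.H71.DR.Cs3
import Pool.Agent.H71.DR.MnF

/-!
MNR: the Havet-Yu bound for robust expanders.
-/

set_option autoImplicit false

namespace Pool.Agent.H71.DR

open Finset Classical
open Pool.Agent.H71.DN Pool.Agent.H71.DX

/-- Robust expansion. -/
def RobX {V : Type} [Fintype V] (G : SimpleGraph V) (ν τ : ℝ) : Prop :=
  ∀ S : Finset V, τ * Fintype.card V ≤ (S.card : ℝ) → (S.card : ℝ) ≤ (1 - τ) * Fintype.card V →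
    (S.card : ℝ) + ν * Fintype.card V ≤
      ((univ.filter fun v => ν * Fintype.card V ≤
        ((S.filter fun u => G.Adj v u).card : ℝ)).card : ℝ)

theorem robx_xp {V : Type} [Fintype V] (G : SimpleGraph V) (ν τ : ℝ) (hν : 0 < ν)
    (h : RobX G ν τ) : XP G τ (ν / 2) (ν ^ 2 / 2) := by
  intro A Y hA1 hA2 hAY
  obtain ⟨n, hnn⟩ : ∃ n : ℝ, n = (Fintype.card V : ℝ) := ⟨_, rfl⟩
  obtain ⟨RN, hRN⟩ : ∃ RN : Finset V, RN = univ.filter fun v => ν * Fintype.card V ≤
        ((A.filter fun u => G.Adj v u).card : ℝ) := ⟨_, rfl⟩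
  have h1 := h A hA1 hA2
  rw [← hRN, ← hnn] at h1
  rw [← hnn] at hAY ⊢
  have hn0 : 0 ≤ n := by rw [hnn]; exact Nat.cast_nonneg _
  have h2 : ((Y ∩ RN).card : ℝ) * (ν * n) ≤ ee G A Y := by
    rw [ee_swap]
    push_cast
    have h3 : ∑ b ∈ Y ∩ RN, ν * n ≤ ∑ b ∈ Y ∩ RN, ((A.filter fun a => G.Adj a b).card : ℝ) := by
      refine sum_le_sum fun b hb => ?_
      have h4 := (mem_inter.1 hb).2
      rw [hRN, mem_filter] at h4
      refine (le_of_eq (by rw [hnn])).trans (h4.2.trans (le_of_eq ?_))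
      refine congrArg (fun k : ℕ => (k : ℝ)) (congrArg Finset.card ?_)
      ext a
      simp only [mem_filter, G.adj_comm]
    rw [sum_const, nsmul_eq_mul] at h3
    exact h3.trans (sum_le_sum_of_subset_of_nonneg inter_subset_left fun _ _ _ =>
      Nat.cast_nonneg _)
  have h5 : ((Y ∩ RN).card : ℝ) ≤ ν / 2 * n := by
    rcases hn0.eq_or_lt with h0 | h0
    · have h6 : Fintype.card V = 0 := by
        rw [hnn] at h0
        exact_mod_cast h0.symm
      have h7 : (Y ∩ RN).card = 0 := by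
        have := card_le_univ (Y ∩ RN)
        omega
      rw [h7, ← h0]
      simp
    · have h6 : ((Y ∩ RN).card : ℝ) * (ν * n) ≤ ν / 2 * n * (ν * n) := by
        refine h2.trans (hAY.trans (le_of_eq ?_))
        ring
      exact le_of_mul_le_mul_right h6 (by positivity)
  have h6 : (Y.card : ℝ) + RN.card ≤ (Y ∩ RN).card + n := by
    have h7 : Y.card + RN.card ≤ (Y ∩ RN).card + Fintype.card V := by
      rw [← card_union_add_card_inter, add_comm]
      exact Nat.add_le_add_left (card_le_univ _) _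
    rw [hnn]
    exact_mod_cast h7
  linarith

theorem robx_mono {V : Type} [Fintype V] (G : SimpleGraph V) (ν ν' τ : ℝ) (h : ν' ≤ ν)
    (hR : RobX G ν τ) : RobX G ν' τ := by
  intro S h1 h2
  have hn0 : (0 : ℝ) ≤ Fintype.card V := Nat.cast_nonneg _
  have h3 := mul_le_mul_of_nonneg_right h hn0
  refine (add_le_add_right h3 _).trans ((hR S h1 h2).trans ?_)
  refine Nat.cast_le.2 (card_le_card ?_)
  intro v hv
  rw [mem_filter] at hv ⊢
  exact ⟨hv.1, h3.trans hv.2⟩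

/-- The Havet-Yu bound for robust expanders. -/
theorem mainR0 (α ν : ℝ) (hα : 0 < α) (hν : 0 < ν) (hν1 : ν ≤ 1) :
    ∃ n0 : ℕ,
      ∀ (V : Type) [Fintype V] (G : SimpleGraph V) [DecidableRel G.Adj] (p : ℕ),
        n0 ≤ Fintype.card V → 1 ≤ p →
        α * Fintype.card V ≤ G.minDegree →
        (G.maxDegree : ℝ) ≤ (1 - α) * Fintype.card V →
        RobX G ν (α / 128) → H70.HY.HYLab G G.maxDegree p := by
  by_cases hα1 : α ≤ 1
  swap
  · refine ⟨1, fun V _ G _ p hn hp hδ hΔ _ => ?_⟩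
    exfalso
    push Not at hα1
    have h1 : (1 : ℝ) ≤ Fintype.card V := by exact_mod_cast hn
    have h2 : (0 : ℝ) ≤ G.maxDegree := Nat.cast_nonneg _
    nlinarith
  obtain ⟨τ, hτ⟩ : ∃ τ : ℝ, τ = α / 128 := ⟨_, rfl⟩
  have hτ0 : 0 < τ := by rw [hτ]; positivity
  have hl : 0 < ν ^ 2 / 2 := by positivity
  obtain ⟨η, nc, hη, hη1, hchi⟩ := chi α τ (ν / 2) (ν ^ 2 / 2) hα hα1 (by linarith)
    (by positivity) hl
  obtain ⟨ε, hε⟩ : ∃ ε : ℝ, ε = min η α := ⟨_, rfl⟩
  have hε0 : 0 < ε := by rw [hε]; exact lt_min hη hα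
  have hεη : ε ≤ η := by rw [hε]; exact min_le_left _ _
  have hεα : ε ≤ α := by rw [hε]; exact min_le_right _ _
  have hε1 : ε ≤ 1 / 4 := hεη.trans hη1
  obtain ⟨ρB, nF, hρB, hF⟩ := mainF ε α τ (ν / 2) (ν ^ 2 / 2) hε0 hεα hα1 (by linarith)
    (by positivity) (by linarith) hl
  obtain ⟨c, nb, hc, hcε, hb⟩ := caseIIb ε α τ (ν / 2) (ν ^ 2 / 2) hε0 hε1 hεα hα1 hτ0
    (by linarith) (by positivity) (by linarith) hl ρB hρB
  obtain ⟨na, ha⟩ := caseIIa c α hc (by linarith) hα ρB hρB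
  refine ⟨nc + nF + nb + na, ?_⟩
  intro V _ G _ p hn hp hδ hΔ hR
  have hX := robx_xp G ν (α / 128) hν hR
  rw [← hτ] at hX
  have hn0 : (0 : ℝ) ≤ Fintype.card V := Nat.cast_nonneg _
  have hδΔ : (G.minDegree : ℝ) ≤ G.maxDegree := by exact_mod_cast G.minDegree_le_maxDegree
  obtain ⟨k, hk1, hk2⟩ := hchi V G G.maxDegree (by omega) (fun v => (dg_bd G v).2)
    (hδ.trans hδΔ) hΔ hX
  have hk3 : (k : ℝ) ≤ (1 - ε) * G.maxDegree := by
    refine hk2.trans (mul_le_mul_of_nonneg_right ?_ (Nat.cast_nonneg _))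
    linarith
  rcases le_or_gt (Fintype.card V : ℝ)
    (∑ v, min ((G.maxDegree : ℝ) - G.degree v) (ρB * Fintype.card V)) with h | h
  · exact hF V G p k (by omega) hp h hδ hX hk1 hk3
  · rcases le_or_gt ((1 / 2 + c) * (Fintype.card V : ℝ)) G.maxDegree with h2 | h2
    · refine ha V G p (by omega) hp hδ h2 ?_ h
      have h3 : c ≤ α := by linarith
      have h4 := mul_le_mul_of_nonneg_right h3 hn0
      linarith
    · exact hb V G p k (by omega) hp hδ h2.le hX hk1 hk3 h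

/-- The Havet-Yu bound for robust expanders. -/
theorem mainR (α ν : ℝ) (hα : 0 < α) (hν : 0 < ν) :
    ∃ n0 : ℕ,
      ∀ (V : Type) [Fintype V] (G : SimpleGraph V) [DecidableRel G.Adj] (p : ℕ),
        n0 ≤ Fintype.card V → 1 ≤ p →
        α * Fintype.card V ≤ G.minDegree →
        (G.maxDegree : ℝ) ≤ (1 - α) * Fintype.card V →
        RobX G ν (α / 128) → H70.HY.HYLab G G.maxDegree p := by
  obtain ⟨n0, h⟩ := mainR0 α (min ν 1) hα (lt_min hν one_pos) (min_le_right _ _)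
  exact ⟨n0, fun V _ G _ p hn hp hδ hΔ hR =>
    h V G p hn hp hδ hΔ (robx_mono G ν _ _ (min_le_left _ _) hR)⟩

end Pool.Agent.H71.DR
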